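import Pool.Agent.Run7.h312.PF3

/-! Task F, fourth part: the piece. -/

set_option autoImplicit false

namespace Run7.h312.LF

open Run7.h230 Run7.h230.LSp Run7.h312.LS

/-! ### integral vectors -/

section
variable {k : ℕ} {J : Type} {i : Fin k → J}

lemma emb_apply (hi : Function.Injective i) (s : Multiplicative (Fin k → ℤ)) (a : Fin k) :
    emb i s (i a) = ((Multiplicative.toAdd s a : ℤ) : ℝ) := hi.extend_apply _ _ _

lemma emb_supp (s : Multiplicative (Fin k → ℤ)) : Supp (Set.range i) (emb i s) := by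
  intro j hj
  unfold emb
  rw [Function.extend_apply' _ _ _ (fun ⟨a, ha⟩ => hj ⟨a, ha⟩)]
  rfl

lemma emb_mul (hi : Function.Injective i) (s s' : Multiplicative (Fin k → ℤ)) :
    emb i (s * s') = emb i s + emb i s' := by
  funext j
  rw [Pi.add_apply]
  by_cases hj : j ∈ Set.range i
  · obtain ⟨a, rfl⟩ := hj
    rw [emb_apply hi, emb_apply hi, emb_apply hi, toAdd_mul, Pi.add_apply]
    push_cast
    rfl
  · rw [emb_supp _ j hj, emb_supp _ j hj, emb_supp _ j hj, add_zero]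

variable [Fintype J]

lemma emb_fin (hi : Function.Injective i) (r : ℝ) :
    {s : Multiplicative (Fin k → ℤ) | ‖emb i s‖ ≤ r}.Finite := by
  have h1 : (Set.Icc (fun _ => -⌈|r|⌉ : Fin k → ℤ) (fun _ => ⌈|r|⌉)).Finite :=
    Set.finite_Icc _ _
  have h2 := h1.preimage (f := (Multiplicative.toAdd : Multiplicative (Fin k → ℤ) → _))
    (Multiplicative.toAdd.injective.injOn)
  refine h2.subset fun s hs => ?_
  have h3 : ∀ a, |((Multiplicative.toAdd s a : ℤ) : ℝ)| ≤ |r| := fun a => by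
    rw [← emb_apply hi]
    exact (abs_le_norm' _ _).trans (le_trans hs (le_abs_self r))
  have h4 : ∀ a, |Multiplicative.toAdd s a| ≤ ⌈|r|⌉ := fun a => by
    have := (h3 a).trans (Int.le_ceil _)
    exact_mod_cast this
  exact ⟨fun a => (abs_le.1 (h4 a)).1, fun a => (abs_le.1 (h4 a)).2⟩

lemma emb_round (hi : Function.Injective i) {v : J → ℝ} (hv : Supp (Set.range i) v) :
    ∃ s : Multiplicative (Fin k → ℤ), ‖emb i s - v‖ ≤ 1 := by
  refine ⟨Multiplicative.ofAdd fun a => ⌊v (i a)⌋, ?_⟩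
  rw [pi_norm_le_iff_of_nonneg zero_le_one]
  intro j
  rw [Pi.sub_apply, Real.norm_eq_abs]
  by_cases hj : j ∈ Set.range i
  · obtain ⟨a, rfl⟩ := hj
    rw [emb_apply hi, toAdd_ofAdd, abs_le]
    have h1 := Int.floor_le (v (i a))
    have h2 := Int.lt_floor_add_one (v (i a))
    constructor <;> linarith
  · rw [emb_supp _ j hj, hv j hj, sub_self, abs_zero]
    exact zero_le_one

/-! ### norms on sums -/

lemma norm_inl (v : J ⊕ J → ℝ) : ‖fun j => v (Sum.inl j)‖ ≤ ‖v‖ := by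
  rw [pi_norm_le_iff_of_nonneg (norm_nonneg _)]
  exact fun j => norm_le_pi_norm v _

lemma norm_inr (v : J ⊕ J → ℝ) : ‖fun j => v (Sum.inr j)‖ ≤ ‖v‖ := by
  rw [pi_norm_le_iff_of_nonneg (norm_nonneg _)]
  exact fun j => norm_le_pi_norm v _

lemma norm_le_of {v : J ⊕ J → ℝ} {r : ℝ} (h1 : ‖fun j => v (Sum.inl j)‖ ≤ r)
    (h2 : ‖fun j => v (Sum.inr j)‖ ≤ r) : ‖v‖ ≤ r := by
  rw [pi_norm_le_iff_of_nonneg ((norm_nonneg _).trans h1)]
  rintro (j | j)
  · exact (norm_le_pi_norm (fun j => v (Sum.inl j)) j).trans h1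
  · exact (norm_le_pi_norm (fun j => v (Sum.inr j)) j).trans h2

lemma norm_eq_max (v : J ⊕ J → ℝ) :
    ‖v‖ = max ‖fun j => v (Sum.inl j)‖ ‖fun j => v (Sum.inr j)‖ :=
  le_antisymm (norm_le_of (le_max_left _ _) (le_max_right _ _))
    (max_le (norm_inl v) (norm_inr v))

end

/-! ### the piece -/

section
variable {Γ X E J : Type} [Group Γ] [MulAction Γ X] [Fintype J] {G : GSys Γ X E J}

/-- stabiliser of a marked horoball -/
def stA (G : GSys Γ X E J) (k : ℕ) (e : E) : Subgroup (Γ × Multiplicative (Fin k → ℤ)) where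
  carrier := {x | x.1 • G.cusp e = G.cusp e}
  mul_mem' := by
    intro a b ha hb
    show (a.1 * b.1) • G.cusp e = G.cusp e
    have ha' : a.1 • G.cusp e = G.cusp e := ha
    have hb' : b.1 • G.cusp e = G.cusp e := hb
    rw [mul_smul, hb', ha']
  one_mem' := one_smul _ _
  inv_mem' := by
    intro a ha
    exact stab_inv ha

/-- the piece -/
noncomputable def pc (G : GSys Γ X E J) {k : ℕ} (i : Fin k → J) (K₀ C₀ K : ℝ) (R : ℝ → ℝ) :
    LPiece (Γ × Multiplicative (Fin k → ℤ)) E J where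
  A := stA G k
  M x := NN G x.1
  Φ x := emb i x.2 + G.𝓛.Ψ (al G) (Sum.inl 1) (Sum.inl x.1)
  d x := dd G x.1
  b x t := (path G K₀ x.1 t, 1)
  φ e x := emb i x.2 + G.α (G.cusp e) (G.χ e x.1)
  ω e x := fun j => G.χ e x.1 (Sum.inl j)
  κ e x := fun j => G.χ e x.1 (Sum.inr j)
  gate e x := (gt G C₀ e x.1, 1)
  uω e e' g := fun j => uu G e e' g.1 (Sum.inl j)
  uκ e e' g := fun j => uu G e e' g.1 (Sum.inr j)
  ℓ e e' g := ll G e e' g.1
  Θ e e' g := emb i g.2 + th G e e' g.1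
  Sφ := Set.range i
  Sω e := {j | Sum.inl j ∈ G.𝓛.S (Sum.inr (G.cusp e))}
  Sκ e := {j | Sum.inr j ∈ G.𝓛.S (Sum.inr (G.cusp e))}
  K := K
  R := R

lemma good1_ex (h : G.Good) {k : ℕ} {i : Fin k → J} (hi : Function.Injective i)
    (hSF : G.SF = Set.range i) {K₀ : ℝ} (hK₀ : IsK G K₀) (C₀ : ℝ) :
    ∃ (K₁ : ℝ) (R₁ : ℝ → ℝ), ∀ K R, K₁ ≤ K → (∀ r, R₁ r ≤ R r) →
      (pc G i K₀ C₀ K R).Good1 := by
  obtain ⟨Λ, hΛ0, hΛ⟩ := al_bdd h
  obtain ⟨D1, D2, D3, D4, D5⟩ := taskD2 _ _ _ G.𝓛 h.good (al G) Λ hΛ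
  obtain ⟨c₁, H1⟩ := D5
  obtain ⟨c₂, H2⟩ := d_triangle h.good
  obtain ⟨c₃, H3⟩ := path_end h hK₀
  obtain ⟨c₄, H4⟩ := path_time h hK₀
  obtain ⟨K₁, hK₁⟩ := exists_ge [0, 1, c₁, c₂, c₃, c₄]
  choose f₁ F1 using fun r : ℝ => path_cont h hK₀ (max (Real.exp (|r| / 2)) r)
  choose f₂ f0 F2 using fun r : ℝ => dd_near h (max (Real.exp (|r| / 2)) r)
  choose R₁ hR₁ using fun r : ℝ => exists_ge [f₁ r, f₂ r]
  refine ⟨K₁, R₁, fun K R hK hR => ?_⟩
  have hpos : ∀ a ∈ [0, 1, c₁, c₂, c₃, c₄], a ≤ K := fun a ha => (hK₁ a ha).trans hK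
  exact
  { M_one := NN_one
    M_inv := fun x => NN_inv h x.1
    M_mul := fun x y => NN_mul h x.1 y.1
    Φ_mul := by
      intro x y
      have e1 := H1 (Sum.inl 1) (Sum.inl x.1) (Sum.inl (x.1 * y.1)) (hb_inl h _) (hb_inl h _)
        (hb_inl h _)
      have e2 : G.𝓛.Ψ (al G) (Sum.inl x.1) (Sum.inl (x.1 * y.1)) =
          G.𝓛.Ψ (al G) (Sum.inl 1) (Sum.inl y.1) := by
        have := inv_Ψ h x.1 (Sum.inl 1) (Sum.inl y.1)
        rw [show gact x.1 (Sum.inl 1 : Γ ⊕ X) = Sum.inl (x.1 * 1) from rfl, mul_one] at this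
        rw [← this]
        rfl
      rw [e2] at e1
      refine le_trans (le_of_eq ?_) (e1.trans (hpos c₁ (by simp)))
      congr 1
      show emb i (x.2 * y.2) + G.𝓛.Ψ (al G) (Sum.inl 1) (Sum.inl (x.1 * y.1)) -
        (emb i x.2 + G.𝓛.Ψ (al G) (Sum.inl 1) (Sum.inl x.1)) -
        (emb i y.2 + G.𝓛.Ψ (al G) (Sum.inl 1) (Sum.inl y.1)) = _
      rw [emb_mul hi]
      abel
    Φ_supp := by
      intro x j hj
      show (emb i x.2 + G.𝓛.Ψ (al G) (Sum.inl 1) (Sum.inl x.1)) j = 0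
      rw [Pi.add_apply, emb_supp _ j hj, Ψ_supp h _ _ j (by rw [hSF]; exact hj), add_zero]
    fin := by
      intro r
      obtain ⟨c, hc⟩ := D2 (Real.exp (|r| / 2))
      have f1 := h.proper (Real.exp (|r| / 2))
      have f2 := emb_fin hi (r + c)
      refine (f1.prod f2).subset ?_
      rintro x ⟨hx1, hx2⟩
      have g1 : l1 G x.1 ≤ Real.exp (|r| / 2) := l1_le h hx1
      refine ⟨g1, ?_⟩
      have g2 := hc (Sum.inl 1) (Sum.inl x.1) (Or.inr (hb_inl h 1)) g1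
      have hx2' : ‖emb i x.2 + G.𝓛.Ψ (al G) (Sum.inl 1) (Sum.inl x.1)‖ ≤ r := hx2
      show ‖emb i x.2‖ ≤ r + c
      have g3 : emb i x.2 = (emb i x.2 + G.𝓛.Ψ (al G) (Sum.inl 1) (Sum.inl x.1)) -
        G.𝓛.Ψ (al G) (Sum.inl 1) (Sum.inl x.1) := by abel
      rw [g3]
      exact (norm_sub_le _ _).trans (add_le_add hx2' g2)
    realize := by
      intro x v hv
      obtain ⟨s, hs⟩ := emb_round hi (v := v - G.𝓛.Ψ (al G) (Sum.inl 1) (Sum.inl x.1)) (by
        intro j hj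
        rw [Pi.sub_apply, hv j hj, Ψ_supp h _ _ j (by rw [hSF]; exact hj), sub_zero])
      refine ⟨(x.1, s), ?_, ?_⟩
      · show NN G (x.1⁻¹ * x.1) ≤ K
        rw [inv_mul_cancel, NN_one]
        exact hpos 0 (by simp)
      · refine le_trans (le_of_eq ?_) (hs.trans (hpos 1 (by simp)))
        congr 1
        show emb i s + _ - v = _
        abel
    d_nonneg := fun x => dd_nonneg h x.1
    d_one := by
      show dd G 1 ≤ K
      rw [dd_one h]
      exact hpos 0 (by simp)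
    d_mul := by
      intro x y
      show dd G (x.1 * y.1) ≤ dd G x.1 + dd G y.1 + K
      have e1 := H2 (Sum.inl 1) (Sum.inl x.1) (Sum.inl (x.1 * y.1)) (hb_inl h _) (hb_inl h _)
        (hb_inl h _)
      rw [d_dd h x.1, inv_mul_cancel_left] at e1
      have := hpos c₂ (by simp)
      unfold dd at e1 ⊢
      linarith
    b_neg := by
      intro x t ht
      show (path G K₀ x.1 t, (1 : Multiplicative (Fin k → ℤ))) = 1
      rw [path_neg _ ht]
      rfl
    b_end := fun x t ht => (H3 x.1 t ht).trans (hpos c₃ (by simp))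
    b_cont := by
      intro r x a c t t' ha hc ht
      have ha' := (l1_le h ha).trans (le_max_left (Real.exp (|r| / 2)) r)
      have hc' := (l1_le h hc).trans (le_max_left (Real.exp (|r| / 2)) r)
      have ht' := ht.trans (le_max_right (Real.exp (|r| / 2)) r)
      refine ⟨?_, ?_⟩
      · exact (F1 r x.1 a.1 c.1 t t' ha' hc' ht').trans ((hR₁ r _ (by simp)).trans (hR r))
      · exact (F2 r x.1 a.1 c.1 ha' hc').trans ((hR₁ r _ (by simp)).trans (hR r))
    b_time := by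
      intro x t h0 h1
      have := H4 x.1 t h0 h1
      exact ⟨this.1.trans (hpos c₄ (by simp)), this.2.trans (hpos c₄ (by simp))⟩ }

lemma good2_ex [Finite E] (h : G.Good) {k : ℕ} {i : Fin k → J} (hi : Function.Injective i)
    (hSF : G.SF = Set.range i) {K₀ : ℝ} (hK₀ : IsK G K₀) (C₀ : ℝ) :
    ∃ (K₁ : ℝ) (R₁ : ℝ → ℝ), ∀ K R, K₁ ≤ K → (∀ r, R₁ r ≤ R r) →
      (pc G i K₀ C₀ K R).Good2 := by
  obtain ⟨c₁, c0, H1⟩ := dens h
  obtain ⟨c₂, H2⟩ := flat_Ψ h
  obtain ⟨c₃, -, H3⟩ := flat_dd h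
  obtain ⟨K₁, hK₁⟩ := exists_ge [1, c₁, c₂, c₃]
  choose f₁ F1 using fun r : ℝ => flat_l1 h r
  choose f₂ F2 using fun r : ℝ => flat_path h hK₀ r
  choose R₁ hR₁ using fun r : ℝ => exists_ge [lb (f₁ r), f₂ r, G.𝓛.D * Real.exp (|r| / 2)]
  refine ⟨K₁, R₁, fun K R hK hR => ?_⟩
  have hpos : ∀ a ∈ [1, c₁, c₂, c₃], a ≤ K := fun a ha => (hK₁ a ha).trans hK
  exact
  { φ_mul := by
      intro e a ha c _
      show emb i (a.2 * c.2) + G.α (G.cusp e) (G.χ e (a.1 * c.1)) = (emb i a.2 + _) +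
        (emb i c.2 + _)
      rw [emb_mul hi, χ_mul h ha, map_add]
      abel
    ω_mul := by
      intro e a ha c _
      funext j
      exact congrFun (χ_mul h ha c.1) (Sum.inl j)
    κ_mul := by
      intro e a ha c _
      funext j
      exact congrFun (χ_mul h ha c.1) (Sum.inr j)
    φ_supp := by
      intro e a _ j hj
      show (emb i a.2 + G.α (G.cusp e) (G.χ e a.1)) j = 0
      rw [Pi.add_apply, emb_supp _ j hj, h.supp_α _ _ j (by rw [hSF]; exact hj), add_zero]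
    ω_supp := fun e a _ j hj => χ_supp h e a.1 _ hj
    κ_supp := fun e a _ j hj => χ_supp h e a.1 _ hj
    dense := by
      intro e p q r hp hq hr
      obtain ⟨a, ha, hv⟩ := H1 e (Sum.elim q r) (by
        rintro (j | j) hj
        · exact hq j hj
        · exact hr j hj)
      obtain ⟨s, hs⟩ := emb_round hi (v := p - G.α (G.cusp e) (G.χ e a)) (by
        intro j hj
        rw [Pi.sub_apply, hp j hj, h.supp_α _ _ j (by rw [hSF]; exact hj), sub_zero])
      refine ⟨(a, s), ha, ?_, ?_, ?_⟩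
      · refine le_trans (le_of_eq ?_) (hs.trans (hpos 1 (by simp)))
        congr 1
        show emb i s + _ - p = _
        abel
      · exact ((norm_inl (G.χ e a - Sum.elim q r)).trans hv).trans (hpos c₁ (by simp))
      · exact ((norm_inr (G.χ e a - Sum.elim q r)).trans hv).trans (hpos c₁ (by simp))
    flat_Φ := by
      intro e a ha
      refine le_trans (le_of_eq ?_) ((H2 e a.1 ha).trans (hpos c₂ (by simp)))
      congr 1
      show emb i a.2 + _ - (emb i a.2 + _) = _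
      abel
    flat_M := by
      intro r e a ha h1 h2
      exact (NN_le h (F1 r e a.1 ha (norm_le_of h1 h2))).trans
        ((hR₁ r _ (by simp)).trans (hR r))
    flat_M' := by
      intro r e a _ hM
      have g1 := flat_χ h (e := e) (l1_le h hM)
      have g2 := g1.trans ((hR₁ r _ (by simp)).trans (hR r))
      exact ⟨(norm_inl _).trans g2, (norm_inr _).trans g2⟩
    flat_d := by
      intro e a ha
      have := (H3 e a.1 ha).trans (hpos c₃ (by simp))
      rw [norm_eq_max] at this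
      exact this
    flat_b := by
      intro r e a ha c hc t ht h1 h2
      exact (F2 r e a.1 c.1 ha hc t ht (norm_le_of h1 h2)).trans
        ((hR₁ r _ (by simp)).trans (hR r)) }

lemma btw_gact (h : G.Good) {K : ℝ} {x y z : Γ ⊕ X} (g : Γ) (hb : G.𝓛.Btw K x y z) :
    G.𝓛.Btw K (gact g x) (gact g y) (gact g z) := by
  unfold LSp.Btw at *
  rw [h.inv_lam, h.inv_lam, h.inv_lam]
  exact hb

lemma np_of (h : G.Good) {k : ℕ} {i : Fin k → J} {K₀ C₀ K : ℝ} {R : ℝ → ℝ} {e e' : E}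
    {g : Γ × Multiplicative (Fin k → ℤ)} (hn : (pc G i K₀ C₀ K R).NP e e' g) :
    g.1 • G.cusp e' ≠ G.cusp e := by
  intro hc
  have h1 := h.distinct e' e g.1 hc
  subst h1
  exact hn ⟨rfl, hc⟩

lemma good3_ex [Finite E] (h : G.Good) {k : ℕ} {i : Fin k → J} {K₀ : ℝ} (hK₀ : IsK G K₀)
    {C₀ : ℝ} (hC₀ : IsG G C₀) :
    ∃ (K₁ : ℝ) (R₁ : ℝ → ℝ), ∀ K R, K₁ ≤ K → (∀ r, R₁ r ≤ R r) →
      (pc G i K₀ C₀ K R).Good3 := by
  obtain ⟨c₁, H1⟩ := gate_btw h C₀
  obtain ⟨c₂, H2⟩ := path_split h hK₀ c₁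
  obtain ⟨c₃, -, H3⟩ := exC0 G
  obtain ⟨K₁, hK₁⟩ := exists_ge [c₂, C₀ + G.𝓛.D * c₃]
  refine ⟨K₁, fun _ => 0, fun K R hK _ => ?_⟩
  have hpos : ∀ a ∈ [c₂, C₀ + G.𝓛.D * c₃], a ≤ K := fun a ha => (hK₁ a ha).trans hK
  have hsplit : ∀ y w : Γ × Multiplicative (Fin k → ℤ),
      G.𝓛.Btw c₁ (Sum.inl 1) (Sum.inl y.1) (Sum.inl w.1) → (pc G i K₀ C₀ K R).Split y w := by
    intro y w hb
    obtain ⟨q1, q2, q3⟩ := H2 y.1 w.1 hb
    have hp := hpos c₂ (by simp)
    exact ⟨q1.trans hp, fun t ht => (q2 t ht).trans hp, fun t ht => (q3 t ht).trans hp⟩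
  exact
  { gate_mem := fun e x => (gt_spec hC₀ e x.1).1
    gate_out := by
      intro e x a ha
      obtain ⟨g1, g2⟩ := gt_spec hC₀ e x.1
      apply hsplit
      have := btw_gact h a.1⁻¹ (H1 e x.1 a.1 _ ha g1 g2)
      have e1 : gact a.1⁻¹ (Sum.inl a.1 : Γ ⊕ X) = Sum.inl 1 := by
        show (Sum.inl (a.1⁻¹ * a.1) : Γ ⊕ X) = _
        rw [inv_mul_cancel]
      rw [e1] at this
      exact this
    gate_in := by
      intro e x a ha
      obtain ⟨g1, g2⟩ := gt_spec hC₀ e x.1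
      apply hsplit
      have := btw_gact h x.1⁻¹ (btw_symm h.good (H1 e x.1 a.1 _ ha g1 g2))
      have e1 : gact x.1⁻¹ (Sum.inl x.1 : Γ ⊕ X) = Sum.inl 1 := by
        show (Sum.inl (x.1⁻¹ * x.1) : Γ ⊕ X) = _
        rw [inv_mul_cancel]
      rw [e1] at this
      exact this
    uω_mul := by
      intro e e' g hn a ha a' ha'
      funext j
      exact congrFun (uu_mul h (np_of h hn) ha ha') (Sum.inl j)
    uκ_mul := by
      intro e e' g hn a ha a' ha'
      funext j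
      exact congrFun (uu_mul h (np_of h hn) ha ha') (Sum.inr j)
    uω_supp := fun e e' g hn j hj => uu_supp h (np_of h hn) _ hj
    uκ_supp := fun e e' g hn j hj => uu_supp h (np_of h hn) _ hj
    u_gate := by
      intro e e' g hn a' ha'
      obtain ⟨g1, g2⟩ := gt_spec hC₀ e (g.1 * a'.1)
      have g3 := (uu_gate h (H3 e') (np_of h hn) ha' g2).trans (hpos _ (by simp))
      exact ⟨(norm_inl (G.χ e (gt G C₀ e (g.1 * a'.1)) - uu G e e' g.1)).trans g3,
        (norm_inr (G.χ e (gt G C₀ e (g.1 * a'.1)) - uu G e e' g.1)).trans g3⟩ }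

lemma good4_ex [Finite E] (h : G.Good) {k : ℕ} {i : Fin k → J} (hi : Function.Injective i)
    (hSF : G.SF = Set.range i) (K₀ C₀ : ℝ) :
    ∃ (K₁ : ℝ) (R₁ : ℝ → ℝ), ∀ K R, K₁ ≤ K → (∀ r, R₁ r ≤ R r) →
      (pc G i K₀ C₀ K R).Good4 := by
  obtain ⟨c₁, H1⟩ := th_Ψ h
  choose R₁ F1 using fun r : ℝ => ll_d h r
  refine ⟨c₁, R₁, fun K R hK hR => ?_⟩
  exact
  { ℓ_mul := fun e e' g _ a ha a' ha' => ll_mul h ha ha'
    one_le_ℓ := fun e e' g hn => ll_ge h (np_of h hn)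
    ℓ_d := by
      intro r e e' g hn p hp p' hp' h1 h2 h3 h4
      exact (F1 r e e' g.1 p.1 p'.1 (np_of h hn) hp hp' (norm_le_of h1 h2)
        (norm_le_of h3 h4)).trans (hR r)
    Θ_mul := by
      intro e e' g hn a ha a' ha'
      show emb i (a.2 * g.2 * a'.2) + th G e e' (a.1 * g.1 * a'.1) = (emb i a.2 + _) +
        (emb i g.2 + _) + (emb i a'.2 + _)
      rw [emb_mul hi, emb_mul hi, th_mul h (np_of h hn) ha ha']
      abel
    Θ_supp := by
      intro e e' g _ j hj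
      show (emb i g.2 + th G e e' g.1) j = 0
      rw [Pi.add_apply, emb_supp _ j hj, th_supp h _ _ _ j (by rw [hSF]; exact hj), add_zero]
    Θ_Φ := by
      intro e e' g hn
      refine le_trans (le_of_eq ?_) ((H1 e e' g.1 (np_of h hn)).trans hK)
      congr 1
      show emb i g.2 + _ - (emb i g.2 + _) = _
      abel }

end

theorem taskF : TaskF := by
  intro Γ X E J _ _ _ _ G h k i hi hSF
  obtain ⟨K₀, hK₀⟩ := exK h
  obtain ⟨C₀, hC₀⟩ := exG h
  obtain ⟨K₁, R₁, G1⟩ := good1_ex h hi hSF hK₀ C₀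
  obtain ⟨K₂, R₂, G2⟩ := good2_ex h hi hSF hK₀ C₀
  obtain ⟨K₃, R₃, G3⟩ := good3_ex (i := i) h hK₀ hC₀
  obtain ⟨K₄, R₄, G4⟩ := good4_ex h hi hSF K₀ C₀
  obtain ⟨K, hK⟩ := exists_ge [K₁, K₂, K₃, K₄]
  choose R hR using fun r : ℝ => exists_ge [R₁ r, R₂ r, R₃ r, R₄ r]
  exact ⟨pc G i K₀ C₀ K R,
    ⟨G1 K R (hK _ (by simp)) fun r => hR r _ (by simp),
      G2 K R (hK _ (by simp)) fun r => hR r _ (by simp),
      G3 K R (hK _ (by simp)) fun r => hR r _ (by simp),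
      G4 K R (hK _ (by simp)) fun r => hR r _ (by simp)⟩,
    fun e x => Iff.rfl, rfl, fun e => rfl, fun e => rfl, fun e x hx => ⟨rfl, rfl, rfl⟩⟩

end Run7.h312.LF
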