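import Pool.Agent.Run7.h312.PG1

/-! Task G, second part: abstract sides of a wall and assembly. -/

set_option autoImplicit false

namespace Run7.h312.LG

open Run7.h230

/-! ### coordinates -/

/-- extension by zero -/
noncomputable def embR (k n : ℕ) : (Fin k → ℝ) →ₗ[ℝ] (Fin n → ℝ) where
  toFun f j := if h : (j : ℕ) < k then f ⟨j, h⟩ else 0
  map_add' f g := by
    funext j
    by_cases h : (j : ℕ) < k <;> simp [h]
  map_smul' r f := by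
    funext j
    by_cases h : (j : ℕ) < k <;> simp [h]

lemma embR_apply (k n : ℕ) (f : Fin k → ℝ) (j : Fin n) :
    embR k n f j = if h : (j : ℕ) < k then f ⟨j, h⟩ else 0 := rfl

lemma embR_supp (k n : ℕ) (f : Fin k → ℝ) : Supp {j : Fin n | (j : ℕ) < k} (embR k n f) := by
  intro j hj
  have hj' : ¬ (j : ℕ) < k := hj
  rw [embR_apply, dif_neg hj']

/-- restriction -/
noncomputable def resR (k n : ℕ) (h : k ≤ n) : (Fin n → ℝ) →ₗ[ℝ] (Fin k → ℝ) :=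
  LinearMap.funLeft ℝ ℝ (Fin.castLE h)

lemma res_emb {k n : ℕ} (h : k ≤ n) (f : Fin k → ℝ) : resR k n h (embR k n f) = f := by
  funext a
  show embR k n f (Fin.castLE h a) = f a
  rw [embR_apply, dif_pos (show ((Fin.castLE h a : Fin n) : ℕ) < k from a.2)]
  rfl

lemma emb_res {k n : ℕ} (h : k ≤ n) {y : Fin n → ℝ}
    (hy : Supp {j : Fin n | (j : ℕ) < k} y) : embR k n (resR k n h y) = y := by
  funext j
  rw [embR_apply]
  by_cases hj : (j : ℕ) < k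
  · rw [dif_pos hj]
    rfl
  · rw [dif_neg hj, hy j hj]

lemma emb_eq {k n : ℕ} (h : k ≤ n) (s : Multiplicative (Fin k → ℤ)) :
    emb (Fin.castLE h) s = embR k n (fun a => ((Multiplicative.toAdd s a : ℤ) : ℝ)) := by
  funext j
  rw [embR_apply]
  by_cases hj : (j : ℕ) < k
  · rw [dif_pos hj]
    have : j = Fin.castLE h ⟨j, hj⟩ := rfl
    conv_lhs => rw [this]
    unfold emb
    rw [(Fin.castLE_injective h).extend_apply]
  · rw [dif_neg hj]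
    unfold emb
    rw [Function.extend_apply' _ _ _ (fun ⟨a, ha⟩ => hj (by rw [← ha]; exact a.2))]
    rfl

/-- the coordinates of a side -/
noncomputable def JJ (k l n : ℕ) : ((Fin k → ℝ) × (Fin l → ℝ)) →ₗ[ℝ] (Fin n ⊕ Fin n → ℝ) where
  toFun p := Sum.elim (embR k n p.1) (embR l n p.2)
  map_add' p q := by
    funext j
    rcases j with j | j <;> simp
  map_smul' r p := by
    funext j
    rcases j with j | j <;> simp

/-- the active coordinates of a side -/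
def SS (k l n : ℕ) : Set (Fin n ⊕ Fin n) :=
  {p | Sum.elim (fun j : Fin n => (j : ℕ) < k) (fun j : Fin n => (j : ℕ) < l) p}

lemma JJ_supp (k l n : ℕ) (p : (Fin k → ℝ) × (Fin l → ℝ)) : Supp (SS k l n) (JJ k l n p) := by
  rintro (j | j) hj
  · exact embR_supp k n p.1 j hj
  · exact embR_supp l n p.2 j hj

/-- restriction -/
noncomputable def RR (k l n : ℕ) (hk : k ≤ n) (hl : l ≤ n) :
    (Fin n ⊕ Fin n → ℝ) →ₗ[ℝ] ((Fin k → ℝ) × (Fin l → ℝ)) :=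
  ((resR k n hk).comp (LinearMap.funLeft ℝ ℝ Sum.inl)).prod
    ((resR l n hl).comp (LinearMap.funLeft ℝ ℝ Sum.inr))

lemma RR_JJ {k l n : ℕ} (hk : k ≤ n) (hl : l ≤ n) (p : (Fin k → ℝ) × (Fin l → ℝ)) :
    RR k l n hk hl (JJ k l n p) = p :=
  Prod.ext (res_emb hk p.1) (res_emb hl p.2)

lemma JJ_RR {k l n : ℕ} (hk : k ≤ n) (hl : l ≤ n) {y : Fin n ⊕ Fin n → ℝ}
    (hy : Supp (SS k l n) y) : JJ k l n (RR k l n hk hl y) = y := by
  funext j
  rcases j with j | j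
  · exact congrFun (emb_res hk (y := fun j => y (Sum.inl j)) fun j hj => hy _ hj) j
  · exact congrFun (emb_res hl (y := fun j => y (Sum.inr j)) fun j hj => hy _ hj) j

/-- one side of a wall -/
lemma side {m n k k' l : ℕ} (hk' : k' ≤ n) (hl : l ≤ n) {N : HorMfd m} {ξ : LV m}
    {e : Fin (m - 1) → LV m} (hT : Tor N ξ e) (hm : 2 ≤ m) {V : Type} [AddCommGroup V]
    [Module ℝ V] (q : V →ₗ[ℝ] (Fin (m - 1) → ℝ)) (s : V →ₗ[ℝ] (Fin k → ℝ))
    (hqs : Function.Bijective (q.prod s)) (φ : V →ₗ[ℝ] (Fin k → ℝ))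
    (ω : V →ₗ[ℝ] (Fin k' → ℝ)) (κ : V →ₗ[ℝ] (Fin l → ℝ))
    (hb : Function.Bijective (φ.prod (ω.prod κ)))
    (hker : ∀ u, q u = 0 → φ u = s u ∧ ω u = 0 ∧ κ u = 0) :
    ∃ (T : LV m →ₗ[ℝ] (Fin n ⊕ Fin n → ℝ)) (α : (Fin n ⊕ Fin n → ℝ) →ₗ[ℝ] (Fin n → ℝ)),
      CuspCoord ξ T (SS k' l n) ∧ (∀ v, Supp {j : Fin n | (j : ℕ) < k} (α v)) ∧
      ∀ (u : V) (v : LV m) (r : ℝ), v = ∑ i, q u i • e i + r • ξ →
        T v = JJ k' l n (ω u, κ u) ∧ embR k n (s u) + α (T v) = embR k n (φ u) := by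
  obtain ⟨Q, hQ1, hQ2⟩ := exists_Q hT hm
  let E := LinearEquiv.ofBijective (q.prod s) hqs
  let Φ := LinearEquiv.ofBijective (φ.prod (ω.prod κ)) hb
  have hE : ∀ p, (q (E.symm p), s (E.symm p)) = p := fun p => E.apply_symm_apply p
  have hΦ : ∀ p, (φ (Φ.symm p), (ω (Φ.symm p), κ (Φ.symm p))) = p :=
    fun p => Φ.apply_symm_apply p
  let σ : (Fin (m - 1) → ℝ) →ₗ[ℝ] V := E.symm.toLinearMap.comp (LinearMap.inl ℝ _ _)
  have hσ1 : ∀ c, q (σ c) = c := fun c => congrArg Prod.fst (hE (c, 0))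
  have hσ2 : ∀ c, s (σ c) = 0 := fun c => congrArg Prod.snd (hE (c, 0))
  have P1 : ∀ u, ω u = 0 → κ u = 0 → q u = 0 := by
    intro u h1 h2
    have e1 : q (E.symm (0, φ u)) = 0 := congrArg Prod.fst (hE (0, φ u))
    have e2 : s (E.symm (0, φ u)) = φ u := congrArg Prod.snd (hE (0, φ u))
    obtain ⟨f1, f2, f3⟩ := hker _ e1
    have e3 : E.symm (0, φ u) = u := by
      apply hb.1
      show (φ _, (ω _, κ _)) = (φ u, (ω u, κ u))
      rw [f1, f2, f3, e2, h1, h2]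
    rw [← e3, e1]
  have P2 : ∀ u, ω (σ (q u)) = ω u ∧ κ (σ (q u)) = κ u ∧ φ (σ (q u)) = φ u - s u := by
    intro u
    obtain ⟨f1, f2, f3⟩ := hker (u - σ (q u)) (by rw [map_sub, hσ1, sub_self])
    rw [map_sub, map_sub, hσ2, sub_zero] at f1
    rw [map_sub, sub_eq_zero] at f2 f3
    refine ⟨f2.symm, f3.symm, ?_⟩
    rw [← f1]
    abel
  let T : LV m →ₗ[ℝ] (Fin n ⊕ Fin n → ℝ) := ((JJ k' l n).comp (ω.prod κ)).comp (σ.comp Q)
  have hT' : ∀ v, T v = JJ k' l n (ω (σ (Q v)), κ (σ (Q v))) := fun v => rfl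
  let back : (Fin n ⊕ Fin n → ℝ) →ₗ[ℝ] V :=
    (Φ.symm.toLinearMap.comp (LinearMap.inr ℝ _ _)).comp (RR k' l n hk' hl)
  have hback : ∀ y, φ (back y) = 0 ∧ ω (back y) = (RR k' l n hk' hl y).1 ∧
      κ (back y) = (RR k' l n hk' hl y).2 := by
    intro y
    have := hΦ (0, RR k' l n hk' hl y)
    exact ⟨congrArg Prod.fst this, congrArg (fun p => p.2.1) this,
      congrArg (fun p => p.2.2) this⟩
  let α : (Fin n ⊕ Fin n → ℝ) →ₗ[ℝ] (Fin n → ℝ) :=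
    (embR k n).comp (φ.comp (σ.comp (q.comp back)))
  have hα : ∀ y, α y = embR k n (φ (σ (q (back y)))) := fun y => rfl
  have main : ∀ (u : V) (v : LV m) (r : ℝ), v = ∑ i, q u i • e i + r • ξ →
      T v = JJ k' l n (ω u, κ u) ∧ embR k n (s u) + α (T v) = embR k n (φ u) := by
    intro u v r hv
    have h1 : Q v = q u := by rw [hv, hQ1]
    obtain ⟨f1, f2, f3⟩ := P2 u
    have h2 : T v = JJ k' l n (ω u, κ u) := by rw [hT', h1, f1, f2]
    refine ⟨h2, ?_⟩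
    obtain ⟨g1, g2, g3⟩ := hback (T v)
    rw [h2, RR_JJ] at g2 g3
    have h3 : q (back (JJ k' l n (ω u, κ u))) = q u := by
      have := P1 (back (JJ k' l n (ω u, κ u)) - u) (by rw [map_sub, g2, sub_self])
        (by rw [map_sub, g3, sub_self])
      rwa [map_sub, sub_eq_zero] at this
    rw [hα, h2, h3, f3, ← map_add]
    congr 1
    abel
  refine ⟨T, α, ⟨?_, ?_, ?_, ?_⟩, fun v => embR_supp k n _, main⟩
  · have := hQ1 0 1
    simp only [Pi.zero_apply, zero_smul, Finset.sum_const_zero, zero_add, one_smul] at this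
    rw [hT', this, map_zero, map_zero, map_zero]
    exact map_zero _
  · intro v _
    exact JJ_supp _ _ _ _
  · intro v hv h0
    obtain ⟨r, hr⟩ := hQ2 v hv
    have h1 := RR_JJ hk' hl (ω (σ (Q v)), κ (σ (Q v)))
    rw [← hT', h0, map_zero] at h1
    have h2 : ω (σ (Q v)) = 0 := (congrArg Prod.fst h1).symm
    have h3 : κ (σ (Q v)) = 0 := (congrArg Prod.snd h1).symm
    have h4 := P1 _ h2 h3
    rw [hσ1] at h4
    refine ⟨r, ?_⟩
    rw [hr, h4]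
    simp
  · intro y hy
    refine ⟨∑ i, q (back y) i • e i + (0 : ℝ) • ξ, ?_, ?_⟩
    · rw [lor_add, comb_perp hT, lor_smul]
      ring
    · rw [(main (back y) _ 0 rfl).1, (hback y).2.1, (hback y).2.2]
      exact JJ_RR hk' hl hy

/-- splitting off the image of an injective map -/
lemma split {U V : Type} [AddCommGroup U] [Module ℝ U] [AddCommGroup V] [Module ℝ V]
    [FiniteDimensional ℝ V] (j : U →ₗ[ℝ] V) (hj : Function.Injective j) :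
    ∃ (l : ℕ) (g : V →ₗ[ℝ] U) (κ : V →ₗ[ℝ] (Fin l → ℝ)), l ≤ Module.finrank ℝ V ∧
      (∀ u, g (j u) = u) ∧ (∀ u, κ (j u) = 0) ∧ Function.Bijective (g.prod κ) := by
  obtain ⟨g, hg⟩ := LinearMap.exists_leftInverse_of_injective j (LinearMap.ker_eq_bot.2 hj)
  have hg' : ∀ u, g (j u) = u := fun u => congrArg (fun f => f u) hg
  let E : (V ⧸ LinearMap.range j) ≃ₗ[ℝ] (Fin (Module.finrank ℝ (V ⧸ LinearMap.range j)) → ℝ) :=
    (Module.finBasis ℝ (V ⧸ LinearMap.range j)).equivFun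
  let κ := E.toLinearMap.comp (LinearMap.range j).mkQ
  have hκ : ∀ v, κ v = 0 ↔ v ∈ LinearMap.range j := by
    intro v
    show E ((LinearMap.range j).mkQ v) = 0 ↔ _
    rw [LinearEquiv.map_eq_zero_iff, Submodule.mkQ_apply, Submodule.Quotient.mk_eq_zero]
  refine ⟨_, g, κ, Submodule.finrank_quotient_le _, hg', fun u => (hκ _).2 ⟨u, rfl⟩, ?_, ?_⟩
  · refine (injective_iff_map_eq_zero _).2 fun v hv => ?_
    have h1 : g v = 0 := congrArg Prod.fst hv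
    have h2 : κ v = 0 := congrArg Prod.snd hv
    obtain ⟨u, rfl⟩ := (hκ v).1 h2
    rw [hg'] at h1
    rw [h1, map_zero]
  · rintro ⟨u, d⟩
    obtain ⟨v, hv⟩ : ∃ v, κ v = d := by
      obtain ⟨v, hv⟩ := (LinearMap.range j).mkQ_surjective (E.symm d)
      refine ⟨v, ?_⟩
      show E ((LinearMap.range j).mkQ v) = d
      rw [hv, LinearEquiv.apply_symm_apply]
    refine ⟨v + j (u - g v), ?_⟩
    have h1 : κ (j (u - g v)) = 0 := (hκ _).2 ⟨_, rfl⟩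
    show (g _, κ _) = _
    rw [map_add, map_add, hg', h1, hv, add_zero, add_sub_cancel]

end Run7.h312.LG

namespace Run7.h312.LG

open Run7.h230

theorem core (n m₁ m₂ k₁ k₂ : ℕ) (hk₁n : k₁ ≤ n) (hk₂n : k₂ ≤ n) (hsum : m₁ - 1 + k₁ ≤ n)
    (N₁ : HorMfd m₁) (N₂ : HorMfd m₂) (a₁ : N₁.IsMfd) (b₁ : N₁.IsTruncated) (a₂ : N₂.IsMfd)
    (b₂ : N₂.IsTruncated) (hm₁ : 2 ≤ m₁) (hm₂ : 2 ≤ m₂)
    (ξ₁ : LV m₁) (ξ₂ : LV m₂) (hξ₁ : ξ₁ ∈ N₁.Ξ) (hξ₂ : ξ₂ ∈ N₂.Ξ)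
    (ψ : N₁.bdry k₁ ξ₁ ≃* N₂.bdry k₂ ξ₂)
    (hψ : ∀ x : N₁.bdry k₁ ξ₁, (x : N₁.Pi k₁).1 = 1 → (ψ x : N₂.Pi k₂).1 = 1 → x = 1) :
    ∃ (T₁ : LV m₁ →ₗ[ℝ] (Fin n ⊕ Fin n → ℝ)) (T₂ : LV m₂ →ₗ[ℝ] (Fin n ⊕ Fin n → ℝ))
      (S₁ S₂ : Set (Fin n ⊕ Fin n))
      (α₁ α₂ : (Fin n ⊕ Fin n → ℝ) →ₗ[ℝ] (Fin n → ℝ)),
      CuspCoord ξ₁ T₁ S₁ ∧ CuspCoord ξ₂ T₂ S₂ ∧
      (∀ j, Sum.inl j ∈ S₁ ↔ (j : ℕ) < k₂) ∧ (∀ j, Sum.inl j ∈ S₂ ↔ (j : ℕ) < k₁) ∧
      (∀ j, Sum.inr j ∈ S₁ ↔ Sum.inr j ∈ S₂) ∧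
      (∀ v, Supp {j : Fin n | (j : ℕ) < k₁} (α₁ v)) ∧
      (∀ v, Supp {j : Fin n | (j : ℕ) < k₂} (α₂ v)) ∧
      ∀ (x : N₁.bdry k₁ ξ₁) (v₁ : LV m₁) (v₂ : LV m₂),
        lor v₁ ξ₁ = 0 → Translates ((x : N₁.Pi k₁).1 : LV m₁ ≃ₗ[ℝ] LV m₁) ξ₁ v₁ →
        lor v₂ ξ₂ = 0 → Translates ((ψ x : N₂.Pi k₂).1 : LV m₂ ≃ₗ[ℝ] LV m₂) ξ₂ v₂ →
        (emb (Fin.castLE hk₁n) (x : N₁.Pi k₁).2 + α₁ (T₁ v₁) =
          fun j => T₂ v₂ (Sum.inl j)) ∧
        (emb (Fin.castLE hk₂n) (ψ x : N₂.Pi k₂).2 + α₂ (T₂ v₂) =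
          fun j => T₁ v₁ (Sum.inl j)) ∧
        ∀ j, T₁ v₁ (Sum.inr j) = T₂ v₂ (Sum.inr j) := by
  obtain ⟨e₁, T₁⟩ := exists_tor a₁ b₁ hξ₁
  obtain ⟨e₂, T₂⟩ := exists_tor a₂ b₂ hξ₂
  obtain ⟨A, hA⟩ := exists_matrix (theta_bij T₁ k₁) (theta_mul T₁ k₁)
    (fun x => theta T₂ k₂ (ψ x)) (fun x y => by rw [map_mul, theta_mul])
  obtain ⟨B, hB⟩ := exists_matrix (theta_bij T₂ k₂) (theta_mul T₂ k₂)
    (fun y => theta T₁ k₁ (ψ.symm y)) (fun x y => by rw [map_mul, theta_mul])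
  have hBA : B * A = 1 := by
    apply Matrix.ext_of_mulVec_single
    intro i
    obtain ⟨x, hx⟩ := (theta_bij T₁ k₁).2 (Pi.single i 1)
    rw [← hx, ← Matrix.mulVec_mulVec, hA, hB, Matrix.one_mulVec, MulEquiv.symm_apply_apply]
  have hAB : A * B = 1 := by
    apply Matrix.ext_of_mulVec_single
    intro i
    obtain ⟨x, hx⟩ := (theta_bij T₂ k₂).2 (Pi.single i 1)
    rw [← hx, ← Matrix.mulVec_mulVec, hB, hA, Matrix.one_mulVec, MulEquiv.apply_symm_apply]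
  set A' := A.map (Int.castRingHom ℝ) with hA'
  set B' := B.map (Int.castRingHom ℝ) with hB'
  have hBA' : B' * A' = 1 := by
    rw [hA', hB', ← Matrix.map_mul, hBA]
    exact Matrix.map_one _ (map_zero _) (map_one _)
  have hAB' : A' * B' = 1 := by
    rw [hA', hB', ← Matrix.map_mul, hAB]
    exact Matrix.map_one _ (map_zero _) (map_one _)
  let q₁ : ((Fin (m₁ - 1) ⊕ Fin k₁) → ℝ) →ₗ[ℝ] (Fin (m₁ - 1) → ℝ) :=
    LinearMap.funLeft ℝ ℝ Sum.inl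
  let s₁ : ((Fin (m₁ - 1) ⊕ Fin k₁) → ℝ) →ₗ[ℝ] (Fin k₁ → ℝ) := LinearMap.funLeft ℝ ℝ Sum.inr
  let q₂ : ((Fin (m₁ - 1) ⊕ Fin k₁) → ℝ) →ₗ[ℝ] (Fin (m₂ - 1) → ℝ) :=
    (LinearMap.funLeft ℝ ℝ Sum.inl).comp A'.mulVecLin
  let s₂ : ((Fin (m₁ - 1) ⊕ Fin k₁) → ℝ) →ₗ[ℝ] (Fin k₂ → ℝ) :=
    (LinearMap.funLeft ℝ ℝ Sum.inr).comp A'.mulVecLin
  have h₁ : Function.Bijective (q₁.prod s₁) := by
    constructor
    · intro u v huv
      funext p
      rcases p with p | p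
      · exact congrFun (congrArg Prod.fst huv) p
      · exact congrFun (congrArg Prod.snd huv) p
    · rintro ⟨c, d⟩
      exact ⟨Sum.elim c d, rfl⟩
  have h₂ : Function.Bijective (q₂.prod s₂) := by
    constructor
    · intro u v huv
      have h3 : A'.mulVec u = A'.mulVec v := by
        funext p
        rcases p with p | p
        · exact congrFun (congrArg Prod.fst huv) p
        · exact congrFun (congrArg Prod.snd huv) p
      have h4 := congrArg (fun w => B'.mulVec w) h3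
      simp only [Matrix.mulVec_mulVec, hBA', Matrix.one_mulVec] at h4
      exact h4
    · rintro ⟨c, d⟩
      refine ⟨B'.mulVec (Sum.elim c d), ?_⟩
      have h4 : A'.mulVec (B'.mulVec (Sum.elim c d)) = Sum.elim c d := by
        rw [Matrix.mulVec_mulVec, hAB', Matrix.one_mulVec]
      refine Prod.ext ?_ ?_
      · funext p
        exact congrFun h4 (Sum.inl p)
      · funext p
        exact congrFun h4 (Sum.inr p)
  -- transversality
  have hinj : ∀ u, q₁ u = 0 → q₂ u = 0 → u = 0 := by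
    intro u hu1 hu2
    let D : Matrix (Fin (m₁ - 1) ⊕ Fin (m₂ - 1)) (Fin (m₁ - 1) ⊕ Fin k₁) ℤ :=
      Matrix.of (Sum.elim (fun i => Pi.single (Sum.inl i) 1) (fun i => A (Sum.inl i)))
    refine int_inj D ?_ u ?_
    · intro c hc
      obtain ⟨x, rfl⟩ := (theta_bij T₁ k₁).2 c
      have e1 : ∀ i, theta T₁ k₁ x (Sum.inl i) = 0 := fun i => by
        have := congrFun hc (Sum.inl i)
        simpa [D, Matrix.mulVec, dotProduct, Pi.single_apply] using this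
      have e2 : ∀ i, theta T₂ k₂ (ψ x) (Sum.inl i) = 0 := fun i => by
        have := congrFun hc (Sum.inr i)
        have h5 := congrFun (hA x) (Sum.inl i)
        rw [← h5]
        exact this
      have e3 := hψ x (theta_fst T₁ k₁ x e1) (theta_fst T₂ k₂ (ψ x) e2)
      rw [e3]
      have h6 := theta_mul T₁ k₁ 1 1
      rw [mul_one] at h6
      exact (add_eq_left.1 h6.symm)
    · funext p
      rcases p with i | i
      · have := congrFun hu1 i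
        have h7 : u (Sum.inl i) = 0 := this
        simp [D, Matrix.mulVec, dotProduct, Pi.single_apply, h7]
      · exact congrFun hu2 i
  let E₁ := LinearEquiv.ofBijective (q₁.prod s₁) h₁
  let E₂ := LinearEquiv.ofBijective (q₂.prod s₂) h₂
  have hE₁ : ∀ p, (q₁ (E₁.symm p), s₁ (E₁.symm p)) = p := fun p => E₁.apply_symm_apply p
  have hE₂ : ∀ p, (q₂ (E₂.symm p), s₂ (E₂.symm p)) = p := fun p => E₂.apply_symm_apply p
  let j : ((Fin k₁ → ℝ) × (Fin k₂ → ℝ)) →ₗ[ℝ] ((Fin (m₁ - 1) ⊕ Fin k₁) → ℝ) :=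
    (E₁.symm.toLinearMap.comp (LinearMap.inr ℝ _ _)).coprod
      (E₂.symm.toLinearMap.comp (LinearMap.inr ℝ _ _))
  have hj : ∀ a b, j (a, b) = E₁.symm (0, a) + E₂.symm (0, b) := fun a b => rfl
  have hjinj : Function.Injective j := by
    refine (injective_iff_map_eq_zero _).2 ?_
    rintro ⟨a, b⟩ h0
    have h0' : E₁.symm (0, a) + E₂.symm (0, b) = 0 := h0
    have f1 : q₁ (E₁.symm (0, a)) = 0 := congrArg Prod.fst (hE₁ (0, a))
    have f2 : q₂ (E₂.symm (0, b)) = 0 := congrArg Prod.fst (hE₂ (0, b))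
    have f3 : E₁.symm (0, a) = - E₂.symm (0, b) := eq_neg_of_add_eq_zero_left h0'
    have f4 : E₁.symm (0, a) = 0 := hinj _ f1 (by rw [f3, map_neg, f2, neg_zero])
    have f5 : E₂.symm (0, b) = 0 := by
      rw [f4, zero_add] at h0'
      exact h0'
    have g1 : s₁ (E₁.symm (0, a)) = a := congrArg Prod.snd (hE₁ (0, a))
    have g2 : s₂ (E₂.symm (0, b)) = b := congrArg Prod.snd (hE₂ (0, b))
    rw [f4, map_zero] at g1
    rw [f5, map_zero] at g2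
    rw [← g1, ← g2]
    rfl
  obtain ⟨l, g, κ, hl, hg, hκ, hgκ⟩ := split j hjinj
  have hln : l ≤ n := by
    refine hl.trans ?_
    rw [Module.finrank_fintype_fun_eq_card, Fintype.card_sum, Fintype.card_fin, Fintype.card_fin]
    omega
  let φ := (LinearMap.fst ℝ _ _).comp g
  let ω := (LinearMap.snd ℝ _ _).comp g
  have hker₁ : ∀ u, q₁ u = 0 → φ u = s₁ u ∧ ω u = 0 ∧ κ u = 0 := by
    intro u hu
    have h3 : j (s₁ u, 0) = u := by
      rw [hj]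
      have : E₁.symm (0, s₁ u) = u := by
        rw [LinearEquiv.symm_apply_eq]
        show _ = (q₁ u, s₁ u)
        rw [hu]
      rw [this]
      have : E₂.symm ((0 : Fin (m₂ - 1) → ℝ), (0 : Fin k₂ → ℝ)) = 0 := map_zero _
      rw [this, add_zero]
    have h4 := hg (s₁ u, 0)
    have h5 := hκ (s₁ u, 0)
    rw [h3] at h4 h5
    exact ⟨congrArg Prod.fst h4, congrArg Prod.snd h4, h5⟩
  have hker₂ : ∀ u, q₂ u = 0 → ω u = s₂ u ∧ φ u = 0 ∧ κ u = 0 := by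
    intro u hu
    have h3 : j (0, s₂ u) = u := by
      rw [hj]
      have : E₂.symm (0, s₂ u) = u := by
        rw [LinearEquiv.symm_apply_eq]
        show _ = (q₂ u, s₂ u)
        rw [hu]
      rw [this]
      have : E₁.symm ((0 : Fin (m₁ - 1) → ℝ), (0 : Fin k₁ → ℝ)) = 0 := map_zero _
      rw [this, zero_add]
    have h4 := hg (0, s₂ u)
    have h5 := hκ (0, s₂ u)
    rw [h3] at h4 h5
    exact ⟨congrArg Prod.snd h4, congrArg Prod.fst h4, h5⟩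
  have hb₁ : Function.Bijective (φ.prod (ω.prod κ)) := by
    constructor
    · intro u v huv
      have e1 : (g u).1 = (g v).1 := (Prod.ext_iff.1 huv).1
      have e2 : (g u).2 = (g v).2 := congrArg (fun p => p.2.1) huv
      have e3 : κ u = κ v := congrArg (fun p => p.2.2) huv
      exact hgκ.1 (Prod.ext (Prod.ext e1 e2) e3)
    · rintro ⟨a, b, d⟩
      obtain ⟨u, hu⟩ := hgκ.2 ((a, b), d)
      have e1 : (g u).1 = a := congrArg (fun p => p.1.1) hu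
      have e2 : (g u).2 = b := congrArg (fun p => p.1.2) hu
      have e3 : κ u = d := congrArg Prod.snd hu
      exact ⟨u, Prod.ext e1 (Prod.ext e2 e3)⟩
  have hb₂ : Function.Bijective (ω.prod (φ.prod κ)) := by
    constructor
    · intro u v huv
      have e1 : (g u).2 = (g v).2 := congrArg Prod.fst huv
      have e2 : (g u).1 = (g v).1 := congrArg (fun p => p.2.1) huv
      have e3 : κ u = κ v := congrArg (fun p => p.2.2) huv
      exact hgκ.1 (Prod.ext (Prod.ext e2 e1) e3)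
    · rintro ⟨a, b, d⟩
      obtain ⟨u, hu⟩ := hgκ.2 ((b, a), d)
      have e1 : (g u).2 = a := congrArg (fun p => p.1.2) hu
      have e2 : (g u).1 = b := congrArg (fun p => p.1.1) hu
      have e3 : κ u = d := congrArg Prod.snd hu
      exact ⟨u, Prod.ext e1 (Prod.ext e2 e3)⟩
  obtain ⟨C₁, α₁, c₁, p₁, M₁⟩ := side hk₂n hln T₁ hm₁ q₁ s₁ h₁ φ ω κ hb₁ hker₁
  obtain ⟨C₂, α₂, c₂, p₂, M₂⟩ := side hk₁n hln T₂ hm₂ q₂ s₂ h₂ ω φ κ hb₂ hker₂
  refine ⟨C₁, C₂, SS k₂ l n, SS k₁ l n, α₁, α₂, c₁, c₂, fun j => Iff.rfl, fun j => Iff.rfl,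
    fun j => Iff.rfl, p₁, p₂, ?_⟩
  intro x v₁ v₂ hv₁ t₁ hv₂ t₂
  obtain ⟨r₁, hr₁⟩ := trans_uniq T₁.pos t₁ (theta_spec T₁ k₁ x)
  obtain ⟨r₂, hr₂⟩ := trans_uniq T₂.pos t₂ (theta_spec T₂ k₂ (ψ x))
  set u : (Fin (m₁ - 1) ⊕ Fin k₁) → ℝ := fun p => ((theta T₁ k₁ x p : ℤ) : ℝ) with hu
  have hAu : A'.mulVec u = fun p => ((theta T₂ k₂ (ψ x) p : ℤ) : ℝ) := by
    have := cast_mulVec A (theta T₁ k₁ x)
    rw [hA] at this
    exact this
  have hq₂ : ∀ i, q₂ u i = ((theta T₂ k₂ (ψ x) (Sum.inl i) : ℤ) : ℝ) := fun i =>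
    congrFun hAu (Sum.inl i)
  have hs₂ : s₂ u = fun a => ((Multiplicative.toAdd (ψ x : N₂.Pi k₂).2 a : ℤ) : ℝ) := by
    funext a
    exact congrFun hAu (Sum.inr a)
  obtain ⟨f1, f2⟩ := M₁ u v₁ r₁ hr₁
  obtain ⟨f3, f4⟩ := M₂ u v₂ r₂ (by rw [hr₂]; simp only [hq₂])
  refine ⟨?_, ?_, ?_⟩
  · rw [emb_eq]
    have : (fun j => C₂ v₂ (Sum.inl j)) = embR k₁ n (φ u) :=
      congrArg (fun (w : Fin n ⊕ Fin n → ℝ) j => w (Sum.inl j)) f3
    rw [this]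
    exact f2
  · rw [emb_eq]
    have : (fun j => C₁ v₁ (Sum.inl j)) = embR k₂ n (ω u) :=
      congrArg (fun (w : Fin n ⊕ Fin n → ℝ) j => w (Sum.inl j)) f1
    rw [this, ← hs₂]
    exact f4
  · intro j
    rw [f1, f3]
    rfl

theorem taskG : TaskG := by
  intro n m₁ m₂ N₁ N₂ a₁ b₁ a₂ b₂ hm₁ hm₂ hn₁ hn₂ ξ₁ ξ₂ hξ₁ hξ₂ ψ hψ
  exact core n m₁ m₂ (n - m₁) (n - m₂) (Nat.sub_le _ _) (Nat.sub_le _ _) (by omega) N₁ N₂ a₁ b₁
    a₂ b₂ hm₁ hm₂ ξ₁ ξ₂ hξ₁ hξ₂ ψ hψ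

end Run7.h312.LG
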