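import Pool.Agent.Run7.h312.Pos

/-! Every unital C*-algebra has the property `PosMat`. -/

set_option autoImplicit false

namespace Run7.h312

open Matrix

theorem posMat_cstar (A : Type*) [CStarAlgebra A] : PosMat A := by
  letI := CStarAlgebra.spectralOrder A
  haveI := CStarAlgebra.spectralOrderedRing A
  intro n X
  let Y : CStarMatrix (Fin n) (Fin n) A := CStarMatrix.ofMatrix X
  have h1 : (1 : CStarMatrix (Fin n) (Fin n) A) ≤ 1 + star Y * Y :=
    le_add_of_nonneg_right (star_mul_self_nonneg Y)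
  have h2 := CStarAlgebra.isUnit_of_le (1 : CStarMatrix (Fin n) (Fin n) A) h1
  obtain ⟨u, hu⟩ := h2
  refine ⟨⟨(u : CStarMatrix (Fin n) (Fin n) A), (↑u⁻¹ : CStarMatrix (Fin n) (Fin n) A),
    u.mul_inv, u.inv_mul⟩, hu⟩

end Run7.h312
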