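import Pool.Agent.Run7.h312.Lag

/-! Symmetrisation of a chain equivalence over a complex `*`-algebra. -/

set_option autoImplicit false

namespace Run7.h312

open Matrix

section
variable {A : Type*} [Ring A] [StarRing A] [Algebra ℂ A] [StarModule ℂ A]
variable {ι κ : Type*} [Fintype ι] [DecidableEq ι] [Fintype κ] [DecidableEq κ]

theorem lag_sym (hA : PosMat A) {k : ℂ} (hk : k = 1 ∨ k = -1)
    {e : Matrix ι ι A} (he : e * e = e)
    {D T : Matrix ι κ A} {S : Matrix κ ι A} {H : Matrix ι ι A} {h D₁ : Matrix κ Unit A}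
    {D₃ : Matrix Unit ι A}
    (hD : e * D = D) (hT : eᴴ * T = T) (hH1 : eᴴ * H = H) (hH2 : H * e = H)
    (r1 : Sᴴ - k • T = H * D) (r2 : S * D = Dᴴ * T) (r3 : D₁ᴴ * S = k • D₃)
    (r4 : Dᴴ * (H + k • Hᴴ) = h * D₃) (r5 : D₁ᴴ * h = 0) (r6 : D * D₁ = 0)
    {s₁ s₂ : Matrix ι κ A} {t₁ t₂ : Matrix κ ι A} (hs2 : eᴴ * s₂ = s₂) (ht1 : t₁ * e = t₁)
    (h1 : S * s₁ + Dᴴ * s₂ = 1) (h1' : t₁ * D - t₂ * T = 1)
    (h2 : s₁ * S + D * t₁ = e) (h3 : s₁ * Dᴴ + D * t₂ = 0)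
    (h4 : s₂ * S - T * t₁ = 0) (h5 : s₂ * Dᴴ - T * t₂ = eᴴ) :
    ∃ (u : Matrix κ ι A) (v : Matrix ι κ A), u * v = 1 ∧ v * u = e := by
  have hk2 : k * k = 1 := by rcases hk with rfl | rfl <;> norm_num
  have hks : star k = k := by rcases hk with rfl | rfl <;> simp
  obtain ⟨c, hc, hcc⟩ : ∃ c : ℂ, star c = -(k * c) ∧ c * star c = 1 := by
    rcases hk with rfl | rfl
    · exact ⟨Complex.I, by simp, by simp⟩
    · exact ⟨1, by simp, by simp⟩
  obtain ⟨N, hN⟩ : ∃ N : Matrix κ κ A, N = -(h * D₁ᴴ) := ⟨_, rfl⟩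
  have r6' : D₁ᴴ * Dᴴ = 0 := by rw [← conjTranspose_mul, r6, conjTranspose_zero]
  have hND : N * Dᴴ = 0 := by rw [hN, Matrix.neg_mul, Matrix.mul_assoc, r6']; simp
  have hNN : N * N = 0 := by
    rw [hN, Matrix.neg_mul, Matrix.mul_neg, neg_neg, Matrix.mul_assoc, ← Matrix.mul_assoc D₁ᴴ, r5]
    simp
  have hNS : N * S = -(k • (h * D₃)) := by
    rw [hN, Matrix.neg_mul, Matrix.mul_assoc, r3, Matrix.mul_smul]
  have r1' : S - k • Tᴴ = Dᴴ * Hᴴ := by
    have := congrArg conjTranspose r1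
    rwa [conjTranspose_sub, conjTranspose_conjTranspose, conjTranspose_smul, hks,
      conjTranspose_mul] at this
  have hkT : k • Tᴴ = S - Dᴴ * Hᴴ := by rw [← r1']; abel
  -- the symmetrised maps
  obtain ⟨T', hT'⟩ : ∃ T', T' = T + (k / 2) • (H * D) := ⟨_, rfl⟩
  obtain ⟨S', hS'⟩ : ∃ S', S' = S - (1 / 2 : ℂ) • (Dᴴ * Hᴴ) := ⟨_, rfl⟩
  have hS'T' : S' = k • T'ᴴ := by
    rw [hT', conjTranspose_add, conjTranspose_smul, conjTranspose_mul, smul_add, hkT, hS',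
      smul_smul]
    have : k * star (k / 2) = 1 / 2 := by
      rw [star_div₀, hks, star_ofNat, mul_div_assoc', hk2]
    rw [this]
    module
  have hS'2 : S' = S + (k / 2) • (Dᴴ * H) + (1 / 2 : ℂ) • (N * S) := by
    rw [hNS, ← r4, hS', Matrix.mul_add, Matrix.mul_smul]
    match_scalars
    all_goals first
      | ring1
      | linear_combination (1 / 2) * hk2
  obtain ⟨Z, hZ⟩ : ∃ Z, Z = S + (k / 2) • (Dᴴ * H) := ⟨_, rfl⟩
  have hNZ : N * Z = N * S := by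
    rw [hZ, Matrix.mul_add, Matrix.mul_smul, ← Matrix.mul_assoc, hND]
    simp
  have hS'Z : (1 - (1 / 2 : ℂ) • N) * S' = Z := by
    rw [hS'2, ← hZ]
    simp only [Matrix.sub_mul, Matrix.mul_add, Matrix.one_mul, Matrix.smul_mul, Matrix.mul_smul,
      ← Matrix.mul_assoc, hNN, hNZ, Matrix.zero_mul, smul_zero]
    module
  have hS'D : S' * D = Dᴴ * T' := by
    -- from the relations
    have e1 : Dᴴ * (Hᴴ + k • H) * D = 0 := by
      have a1 : Dᴴ * Sᴴ = Tᴴ * D := by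
        have := congrArg conjTranspose r2
        rwa [conjTranspose_mul, conjTranspose_mul, conjTranspose_conjTranspose] at this
      have a2 : Sᴴ = H * D + k • T := by rw [← r1]; abel
      have a3 : Tᴴ = k • S - k • (Dᴴ * Hᴴ) := by
        rw [← smul_sub, ← hkT, smul_smul, hk2, one_smul]
      rw [a2, a3, Matrix.mul_add, Matrix.mul_smul, Matrix.sub_mul, Matrix.smul_mul,
        Matrix.smul_mul, r2] at a1
      have a4 : Dᴴ * (H * D) = -(k • (Dᴴ * Hᴴ * D)) := by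
        rw [eq_neg_iff_add_eq_zero]
        rw [← sub_eq_zero] at a1
        rw [← a1]
        abel
      rw [Matrix.mul_add, Matrix.add_mul, Matrix.mul_smul, Matrix.smul_mul, Matrix.mul_assoc Dᴴ H,
        a4, smul_neg, smul_smul, hk2, one_smul]
      abel
    rw [hS', hT', Matrix.sub_mul, Matrix.mul_add, Matrix.smul_mul, Matrix.mul_smul, r2]
    rw [Matrix.mul_add, Matrix.mul_smul, Matrix.add_mul, Matrix.smul_mul] at e1
    have e2 : Dᴴ * Hᴴ * D = -(k • (Dᴴ * H * D)) := by rw [eq_neg_iff_add_eq_zero, e1]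
    rw [e2, Matrix.mul_assoc Dᴴ H D]
    module
  have hinv : (1 + (1 / 2 : ℂ) • N) * (1 - (1 / 2 : ℂ) • N) = 1 := by
    simp only [Matrix.mul_sub, Matrix.add_mul, Matrix.mul_one, Matrix.one_mul, Matrix.smul_mul,
      Matrix.mul_smul, hNN, smul_zero]
    module
  refine lag_idem hA hk2 hks hc hcc he (D := D) (T := T') (S := S')
    (s₁ := s₁ * (1 - (1 / 2 : ℂ) • N))
    (s₂ := (s₂ - (k / 2) • (H * s₁)) * (1 - (1 / 2 : ℂ) • N))
    (t₁ := t₁ + (k / 2) • (t₂ * H)) (t₂ := t₂) hD ?_ hS'T' hS'D ?_ ?_ ?_ ?_ ?_ ?_ ?_ ?_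
  · rw [hT', Matrix.mul_add, Matrix.mul_smul, ← Matrix.mul_assoc, hH1, hT]
  · have e0 : eᴴ * (s₂ - (k / 2) • (H * s₁)) = s₂ - (k / 2) • (H * s₁) := by
      rw [Matrix.mul_sub, Matrix.mul_smul, ← Matrix.mul_assoc, hH1, hs2]
    rw [← Matrix.mul_assoc, e0]
  · rw [Matrix.add_mul, Matrix.smul_mul, Matrix.mul_assoc, hH2, ht1]
  · have e1 : S' * s₁ + Dᴴ * (s₂ - (k / 2) • (H * s₁)) = 1 + (1 / 2 : ℂ) • N := by
      have e2 : N * S * s₁ = N := by
        have : N * (S * s₁ + Dᴴ * s₂) = N := by rw [h1, Matrix.mul_one]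
        rw [Matrix.mul_add, ← Matrix.mul_assoc, ← Matrix.mul_assoc, hND] at this
        simpa using this
      rw [hS'2, Matrix.add_mul, Matrix.add_mul, Matrix.mul_sub, Matrix.smul_mul, Matrix.smul_mul,
        Matrix.mul_smul, e2, ← h1, Matrix.mul_assoc Dᴴ H s₁]
      abel
    calc S' * (s₁ * (1 - (1 / 2 : ℂ) • N)) +
          Dᴴ * ((s₂ - (k / 2) • (H * s₁)) * (1 - (1 / 2 : ℂ) • N))
        = (S' * s₁ + Dᴴ * (s₂ - (k / 2) • (H * s₁))) * (1 - (1 / 2 : ℂ) • N) := by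
          rw [Matrix.add_mul, Matrix.mul_assoc, Matrix.mul_assoc]
      _ = 1 := by rw [e1, hinv]
  · rw [hT', Matrix.add_mul, Matrix.mul_add, Matrix.smul_mul, Matrix.mul_smul, Matrix.mul_assoc t₂,
      ← h1']
    abel
  · rw [Matrix.mul_assoc, hS'Z, hZ, Matrix.mul_add, Matrix.mul_add, Matrix.mul_smul,
      Matrix.mul_smul, ← Matrix.mul_assoc, ← Matrix.mul_assoc]
    calc s₁ * S + (k / 2) • (s₁ * Dᴴ * H) + (D * t₁ + (k / 2) • (D * t₂ * H))
        = (s₁ * S + D * t₁) + (k / 2) • ((s₁ * Dᴴ + D * t₂) * H) := by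
          rw [Matrix.add_mul, smul_add]; abel
      _ = e := by rw [h2, h3]; simp
  · rw [Matrix.mul_assoc, Matrix.sub_mul, Matrix.smul_mul, hND, Matrix.one_mul, smul_zero,
      sub_zero, h3]
  · rw [Matrix.mul_assoc, hS'Z, hZ, hT']
    calc (s₂ - (k / 2) • (H * s₁)) * (S + (k / 2) • (Dᴴ * H)) -
          (T + (k / 2) • (H * D)) * (t₁ + (k / 2) • (t₂ * H))
        = (s₂ * S - T * t₁) + (k / 2) • ((s₂ * Dᴴ - T * t₂) * H)
          - (k / 2) • (H * (s₁ * S + D * t₁))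
          - ((k / 2) * (k / 2)) • (H * (s₁ * Dᴴ + D * t₂) * H) := by
          simp only [Matrix.add_mul, Matrix.mul_add, Matrix.sub_mul, Matrix.mul_sub,
            Matrix.smul_mul, Matrix.mul_smul, Matrix.mul_assoc]
          module
      _ = 0 := by
          rw [h4, h5, h2, h3, hH1, hH2]
          simp
  · rw [Matrix.mul_assoc, Matrix.sub_mul _ _ Dᴴ, Matrix.smul_mul, hND, Matrix.one_mul, smul_zero,
      sub_zero, hT']
    calc (s₂ - (k / 2) • (H * s₁)) * Dᴴ - (T + (k / 2) • (H * D)) * t₂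
        = (s₂ * Dᴴ - T * t₂) - (k / 2) • (H * (s₁ * Dᴴ + D * t₂)) := by
          simp only [Matrix.add_mul, Matrix.mul_add, Matrix.sub_mul,
            Matrix.smul_mul, Matrix.mul_assoc]
          module
      _ = eᴴ := by rw [h5, h3]; simp

end

end Run7.h312
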