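import Pool.Agent.Run7.h312.Exi
import Pool.Agent.Run7.h312.Sym
import Pool.Agent.Run7.h312.CStar

/-! Consequences of the duality chain equivalence. -/

set_option autoImplicit false

namespace Run7.h312

open Matrix

namespace Ex

variable {Λ : Type*} [Ring Λ] [StarRing Λ] {aug : Λ →+* ℤ} {n g : ℕ}
    {D₁ : Matrix (Fin g) Unit Λ} {D₂ : Matrix (Fin n) (Fin g) Λ} {D₃ : Matrix Unit (Fin n) Λ}
    {e : Matrix (Fin n) (Fin n) Λ} (hE : Ex aug D₁ D₂ D₃ e)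

include hE

/-- `P ⊕ P* ≅ Λ²ᵍ` -/
theorem self_dual : ∃ (a : Matrix (Fin g ⊕ Fin g) (Fin n ⊕ Fin n) Λ)
    (b : Matrix (Fin n ⊕ Fin n) (Fin g ⊕ Fin g) Λ), a * b = 1 ∧ b * a = fromBlocks e 0 0 eᴴ := by
  obtain ⟨k, T, S, H, h, hk, eT, Se, TD, -, -, -, SD, DS, -, -⟩ := hE.exists_duality
  obtain ⟨s₁, s₂, t₁, t₂, -, -, -, -, q1, q2, q3, q4, q5, q6, q7⟩ :=
    hE.exists_contraction hk eT Se TD SD DS
  refine ⟨fromBlocks S D₂ᴴ t₁ t₂, fromBlocks s₁ D₂ s₂ (-T), ?_, ?_⟩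
  · rw [fromBlocks_multiply, q1, q7, Matrix.mul_neg, Matrix.mul_neg, ← sub_eq_add_neg,
      ← sub_eq_add_neg, SD, sub_self, q2, fromBlocks_one]
  · rw [fromBlocks_multiply, q3, q4, Matrix.neg_mul, Matrix.neg_mul, ← sub_eq_add_neg,
      ← sub_eq_add_neg, q5, q6]

/-- the obstruction dies in every complex `*`-algebra with `PosMat` -/
theorem free_over {A : Type*} [Ring A] [StarRing A] [Algebra ℂ A] [StarModule ℂ A]
    (hA : PosMat A) (φ : Λ →+* A) (hφ : ∀ a, φ (star a) = star (φ a)) :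
    ∃ (u : Matrix (Fin g) (Fin n) A) (v : Matrix (Fin n) (Fin g) A), u * v = 1 ∧
      v * u = e.map φ := by
  obtain ⟨k, T, S, H, h, hk, eT, Se, TD, eH, He, hH, SD, DS, hh, Dh⟩ := hE.exists_duality
  obtain ⟨s₁, s₂, t₁, t₂, es₁, es₂, te₁, te₂, q1, q2, q3, q4, q5, q6, q7⟩ :=
    hE.exists_contraction hk eT Se TD SD DS
  have hst : ∀ {p q : Type} (M : Matrix p q Λ), (Mᴴ).map φ = (M.map φ)ᴴ := by
    intro p q M
    ext i j
    simp [hφ]
  have hsm : ∀ {p q : Type} (M : Matrix p q Λ), (k • M).map φ = (k : ℂ) • M.map φ := by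
    intro p q M
    ext i j
    simp only [Matrix.map_apply, Matrix.smul_apply, map_zsmul]
    rw [← Int.cast_smul_eq_zsmul ℂ]
  have hmul : ∀ {p q r : Type} [Fintype q] (M : Matrix p q Λ) (N : Matrix q r Λ),
      (M * N).map φ = M.map φ * N.map φ := fun M N => Matrix.map_mul
  have hadd : ∀ {p q : Type} (M N : Matrix p q Λ), (M + N).map φ = M.map φ + N.map φ :=
    fun M N => Matrix.map_add φ (map_add φ) M N
  have hsub : ∀ {p q : Type} (M N : Matrix p q Λ), (M - N).map φ = M.map φ - N.map φ :=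
    fun M N => Matrix.map_sub φ (map_sub φ) M N
  have hzero : ∀ {p q : Type}, (0 : Matrix p q Λ).map φ = 0 := Matrix.map_zero φ (map_zero φ)
  have hone : ∀ {p : Type} [DecidableEq p], (1 : Matrix p p Λ).map φ = 1 :=
    Matrix.map_one φ (map_zero φ) (map_one φ)
  have M : ∀ {p q : Type} {X Y : Matrix p q Λ}, X = Y → X.map φ = Y.map φ := by
    intro p q X Y h
    rw [h]
  refine lag_sym hA (k := (k : ℂ)) ?_ (e := e.map φ) ?_ (D := D₂.map φ) (T := T.map φ)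
    (S := S.map φ) (H := H.map φ) (h := h.map φ) (D₁ := D₁.map φ) (D₃ := D₃.map φ)
    ?_ ?_ ?_ ?_ ?_ ?_ ?_ ?_ ?_ ?_ (s₁ := s₁.map φ) (s₂ := s₂.map φ) (t₁ := t₁.map φ)
    (t₂ := t₂.map φ) ?_ ?_ ?_ ?_ ?_ ?_ ?_ ?_
  · rcases hk with rfl | rfl <;> simp
  · rw [← hmul, hE.ee]
  · rw [← hmul, hE.eD₂]
  · rw [← hst, ← hmul, eT]
  · rw [← hst, ← hmul, eH]
  · rw [← hmul, He]
  · rw [← hst, ← hsm, ← hsub, ← hmul, hH]
  · rw [← hst, ← hmul, ← hmul, SD]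
  · rw [← hst, ← hmul, ← hsm, DS]
  · rw [← hst, ← hst, ← hsm, ← hadd, ← hmul, ← hmul, hh]
  · rw [← hst, ← hmul, Dh, hzero]
  · rw [← hmul, hE.D₂D₁, hzero]
  · rw [← hst, ← hmul, es₂]
  · rw [← hmul, te₁]
  · rw [← hst, ← hmul, ← hmul, ← hadd, q1, hone]
  · rw [← hmul, ← hmul, ← hsub, q2, hone]
  · rw [← hmul, ← hmul, ← hadd, q3]
  · rw [← hst, ← hmul, ← hmul, ← hadd, q4, hzero]
  · rw [← hmul, ← hmul, ← hsub, q5, hzero]
  · rw [← hst, ← hst, ← hmul, ← hmul, ← hsub, q6]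

end Ex

end Run7.h312
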