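import Mathlib

/-! Orientable `PD_3`-groups. -/

set_option autoImplicit false

namespace Run7.h312

/-- a sequence of `R`-modules `P 0 ← P 1 ← P 2 ← ⋯` and linear maps -/
structure Cx (R : Type) [Ring R] where
  P : ℕ → Type
  [grp : ∀ i, AddCommGroup (P i)]
  [mod : ∀ i, Module R (P i)]
  d : ∀ i, P (i + 1) →ₗ[R] P i

attribute [instance] Cx.grp Cx.mod

namespace Cx

variable {R : Type} [Ring R] (C : Cx R)

/-- finitely generated projective modules, almost all of them zero -/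
def IsFP : Prop :=
  (∀ i, Module.Finite R (C.P i)) ∧ (∀ i, Module.Projective R (C.P i)) ∧
    ∃ m : ℕ, ∀ i, m < i → Subsingleton (C.P i)

/-- exactness at `P 1, P 2, ...`: kernel equals image -/
def IsExact : Prop :=
  ∀ (i : ℕ) (x : C.P (i + 1)), C.d i x = 0 ↔ ∃ y, C.d (i + 1) y = x

/-- cocycles of degree `i` with coefficients in `R` -/
def IsCocycle (i : ℕ) (f : C.P i →ₗ[R] R) : Prop := ∀ y, f (C.d i y) = 0

/-- coboundaries of degree `i + 1` with coefficients in `R` -/
def IsCoboundary (i : ℕ) (f : C.P (i + 1) →ₗ[R] R) : Prop :=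
  ∃ h : C.P i →ₗ[R] R, ∀ y, f y = h (C.d i y)

/-- the cohomology with coefficients in `R` vanishes in all degrees except `3` -/
def IsConcentrated : Prop :=
  (∀ f, C.IsCocycle 0 f → f = 0) ∧
    ∀ i, i + 1 ≠ 3 → ∀ f, C.IsCocycle (i + 1) f → C.IsCoboundary i f

end Cx

variable {G : Type} [Group G]

/-- `ε : P 0 → ℤ` is a `G`-invariant surjection whose kernel is the image of `P 1` -/
def IsAugmentation (C : Cx (MonoidAlgebra ℤ G)) (ε : C.P 0 →+ ℤ) : Prop :=
  Function.Surjective ε ∧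
    (∀ (g : G) (x : C.P 0), ε (MonoidAlgebra.of ℤ G g • x) = ε x) ∧
    (∀ x : C.P 0, ε x = 0 ↔ ∃ y, C.d 0 y = x)

/-- right multiplication of a functional by a group element -/
noncomputable def rmul {M : Type} [AddCommGroup M] [Module (MonoidAlgebra ℤ G) M]
    (f : M →ₗ[MonoidAlgebra ℤ G] MonoidAlgebra ℤ G) (g : G) :
    M →ₗ[MonoidAlgebra ℤ G] MonoidAlgebra ℤ G :=
  LinearMap.toSpanSingleton (MonoidAlgebra ℤ G) (MonoidAlgebra ℤ G) (MonoidAlgebra.of ℤ G g) ∘ₗ f

/-- `η` induces an isomorphism from the third cohomology `H³(Hom(P, ℤ[G]))` to `ℤ` with trivial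
action of `G`: on `3`-cocycles `η` is additive, takes the value `1`, vanishes exactly on the
coboundaries and is invariant under right multiplication by elements of `G`. -/
def IsFundamental (C : Cx (MonoidAlgebra ℤ G))
    (η : (C.P 3 →ₗ[MonoidAlgebra ℤ G] MonoidAlgebra ℤ G) → ℤ) : Prop :=
  (∀ f f', C.IsCocycle 3 f → C.IsCocycle 3 f' → η (f + f') = η f + η f') ∧
    (∃ f, C.IsCocycle 3 f ∧ η f = 1) ∧
    (∀ f, C.IsCocycle 3 f → (η f = 0 ↔ C.IsCoboundary 2 f)) ∧
    (∀ (g : G) (f), C.IsCocycle 3 f → η (rmul f g) = η f)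

/-- `G` is an orientable `PD_3`-group: the trivial module `ℤ` has a resolution `P → ℤ` of finite
length by finitely generated projective `ℤ[G]`-modules (type `FP`), the cohomology
`H^i(G; ℤ[G])` of the complex `Hom(P, ℤ[G])` is zero for `i ≠ 3` and is isomorphic to `ℤ` with
trivial action of `G` for `i = 3`. -/
def IsOrientablePD3 (G : Type) [Group G] : Prop :=
  ∃ (C : Cx (MonoidAlgebra ℤ G)) (ε : C.P 0 →+ ℤ)
    (η : (C.P 3 →ₗ[MonoidAlgebra ℤ G] MonoidAlgebra ℤ G) → ℤ),
    C.IsFP ∧ C.IsExact ∧ IsAugmentation C ε ∧ C.IsConcentrated ∧ IsFundamental C η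

end Run7.h312
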