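import Mathlib

/-! Determinant modules of projective modules over a ring in a field with involution. -/

set_option autoImplicit false

namespace Run7.h312

open Matrix

section
variable {K : Type*} [Field K]

/-- splitting of an idempotent matrix over a field -/
theorem idem_split {ι : Type*} [Fintype ι] [DecidableEq ι] (e : Matrix ι ι K) (he : e * e = e) :
    ∃ (r : ℕ) (u : Matrix (Fin r) ι K) (v : Matrix ι (Fin r) K), u * v = 1 ∧ v * u = e := by
  let f : (ι → K) →ₗ[K] (ι → K) := e.vecMulLinear
  have hf : ∀ w, f w = w ᵥ* e := fun w => rfl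
  let W := LinearMap.range f
  let b := Module.finBasis K W
  have hb : ∀ i, f (b i : ι → K) = b i := fun i => by
    obtain ⟨w, hw⟩ := (b i).2
    rw [← hw, hf, hf, Matrix.vecMul_vecMul, he]
  let c : (ι → K) →ₗ[K] (Fin (Module.finrank K W) → K) :=
    (b.equivFun : W →ₗ[K] (Fin (Module.finrank K W) → K)) ∘ₗ f.rangeRestrict
  refine ⟨Module.finrank K W, Matrix.of fun i => (b i : ι → K),
    Matrix.of fun j => c (Pi.single j 1), ?_, ?_⟩
  · refine funext fun i => ?_
    rw [Matrix.mul_apply_eq_vecMul]
    have h1 : ∀ w : ι → K, w ᵥ* (Matrix.of fun j => c (Pi.single j 1)) = c w := fun w => by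
      rw [LinearMap.pi_apply_eq_sum_univ c w]
      ext j
      rw [Finset.sum_apply, Matrix.vecMul, dotProduct]
      refine Finset.sum_congr rfl fun i _ => ?_
      have : (Pi.single i 1 : ι → K) = fun j => if i = j then 1 else 0 := by
        ext j; rw [Pi.single_apply]; simp only [eq_comm]
      rw [← this]
      rfl
    rw [h1]
    change b.equivFun (f.rangeRestrict (b i)) = _
    have h2 : f.rangeRestrict (b i : ι → K) = b i := Subtype.ext (hb i)
    rw [h2]
    ext j
    rw [Module.Basis.equivFun_self, Matrix.one_apply]
  · refine funext fun j => ?_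
    have h1 : ∀ w, ∑ i, (b.equivFun w) i • (b i : ι → K) = w := fun w => by
      have := b.sum_equivFun w
      have h3 := congrArg (W.subtype) this
      rw [map_sum] at h3
      exact h3
    have h2 : (Matrix.of (fun j => c (Pi.single j 1)) * Matrix.of fun i => (b i : ι → K)) j =
        ∑ i, (b.equivFun (f.rangeRestrict (Pi.single j 1))) i • (b i : ι → K) := by
      ext l
      rw [Matrix.mul_apply, Finset.sum_apply]
      rfl
    rw [h2, h1]
    change f (Pi.single j 1) = e j
    rw [hf, Matrix.single_one_vecMul]
    rfl

/-- expansion along the rows with entries in `R` -/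
theorem laplace_mem (R : Subring K) {κ : Type*} [Fintype κ] [DecidableEq κ]
    (A W : Matrix κ (κ ⊕ κ) K) (hA : ∀ i j, A i j ∈ R) :
    (fromRows A W).det ∈ Submodule.span R
      {z : K | ∃ C : Matrix (κ ⊕ κ) κ K, (∀ i j, C i j ∈ R) ∧ z = (W * C).det} := by
  classical
  -- reduction to rows of the identity matrix
  have key : ∀ j : κ → κ ⊕ κ, (fromRows (Matrix.of fun i => Pi.single (j i) 1) W).det ∈
      Submodule.span R
        {z : K | ∃ C : Matrix (κ ⊕ κ) κ K, (∀ i j, C i j ∈ R) ∧ z = (W * C).det} := by
    intro j
    by_cases hj : Function.Injective j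
    · let e1 : Set.range (Sum.inl : κ → κ ⊕ κ) ≃ Set.range j :=
        (Equiv.ofInjective _ Sum.inl_injective).symm.trans (Equiv.ofInjective j hj)
      let σ : Equiv.Perm (κ ⊕ κ) := Equiv.extendSubtype
        (p := fun x => x ∈ Set.range (Sum.inl : κ → κ ⊕ κ)) (q := fun x => x ∈ Set.range j) e1
      have hσ : ∀ i, σ (Sum.inl i) = j i := by
        intro i
        have h1 := Equiv.extendSubtype_apply_of_mem e1 (Sum.inl i) ⟨i, rfl⟩
        have h2 : (Equiv.ofInjective (Sum.inl : κ → κ ⊕ κ) Sum.inl_injective).symm
            ⟨Sum.inl i, i, rfl⟩ = i := by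
          rw [Equiv.symm_apply_eq]
          rfl
        change σ (Sum.inl i) = _ at h1
        rw [h1]
        change ((Equiv.ofInjective j hj) ((Equiv.ofInjective (Sum.inl : κ → κ ⊕ κ)
          Sum.inl_injective).symm ⟨Sum.inl i, i, rfl⟩) : κ ⊕ κ) = j i
        rw [h2]
        rfl
      have h1 : ((fromRows (Matrix.of fun i => Pi.single (j i) 1) W).submatrix id σ) =
          fromBlocks (1 : Matrix κ κ K) 0 (W.submatrix id (σ ∘ Sum.inl))
            (W.submatrix id (σ ∘ Sum.inr)) := by
        ext r c
        rcases r with r | r <;> rcases c with c | c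
        · simp only [submatrix_apply, id, fromRows_apply_inl, fromBlocks_apply₁₁, Matrix.of_apply,
            Matrix.one_apply, Pi.single_apply, hσ, hj.eq_iff, eq_comm]
        · simp only [submatrix_apply, id, fromRows_apply_inl, fromBlocks_apply₁₂, Matrix.of_apply,
            Matrix.zero_apply, Pi.single_apply]
          rw [if_neg]
          rw [← hσ r]
          intro h
          have := σ.injective h
          cases this
        · rfl
        · rfl
      have h2 := det_permute' σ (fromRows (Matrix.of fun i => Pi.single (j i) 1) W)
      rw [h1, det_fromBlocks_zero₁₂, det_one, one_mul] at h2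
      have h3 : (fromRows (Matrix.of fun i => Pi.single (j i) 1) W).det =
          ((Equiv.Perm.sign σ : ℤ) : K) * (W.submatrix id (σ ∘ Sum.inr)).det := by
        rw [h2, ← mul_assoc]
        have : (((Equiv.Perm.sign σ : ℤ) : K)) * ((Equiv.Perm.sign σ : ℤ) : K) = 1 := by
          rw [← Int.cast_mul, ← Units.val_mul, ← sq, Int.units_sq]
          simp
        rw [this, one_mul]
      have h4 : (W.submatrix id (σ ∘ Sum.inr)).det ∈ Submodule.span R
          {z : K | ∃ C : Matrix (κ ⊕ κ) κ K, (∀ i j, C i j ∈ R) ∧ z = (W * C).det} := by
        refine Submodule.subset_span ⟨Matrix.of fun p c => if p = σ (Sum.inr c) then 1 else 0,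
          fun p c => ?_, ?_⟩
        · rw [Matrix.of_apply]
          split
          · exact R.one_mem
          · exact R.zero_mem
        · congr 1
          ext r c
          rw [Matrix.mul_apply]
          simp
      rw [h3]
      have := Submodule.smul_mem _ (((Equiv.Perm.sign σ : ℤ) : R)) h4
      convert this using 1
      rw [Subring.smul_def, smul_eq_mul]
      simp
    · rw [Function.Injective] at hj
      push Not at hj
      obtain ⟨a, b, hab, hne⟩ := hj
      have : (fromRows (Matrix.of fun i => Pi.single (j i) 1) W).det = 0 := by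
        refine det_zero_of_row_eq (i := Sum.inl a) (j := Sum.inl b) (by simpa using hne) ?_
        ext c
        simp only [fromRows_apply_inl, Matrix.of_apply, hab]
      rw [this]
      exact Submodule.zero_mem _
  -- expansion one row after another
  have step : ∀ (s : Finset κ) (B : Matrix κ (κ ⊕ κ) K), (∀ i j, B i j ∈ R) →
      (∀ i, i ∉ s → ∃ j, B i = Pi.single j 1) → (fromRows B W).det ∈ Submodule.span R
        {z : K | ∃ C : Matrix (κ ⊕ κ) κ K, (∀ i j, C i j ∈ R) ∧ z = (W * C).det} := by
    intro s
    induction s using Finset.induction_on with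
    | empty =>
      intro B _ hB
      choose j hj using fun i => hB i (Finset.notMem_empty i)
      have : B = Matrix.of fun i => Pi.single (j i) 1 := funext hj
      rw [this]
      exact key j
    | insert i₀ s hi ih =>
      intro B hBR hB
      have h1 : fromRows B W = (fromRows B W).updateRow (Sum.inl i₀)
          (∑ c, B i₀ c • (Pi.single c 1 : κ ⊕ κ → K)) := by
        have : (∑ c, B i₀ c • (Pi.single c 1 : κ ⊕ κ → K)) = (fromRows B W) (Sum.inl i₀) := by
          ext c
          simp [Finset.sum_apply, Pi.single_apply]
        rw [this, updateRow_eq_self]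
      have h2 := (detRowAlternating : (κ ⊕ κ → K) [⋀^κ ⊕ κ]→ₗ[K] K).map_update_sum Finset.univ
        (Sum.inl i₀) (fun c => B i₀ c • (Pi.single c 1 : κ ⊕ κ → K)) (fromRows B W)
      have h3 : ((fromRows B W).updateRow (Sum.inl i₀)
          (∑ c, B i₀ c • (Pi.single c 1 : κ ⊕ κ → K))).det = ∑ c, ((fromRows B W).updateRow
            (Sum.inl i₀) (B i₀ c • (Pi.single c 1 : κ ⊕ κ → K))).det := h2
      rw [h1, h3]
      refine Submodule.sum_mem _ fun c _ => ?_
      rw [det_updateRow_smul]
      have h4 : (fromRows B W).updateRow (Sum.inl i₀) (Pi.single c 1) =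
          fromRows (B.updateRow i₀ (Pi.single c 1)) W := by
        ext r c'
        rcases r with r | r
        · by_cases hr : r = i₀
          · subst hr
            rw [updateRow_self, fromRows_apply_inl, updateRow_self]
          · rw [updateRow_ne (by simpa using hr), fromRows_apply_inl, fromRows_apply_inl,
              updateRow_ne hr]
        · rw [updateRow_ne (by simp), fromRows_apply_inr, fromRows_apply_inr]
      rw [h4]
      have h5 := ih (B.updateRow i₀ (Pi.single c 1)) (fun i j => by
        by_cases hr : i = i₀
        · subst hr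
          rw [updateRow_self, Pi.single_apply]
          split
          · exact R.one_mem
          · exact R.zero_mem
        · rw [updateRow_ne hr]
          exact hBR i j) (fun i hi' => by
        by_cases hr : i = i₀
        · subst hr
          exact ⟨c, updateRow_self⟩
        · rw [updateRow_ne hr]
          exact hB i (by simp [hr, hi']))
      exact Submodule.smul_mem _ (⟨B i₀ c, hBR i₀ c⟩ : R) h5
  exact step Finset.univ A hA (fun i hi => absurd (Finset.mem_univ i) hi)

end

end Run7.h312
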