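import Pool.Agent.Run7.h312.DetOne
import Pool.Agent.Run7.h312.DetMod

/-! The determinant module of the middle module of the duality complex is conjugation invariant. -/

set_option autoImplicit false

namespace Run7.h312

open Matrix

section
variable {K : Type*}

/-- The determinant module of the row lattice of `v`: the `R`-submodule of `K` generated by the
determinants of all matrices `A v` with `A` a square-making matrix over `R`, equivalently by the
maximal minors of `v`. -/
def detModule [CommRing K] (R : Subring K) {ι κ : Type*} [Fintype ι] [Fintype κ] [DecidableEq κ]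
    (v : Matrix ι κ K) : Submodule R K :=
  Submodule.span R {z : K | ∃ A : Matrix κ ι K, (∀ i j, A i j ∈ R) ∧ z = (A * v).det}

lemma detModule_mul [CommRing K] (R : Subring K) {ι κ : Type*} [Fintype ι] [Fintype κ] [DecidableEq κ]
    (v : Matrix ι κ K) (E : Matrix κ κ K) (z : K) :
    z ∈ detModule R (v * E) ↔ ∃ y ∈ detModule R v, z = E.det * y := by
  let f : K →ₗ[R] K :=
    { toFun := fun y => E.det * y
      map_add' := fun a b => mul_add _ _ _
      map_smul' := fun r a => by
        simp only [Subring.smul_def, smul_eq_mul, RingHom.id_apply]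
        ring }
  have h1 : detModule R (v * E) = (detModule R v).map f := by
    rw [detModule, detModule, Submodule.map_span]
    congr 1
    ext z
    constructor
    · rintro ⟨A, hA, rfl⟩
      exact ⟨(A * v).det, ⟨A, hA, rfl⟩, by
        change E.det * (A * v).det = _
        rw [← Matrix.mul_assoc, det_mul, mul_comm]⟩
    · rintro ⟨_, ⟨A, hA, rfl⟩, rfl⟩
      exact ⟨A, hA, by
        change E.det * (A * v).det = _
        rw [← Matrix.mul_assoc, det_mul, mul_comm]⟩
  rw [h1, Submodule.mem_map]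
  constructor
  · rintro ⟨y, hy, h⟩
    exact ⟨y, hy, h.symm⟩
  · rintro ⟨y, hy, h⟩
    exact ⟨y, hy, h.symm⟩

variable [Field K] [StarRing K]

lemma star_det {κ : Type*} [Fintype κ] [DecidableEq κ] (M : Matrix κ κ K) :
    star M.det = (M.map star).det := (starRingEnd K).map_det M

/-- norm one elements, Hilbert 90 -/
lemma hilbert90 {μ : K} (hμ : μ * star μ = 1) :
    ∃ β : K, β ≠ 0 ∧ (β = μ * star β ∨ ∀ z : K, star z = z) := by
  by_cases h : ∃ θ : K, θ + μ * star θ ≠ 0
  · obtain ⟨θ, hθ⟩ := h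
    refine ⟨_, hθ, Or.inl ?_⟩
    rw [star_add, star_mul, star_star, mul_add]
    linear_combination -θ * hμ
  · push Not at h
    refine ⟨1, one_ne_zero, Or.inr fun z => ?_⟩
    have h1 := h 1
    rw [star_one, mul_one] at h1
    have h2 := h z
    have h3 : μ = -1 := by linear_combination h1
    rw [h3] at h2
    linear_combination -h2

variable {ι κ υ : Type*} [Fintype ι] [DecidableEq ι] [Fintype κ] [DecidableEq κ]
  [Fintype υ] [DecidableEq υ]

theorem det_invariant (R : Subring K) (hR : ∀ r ∈ R, star r ∈ R)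
    (hK2 : (2 : K) ≠ 0) {k : K} (hk : k = 1 ∨ k = -1)
    {e : Matrix ι ι K} (he : e * e = e)
    {D T : Matrix ι κ K} {S : Matrix κ ι K} {H : Matrix ι ι K} {h D₁ : Matrix κ υ K}
    {D₃ : Matrix υ ι K}
    (hD : e * D = D) (hT : eᴴ * T = T) (hSe : S * e = S) (hH1 : eᴴ * H = H) (hH2 : H * e = H)
    (r1 : Sᴴ - k • T = H * D) (r2 : S * D = Dᴴ * T) (r3 : D₁ᴴ * S = k • D₃)
    (r4 : Dᴴ * (H + k • Hᴴ) = h * D₃) (r5 : D₁ᴴ * h = 0) (r6 : D * D₁ = 0)
    {s₁ s₂ : Matrix ι κ K} {t₁ t₂ : Matrix κ ι K}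
    (ht1 : t₁ * e = t₁) (ht2 : t₂ * eᴴ = t₂)
    (h1 : S * s₁ + Dᴴ * s₂ = 1) (h1' : t₁ * D - t₂ * T = 1)
    (h2 : s₁ * S + D * t₁ = e) (h3 : s₁ * Dᴴ + D * t₂ = 0)
    (h4 : s₂ * S - T * t₁ = 0) (h5 : s₂ * Dᴴ - T * t₂ = eᴴ) (h6 : t₁ * s₁ + t₂ * s₂ = 0)
    (q1 : ∀ i j, s₁ i j ∈ R) (q2 : ∀ i j, D i j ∈ R) (q3 : ∀ i j, s₂ i j ∈ R)
    (q4 : ∀ i j, T i j ∈ R) :
    ∃ (u : Matrix κ ι K) (v : Matrix ι κ K), u * v = 1 ∧ v * u = e ∧
      ∀ z, z ∈ detModule R v ↔ star z ∈ detModule R v := by
  obtain ⟨a, ha⟩ : ∃ a, a = fromBlocks S Dᴴ t₁ t₂ := ⟨_, rfl⟩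
  obtain ⟨b, hb⟩ : ∃ b, b = fromBlocks s₁ D s₂ (-T) := ⟨_, rfl⟩
  have hab : a * b = 1 := by
    rw [ha, hb, fromBlocks_multiply, h1, h6, Matrix.mul_neg, Matrix.mul_neg, ← sub_eq_add_neg,
      ← sub_eq_add_neg, r2, sub_self, h1', fromBlocks_one]
  have hba : b * a = fromBlocks e 0 0 eᴴ := by
    rw [ha, hb, fromBlocks_multiply, h2, h3, Matrix.neg_mul, Matrix.neg_mul, ← sub_eq_add_neg,
      ← sub_eq_add_neg, h4, h5]
  have habR : ∀ i j, b i j ∈ R := by
    rw [hb]
    rintro (i | i) (j | j)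
    · exact q1 i j
    · exact q2 i j
    · exact q3 i j
    · exact R.neg_mem (q4 i j)
  -- splitting
  obtain ⟨u, v, huv, hvu⟩ : ∃ (u : Matrix κ ι K) (v : Matrix ι κ K), u * v = 1 ∧ v * u = e := by
    obtain ⟨r, u₀, v₀, h₀, h₀'⟩ := idem_split e he
    have h₁ : v₀ᴴ * u₀ᴴ = 1 := by rw [← conjTranspose_mul, h₀, conjTranspose_one]
    have h₁' : u₀ᴴ * v₀ᴴ = eᴴ := by rw [← conjTranspose_mul, h₀']
    have hcard := Matrix.square_of_invertible (a * fromBlocks v₀ 0 0 u₀ᴴ)
      (fromBlocks u₀ 0 0 v₀ᴴ * b) (by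
        rw [Matrix.mul_assoc, ← Matrix.mul_assoc (fromBlocks v₀ 0 0 u₀ᴴ), fromBlocks_multiply]
        simp only [Matrix.mul_zero, Matrix.zero_mul, add_zero, zero_add]
        rw [h₀', h₁', ← hba, Matrix.mul_assoc, hab, Matrix.mul_one, hab]) (by
        rw [Matrix.mul_assoc, ← Matrix.mul_assoc b, hba, fromBlocks_multiply, fromBlocks_multiply]
        simp only [Matrix.mul_zero, Matrix.zero_mul, add_zero, zero_add]
        rw [← h₀', conjTranspose_mul, Matrix.mul_assoc v₀, h₀, Matrix.mul_one,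
          Matrix.mul_assoc u₀ᴴ, h₁, Matrix.mul_one, h₀, h₁, fromBlocks_one])
    have hc : Fintype.card (Fin r) = Fintype.card κ := by
      rw [Fintype.card_sum, Fintype.card_sum] at hcard
      omega
    let f := Fintype.equivOfCardEq hc
    refine ⟨u₀.submatrix f.symm id, v₀.submatrix id f.symm, ?_, ?_⟩
    · rw [← submatrix_mul _ _ _ _ _ Function.bijective_id, h₀]
      exact submatrix_one_equiv f.symm
    · rw [submatrix_mul_equiv, h₀', submatrix_id_id]
  have uv' : vᴴ * uᴴ = 1 := by rw [← conjTranspose_mul, huv, conjTranspose_one]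
  have vu' : uᴴ * vᴴ = eᴴ := by rw [← conjTranspose_mul, hvu]
  obtain ⟨m, hm⟩ : ∃ m, m = fromBlocks (S * v) (Dᴴ * uᴴ) (t₁ * v) (t₂ * uᴴ) := ⟨_, rfl⟩
  have hμ := det_norm_one hK2 hk hD hT hSe hH1 hH2 r1 r2 r3 r4 r5 r6 ht1 ht2 h1' huv hvu
  rw [← hm] at hμ
  have hmV : m = a * fromBlocks v 0 0 uᴴ := by
    rw [hm, ha, fromBlocks_multiply]
    simp
  have hbm : b * m = fromBlocks v 0 0 uᴴ := by
    rw [hmV, ← Matrix.mul_assoc, hba, fromBlocks_multiply]
    simp only [Matrix.mul_zero, Matrix.zero_mul, add_zero, zero_add]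
    rw [← hvu, Matrix.mul_assoc, huv, Matrix.mul_one, conjTranspose_mul, Matrix.mul_assoc, uv',
      Matrix.mul_one]
  -- the semilinear involution preserves the determinant module
  have key : ∀ z ∈ detModule R v, m.det * star z ∈ detModule R v := by
    intro z hz
    refine Submodule.span_induction (p := fun z _ => m.det * star z ∈ detModule R v) ?_ ?_ ?_ ?_ hz
    · rintro _ ⟨A, hA, rfl⟩
      obtain ⟨b₁, hb₁⟩ : ∃ b₁, b₁ = fromCols s₁ D := ⟨_, rfl⟩
      obtain ⟨b₂, hb₂⟩ : ∃ b₂, b₂ = fromCols s₂ (-T) := ⟨_, rfl⟩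
      have e1 : (A * v).det = (fromRows (A * b₁) (vᴴ * b₂)).det * m.det := by
        rw [← det_mul]
        have : fromRows (A * b₁) (vᴴ * b₂) * m = fromBlocks (A * v) 0 0 1 := by
          have e2 : fromRows (A * b₁) (vᴴ * b₂) = fromBlocks A 0 0 vᴴ * b := by
            rw [hb, fromBlocks_multiply, hb₁, hb₂, mul_fromCols, mul_fromCols,
              fromRows_fromCols_eq_fromBlocks]
            simp
          rw [e2, Matrix.mul_assoc, hbm, fromBlocks_multiply, uv']
          simp
        rw [this, det_fromBlocks_zero₁₂, det_one, mul_one]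
      have e2 : m.det * star (A * v).det = star (fromRows (A * b₁) (vᴴ * b₂)).det := by
        rw [e1, star_mul]
        linear_combination (star (fromRows (A * b₁) (vᴴ * b₂)).det) * hμ
      rw [e2, star_det]
      have e3 : (fromRows (A * b₁) (vᴴ * b₂)).map star =
          fromRows ((A * b₁).map star) ((vᴴ * b₂).map star) := by
        ext i j
        rcases i with i | i <;> rfl
      have e4 : (vᴴ * b₂).map star = vᵀ * b₂.map star := by
        ext i j
        simp [Matrix.mul_apply, star_sum, mul_comm]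
      rw [e3]
      have e5 := laplace_mem R ((A * b₁).map star) ((vᴴ * b₂).map star) (fun i j => by
        rw [Matrix.map_apply]
        refine hR _ ?_
        rw [Matrix.mul_apply]
        refine R.sum_mem fun c _ => R.mul_mem (hA _ _) ?_
        rw [hb₁]
        rcases j with j | j
        · exact q1 c j
        · exact q2 c j)
      refine Submodule.span_mono ?_ e5
      rintro _ ⟨C, hC, rfl⟩
      refine ⟨(b₂.map star * C)ᵀ, fun i j => ?_, ?_⟩
      · rw [transpose_apply, Matrix.mul_apply]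
        refine R.sum_mem fun c _ => R.mul_mem ?_ (hC _ _)
        rw [Matrix.map_apply]
        refine hR _ ?_
        rw [hb₂]
        rcases c with c | c
        · exact q3 j c
        · exact R.neg_mem (q4 j c)
      · rw [e4, Matrix.mul_assoc, ← det_transpose, transpose_mul, transpose_transpose]
    · rw [star_zero, mul_zero]
      exact Submodule.zero_mem _
    · intro x y _ _ hx hy
      rw [star_add, mul_add]
      exact Submodule.add_mem _ hx hy
    · intro r x _ hx
      have : m.det * star (r • x) = (⟨star (r : K), hR r r.2⟩ : R) • (m.det * star x) := by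
        simp only [Subring.smul_def, smul_eq_mul, star_mul]
        ring
      rw [this]
      exact Submodule.smul_mem _ _ hx
  -- Hilbert 90
  obtain ⟨β, hβ0, hβ⟩ := hilbert90 hμ
  rcases hβ with hβ | hβ
  swap
  · exact ⟨u, v, huv, hvu, fun z => by rw [hβ z]⟩
  rcases isEmpty_or_nonempty κ with hκ | ⟨⟨i₀⟩⟩
  · have hI : ∀ z, z ∈ detModule R v → star z ∈ detModule R v := by
      intro z hz
      have := key z hz
      have hm1 : m.det = 1 := det_isEmpty
      rwa [hm1, one_mul] at this
    exact ⟨u, v, huv, hvu, fun z => ⟨hI z, fun h => by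
      have := hI _ h
      rwa [star_star] at this⟩⟩
  · obtain ⟨δ, hδ⟩ : ∃ δ : κ → K, δ = Function.update (fun _ => 1) i₀ β⁻¹ := ⟨_, rfl⟩
    have hδdet : (diagonal δ).det = β⁻¹ := by
      rw [det_diagonal, hδ, Finset.prod_update_of_mem (Finset.mem_univ i₀)]
      simp
    have hδ0 : ∀ i, δ i ≠ 0 := by
      intro i
      rw [hδ]
      by_cases hi : i = i₀
      · subst hi
        simpa using hβ0
      · rw [Function.update_of_ne hi]
        exact one_ne_zero
    have hinv : diagonal δ * diagonal (fun i => (δ i)⁻¹) = 1 := by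
      rw [diagonal_mul_diagonal, ← diagonal_one]
      congr 1
      ext i
      exact mul_inv_cancel₀ (hδ0 i)
    have hinv' : diagonal (fun i => (δ i)⁻¹) * diagonal δ = 1 := by
      rw [diagonal_mul_diagonal, ← diagonal_one]
      congr 1
      ext i
      exact inv_mul_cancel₀ (hδ0 i)
    have hI : ∀ z, z ∈ detModule R (v * diagonal δ) → star z ∈ detModule R (v * diagonal δ) := by
      intro z hz
      rw [detModule_mul] at hz ⊢
      obtain ⟨y, hy, rfl⟩ := hz
      refine ⟨m.det * star y, key y hy, ?_⟩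
      rw [hδdet, star_mul, star_inv₀]
      have hβs : star β ≠ 0 := by simpa using hβ0
      have : (star β)⁻¹ = β⁻¹ * m.det := by
        field_simp
        rw [mul_comm]
        exact hβ
      rw [this]
      ring
    refine ⟨diagonal (fun i => (δ i)⁻¹) * u, v * diagonal δ, ?_, ?_, fun z => ⟨hI z, fun h => by
      have := hI _ h
      rwa [star_star] at this⟩⟩
    · rw [Matrix.mul_assoc, ← Matrix.mul_assoc u, huv, Matrix.one_mul, hinv']
    · rw [Matrix.mul_assoc, ← Matrix.mul_assoc (diagonal δ), hinv, Matrix.one_mul, hvu]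

end

end Run7.h312
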