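import Mathlib

/-! The determinant of the duality isomorphism over a field with involution has norm one. -/

set_option autoImplicit false

namespace Run7.h312

open Matrix

section
variable {K : Type*} [Field K] [StarRing K]
variable {ι κ υ : Type*} [Fintype ι] [DecidableEq ι] [Fintype κ] [DecidableEq κ]
  [Fintype υ] [DecidableEq υ]

theorem det_norm_one (hK2 : (2 : K) ≠ 0) {k : K} (hk : k = 1 ∨ k = -1)
    {e : Matrix ι ι K}
    {D T : Matrix ι κ K} {S : Matrix κ ι K} {H : Matrix ι ι K} {h D₁ : Matrix κ υ K}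
    {D₃ : Matrix υ ι K}
    (hD : e * D = D) (hT : eᴴ * T = T) (hSe : S * e = S) (hH1 : eᴴ * H = H) (hH2 : H * e = H)
    (r1 : Sᴴ - k • T = H * D) (r2 : S * D = Dᴴ * T) (r3 : D₁ᴴ * S = k • D₃)
    (r4 : Dᴴ * (H + k • Hᴴ) = h * D₃) (r5 : D₁ᴴ * h = 0) (r6 : D * D₁ = 0)
    {t₁ t₂ : Matrix κ ι K} (ht1 : t₁ * e = t₁) (ht2 : t₂ * eᴴ = t₂)
    (h1' : t₁ * D - t₂ * T = 1)
    {u : Matrix κ ι K} {v : Matrix ι κ K} (huv : u * v = 1) (hvu : v * u = e) :
    (fromBlocks (S * v) (Dᴴ * uᴴ) (t₁ * v) (t₂ * uᴴ)).det *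
      star (fromBlocks (S * v) (Dᴴ * uᴴ) (t₁ * v) (t₂ * uᴴ)).det = 1 := by
  have hk2 : k * k = 1 := by rcases hk with rfl | rfl <;> norm_num
  have hks : star k = k := by rcases hk with rfl | rfl <;> simp
  have hs2 : star (2 : K) = 2 := star_ofNat 2
  obtain ⟨N, hN⟩ : ∃ N : Matrix κ κ K, N = -(h * D₁ᴴ) := ⟨_, rfl⟩
  have r6' : D₁ᴴ * Dᴴ = 0 := by rw [← conjTranspose_mul, r6, conjTranspose_zero]
  have hND : N * Dᴴ = 0 := by rw [hN, Matrix.neg_mul, Matrix.mul_assoc, r6']; simp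
  have hNN : N * N = 0 := by
    rw [hN, Matrix.neg_mul, Matrix.mul_neg, neg_neg, Matrix.mul_assoc, ← Matrix.mul_assoc D₁ᴴ, r5]
    simp
  have hNS : N * S = -(k • (h * D₃)) := by
    rw [hN, Matrix.neg_mul, Matrix.mul_assoc, r3, Matrix.mul_smul]
  have r1' : S - k • Tᴴ = Dᴴ * Hᴴ := by
    have := congrArg conjTranspose r1
    rwa [conjTranspose_sub, conjTranspose_conjTranspose, conjTranspose_smul, hks,
      conjTranspose_mul] at this
  have hkT : k • Tᴴ = S - Dᴴ * Hᴴ := by rw [← r1']; abel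
  -- the symmetrised maps
  obtain ⟨T', hT'⟩ : ∃ T', T' = T + (k / 2) • (H * D) := ⟨_, rfl⟩
  obtain ⟨S', hS'⟩ : ∃ S', S' = S - (1 / 2 : K) • (Dᴴ * Hᴴ) := ⟨_, rfl⟩
  have hhalf : star (k / 2) = k / 2 := by rw [star_div₀, hks, hs2]
  have hS'T' : S' = k • T'ᴴ := by
    rw [hT', conjTranspose_add, conjTranspose_smul, conjTranspose_mul, smul_add, hkT, hS',
      smul_smul, hhalf]
    have : k * (k / 2) = 1 / 2 := by
      rw [mul_div_assoc', hk2]
    rw [this]
    match_scalars <;> field_simp <;> ring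
  have hS'2 : S' = S + (k / 2) • (Dᴴ * H) + (1 / 2 : K) • (N * S) := by
    rw [hNS, ← r4, hS', Matrix.mul_add, Matrix.mul_smul]
    match_scalars
    · ring
    · field_simp
      linear_combination hk2
    · field_simp
      ring
  have hS'D : S' * D = Dᴴ * T' := by
    -- from the relations
    have e1 : Dᴴ * (Hᴴ + k • H) * D = 0 := by
      have a1 : Dᴴ * Sᴴ = Tᴴ * D := by
        have := congrArg conjTranspose r2
        rwa [conjTranspose_mul, conjTranspose_mul, conjTranspose_conjTranspose] at this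
      have a2 : Sᴴ = H * D + k • T := by rw [← r1]; abel
      have a3 : Tᴴ = k • S - k • (Dᴴ * Hᴴ) := by
        rw [← smul_sub, ← hkT, smul_smul, hk2, one_smul]
      rw [a2, a3, Matrix.mul_add, Matrix.mul_smul, Matrix.sub_mul, Matrix.smul_mul,
        Matrix.smul_mul, r2] at a1
      have a4 : Dᴴ * (H * D) = -(k • (Dᴴ * Hᴴ * D)) := by
        rw [eq_neg_iff_add_eq_zero]
        rw [← sub_eq_zero] at a1
        rw [← a1]
        abel
      rw [Matrix.mul_add, Matrix.add_mul, Matrix.mul_smul, Matrix.smul_mul, Matrix.mul_assoc Dᴴ H,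
        a4, smul_neg, smul_smul, hk2, one_smul]
      abel
    rw [hS', hT', Matrix.sub_mul, Matrix.mul_add, Matrix.smul_mul, Matrix.mul_smul, r2]
    rw [Matrix.mul_add, Matrix.mul_smul, Matrix.add_mul, Matrix.smul_mul] at e1
    have e2 : Dᴴ * Hᴴ * D = -(k • (Dᴴ * H * D)) := by rw [eq_neg_iff_add_eq_zero, e1]
    rw [e2, Matrix.mul_assoc Dᴴ H D]
    match_scalars <;> field_simp <;> ring
  have uv' : vᴴ * uᴴ = 1 := by rw [← conjTranspose_mul, huv, conjTranspose_one]
  have vu' : uᴴ * vᴴ = eᴴ := by rw [← conjTranspose_mul, hvu]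
  obtain ⟨m, hm⟩ : ∃ m, m = fromBlocks (S * v) (Dᴴ * uᴴ) (t₁ * v) (t₂ * uᴴ) := ⟨_, rfl⟩
  rw [← hm]
  obtain ⟨t₁', ht₁'⟩ : ∃ t, t = t₁ + (k / 2) • (t₂ * H) := ⟨_, rfl⟩
  have ht₁'e : t₁' * e = t₁' := by
    rw [ht₁', Matrix.add_mul, Matrix.smul_mul, Matrix.mul_assoc, hH2, ht1]
  have hS'e : S' * e = S' := by
    rw [hS'2, Matrix.add_mul, Matrix.add_mul, Matrix.smul_mul, Matrix.smul_mul, Matrix.mul_assoc,
      Matrix.mul_assoc, hH2, hSe]
  obtain ⟨m', hm'⟩ : ∃ m', m' = fromBlocks (S' * v) (Dᴴ * uᴴ) (t₁' * v) (t₂ * uᴴ) := ⟨_, rfl⟩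
  -- comparison of determinants
  have hEm : fromBlocks (1 + (1 / 2 : K) • N) 0 0 1 * m *
      fromBlocks 1 0 ((k / 2) • (vᴴ * H * v)) 1 = m' := by
    have a1 : uᴴ * ((k / 2) • (vᴴ * H * v)) = (k / 2) • (H * v) := by
      rw [Matrix.mul_smul, ← Matrix.mul_assoc, ← Matrix.mul_assoc, vu', hH1]
    rw [hm, fromBlocks_multiply, fromBlocks_multiply, hm', hS'2, ht₁']
    congr 1
    · simp only [Matrix.zero_mul, add_zero, Matrix.mul_one]
      have a2 : (1 + (1 / 2 : K) • N) * (Dᴴ * uᴴ) = Dᴴ * uᴴ := by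
        rw [Matrix.add_mul, Matrix.one_mul, Matrix.smul_mul, ← Matrix.mul_assoc, hND]; simp
      rw [a2, Matrix.mul_assoc Dᴴ uᴴ, a1]
      simp only [Matrix.add_mul, Matrix.one_mul, Matrix.smul_mul, Matrix.mul_smul,
        Matrix.mul_assoc]
      abel
    · simp only [Matrix.zero_mul, add_zero, Matrix.mul_zero, Matrix.mul_one, zero_add]
      rw [Matrix.add_mul, Matrix.one_mul, Matrix.smul_mul, ← Matrix.mul_assoc, hND]; simp
    · simp only [Matrix.zero_mul, zero_add, Matrix.mul_one, Matrix.one_mul]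
      rw [Matrix.mul_assoc t₂ uᴴ, a1]
      simp only [Matrix.add_mul, Matrix.smul_mul, Matrix.mul_smul, Matrix.mul_assoc]
    · simp
  have hdet : m'.det = m.det := by
    rw [← hEm, det_mul, det_mul, det_fromBlocks_zero₂₁, det_fromBlocks_zero₁₂]
    have : (1 + (1 / 2 : K) • N).det = 1 := by
      have a1 : (1 / 2 : K) • N = (-(1 / 2 : K) • h) * D₁ᴴ := by
        rw [hN, Matrix.smul_mul]
        simp
      rw [a1, det_one_add_mul_comm, Matrix.mul_smul, r5]
      simp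
    rw [this]
    simp
  -- the isometry
  obtain ⟨J, hJ⟩ : ∃ J : Matrix (κ ⊕ κ) (κ ⊕ κ) K, J = fromBlocks 0 1 (-(k • 1)) 0 := ⟨_, rfl⟩
  have hJdet : J.det * J.det = 1 := by
    rw [← det_mul, hJ, fromBlocks_multiply]
    have : fromBlocks (0 * 0 + 1 * -(k • (1 : Matrix κ κ K))) ((0 : Matrix κ κ K) * 1 + 1 * 0)
        (-(k • 1) * 0 + 0 * -(k • 1)) (-(k • (1 : Matrix κ κ K)) * 1 + 0 * 0) =
        (-k) • (1 : Matrix (κ ⊕ κ) (κ ⊕ κ) K) := by
      rw [← fromBlocks_one, fromBlocks_smul]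
      simp
    rw [this, det_smul, det_one, mul_one, Fintype.card_sum, ← two_mul, pow_mul]
    rw [neg_sq, sq, hk2, one_pow]
  obtain ⟨Y, hY⟩ : ∃ Y : Matrix κ κ K, m' * J * m'ᴴ = fromBlocks 0 (-(k • 1)) 1 Y := by
    refine ⟨(m' * J * m'ᴴ).toBlocks₂₂, ?_⟩
    have hW : ∀ W : Matrix (κ ⊕ κ) (κ ⊕ κ) K, W.toBlocks₁₁ = 0 → W.toBlocks₁₂ = -(k • 1) →
        W.toBlocks₂₁ = 1 → W = fromBlocks 0 (-(k • 1)) 1 W.toBlocks₂₂ := by
      intro W h1 h2 h3
      rw [← h1, ← h2, ← h3, fromBlocks_toBlocks]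
    apply hW
    all_goals
      rw [hm', hJ, fromBlocks_conjTranspose, fromBlocks_multiply, fromBlocks_multiply]
      first
        | rw [toBlocks_fromBlocks₁₁]
        | rw [toBlocks_fromBlocks₁₂]
        | rw [toBlocks_fromBlocks₂₁]
    · simp only [Matrix.mul_zero, zero_add, add_zero, Matrix.mul_one, Matrix.mul_neg,
        Matrix.mul_smul, Matrix.neg_mul, Matrix.smul_mul, conjTranspose_mul,
        conjTranspose_conjTranspose]
      have a1 : Dᴴ * uᴴ * (vᴴ * S'ᴴ) = k • (Dᴴ * T') := by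
        rw [Matrix.mul_assoc Dᴴ, ← Matrix.mul_assoc uᴴ, vu', ← conjTranspose_mul, hS'e, hS'T',
          conjTranspose_smul, hks, conjTranspose_conjTranspose, Matrix.mul_smul]
      have a2 : S' * v * (u * D) = S' * D := by
        rw [Matrix.mul_assoc, ← Matrix.mul_assoc v, hvu, hD]
      rw [a1, a2, hS'D, smul_smul, hk2, one_smul]
      abel
    · simp only [Matrix.mul_zero, zero_add, add_zero, Matrix.mul_one, Matrix.mul_neg,
        Matrix.mul_smul, Matrix.neg_mul, Matrix.smul_mul, conjTranspose_mul,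
        conjTranspose_conjTranspose]
      have a1 : Dᴴ * uᴴ * (vᴴ * t₁'ᴴ) = (t₁' * D)ᴴ := by
        rw [Matrix.mul_assoc Dᴴ, ← Matrix.mul_assoc uᴴ, vu', ← conjTranspose_mul, ht₁'e,
          conjTranspose_mul]
      have a2 : S' * v * (u * t₂ᴴ) = k • (t₂ * T')ᴴ := by
        have : e * t₂ᴴ = t₂ᴴ := by
          have := congrArg conjTranspose ht2
          rwa [conjTranspose_mul, conjTranspose_conjTranspose] at this
        rw [Matrix.mul_assoc, ← Matrix.mul_assoc v, hvu, this, hS'T', Matrix.smul_mul,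
          conjTranspose_mul]
      have a3 : t₁' * D - t₂ * T' = 1 := by
        rw [ht₁', hT', Matrix.add_mul, Matrix.mul_add, Matrix.smul_mul, Matrix.mul_smul,
          Matrix.mul_assoc t₂, ← h1']
        abel
      have a4 : (t₁' * D)ᴴ = 1 + (t₂ * T')ᴴ := by
        have := congrArg conjTranspose a3
        rw [conjTranspose_sub, conjTranspose_one] at this
        rw [← this]
        abel
      rw [a1, a2, a4, smul_add]
      abel
    · simp only [Matrix.mul_zero, zero_add, add_zero, Matrix.mul_one, Matrix.mul_neg,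
        Matrix.mul_smul, Matrix.neg_mul, Matrix.smul_mul, conjTranspose_mul,
        conjTranspose_conjTranspose]
      have a1 : t₂ * uᴴ * (vᴴ * S'ᴴ) = k • (t₂ * T') := by
        rw [Matrix.mul_assoc t₂, ← Matrix.mul_assoc uᴴ, vu', ← conjTranspose_mul, hS'e, hS'T',
          conjTranspose_smul, hks, conjTranspose_conjTranspose, Matrix.mul_smul]
      have a2 : t₁' * v * (u * D) = t₁' * D := by
        rw [Matrix.mul_assoc, ← Matrix.mul_assoc v, hvu, hD]
      have a3 : t₁' * D - t₂ * T' = 1 := by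
        rw [ht₁', hT', Matrix.add_mul, Matrix.mul_add, Matrix.smul_mul, Matrix.mul_smul,
          Matrix.mul_assoc t₂, ← h1']
        abel
      rw [a1, a2, smul_smul, hk2, one_smul, ← a3]
      abel
  have hfin : (fromBlocks 0 (-(k • 1)) 1 Y : Matrix (κ ⊕ κ) (κ ⊕ κ) K).det = J.det := by
    have : (fromBlocks 0 (-(k • 1)) 1 Y : Matrix (κ ⊕ κ) (κ ⊕ κ) K) =
        fromBlocks 1 0 (-(k • Y)) 1 * ((-k) • J) := by
      rw [hJ, fromBlocks_smul, fromBlocks_multiply]
      congr 1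
      · simp
      · simp
      · simp [smul_smul, hk2]
      · simp [smul_smul, hk2]
    rw [this, det_mul, det_fromBlocks_zero₁₂, det_one, det_smul, Fintype.card_sum, ← two_mul,
      pow_mul, neg_sq, sq, hk2, one_pow]
    simp
  have h5 := congrArg Matrix.det hY
  rw [hfin, det_mul, det_mul, det_conjTranspose, hdet] at h5
  have hJ0 : J.det ≠ 0 := fun h0 => by rw [h0] at hJdet; simp at hJdet
  have h6 : J.det * (m.det * star m.det) = J.det * 1 := by linear_combination h5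
  exact mul_left_cancel₀ hJ0 h6

end

end Run7.h312
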