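import Mathlib

/-! The duality chain equivalence of an orientable `PD_3`-group in terms of matrices. -/

set_option autoImplicit false

namespace Run7.h312

open Matrix

/-- Matrix form of a resolution `0 → Λ → Λⁿe → Λᵍ → Λ → ℤ → 0` (rows, acted on from the right by
`D₃`, `D₂`, `D₁`) whose dual (columns) is again exact. -/
structure Ex {Λ : Type*} [Ring Λ] [StarRing Λ] (aug : Λ →+* ℤ) {n g : ℕ}
    (D₁ : Matrix (Fin g) Unit Λ) (D₂ : Matrix (Fin n) (Fin g) Λ) (D₃ : Matrix Unit (Fin n) Λ)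
    (e : Matrix (Fin n) (Fin n) Λ) : Prop where
  aug_star : ∀ a, aug (star a) = aug a
  ee : e * e = e
  eD₂ : e * D₂ = D₂
  D₃e : D₃ * e = D₃
  D₂D₁ : D₂ * D₁ = 0
  D₃D₂ : D₃ * D₂ = 0
  aD₁ : ∀ i, aug (D₁ i ()) = 0
  aD₃ : ∀ j, aug (D₃ () j) = 0
  r0 : ∀ a : Λ, aug a = 0 → ∃ v : Fin g → Λ, (v ᵥ* D₁) () = a
  r1 : ∀ v : Fin g → Λ, v ᵥ* D₁ = 0 → ∃ w, w ᵥ* D₂ = v
  r2 : ∀ w, w ᵥ* e = w → w ᵥ* D₂ = 0 → ∃ a, a ᵥ* D₃ = w
  r3 : ∀ a, a ᵥ* D₃ = 0 → a = 0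
  c1 : ∀ c, D₂ *ᵥ c = 0 → ∃ b, D₁ *ᵥ b = c
  c2 : ∀ c, e *ᵥ c = c → D₃ *ᵥ c = 0 → ∃ b, D₂ *ᵥ b = c
  c3 : ∀ a : Λ, aug a = 0 → ∃ c, (D₃ *ᵥ c) () = a

namespace Ex

variable {Λ : Type*} [Ring Λ] [StarRing Λ] {aug : Λ →+* ℤ} {n g : ℕ}
    {D₁ : Matrix (Fin g) Unit Λ} {D₂ : Matrix (Fin n) (Fin g) Λ} {D₃ : Matrix Unit (Fin n) Λ}
    {e : Matrix (Fin n) (Fin n) Λ} (hE : Ex aug D₁ D₂ D₃ e) {m : Type*}

include hE

lemma R0 (V : Matrix m Unit Λ) (hV : ∀ i, aug (V i ()) = 0) :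
    ∃ W : Matrix m (Fin g) Λ, W * D₁ = V := by
  choose W hW using fun i => hE.r0 _ (hV i)
  refine ⟨Matrix.of W, ?_⟩
  ext i j
  rw [Matrix.mul_apply_eq_vecMul]
  exact hW i

lemma R1 (V : Matrix m (Fin g) Λ) (hV : V * D₁ = 0) :
    ∃ W : Matrix m (Fin n) Λ, W * e = W ∧ W * D₂ = V := by
  choose W hW using fun i => hE.r1 (V i) (by
    rw [← Matrix.mul_apply_eq_vecMul, hV]; rfl)
  have h1 : Matrix.of W * D₂ = V := by
    ext i j
    rw [Matrix.mul_apply_eq_vecMul]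
    exact congrFun (hW i) j
  refine ⟨Matrix.of W * e, ?_, ?_⟩
  · rw [Matrix.mul_assoc, hE.ee]
  · rw [Matrix.mul_assoc, hE.eD₂, h1]

lemma R2 (V : Matrix m (Fin n) Λ) (hVe : V * e = V) (hV : V * D₂ = 0) :
    ∃ W : Matrix m Unit Λ, W * D₃ = V := by
  choose W hW using fun i => hE.r2 (V i) (by
    rw [← Matrix.mul_apply_eq_vecMul, hVe]) (by
    rw [← Matrix.mul_apply_eq_vecMul, hV]; rfl)
  refine ⟨Matrix.of W, ?_⟩
  ext i j
  rw [Matrix.mul_apply_eq_vecMul]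
  exact congrFun (hW i) j

lemma R3 (V : Matrix m Unit Λ) (hV : V * D₃ = 0) : V = 0 := by
  ext i j
  have := hE.r3 (V i) (by rw [← Matrix.mul_apply_eq_vecMul, hV]; rfl)
  exact congrFun this j

lemma C1 (V : Matrix m (Fin g) Λ) (hV : V * D₂ᴴ = 0) :
    ∃ W : Matrix m Unit Λ, W * D₁ᴴ = V := by
  choose W hW using fun i => hE.c1 (star (V i)) (by
    have h1 : star (V i ᵥ* D₂ᴴ) = 0 := by
      rw [← Matrix.mul_apply_eq_vecMul, hV]
      exact star_zero _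
    rwa [Matrix.star_vecMul, conjTranspose_conjTranspose] at h1)
  refine ⟨Matrix.of fun i => star (W i), ?_⟩
  ext i j
  rw [Matrix.mul_apply_eq_vecMul]
  have h2 := congrArg star (hW i)
  rw [Matrix.star_mulVec, star_star] at h2
  exact congrFun h2 j

lemma C2 (V : Matrix m (Fin n) Λ) (hVe : V * eᴴ = V) (hV : V * D₃ᴴ = 0) :
    ∃ W : Matrix m (Fin g) Λ, W * D₂ᴴ = V := by
  choose W hW using fun i => hE.c2 (star (V i)) (by
    have h1 : star (V i ᵥ* eᴴ) = star (V i) := by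
      rw [← Matrix.mul_apply_eq_vecMul, hVe]
    rwa [Matrix.star_vecMul, conjTranspose_conjTranspose] at h1) (by
    have h1 : star (V i ᵥ* D₃ᴴ) = 0 := by
      rw [← Matrix.mul_apply_eq_vecMul, hV]
      exact star_zero _
    rwa [Matrix.star_vecMul, conjTranspose_conjTranspose] at h1)
  refine ⟨Matrix.of fun i => star (W i), ?_⟩
  ext i j
  rw [Matrix.mul_apply_eq_vecMul]
  have h2 := congrArg star (hW i)
  rw [Matrix.star_mulVec, star_star] at h2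
  exact congrFun h2 j

lemma e'D₃' : eᴴ * D₃ᴴ = D₃ᴴ := by rw [← conjTranspose_mul, hE.D₃e]

lemma D₂'e' : D₂ᴴ * eᴴ = D₂ᴴ := by rw [← conjTranspose_mul, hE.eD₂]

lemma D₂'D₃' : D₂ᴴ * D₃ᴴ = 0 := by rw [← conjTranspose_mul, hE.D₃D₂, conjTranspose_zero]

lemma D₁'D₂' : D₁ᴴ * D₂ᴴ = 0 := by rw [← conjTranspose_mul, hE.D₂D₁, conjTranspose_zero]

lemma e'e' : eᴴ * eᴴ = eᴴ := by rw [← conjTranspose_mul, hE.ee]

lemma C3 (V : Matrix m Unit Λ) (hV : ∀ i, aug (V i ()) = 0) :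
    ∃ W : Matrix m (Fin n) Λ, W * eᴴ = W ∧ W * D₃ᴴ = V := by
  choose W hW using fun i => hE.c3 (star (V i ())) (by rw [hE.aug_star, hV])
  have h1 : (Matrix.of fun i => star (W i)) * D₃ᴴ = V := by
    ext i j
    rw [Matrix.mul_apply_eq_vecMul]
    have h2 := congrArg star (hW i)
    rw [star_star] at h2
    have h3 : (star (W i) ᵥ* D₃ᴴ) = star (D₃ *ᵥ W i) := by rw [Matrix.star_mulVec]
    change (star (W i) ᵥ* D₃ᴴ) j = V i j
    rw [h3]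
    exact h2
  refine ⟨(Matrix.of fun i => star (W i)) * eᴴ, ?_, ?_⟩
  · rw [Matrix.mul_assoc, hE.e'e']
  · rw [Matrix.mul_assoc, hE.e'D₃', h1]

/-- augmentation of a product with `D₁` -/
lemma aug_mul_D₁ {p : Type*} (V : Matrix p (Fin g) Λ) (i : p) : aug ((V * D₁) i ()) = 0 := by
  rw [Matrix.mul_apply, map_sum]
  refine Finset.sum_eq_zero fun j _ => ?_
  rw [map_mul, hE.aD₁, mul_zero]

lemma aug_D₁'_mul {p : Type*} (V : Matrix (Fin g) p Λ) (i : p) :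
    aug ((D₁ᴴ * V) () i) = 0 := by
  rw [Matrix.mul_apply, map_sum]
  refine Finset.sum_eq_zero fun j _ => ?_
  rw [map_mul, conjTranspose_apply, hE.aug_star, hE.aD₁, zero_mul]

/-- the duality chain equivalence and its symmetry -/
theorem exists_duality : ∃ (k : ℤ) (T : Matrix (Fin n) (Fin g) Λ) (S : Matrix (Fin g) (Fin n) Λ)
    (H : Matrix (Fin n) (Fin n) Λ) (h : Matrix (Fin g) Unit Λ), (k = 1 ∨ k = -1) ∧
    eᴴ * T = T ∧ S * e = S ∧ T * D₁ = D₃ᴴ ∧ eᴴ * H = H ∧ H * e = H ∧ Sᴴ - k • T = H * D₂ ∧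
    S * D₂ = D₂ᴴ * T ∧ D₁ᴴ * S = k • D₃ ∧ D₂ᴴ * (H + k • Hᴴ) = h * D₃ ∧ D₁ᴴ * h = 0 := by
  -- T
  obtain ⟨T', hT'⟩ := hE.R0 D₃ᴴ (fun i => by rw [conjTranspose_apply, hE.aug_star, hE.aD₃])
  obtain ⟨T, hT⟩ : ∃ T, T = eᴴ * T' := ⟨_, rfl⟩
  have eT : eᴴ * T = T := by rw [hT, ← Matrix.mul_assoc, hE.e'e']
  have TD : T * D₁ = D₃ᴴ := by rw [hT, Matrix.mul_assoc, hT', hE.e'D₃']
  -- S₀
  obtain ⟨S₀, hS₀e, hS₀⟩ := hE.R1 (D₂ᴴ * T) (by rw [Matrix.mul_assoc, TD, hE.D₂'D₃'])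
  obtain ⟨t, ht⟩ := hE.R2 (D₁ᴴ * S₀) (by rw [Matrix.mul_assoc, hS₀e]) (by
    rw [Matrix.mul_assoc, hS₀, ← Matrix.mul_assoc, hE.D₁'D₂', Matrix.zero_mul])
  obtain ⟨k, hk⟩ : ∃ k, k = aug (t () ()) := ⟨_, rfl⟩
  obtain ⟨H₀, hH₀⟩ := hE.R0 (tᴴ - k • (1 : Matrix Unit Unit Λ)) (fun i => by
    rw [Matrix.sub_apply, Matrix.smul_apply, Matrix.one_apply_eq, conjTranspose_apply, map_sub,
      map_zsmul, map_one, hE.aug_star, hk]
    simp)
  have eS₀ : eᴴ * S₀ᴴ = S₀ᴴ := by rw [← conjTranspose_mul, hS₀e]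
  have S₀D : S₀ᴴ * D₁ = D₃ᴴ * tᴴ := by
    have := congrArg conjTranspose ht
    rw [conjTranspose_mul, conjTranspose_mul, conjTranspose_conjTranspose] at this
    exact this.symm
  obtain ⟨H₁', hH₁e', hH₁'⟩ := hE.R1 (S₀ᴴ - k • T - D₃ᴴ * H₀) (by
    rw [Matrix.sub_mul, Matrix.sub_mul, Matrix.smul_mul, TD, S₀D, Matrix.mul_assoc, hH₀,
      Matrix.mul_sub, Matrix.mul_smul, Matrix.mul_one]
    abel)
  obtain ⟨H₁, hH₁⟩ : ∃ H₁, H₁ = eᴴ * H₁' := ⟨_, rfl⟩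
  have H₁e : H₁ * e = H₁ := by rw [hH₁, Matrix.mul_assoc, hH₁e']
  have H₁D : H₁ * D₂ = S₀ᴴ - k • T - D₃ᴴ * H₀ := by
    rw [hH₁, Matrix.mul_assoc, hH₁', Matrix.mul_sub, Matrix.mul_sub, Matrix.mul_smul, eS₀, eT,
      ← Matrix.mul_assoc, hE.e'D₃']
  have TtD : Tᴴ * D₂ = D₂ᴴ * S₀ᴴ := by
    have := congrArg conjTranspose hS₀
    rw [conjTranspose_mul, conjTranspose_mul, conjTranspose_conjTranspose] at this
    exact this.symm
  have Tte : Tᴴ * e = Tᴴ := by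
    have := congrArg conjTranspose eT
    rwa [conjTranspose_mul, conjTranspose_conjTranspose] at this
  obtain ⟨H₂, hH₂⟩ := hE.R2 (Tᴴ - k • S₀ - D₂ᴴ * H₁) (by
    rw [Matrix.sub_mul, Matrix.sub_mul, Matrix.smul_mul, Tte, hS₀e, Matrix.mul_assoc, H₁e]) (by
    rw [Matrix.sub_mul, Matrix.sub_mul, Matrix.smul_mul, TtD, hS₀, Matrix.mul_assoc, H₁D,
      Matrix.mul_sub, Matrix.mul_sub, Matrix.mul_smul, ← Matrix.mul_assoc D₂ᴴ D₃ᴴ, hE.D₂'D₃',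
      Matrix.zero_mul]
    abel)
  -- the equation in degree three
  have D₁T : D₁ᴴ * Tᴴ = D₃ := by
    have := congrArg conjTranspose TD
    rwa [conjTranspose_mul, conjTranspose_conjTranspose] at this
  have h3 : (1 : Matrix Unit Unit Λ) - k • t - D₁ᴴ * H₂ = 0 := by
    apply hE.R3
    rw [Matrix.sub_mul, Matrix.sub_mul, Matrix.one_mul, Matrix.smul_mul, ht, Matrix.mul_assoc,
      hH₂, Matrix.mul_sub, Matrix.mul_sub, D₁T, Matrix.mul_smul, ← Matrix.mul_assoc D₁ᴴ D₂ᴴ,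
      hE.D₁'D₂', Matrix.zero_mul]
    abel
  have hkk : k * k = 1 := by
    have h4 : aug (((1 : Matrix Unit Unit Λ) - k • t - D₁ᴴ * H₂) () ()) = 0 := by rw [h3]; simp
    rw [Matrix.sub_apply, Matrix.sub_apply, map_sub, map_sub, hE.aug_D₁'_mul, Matrix.one_apply_eq,
      map_one, Matrix.smul_apply, map_zsmul, ← hk] at h4
    simp only [smul_eq_mul] at h4
    linarith
  have hk1 : k = 1 ∨ k = -1 := by
    have : (k - 1) * (k + 1) = 0 := by ring_nf; rw [sq, hkk]; ring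
    rcases mul_eq_zero.1 this with h | h
    · exact Or.inl (by linarith)
    · exact Or.inr (by linarith)
  -- normalisation
  obtain ⟨S, hS⟩ : ∃ S, S = S₀ + k • (H₂ * D₃) := ⟨_, rfl⟩
  have Se : S * e = S := by
    rw [hS, Matrix.add_mul, Matrix.smul_mul, Matrix.mul_assoc, hE.D₃e, hS₀e]
  have SD : S * D₂ = D₂ᴴ * T := by
    rw [hS, Matrix.add_mul, Matrix.smul_mul, Matrix.mul_assoc, hE.D₃D₂, hS₀]
    simp
  have D₁S : D₁ᴴ * S = k • D₃ := by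
    rw [hS, Matrix.mul_add, Matrix.mul_smul, ← ht, ← Matrix.mul_assoc]
    have h5 : D₁ᴴ * H₂ = 1 - k • t := by
      rw [sub_eq_zero] at h3
      exact h3.symm
    rw [h5, Matrix.sub_mul, Matrix.one_mul, Matrix.smul_mul, smul_sub, smul_smul, hkk, one_smul]
    abel
  have eS : eᴴ * Sᴴ = Sᴴ := by rw [← conjTranspose_mul, Se]
  have SD₁ : Sᴴ * D₁ = k • D₃ᴴ := by
    have := congrArg conjTranspose D₁S
    rwa [conjTranspose_mul, conjTranspose_conjTranspose, conjTranspose_zsmul] at this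
  obtain ⟨H', hH'e, hH'⟩ := hE.R1 (Sᴴ - k • T) (by
    rw [Matrix.sub_mul, Matrix.smul_mul, TD, SD₁, sub_self])
  obtain ⟨H, hH⟩ : ∃ H, H = eᴴ * H' := ⟨_, rfl⟩
  have He : H * e = H := by rw [hH, Matrix.mul_assoc, hH'e]
  have eH : eᴴ * H = H := by rw [hH, ← Matrix.mul_assoc, hE.e'e']
  have HD : H * D₂ = Sᴴ - k • T := by
    rw [hH, Matrix.mul_assoc, hH', Matrix.mul_sub, Matrix.mul_smul, eS, eT]
  have Hte : Hᴴ * e = Hᴴ := by
    have := congrArg conjTranspose eH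
    rwa [conjTranspose_mul, conjTranspose_conjTranspose] at this
  have HDt : D₂ᴴ * Hᴴ = S - k • Tᴴ := by
    have := congrArg conjTranspose HD
    rwa [conjTranspose_mul, conjTranspose_sub, conjTranspose_conjTranspose,
      conjTranspose_zsmul] at this
  have TtD' : Tᴴ * D₂ = D₂ᴴ * Sᴴ := by
    have := congrArg conjTranspose SD
    rw [conjTranspose_mul, conjTranspose_mul, conjTranspose_conjTranspose] at this
    exact this.symm
  obtain ⟨h, hh⟩ := hE.R2 (D₂ᴴ * (H + k • Hᴴ)) (by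
    rw [Matrix.mul_assoc, Matrix.add_mul, Matrix.smul_mul, He, Hte]) (by
    rw [Matrix.mul_add, Matrix.mul_smul, HDt, Matrix.add_mul, Matrix.mul_assoc, HD,
      Matrix.smul_mul, Matrix.sub_mul, Matrix.smul_mul, TtD', SD, smul_sub, smul_smul, hkk,
      one_smul, Matrix.mul_sub, Matrix.mul_smul]
    abel)
  refine ⟨k, T, S, H, h, hk1, eT, Se, TD, eH, He, HD.symm, SD, D₁S, hh.symm, ?_⟩
  apply hE.R3
  rw [Matrix.mul_assoc, hh, ← Matrix.mul_assoc, hE.D₁'D₂', Matrix.zero_mul]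

/-- the contraction of `0 → Λᵍ → P ⊕ P* → Λᵍ → 0` -/
theorem exists_contraction {k : ℤ} {T : Matrix (Fin n) (Fin g) Λ} {S : Matrix (Fin g) (Fin n) Λ}
    (hk : k = 1 ∨ k = -1) (eT : eᴴ * T = T) (Se : S * e = S) (TD : T * D₁ = D₃ᴴ)
    (SD : S * D₂ = D₂ᴴ * T) (DS : D₁ᴴ * S = k • D₃) :
    ∃ (s₁ s₂ : Matrix (Fin n) (Fin g) Λ) (t₁ t₂ : Matrix (Fin g) (Fin n) Λ),
      e * s₁ = s₁ ∧ eᴴ * s₂ = s₂ ∧ t₁ * e = t₁ ∧ t₂ * eᴴ = t₂ ∧
      S * s₁ + D₂ᴴ * s₂ = 1 ∧ t₁ * D₂ - t₂ * T = 1 ∧ s₁ * S + D₂ * t₁ = e ∧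
      s₁ * D₂ᴴ + D₂ * t₂ = 0 ∧ s₂ * S - T * t₁ = 0 ∧ s₂ * D₂ᴴ - T * t₂ = eᴴ ∧
      t₁ * s₁ + t₂ * s₂ = 0 := by
  have hkk : k * k = 1 := by rcases hk with rfl | rfl <;> norm_num
  -- injectivity
  have inj : ∀ {m : Type} (X : Matrix m (Fin g) Λ), X * S = 0 → X * D₂ᴴ = 0 → X = 0 := by
    intro m X h1 h2
    obtain ⟨W, hW⟩ := hE.C1 X h2
    have h3 : (k • W) * D₃ = 0 := by
      rw [Matrix.smul_mul, ← Matrix.mul_smul, ← DS, ← Matrix.mul_assoc, hW, h1]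
    have h4 := hE.R3 _ h3
    have h5 : W = 0 := by
      calc W = (k * k) • W := by rw [hkk, one_smul]
        _ = k • (k • W) := by rw [smul_smul]
        _ = 0 := by rw [h4, smul_zero]
    rw [← hW, h5, Matrix.zero_mul]
  -- the kernel
  have ker : ∀ {m : Type} (p w : Matrix m (Fin n) Λ), p * e = p → w * eᴴ = w →
      p * D₂ = w * T → ∃ v : Matrix m (Fin g) Λ, v * S = p ∧ v * D₂ᴴ = w := by
    intro m p w hp hw hpw
    obtain ⟨v, hv⟩ := hE.C2 w hw (by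
      rw [← TD, ← Matrix.mul_assoc, ← hpw, Matrix.mul_assoc, hE.D₂D₁, Matrix.mul_zero])
    obtain ⟨a, ha⟩ := hE.R2 (p - v * S) (by
      rw [Matrix.sub_mul, hp, Matrix.mul_assoc, Se]) (by
      rw [Matrix.sub_mul, Matrix.mul_assoc, SD, ← Matrix.mul_assoc, hv, hpw, sub_self])
    refine ⟨v + k • (a * D₁ᴴ), ?_, ?_⟩
    · rw [Matrix.add_mul, Matrix.smul_mul, Matrix.mul_assoc, DS, Matrix.mul_smul, smul_smul, hkk,
        one_smul, ha]
      abel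
    · rw [Matrix.add_mul, Matrix.smul_mul, Matrix.mul_assoc, hE.D₁'D₂', hv]
      simp
  -- surjectivity
  obtain ⟨w, hwe, hw⟩ := hE.C3 (-D₁) (fun i => by
    rw [Matrix.neg_apply, map_neg, hE.aD₁, neg_zero])
  obtain ⟨p, hpe, hp⟩ := hE.R1 (1 + w * T) (by
    rw [Matrix.add_mul, Matrix.one_mul, Matrix.mul_assoc, TD, hw]; abel)
  have hpw : p * D₂ - w * T = 1 := by rw [hp]; abel
  obtain ⟨s₁, h1, h2⟩ := ker (e - D₂ * p) (-(D₂ * w)) (by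
    rw [Matrix.sub_mul, hE.ee, Matrix.mul_assoc, hpe]) (by
    rw [Matrix.neg_mul, Matrix.mul_assoc, hwe]) (by
    have : D₂ * (p * D₂ - w * T) = D₂ := by rw [hpw, Matrix.mul_one]
    rw [Matrix.mul_sub, ← Matrix.mul_assoc, ← Matrix.mul_assoc] at this
    rw [Matrix.sub_mul, hE.eD₂, Matrix.neg_mul, sub_eq_iff_eq_add]
    nth_rewrite 1 [← this]
    abel)
  obtain ⟨s₂, h3, h4⟩ := ker (T * p) (eᴴ + T * w) (by
    rw [Matrix.mul_assoc, hpe]) (by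
    rw [Matrix.add_mul, hE.e'e', Matrix.mul_assoc, hwe]) (by
    have : T * (p * D₂ - w * T) = T := by rw [hpw, Matrix.mul_one]
    rw [Matrix.mul_sub, ← Matrix.mul_assoc, ← Matrix.mul_assoc, sub_eq_iff_eq_add] at this
    rw [Matrix.add_mul, eT, this])
  -- replace `s₁` by `e * s₁` etc.: they already satisfy the equations
  have es₁ : e * s₁ = s₁ := by
    have : (e * s₁ - s₁) = 0 := by
      apply inj
      · rw [Matrix.sub_mul, Matrix.mul_assoc, h1, Matrix.mul_sub, hE.ee, ← Matrix.mul_assoc, hE.eD₂,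
          sub_self]
      · rw [Matrix.sub_mul, Matrix.mul_assoc, h2, Matrix.mul_neg, ← Matrix.mul_assoc, hE.eD₂,
          sub_self]
    exact sub_eq_zero.1 this
  have es₂ : eᴴ * s₂ = s₂ := by
    have : (eᴴ * s₂ - s₂) = 0 := by
      apply inj
      · rw [Matrix.sub_mul, Matrix.mul_assoc, h3, ← Matrix.mul_assoc, eT, sub_self]
      · rw [Matrix.sub_mul, Matrix.mul_assoc, h4, Matrix.mul_add, hE.e'e', ← Matrix.mul_assoc, eT,
          sub_self]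
    exact sub_eq_zero.1 this
  have q1 : S * s₁ + D₂ᴴ * s₂ = 1 := by
    have : (S * s₁ + D₂ᴴ * s₂ - 1) = 0 := by
      apply inj
      · rw [Matrix.sub_mul, Matrix.add_mul, Matrix.mul_assoc, h1, Matrix.mul_assoc, h3,
          Matrix.mul_sub, Se, ← Matrix.mul_assoc, SD, Matrix.one_mul, ← Matrix.mul_assoc]
        abel
      · rw [Matrix.sub_mul, Matrix.add_mul, Matrix.mul_assoc, h2, Matrix.mul_assoc, h4,
          Matrix.mul_neg, ← Matrix.mul_assoc, SD, Matrix.mul_add, hE.D₂'e', Matrix.one_mul,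
          ← Matrix.mul_assoc]
        abel
    exact sub_eq_zero.1 this
  have q2 : s₁ * S + D₂ * p = e := by rw [h1]; abel
  have q3 : s₁ * D₂ᴴ + D₂ * w = 0 := by rw [h2]; abel
  have q4 : s₂ * S - T * p = 0 := by rw [h3]; abel
  have q5 : s₂ * D₂ᴴ - T * w = eᴴ := by rw [h4]; abel
  refine ⟨s₁, s₂, p, w, es₁, es₂, hpe, hwe, q1, hpw, q2, q3, q4, q5, ?_⟩
  apply inj
  · have a1 : p * (s₁ * S + D₂ * p) + w * (s₂ * S - T * p) = p := by
      rw [q2, q4, hpe]; simp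
    have a2 : (p * s₁ + w * s₂) * S = p * (s₁ * S + D₂ * p) + w * (s₂ * S - T * p) -
        (p * D₂ - w * T) * p := by
      simp only [Matrix.add_mul, Matrix.mul_add, Matrix.sub_mul, Matrix.mul_sub, Matrix.mul_assoc]
      abel
    rw [a2, a1, hpw, Matrix.one_mul, sub_self]
  · have a1 : p * (s₁ * D₂ᴴ + D₂ * w) + w * (s₂ * D₂ᴴ - T * w) = w := by
      rw [q3, q5, hwe]; simp
    have a2 : (p * s₁ + w * s₂) * D₂ᴴ = p * (s₁ * D₂ᴴ + D₂ * w) + w * (s₂ * D₂ᴴ - T * w) -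
        (p * D₂ - w * T) * w := by
      simp only [Matrix.add_mul, Matrix.mul_add, Matrix.sub_mul, Matrix.mul_sub, Matrix.mul_assoc]
      abel
    rw [a2, a1, hpw, Matrix.one_mul, sub_self]

end Ex

end Run7.h312
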