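import Pool.Agent.Run7.h312.Res3
import Pool.Agent.Run7.h312.AlgAB

/-! Statement-level definitions for the results on orientable `PD_3`-groups, and the main theorems. -/

set_option autoImplicit false

namespace Run7.h312

open MonoidAlgebra Matrix

/-- The special resolution. Here `Λ = ℤ[G]`, `x` is a tuple of `g` elements of `G`, matrices act on
row vectors from the right and `P` is the projective module of the row vectors `w` of length `n`
with `w e = w`, where `e` is an idempotent matrix. The clauses say that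
`0 → Λ → P → Λᵍ → Λ → ℤ → 0`, with maps `D₃`, `D₂`, the column of the `x i - 1` and the
augmentation, is a well defined and exact sequence. -/
structure IsSpecial {G : Type} [Group G] {g n : ℕ} (x : Fin g → G)
    (D₂ : Matrix (Fin n) (Fin g) (MonoidAlgebra ℤ G))
    (D₃ : Matrix Unit (Fin n) (MonoidAlgebra ℤ G))
    (e : Matrix (Fin n) (Fin n) (MonoidAlgebra ℤ G)) : Prop where
  idem : e * e = e
  eD₂ : e * D₂ = D₂
  D₃e : D₃ * e = D₃
  exact₀ : ∀ a : MonoidAlgebra ℤ G, aug G a = 0 ↔ ∃ v : Fin g → MonoidAlgebra ℤ G,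
    (v ᵥ* col x) () = a
  exact₁ : ∀ v : Fin g → MonoidAlgebra ℤ G, v ᵥ* col x = 0 ↔ ∃ w, w ᵥ* D₂ = v
  exact₂ : ∀ w, w ᵥ* e = w → (w ᵥ* D₂ = 0 ↔ ∃ a : Unit → MonoidAlgebra ℤ G, a ᵥ* D₃ = w)
  exact₃ : ∀ a : Unit → MonoidAlgebra ℤ G, a ᵥ* D₃ = 0 → a = 0

/-- the matrix of the dual map: transpose and apply the involution `g ↦ g⁻¹` to all entries -/
noncomputable def dual {G : Type} [Group G] {m n : Type} (M : Matrix m n (MonoidAlgebra ℤ G)) :
    Matrix n m (MonoidAlgebra ℤ G) :=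
  Matrix.of fun i j => conj G (M j i)

/-- the matrix obtained by applying the ring homomorphism `ℤ[G] → A` induced by `ρ` -/
noncomputable def extend {G : Type} [Group G] {m n : Type} {A : Type*} [Ring A] [StarRing A]
    (ρ : G →* unitary A) (M : Matrix m n (MonoidAlgebra ℤ G)) : Matrix m n A :=
  M.map (MonoidAlgebra.lift ℤ A G ((unitary A).subtype.comp ρ))

lemma Ex.isSpecial {G : Type} [Group G] {g n : ℕ} {x : Fin g → G}
    {D₂ : Matrix (Fin n) (Fin g) (MonoidAlgebra ℤ G)}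
    {D₃ : Matrix Unit (Fin n) (MonoidAlgebra ℤ G)}
    {e : Matrix (Fin n) (Fin n) (MonoidAlgebra ℤ G)}
    (h : letI := starRing G; Ex (aug G) (col x) D₂ D₃ e) : IsSpecial x D₂ D₃ e := by
  let _ := starRing G
  exact
  { idem := h.ee
    eD₂ := h.eD₂
    D₃e := h.D₃e
    exact₀ := fun a => ⟨h.r0 a, by
      rintro ⟨v, rfl⟩
      rw [vecMul_col, aug_D1]⟩
    exact₁ := fun v => ⟨h.r1 v, by
      rintro ⟨w, rfl⟩
      rw [Matrix.vecMul_vecMul, h.D₂D₁, Matrix.vecMul_zero]⟩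
    exact₂ := fun w hw => ⟨h.r2 w hw, by
      rintro ⟨a, rfl⟩
      rw [Matrix.vecMul_vecMul, h.D₃D₂, Matrix.vecMul_zero]⟩
    exact₃ := h.r3 }

lemma lift_star {G : Type} [Group G] {A : Type*} [Ring A] [StarRing A] (ρ : G →* unitary A)
    (a : MonoidAlgebra ℤ G) :
    MonoidAlgebra.lift ℤ A G ((unitary A).subtype.comp ρ) (conj G a) =
      star (MonoidAlgebra.lift ℤ A G ((unitary A).subtype.comp ρ) a) := by
  induction a using MonoidAlgebra.induction_linear with
  | zero => rw [conj_zero, map_zero, star_zero]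
  | add x y hx hy => rw [conj_add, map_add, map_add, hx, hy, star_add]
  | single g n =>
    rw [conj_single, MonoidAlgebra.lift_single, MonoidAlgebra.lift_single, star_zsmul]
    congr 1
    simp only [MonoidHom.comp_apply, map_inv]
    rw [← Unitary.star_eq_inv]
    rfl

theorem main_A {G : Type} [Group G] (hG : IsOrientablePD3 G) {g : ℕ} (x : Fin g → G)
    (hx : Subgroup.closure (Set.range x) = ⊤) :
    ∃ (n : ℕ) (D₂ : Matrix (Fin n) (Fin g) (MonoidAlgebra ℤ G))
      (D₃ : Matrix Unit (Fin n) (MonoidAlgebra ℤ G))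
      (e : Matrix (Fin n) (Fin n) (MonoidAlgebra ℤ G)), IsSpecial x D₂ D₃ e ∧
      ∃ (a : Matrix (Fin g ⊕ Fin g) (Fin n ⊕ Fin n) (MonoidAlgebra ℤ G))
        (b : Matrix (Fin n ⊕ Fin n) (Fin g ⊕ Fin g) (MonoidAlgebra ℤ G)),
        a * b = 1 ∧ b * a = Matrix.fromBlocks e 0 0 (dual e) := by
  obtain ⟨n, D₂, D₃, e, h⟩ := exists_Ex hG x hx
  refine ⟨n, D₂, D₃, e, Ex.isSpecial h, ?_⟩
  let _ := starRing G
  exact h.self_dual

theorem main_B {G : Type} [Group G] (hG : IsOrientablePD3 G) {g : ℕ} (x : Fin g → G)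
    (hx : Subgroup.closure (Set.range x) = ⊤) :
    ∃ (n : ℕ) (D₂ : Matrix (Fin n) (Fin g) (MonoidAlgebra ℤ G))
      (D₃ : Matrix Unit (Fin n) (MonoidAlgebra ℤ G))
      (e : Matrix (Fin n) (Fin n) (MonoidAlgebra ℤ G)), IsSpecial x D₂ D₃ e ∧
      ∀ (A : Type*) [Ring A] [StarRing A] [Algebra ℂ A] [StarModule ℂ A], PosMat A →
        ∀ ρ : G →* unitary A, ∃ (u : Matrix (Fin g) (Fin n) A) (v : Matrix (Fin n) (Fin g) A),
          u * v = 1 ∧ v * u = extend ρ e := by
  obtain ⟨n, D₂, D₃, e, h⟩ := exists_Ex hG x hx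
  refine ⟨n, D₂, D₃, e, Ex.isSpecial h, ?_⟩
  intro A _ _ _ _ hA ρ
  let _ := starRing G
  exact h.free_over hA
    (MonoidAlgebra.lift ℤ A G ((unitary A).subtype.comp ρ) : MonoidAlgebra ℤ G →+* A)
    (fun a => lift_star ρ a)

end Run7.h312
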