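import Pool.Agent.Run7.h312.DetInv
import Pool.Agent.Run7.h312.Spec

/-! Matrices over `ℤ[G]` under a unitary representation. -/

set_option autoImplicit false

namespace Run7.h312

open MonoidAlgebra Matrix

/-- the block matrix obtained by applying a matrix valued function to all entries -/
def flat {Λ K : Type*} {d : ℕ} (φ : Λ → Matrix (Fin d) (Fin d) K) {p q : Type*}
    (M : Matrix p q Λ) : Matrix (p × Fin d) (q × Fin d) K :=
  Matrix.of fun i j => φ (M i.1 j.1) i.2 j.2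

section
variable {Λ K : Type*} [Ring Λ] [Field K] {d : ℕ} (φ : Λ →+* Matrix (Fin d) (Fin d) K)
variable {p q r : Type*}

lemma flat_mul [Fintype q] (M : Matrix p q Λ) (N : Matrix q r Λ) :
    flat φ (M * N) = flat φ M * flat φ N := by
  ext ⟨i, a⟩ ⟨j, b⟩
  simp only [flat, Matrix.of_apply, Matrix.mul_apply, map_sum, map_mul, Matrix.sum_apply,
    Fintype.sum_prod_type]

lemma flat_add (M N : Matrix p q Λ) : flat φ (M + N) = flat φ M + flat φ N := by
  ext ⟨i, a⟩ ⟨j, b⟩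
  simp [flat]

lemma flat_sub (M N : Matrix p q Λ) : flat φ (M - N) = flat φ M - flat φ N := by
  ext ⟨i, a⟩ ⟨j, b⟩
  simp [flat]

lemma flat_zero : flat φ (0 : Matrix p q Λ) = 0 := by
  ext ⟨i, a⟩ ⟨j, b⟩
  simp [flat]

lemma flat_one [DecidableEq p] : flat φ (1 : Matrix p p Λ) = 1 := by
  ext ⟨i, a⟩ ⟨j, b⟩
  rw [flat, Matrix.of_apply, Matrix.one_apply, Matrix.one_apply]
  by_cases h : i = j
  · subst h
    rw [if_pos rfl, map_one, Matrix.one_apply]
    simp
  · rw [if_neg h, map_zero, Matrix.zero_apply, if_neg]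
    simp [h]

lemma flat_zsmul (k : ℤ) (M : Matrix p q Λ) : flat φ (k • M) = (k : K) • flat φ M := by
  ext ⟨i, a⟩ ⟨j, b⟩
  change φ (k • M i j) a b = (k : K) * φ (M i j) a b
  rw [map_zsmul, Matrix.smul_apply, zsmul_eq_mul]

lemma flat_conj [StarRing Λ] [StarRing K] (hφ : ∀ a, φ (star a) = star (φ a)) (M : Matrix p q Λ) :
    flat φ Mᴴ = (flat φ M)ᴴ := by
  ext ⟨i, a⟩ ⟨j, b⟩
  simp only [flat, Matrix.of_apply, conjTranspose_apply, hφ, star_apply]

end

section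
variable {Λ : Type*} [Ring Λ] [StarRing Λ] {aug : Λ →+* ℤ} {n g : ℕ}
    {D₁ : Matrix (Fin g) Unit Λ} {D₂ : Matrix (Fin n) (Fin g) Λ} {D₃ : Matrix Unit (Fin n) Λ}
    {e : Matrix (Fin n) (Fin n) Λ} (hE : Ex aug D₁ D₂ D₃ e)

include hE

theorem Ex.det_conj {K : Type*} [Field K] [StarRing K] (hK2 : (2 : K) ≠ 0) (R : Subring K)
    (hR : ∀ r ∈ R, star r ∈ R) {d : ℕ} (φ : Λ →+* Matrix (Fin d) (Fin d) K)
    (hφ : ∀ a, φ (star a) = star (φ a)) (hφR : ∀ a i j, φ a i j ∈ R) :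
    ∃ (u : Matrix (Fin g × Fin d) (Fin n × Fin d) K) (v : Matrix (Fin n × Fin d) (Fin g × Fin d) K),
      u * v = 1 ∧ v * u = flat φ e ∧ ∀ z, z ∈ detModule R v ↔ star z ∈ detModule R v := by
  obtain ⟨k, T, S, H, h, hk, eT, Se, TD, eH, He, hH, SD, DS, hh, Dh⟩ := hE.exists_duality
  obtain ⟨s₁, s₂, t₁, t₂, es₁, es₂, te₁, te₂, q1, q2, q3, q4, q5, q6, q7⟩ :=
    hE.exists_contraction hk eT Se TD SD DS
  refine det_invariant R hR hK2 (k := (k : K)) ?_ (e := flat φ e) ?_ (D := flat φ D₂)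
    (T := flat φ T) (S := flat φ S) (H := flat φ H) (h := flat φ h) (D₁ := flat φ D₁)
    (D₃ := flat φ D₃) ?_ ?_ ?_ ?_ ?_ ?_ ?_ ?_ ?_ ?_ ?_ (s₁ := flat φ s₁) (s₂ := flat φ s₂)
    (t₁ := flat φ t₁) (t₂ := flat φ t₂) ?_ ?_ ?_ ?_ ?_ ?_ ?_ ?_ ?_
    (fun i j => hφR _ _ _) (fun i j => hφR _ _ _) (fun i j => hφR _ _ _) (fun i j => hφR _ _ _)
  · rcases hk with rfl | rfl <;> simp
  · rw [← flat_mul, hE.ee]
  · rw [← flat_mul, hE.eD₂]
  · rw [← flat_conj φ hφ, ← flat_mul, eT]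
  · rw [← flat_mul, Se]
  · rw [← flat_conj φ hφ, ← flat_mul, eH]
  · rw [← flat_mul, He]
  · rw [← flat_conj φ hφ, ← flat_zsmul, ← flat_sub, ← flat_mul, hH]
  · rw [← flat_conj φ hφ, ← flat_mul, ← flat_mul, SD]
  · rw [← flat_conj φ hφ, ← flat_mul, ← flat_zsmul, DS]
  · rw [← flat_conj φ hφ, ← flat_conj φ hφ, ← flat_zsmul, ← flat_add, ← flat_mul, ← flat_mul, hh]
  · rw [← flat_conj φ hφ, ← flat_mul, Dh, flat_zero]
  · rw [← flat_mul, hE.D₂D₁, flat_zero]
  · rw [← flat_mul, te₁]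
  · rw [← flat_conj φ hφ, ← flat_mul, te₂]
  · rw [← flat_conj φ hφ, ← flat_mul, ← flat_mul, ← flat_add, q1, flat_one]
  · rw [← flat_mul, ← flat_mul, ← flat_sub, q2, flat_one]
  · rw [← flat_mul, ← flat_mul, ← flat_add, q3]
  · rw [← flat_conj φ hφ, ← flat_mul, ← flat_mul, ← flat_add, q4, flat_zero]
  · rw [← flat_mul, ← flat_mul, ← flat_sub, q5, flat_zero]
  · rw [← flat_conj φ hφ, ← flat_conj φ hφ, ← flat_mul, ← flat_mul, ← flat_sub, q6]
  · rw [← flat_mul, ← flat_mul, ← flat_add, q7, flat_zero]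

end

/-- the ring homomorphism `ℤ[G] → A` induced by a homomorphism from `G` to the monoid `A` -/
noncomputable def liftHom {G : Type} [Group G] {A : Type*} [Ring A] (f : G →* A) :
    MonoidAlgebra ℤ G →+* A :=
  (MonoidAlgebra.lift ℤ A G f : MonoidAlgebra ℤ G →ₐ[ℤ] A)

/-- the matrix valued homomorphism `ℤ[G] → M_d(K)` induced by a unitary representation -/
noncomputable def rep {G : Type} [Group G] {K : Type*} [CommRing K] [StarRing K] {d : ℕ}
    (ρ : G →* Matrix.unitaryGroup (Fin d) K) :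
    MonoidAlgebra ℤ G →+* Matrix (Fin d) (Fin d) K :=
  liftHom ((Matrix.unitaryGroup (Fin d) K).subtype.comp ρ)

lemma rep_mem {G : Type} [Group G] {K : Type*} [CommRing K] [StarRing K] {d : ℕ}
    (ρ : G →* Matrix.unitaryGroup (Fin d) K) (R : Subring K)
    (hρ : ∀ x i j, (ρ x : Matrix (Fin d) (Fin d) K) i j ∈ R) (a : MonoidAlgebra ℤ G)
    (i j : Fin d) : rep ρ a i j ∈ R := by
  induction a using MonoidAlgebra.induction_linear with
  | zero => rw [map_zero]; exact R.zero_mem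
  | add x y hx hy => rw [map_add]; exact R.add_mem hx hy
  | single g n =>
    have : rep ρ (single g n) = n • (ρ g : Matrix (Fin d) (Fin d) K) :=
      MonoidAlgebra.lift_single ..
    rw [this, Matrix.smul_apply]
    exact R.zsmul_mem (hρ g i j) n

/-- all matrices of the representation have entries in the subring `R` -/
def IsIntegral {G : Type} [Group G] {K : Type*} [CommRing K] [StarRing K] (R : Subring K) {d : ℕ}
    (ρ : G →* Matrix.unitaryGroup (Fin d) K) : Prop :=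
  ∀ y i j, (ρ y : Matrix (Fin d) (Fin d) K) i j ∈ R

/-- The `R`-module of the idempotent `f = v u` (with `u v = 1`), which is isomorphic to the row
lattice of `v`, has for a suitable choice of `u`, `v` a determinant module invariant under the
involution. -/
def HasRealDet {K : Type*} [CommRing K] [StarRing K] (R : Subring K) {ι κ : Type} [Fintype ι]
    [Fintype κ] [DecidableEq κ] (f : Matrix ι ι K) : Prop :=
  ∃ (u : Matrix κ ι K) (v : Matrix ι κ K), u * v = 1 ∧ v * u = f ∧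
    ∀ z, z ∈ detModule R v ↔ star z ∈ detModule R v

theorem main_D {G : Type} [Group G] (hG : IsOrientablePD3 G) {g : ℕ} (x : Fin g → G)
    (hx : Subgroup.closure (Set.range x) = ⊤) :
    ∃ (n : ℕ) (D₂ : Matrix (Fin n) (Fin g) (MonoidAlgebra ℤ G))
      (D₃ : Matrix Unit (Fin n) (MonoidAlgebra ℤ G))
      (e : Matrix (Fin n) (Fin n) (MonoidAlgebra ℤ G)), IsSpecial x D₂ D₃ e ∧
      ∀ (K : Type*) [Field K] [StarRing K], (2 : K) ≠ 0 → ∀ R : Subring K,
        (∀ r ∈ R, star r ∈ R) → ∀ (d : ℕ) (ρ : G →* Matrix.unitaryGroup (Fin d) K),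
        IsIntegral R ρ → HasRealDet (κ := Fin g × Fin d) R (flat (rep ρ) e) := by
  obtain ⟨n, D₂, D₃, e, h⟩ := exists_Ex hG x hx
  refine ⟨n, D₂, D₃, e, Ex.isSpecial h, ?_⟩
  intro K _ _ hK R hR d ρ hρ
  let _ := starRing G
  exact h.det_conj hK R hR (rep ρ) (fun a => lift_star ρ a) (rep_mem ρ R hρ)

end Run7.h312
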