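import Mathlib

/-! The integral group ring: augmentation, involution, augmentation ideal. -/

set_option autoImplicit false

namespace Run7.h312

open MonoidAlgebra

/-- the augmentation `ℤ[G] → ℤ` -/
noncomputable def aug (G : Type*) [Group G] : MonoidAlgebra ℤ G →+* ℤ :=
  (MonoidAlgebra.lift ℤ ℤ G (1 : G →* ℤ) : MonoidAlgebra ℤ G →ₐ[ℤ] ℤ)

section
variable {G : Type*} [Group G]

@[simp] lemma aug_single (g : G) (n : ℤ) : aug G (single g n) = n := by
  simp [aug]

lemma aug_of (g : G) : aug G (of ℤ G g) = 1 := by
  rw [of_apply, aug_single]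

/-- the canonical involution `g ↦ g⁻¹` of `ℤ[G]` -/
noncomputable def conj (G : Type*) [Group G] : MonoidAlgebra ℤ G → MonoidAlgebra ℤ G :=
  fun a => mapDomain (fun g : G => g⁻¹) a

lemma conj_single (g : G) (n : ℤ) : conj G (single g n) = single g⁻¹ n := mapDomain_single ..

lemma conj_add (a b : MonoidAlgebra ℤ G) : conj G (a + b) = conj G a + conj G b :=
  mapDomain_add _ a b

lemma conj_zero : conj G 0 = 0 := mapDomain_zero _

lemma conj_conj (a : MonoidAlgebra ℤ G) : conj G (conj G a) = a := by
  induction a using MonoidAlgebra.induction_linear with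
  | zero => rw [conj_zero, conj_zero]
  | add x y hx hy => rw [conj_add, conj_add, hx, hy]
  | single g n => rw [conj_single, conj_single, inv_inv]

lemma conj_mul (a b : MonoidAlgebra ℤ G) : conj G (a * b) = conj G b * conj G a := by
  induction a using MonoidAlgebra.induction_linear with
  | zero => rw [zero_mul, conj_zero, mul_zero]
  | add x y hx hy => rw [add_mul, conj_add, hx, hy, conj_add, mul_add]
  | single g n =>
    induction b using MonoidAlgebra.induction_linear with
    | zero => rw [mul_zero, conj_zero, zero_mul]
    | add x y hx hy => rw [mul_add, conj_add, hx, hy, conj_add, add_mul]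
    | single h m =>
      rw [single_mul_single, conj_single, conj_single, conj_single, single_mul_single,
        mul_inv_rev, mul_comm n m]

/-- the `*`-ring structure on `ℤ[G]` -/
noncomputable abbrev starRing (G : Type*) [Group G] : StarRing (MonoidAlgebra ℤ G) where
  star := conj G
  star_involutive := conj_conj
  star_mul := conj_mul
  star_add := conj_add

lemma aug_conj (a : MonoidAlgebra ℤ G) : aug G (conj G a) = aug G a := by
  induction a using MonoidAlgebra.induction_linear with
  | zero => rw [conj_zero]
  | add x y hx hy => rw [conj_add, map_add, map_add, hx, hy]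
  | single g n => rw [conj_single, aug_single, aug_single]

/-- the augmentation ideal is generated by the `x - 1`, `x` in a generating set -/
theorem aug_ideal {g : ℕ} (x : Fin g → G) (hx : Subgroup.closure (Set.range x) = ⊤)
    (a : MonoidAlgebra ℤ G) (ha : aug G a = 0) :
    ∃ v : Fin g → MonoidAlgebra ℤ G, ∑ i, v i * (of ℤ G (x i) - 1) = a := by
  classical
  let I : Submodule (MonoidAlgebra ℤ G) (MonoidAlgebra ℤ G) :=
    Submodule.span (MonoidAlgebra ℤ G) (Set.range fun i => of ℤ G (x i) - 1)
  have h1 : ∀ h : G, of ℤ G h - 1 ∈ I := by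
    intro h
    have hh : h ∈ Subgroup.closure (Set.range x) := by rw [hx]; trivial
    induction hh using Subgroup.closure_induction with
    | mem y hy =>
      obtain ⟨i, rfl⟩ := hy
      exact Submodule.subset_span ⟨i, rfl⟩
    | one => rw [map_one, sub_self]; exact I.zero_mem
    | mul y z _ _ hy hz =>
      have : of ℤ G (y * z) - 1 = of ℤ G y • (of ℤ G z - 1) + (of ℤ G y - 1) := by
        rw [map_mul, smul_eq_mul]; noncomm_ring
      rw [this]
      exact I.add_mem (I.smul_mem _ hz) hy
    | inv y _ hy =>
      have : of ℤ G y⁻¹ - 1 = -(of ℤ G y⁻¹ • (of ℤ G y - 1)) := by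
        rw [smul_eq_mul, mul_sub, ← map_mul, inv_mul_cancel, map_one, mul_one]
        abel
      rw [this]
      exact I.neg_mem (I.smul_mem _ hy)
  have h2 : ∀ b : MonoidAlgebra ℤ G, b - (aug G b) • (1 : MonoidAlgebra ℤ G) ∈ I := by
    intro b
    induction b using MonoidAlgebra.induction_linear with
    | zero => simp
    | add y z hy hz =>
      have : y + z - (aug G (y + z)) • (1 : MonoidAlgebra ℤ G) =
          (y - (aug G y) • (1 : MonoidAlgebra ℤ G)) + (z - (aug G z) • (1 : MonoidAlgebra ℤ G)) := by
        rw [map_add, add_smul]; abel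
      rw [this]
      exact I.add_mem hy hz
    | single h n =>
      have : single h n - (aug G (single h n)) • (1 : MonoidAlgebra ℤ G) =
          n • (of ℤ G h - 1) := by
        rw [aug_single, smul_sub, of_apply, smul_single]
        simp
      rw [this]
      exact zsmul_mem (h1 h) n
  have h3 := h2 a
  rw [ha, zero_smul, sub_zero] at h3
  obtain ⟨v, hv⟩ := (Submodule.mem_span_range_iff_exists_fun _).1 h3
  exact ⟨v, hv⟩

end

end Run7.h312
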