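import Pool.Agent.Run7.h312.ModLem

/-! The module in degree two of the special resolution. -/

set_option autoImplicit false

namespace Run7.h312

theorem glue {R : Type} [Ring R] {P0 P1 P2 P3 L : Type}
    [AddCommGroup P0] [Module R P0] [AddCommGroup P1] [Module R P1] [AddCommGroup P2] [Module R P2]
    [AddCommGroup P3] [Module R P3] [AddCommGroup L] [Module R L]
    [Module.Projective R P0] [Module.Projective R P1] [Module.Projective R P2]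
    [Module.Projective R L] [Module.Finite R P1] [Module.Finite R P2]
    [Module.Finite R L]
    (d0 : P1 →ₗ[R] P0) (d1 : P2 →ₗ[R] P1) (d2 : P3 →ₗ[R] P2) (D1 : L →ₗ[R] R)
    (β₀ : R →ₗ[R] P0) (β₁ : L →ₗ[R] P1) (hβ : ∀ v, d0 (β₁ v) = β₀ (D1 v))
    (hs0 : ∀ p : P0, ∃ (y : P1) (a : R), d0 y + β₀ a = p)
    (hs1 : ∀ (y : P1) (a : R), d0 y + β₀ a = 0 → ∃ v, D1 v = a)
    (ex0 : ∀ y, d0 y = 0 ↔ y ∈ LinearMap.range d1) (ex1 : ∀ y, d1 y = 0 ↔ y ∈ LinearMap.range d2)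
    (hN : Module.Projective R (LinearMap.ker d1)) (hN' : Module.Finite R (LinearMap.ker d1))
    (b' : P3 →ₗ[R] R) (hb' : ∀ y, d2 y = 0 → b' y = 0)
    (hext : ∀ f : P3 →ₗ[R] R, (∀ y, d2 y = 0 → f y = 0) →
      ∃ (h : P2 →ₗ[R] R) (n : ℤ), ∀ y, f y = h (d2 y) + n • b' y) :
    ∃ (Q : Type) (_ : AddCommGroup Q) (_ : Module R Q) (d₂ : Q →ₗ[R] L) (q : Q),
      Module.Finite R Q ∧ Module.Projective R Q ∧
      (∀ a : R, a • q = 0 → a = 0) ∧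
      (∀ y : Q, d₂ y = 0 ↔ ∃ a : R, y = a • q) ∧
      (∀ v : L, D1 v = 0 ↔ ∃ y, d₂ y = v) ∧
      (∀ a : R, (∃ h : P2 →ₗ[R] R, ∀ y, b' y * a = h (d2 y)) ↔
        ∃ f : Q →ₗ[R] R, f q = a) := by
  let N := LinearMap.ker d1
  obtain ⟨b, hb⟩ := factor_range d2 b' hb'
  let toR : N →ₗ[R] LinearMap.range d2 :=
    (N.subtype).codRestrict (LinearMap.range d2) (fun y => (ex1 _).1 y.2)
  let bN : N →ₗ[R] R := b ∘ₗ toR
  have hd2 : ∀ y, d2 y ∈ N := fun y => LinearMap.mem_ker.2 ((ex1 _).2 ⟨y, rfl⟩)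
  have hbN : ∀ y, bN ⟨d2 y, hd2 y⟩ = b' y := fun y => hb y
  have hNr : ∀ z : N, ∃ y, z = ⟨d2 y, hd2 y⟩ := fun z => by
    obtain ⟨y, hy⟩ := (ex1 (z : P2)).1 z.2
    exact ⟨y, Subtype.ext hy.symm⟩
  -- `X`
  let φ : P1 × R →ₗ[R] P0 := d0.coprod β₀
  have hφ : ∀ y a, φ (y, a) = d0 y + β₀ a := fun y a => LinearMap.coprod_apply _ _ _
  obtain ⟨hX1, hX2, -, -⟩ := ker_proj φ (fun p => by
    obtain ⟨y, a, h⟩ := hs0 p
    exact ⟨(y, a), by rw [hφ, h]⟩)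
  let ψ : P2 × L →ₗ[R] LinearMap.ker φ :=
    ((d1 ∘ₗ LinearMap.fst R P2 L - β₁ ∘ₗ LinearMap.snd R P2 L).prod
      (D1 ∘ₗ LinearMap.snd R P2 L)).codRestrict (LinearMap.ker φ) (fun c => by
        rw [LinearMap.mem_ker]
        change φ (d1 c.1 - β₁ c.2, D1 c.2) = 0
        rw [hφ, map_sub, (ex0 _).2 ⟨c.1, rfl⟩, hβ]
        abel)
  have hψ : ∀ p v, ψ (p, v) = 0 ↔ d1 p = β₁ v ∧ D1 v = 0 := fun p v => by
    constructor
    · intro h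
      have h1 : (d1 p - β₁ v, D1 v) = (0 : P1 × R) := congrArg Subtype.val h
      rw [Prod.mk_eq_zero, sub_eq_zero] at h1
      exact h1
    · rintro ⟨h1, h2⟩
      apply Subtype.ext
      change (d1 p - β₁ v, D1 v) = (0 : P1 × R)
      rw [Prod.mk_eq_zero, sub_eq_zero]
      exact ⟨h1, h2⟩
  obtain ⟨hQ1, hQ2, rQ, hrQ⟩ := ker_proj ψ (fun x => by
    obtain ⟨⟨y, a⟩, hx⟩ := x
    have hx' : d0 y + β₀ a = 0 := by rw [← hφ]; exact hx
    obtain ⟨v, hv⟩ := hs1 y a hx'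
    obtain ⟨p, hp⟩ := (ex0 (y + β₁ v)).1 (by rw [map_add, hβ, hv, hx'])
    refine ⟨(p, v), Subtype.ext ?_⟩
    change (d1 p - β₁ v, D1 v) = (y, a)
    rw [hp, hv, add_sub_cancel_right])
  let Q := LinearMap.ker ψ
  have hN0 : ∀ z : N, ((z : P2), (0 : L)) ∈ Q := fun z => by
    rw [LinearMap.mem_ker, hψ, map_zero, map_zero]
    exact ⟨z.2, rfl⟩
  let ι₁ : N →ₗ[R] Q := (N.subtype.prod (0 : N →ₗ[R] L)).codRestrict Q hN0
  have hι₁ : ∀ z : N, ι₁ z = ⟨((z : P2), (0 : L)), hN0 z⟩ := fun z => rfl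
  let ι : N →ₗ[R] Q × R := ι₁.prod bN
  have hι : ∀ z : N, ι z = (ι₁ z, bN z) := fun z => rfl
  obtain ⟨r, hr⟩ := retract_of_extend ι (fun f => by
    let fP : P3 →ₗ[R] R := f ∘ₗ (d2.codRestrict N hd2)
    obtain ⟨h, n, hh⟩ := hext fP (fun y hy => by
      have : (d2.codRestrict N hd2) y = 0 := Subtype.ext hy
      change f ((d2.codRestrict N hd2) y) = 0
      rw [this, map_zero])
    refine ⟨(h ∘ₗ (LinearMap.fst R P2 L) ∘ₗ Q.subtype).coprod (n • LinearMap.id), fun z => ?_⟩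
    obtain ⟨y, rfl⟩ := hNr z
    rw [hι, LinearMap.coprod_apply]
    change h (d2 y) + n • bN ⟨d2 y, hd2 y⟩ = fP y
    rw [hbN, hh])
  let I := LinearMap.range ι
  have hmk0 : ∀ w : Q × R, I.mkQ w = 0 ↔ ∃ z : N, ι z = w := fun w => by
    rw [Submodule.mkQ_apply, Submodule.Quotient.mk_eq_zero]
    exact Iff.rfl
  obtain ⟨hp, hf⟩ := quot_proj I.mkQ I.mkQ_surjective ι r hr (fun x hx => (hmk0 x).1 hx)
    (fun y => (hmk0 _).2 ⟨y, rfl⟩)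
  let d₂' : Q × R →ₗ[R] L := (LinearMap.snd R P2 L) ∘ₗ Q.subtype ∘ₗ (LinearMap.fst R Q R)
  let d₂ : ((Q × R) ⧸ I) →ₗ[R] L := I.liftQ d₂' (by
    rintro _ ⟨z, rfl⟩
    rfl)
  have hd₂ : ∀ w, d₂ (I.mkQ w) = d₂' w := fun w => rfl
  let q : (Q × R) ⧸ I := I.mkQ (0, 1)
  have hq : ∀ a : R, a • q = I.mkQ (0, a) := fun a => by
    change a • I.mkQ (0, 1) = _
    rw [← map_smul, Prod.smul_mk, smul_zero, smul_eq_mul, mul_one]
  refine ⟨(Q × R) ⧸ I, inferInstance, inferInstance, d₂, q, hf, hp, ?_, ?_, ?_, ?_⟩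
  · intro a ha
    rw [hq, hmk0] at ha
    obtain ⟨z, hz⟩ := ha
    rw [hι, Prod.mk.injEq] at hz
    have : z = 0 := Subtype.ext (congrArg (fun w : Q => (w : P2 × L).1) hz.1)
    rw [← hz.2, this, map_zero]
  · intro y
    obtain ⟨⟨⟨⟨p, v⟩, hpv⟩, c⟩, rfl⟩ := I.mkQ_surjective y
    constructor
    · intro h
      have hv : v = 0 := h
      subst hv
      have h1 : p ∈ N := by
        have := ((hψ p 0).1 hpv).1
        rwa [map_zero] at this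
      refine ⟨c - bN ⟨p, h1⟩, ?_⟩
      rw [hq, ← sub_eq_zero, ← map_sub, hmk0]
      refine ⟨⟨p, h1⟩, ?_⟩
      rw [hι, hι₁]
      ext
      · change p = p - 0
        rw [sub_zero]
      · change (0 : L) = 0 - 0
        rw [sub_zero]
      · change bN ⟨p, h1⟩ = c - (c - bN ⟨p, h1⟩)
        abel
    · rintro ⟨a, ha⟩
      rw [ha, hq]
      rfl
  · intro v
    constructor
    · intro hv
      obtain ⟨p, hp⟩ := (ex0 (β₁ v)).1 (by rw [hβ, hv, map_zero])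
      exact ⟨I.mkQ (⟨(p, v), by rw [LinearMap.mem_ker, hψ]; exact ⟨hp, hv⟩⟩, 0), rfl⟩
    · rintro ⟨y, rfl⟩
      obtain ⟨⟨⟨⟨p, v⟩, hpv⟩, c⟩, rfl⟩ := I.mkQ_surjective y
      exact ((hψ p v).1 hpv).2
  · intro a
    constructor
    · rintro ⟨h, hh⟩
      let F : Q × R →ₗ[R] R := (-(h ∘ₗ (LinearMap.fst R P2 L) ∘ₗ Q.subtype)).coprod
        (LinearMap.toSpanSingleton R R a)
      have hF : ∀ z, F (ι z) = 0 := fun z => by
        obtain ⟨y, rfl⟩ := hNr z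
        change -(h (d2 y)) + bN ⟨d2 y, hd2 y⟩ * a = 0
        rw [hbN, hh]
        abel
      refine ⟨I.liftQ F (by
        rintro _ ⟨z, rfl⟩
        exact hF z), ?_⟩
      change F (0, 1) = a
      change -(h 0) + 1 * a = a
      rw [map_zero, one_mul, neg_zero, zero_add]
    · rintro ⟨f, hfq⟩
      refine ⟨-(f ∘ₗ I.mkQ ∘ₗ LinearMap.inl R Q R ∘ₗ rQ ∘ₗ LinearMap.inl R P2 L), fun y => ?_⟩
      change b' y * a = -(f (I.mkQ (rQ (d2 y, 0), 0)))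
      have h1 : rQ (d2 y, 0) = ι₁ ⟨d2 y, hd2 y⟩ := hrQ (ι₁ ⟨d2 y, hd2 y⟩)
      have h2 : I.mkQ (ι₁ ⟨d2 y, hd2 y⟩, 0) = -(b' y • q) := by
        rw [hq, eq_neg_iff_add_eq_zero, ← map_add, hmk0]
        refine ⟨⟨d2 y, hd2 y⟩, ?_⟩
        rw [hι, hbN, Prod.mk_add_mk, add_zero, zero_add]
      rw [h1, h2, map_neg, map_smul, hfq, neg_neg, smul_eq_mul]

end Run7.h312
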