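import Pool.Agent.Run7.h312.PD

/-! The coordinate moves. -/

set_option autoImplicit false

namespace Run7.h312.LS

open Run7.h230 Run7.h230.LSp

section
variable {J : Type} [Fintype J]

lemma go_apply (a b : J → ℝ) (s : ℝ) (j : J) :
    go a b s j = max (a j - max s 0) (min (a j + max s 0) (b j)) := rfl

lemma go_self {a b : J → ℝ} {s : ℝ} {j : J} (h : b j = a j) : go a b s j = a j := by
  rw [go_apply, h]
  have := le_max_right s 0
  rw [min_eq_right (by linarith), max_eq_right (by linarith)]

lemma abs_le_norm' (v : J → ℝ) (j : J) : |v j| ≤ ‖v‖ := by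
  rw [← Real.norm_eq_abs]
  exact norm_le_pi_norm v j

lemma go_left (a b : J → ℝ) (s : ℝ) : ‖go a b s - a‖ ≤ max s 0 := by
  rw [pi_norm_le_iff_of_nonneg (le_max_right _ _)]
  intro j
  have h0 := le_max_right s 0
  rw [Pi.sub_apply, go_apply, Real.norm_eq_abs, abs_le]
  constructor
  · linarith [le_max_left (a j - max s 0) (min (a j + max s 0) (b j))]
  · have : max (a j - max s 0) (min (a j + max s 0) (b j)) ≤ a j + max s 0 :=
      max_le (by linarith) (min_le_left _ _)
    linarith

lemma go_left' (a b : J → ℝ) (s : ℝ) : ‖go a b s - a‖ ≤ ‖b - a‖ := by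
  rw [pi_norm_le_iff_of_nonneg (norm_nonneg _)]
  intro j
  have h0 := le_max_right s 0
  have h1 := abs_le.1 (abs_le_norm' (b - a) j)
  rw [Pi.sub_apply] at h1
  have h2 := norm_nonneg (b - a)
  rw [Pi.sub_apply, go_apply, Real.norm_eq_abs, abs_le]
  rcases le_total (b j) (a j) with h3 | h3
  · rw [min_eq_right (by linarith)]
    constructor
    · linarith [le_max_right (a j - max s 0) (b j)]
    · have : max (a j - max s 0) (b j) ≤ a j := max_le (by linarith) h3
      linarith
  · have h4 : a j ≤ min (a j + max s 0) (b j) := le_min (by linarith) h3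
    rw [max_eq_right (by linarith)]
    constructor
    · linarith
    · linarith [min_le_right (a j + max s 0) (b j)]

lemma go_right (a b : J → ℝ) (s : ℝ) : ‖b - go a b s‖ ≤ max (‖b - a‖ - max s 0) 0 := by
  rw [pi_norm_le_iff_of_nonneg (le_max_right _ _)]
  intro j
  have h0 := le_max_right s 0
  have h1 := abs_le.1 (abs_le_norm' (b - a) j)
  rw [Pi.sub_apply] at h1
  have h2 := le_max_left (‖b - a‖ - max s 0) 0
  have h2' := le_max_right (‖b - a‖ - max s 0) 0
  generalize max (‖b - a‖ - max s 0) 0 = M at h2 h2' ⊢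
  rw [Pi.sub_apply, go_apply, Real.norm_eq_abs, abs_le]
  rcases le_total (b j) (a j) with h3 | h3
  · rw [min_eq_right (by linarith)]
    rcases le_total (a j - max s 0) (b j) with h4 | h4
    · rw [max_eq_right h4]
      constructor <;> linarith
    · rw [max_eq_left h4]
      constructor <;> linarith
  · have h4 : a j ≤ min (a j + max s 0) (b j) := le_min (by linarith) h3
    rw [max_eq_right (by linarith)]
    rcases le_total (a j + max s 0) (b j) with h5 | h5
    · rw [min_eq_left h5]
      constructor <;> linarith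
    · rw [min_eq_right h5]
      constructor <;> linarith

lemma go_lip (a b a' b' : J → ℝ) (s s' : ℝ) :
    ‖go a b s - go a' b' s'‖ ≤ ‖a - a'‖ + |s - s'| + ‖b - b'‖ := by
  have n1 := norm_nonneg (a - a')
  have n2 := norm_nonneg (b - b')
  have n3 := abs_nonneg (s - s')
  rw [pi_norm_le_iff_of_nonneg (by positivity)]
  intro j
  have h1 := abs_le_norm' (a - a') j
  have h2 := abs_le_norm' (b - b') j
  rw [Pi.sub_apply] at h1 h2
  have h3 : |max s 0 - max s' 0| ≤ |s - s'| := by
    refine (abs_max_sub_max_le_max _ _ _ _).trans ?_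
    rw [sub_self, abs_zero]
    exact max_le le_rfl n3
  rw [Pi.sub_apply, go_apply, go_apply, Real.norm_eq_abs]
  refine (abs_max_sub_max_le_max _ _ _ _).trans (max_le ?_ ?_)
  · have : a j - max s 0 - (a' j - max s' 0) = (a j - a' j) - (max s 0 - max s' 0) := by ring
    rw [this]
    have := abs_sub (a j - a' j) (max s 0 - max s' 0)
    linarith
  · refine (abs_min_sub_min_le_max _ _ _ _).trans (max_le ?_ (by linarith))
    have : a j + max s 0 - (a' j + max s' 0) = (a j - a' j) + (max s 0 - max s' 0) := by ring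
    rw [this]
    have := abs_add_le (a j - a' j) (max s 0 - max s' 0)
    linarith

/-- the move at time `s` is at distance about `s` from the start and about `‖b - a‖ - s` from the
end -/
lemma go_times {a b : J → ℝ} {s K : ℝ} (hK : 0 ≤ K) (h1 : -K ≤ s) (h2 : s ≤ ‖b - a‖ + K) :
    |‖go a b s - a‖ - s| ≤ K ∧ |‖b - go a b s‖ - (‖b - a‖ - s)| ≤ K := by
  have e1 := go_left a b s
  have e2 := go_right a b s
  have e3 : ‖b - a‖ ≤ ‖b - go a b s‖ + ‖go a b s - a‖ := by
    have : b - a = (b - go a b s) + (go a b s - a) := by abel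
    conv_lhs => rw [this]
    exact norm_add_le _ _
  have n1 := norm_nonneg (b - a)
  have f1 : max s 0 ≤ s + K := max_le (by linarith) (by linarith)
  have f2 := le_max_left s 0
  have f3 : max (‖b - a‖ - max s 0) 0 ≤ ‖b - a‖ - s + K := max_le (by linarith) (by linarith)
  rw [abs_le, abs_le]
  refine ⟨⟨?_, ?_⟩, ?_, ?_⟩ <;> linarith

end

end Run7.h312.LS
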