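import Mathlib

/-! The duality isomorphism can be chosen to be an isometry of hyperbolic spaces if `2` is
invertible. -/

set_option autoImplicit false

namespace Run7.h312

open Matrix

section
variable {F A : Type*} [CommRing F] [StarRing F] [TrivialStar F] [Ring A] [StarRing A]
  [Algebra F A] [StarModule F A]
variable {ι κ υ : Type*} [Fintype ι] [DecidableEq ι] [Fintype κ] [DecidableEq κ]
  [Fintype υ] [DecidableEq υ]

theorem heegaard {c : F} (hc : 2 * c = 1) {k : F} (hk : k = 1 ∨ k = -1)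
    {e : Matrix ι ι A} (he : e * e = e)
    {D T : Matrix ι κ A} {S : Matrix κ ι A} {H : Matrix ι ι A} {h D₁ : Matrix κ υ A}
    {D₃ : Matrix υ ι A}
    (hD : e * D = D) (hT : eᴴ * T = T) (hSe : S * e = S) (hH1 : eᴴ * H = H) (hH2 : H * e = H)
    (r0 : T * D₁ = D₃ᴴ)
    (r1 : Sᴴ - k • T = H * D) (r2 : S * D = Dᴴ * T) (r3 : D₁ᴴ * S = k • D₃)
    (r4 : Dᴴ * (H + k • Hᴴ) = h * D₃) (r5 : D₁ᴴ * h = 0) (r6 : D * D₁ = 0)
    {s₁ s₂ : Matrix ι κ A} {t₁ t₂ : Matrix κ ι A} (hs2 : eᴴ * s₂ = s₂)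
    (ht1 : t₁ * e = t₁) (ht2 : t₂ * eᴴ = t₂)
    (h1 : S * s₁ + Dᴴ * s₂ = 1) (h1' : t₁ * D - t₂ * T = 1)
    (h2 : s₁ * S + D * t₁ = e) (h3 : s₁ * Dᴴ + D * t₂ = 0)
    (h4 : s₂ * S - T * t₁ = 0) (h5 : s₂ * Dᴴ - T * t₂ = eᴴ) :
    ∃ (T' : Matrix ι κ A) (t₁' t₂' : Matrix κ ι A),
      fromBlocks (k • T'ᴴ) Dᴴ t₁' t₂' * fromBlocks (-(k • t₂'ᴴ)) D t₁'ᴴ (-T') = 1 ∧
      fromBlocks (-(k • t₂'ᴴ)) D t₁'ᴴ (-T') * fromBlocks (k • T'ᴴ) Dᴴ t₁' t₂' =
        fromBlocks e 0 0 eᴴ ∧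
      T' * D₁ = D₃ᴴ := by
  have hk2 : k * k = 1 := by rcases hk with rfl | rfl <;> norm_num
  have hks : star k = k := star_trivial k
  have hcs : star c = c := star_trivial c
  obtain ⟨N, hN⟩ : ∃ N : Matrix κ κ A, N = -(h * D₁ᴴ) := ⟨_, rfl⟩
  have r6' : D₁ᴴ * Dᴴ = 0 := by rw [← conjTranspose_mul, r6, conjTranspose_zero]
  have hND : N * Dᴴ = 0 := by rw [hN, Matrix.neg_mul, Matrix.mul_assoc, r6']; simp
  have hNN : N * N = 0 := by
    rw [hN, Matrix.neg_mul, Matrix.mul_neg, neg_neg, Matrix.mul_assoc, ← Matrix.mul_assoc D₁ᴴ, r5]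
    simp
  have hNS : N * S = -(k • (h * D₃)) := by
    rw [hN, Matrix.neg_mul, Matrix.mul_assoc, r3, Matrix.mul_smul]
  have r1' : S - k • Tᴴ = Dᴴ * Hᴴ := by
    have := congrArg conjTranspose r1
    rwa [conjTranspose_sub, conjTranspose_conjTranspose, conjTranspose_smul, hks,
      conjTranspose_mul] at this
  have hkT : k • Tᴴ = S - Dᴴ * Hᴴ := by rw [← r1']; abel
  -- the symmetrised maps
  obtain ⟨T', hT'⟩ : ∃ T', T' = T + (k * c) • (H * D) := ⟨_, rfl⟩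
  obtain ⟨S', hS'⟩ : ∃ S', S' = S - c • (Dᴴ * Hᴴ) := ⟨_, rfl⟩
  have hS'T' : S' = k • T'ᴴ := by
    rw [hT', conjTranspose_add, conjTranspose_smul, conjTranspose_mul, smul_add, hkT, hS',
      smul_smul, star_mul, hks, hcs]
    match_scalars
    · ring
    · linear_combination (-c) * hk2 - hc
  have hS'2 : S' = S + (k * c) • (Dᴴ * H) + c • (N * S) := by
    rw [hNS, ← r4, hS', Matrix.mul_add, Matrix.mul_smul]
    match_scalars
    · ring
    · linear_combination c * hk2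
    · ring
  obtain ⟨Z, hZ⟩ : ∃ Z, Z = S + (k * c) • (Dᴴ * H) := ⟨_, rfl⟩
  have hNZ : N * Z = N * S := by
    rw [hZ, Matrix.mul_add, Matrix.mul_smul, ← Matrix.mul_assoc, hND]
    simp
  have hS'Z : (1 - c • N) * S' = Z := by
    rw [hS'2, ← hZ]
    simp only [Matrix.sub_mul, Matrix.mul_add, Matrix.one_mul, Matrix.smul_mul, Matrix.mul_smul,
      ← Matrix.mul_assoc, hNN, hNZ, Matrix.zero_mul, smul_zero]
    module
  have hS'D : S' * D = Dᴴ * T' := by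
    -- from the relations
    have e1 : Dᴴ * (Hᴴ + k • H) * D = 0 := by
      have a1 : Dᴴ * Sᴴ = Tᴴ * D := by
        have := congrArg conjTranspose r2
        rwa [conjTranspose_mul, conjTranspose_mul, conjTranspose_conjTranspose] at this
      have a2 : Sᴴ = H * D + k • T := by rw [← r1]; abel
      have a3 : Tᴴ = k • S - k • (Dᴴ * Hᴴ) := by
        rw [← smul_sub, ← hkT, smul_smul, hk2, one_smul]
      rw [a2, a3, Matrix.mul_add, Matrix.mul_smul, Matrix.sub_mul, Matrix.smul_mul,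
        Matrix.smul_mul, r2] at a1
      have a4 : Dᴴ * (H * D) = -(k • (Dᴴ * Hᴴ * D)) := by
        rw [eq_neg_iff_add_eq_zero]
        rw [← sub_eq_zero] at a1
        rw [← a1]
        abel
      rw [Matrix.mul_add, Matrix.add_mul, Matrix.mul_smul, Matrix.smul_mul, Matrix.mul_assoc Dᴴ H,
        a4, smul_neg, smul_smul, hk2, one_smul]
      abel
    rw [hS', hT', Matrix.sub_mul, Matrix.mul_add, Matrix.smul_mul, Matrix.mul_smul, r2]
    rw [Matrix.mul_add, Matrix.mul_smul, Matrix.add_mul, Matrix.smul_mul] at e1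
    have e2 : Dᴴ * Hᴴ * D = -(k • (Dᴴ * H * D)) := by rw [eq_neg_iff_add_eq_zero, e1]
    rw [e2, Matrix.mul_assoc Dᴴ H D]
    module
  have hinv : (1 + c • N) * (1 - c • N) = 1 := by
    simp only [Matrix.mul_sub, Matrix.add_mul, Matrix.mul_one, Matrix.one_mul, Matrix.smul_mul,
      Matrix.mul_smul, hNN, smul_zero]
    module
  have hT'e : eᴴ * T' = T' := by
    rw [hT', Matrix.mul_add, Matrix.mul_smul, ← Matrix.mul_assoc, hH1, hT]
  have hS'e : S' * e = S' := by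
    rw [hS'2, Matrix.add_mul, Matrix.add_mul, Matrix.smul_mul, Matrix.smul_mul, Matrix.mul_assoc,
      Matrix.mul_assoc, hH2, hSe]
  -- the inverse
  obtain ⟨σ₁, hσ₁⟩ : ∃ σ, σ = s₁ * (1 - c • N) := ⟨_, rfl⟩
  obtain ⟨σ₂, hσ₂⟩ : ∃ σ, σ = (s₂ - (k * c) • (H * s₁)) * (1 - c • N) := ⟨_, rfl⟩
  obtain ⟨τ, hτ⟩ : ∃ τ, τ = t₁ + (k * c) • (t₂ * H) := ⟨_, rfl⟩
  have hτe : τ * e = τ := by
    rw [hτ, Matrix.add_mul, Matrix.smul_mul, Matrix.mul_assoc, hH2, ht1]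
  have p1 : S' * σ₁ + Dᴴ * σ₂ = 1 := by
    have e1 : S' * s₁ + Dᴴ * (s₂ - (k * c) • (H * s₁)) = 1 + c • N := by
      have e2 : N * S * s₁ = N := by
        have : N * (S * s₁ + Dᴴ * s₂) = N := by rw [h1, Matrix.mul_one]
        rw [Matrix.mul_add, ← Matrix.mul_assoc, ← Matrix.mul_assoc, hND] at this
        simpa using this
      rw [hS'2, Matrix.add_mul, Matrix.add_mul, Matrix.mul_sub, Matrix.smul_mul, Matrix.smul_mul,
        Matrix.mul_smul, e2, ← h1, Matrix.mul_assoc Dᴴ H s₁]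
      abel
    calc S' * σ₁ + Dᴴ * σ₂
        = (S' * s₁ + Dᴴ * (s₂ - (k * c) • (H * s₁))) * (1 - c • N) := by
          rw [hσ₁, hσ₂, Matrix.add_mul, Matrix.mul_assoc, Matrix.mul_assoc]
      _ = 1 := by rw [e1, hinv]
  have p2 : τ * D - t₂ * T' = 1 := by
    rw [hτ, hT', Matrix.add_mul, Matrix.mul_add, Matrix.smul_mul, Matrix.mul_smul,
      Matrix.mul_assoc t₂, ← h1']
    abel
  have p3 : σ₁ * S' + D * τ = e := by
    rw [hσ₁, hτ, Matrix.mul_assoc, hS'Z, hZ, Matrix.mul_add, Matrix.mul_add, Matrix.mul_smul,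
      Matrix.mul_smul, ← Matrix.mul_assoc, ← Matrix.mul_assoc]
    calc s₁ * S + (k * c) • (s₁ * Dᴴ * H) + (D * t₁ + (k * c) • (D * t₂ * H))
        = (s₁ * S + D * t₁) + (k * c) • ((s₁ * Dᴴ + D * t₂) * H) := by
          rw [Matrix.add_mul, smul_add]; abel
      _ = e := by rw [h2, h3]; simp
  have p4 : σ₁ * Dᴴ + D * t₂ = 0 := by
    rw [hσ₁, Matrix.mul_assoc, Matrix.sub_mul, Matrix.smul_mul, hND, Matrix.one_mul, smul_zero,
      sub_zero, h3]
  have p5 : σ₂ * S' - T' * τ = 0 := by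
    rw [hσ₂, Matrix.mul_assoc, hS'Z, hZ, hT', hτ]
    calc (s₂ - (k * c) • (H * s₁)) * (S + (k * c) • (Dᴴ * H)) -
          (T + (k * c) • (H * D)) * (t₁ + (k * c) • (t₂ * H))
        = (s₂ * S - T * t₁) + (k * c) • ((s₂ * Dᴴ - T * t₂) * H)
          - (k * c) • (H * (s₁ * S + D * t₁))
          - ((k * c) * (k * c)) • (H * (s₁ * Dᴴ + D * t₂) * H) := by
          simp only [Matrix.add_mul, Matrix.mul_add, Matrix.sub_mul,
            Matrix.smul_mul, Matrix.mul_smul, Matrix.mul_assoc]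
          module
      _ = 0 := by
          rw [h4, h5, h2, h3, hH1, hH2]
          simp
  have p6 : σ₂ * Dᴴ - T' * t₂ = eᴴ := by
    rw [hσ₂, Matrix.mul_assoc, Matrix.sub_mul _ _ Dᴴ, Matrix.smul_mul, hND, Matrix.one_mul,
      smul_zero, sub_zero, hT']
    calc (s₂ - (k * c) • (H * s₁)) * Dᴴ - (T + (k * c) • (H * D)) * t₂
        = (s₂ * Dᴴ - T * t₂) - (k * c) • (H * (s₁ * Dᴴ + D * t₂)) := by
          simp only [Matrix.add_mul, Matrix.mul_add, Matrix.sub_mul,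
            Matrix.smul_mul, Matrix.mul_assoc]
          module
      _ = eᴴ := by rw [h5, h3]; simp
  -- correction of the second row
  obtain ⟨Y, hY⟩ : ∃ Y : Matrix κ κ A, Y = τ * t₂ᴴ - k • (t₂ * τᴴ) := ⟨_, rfl⟩
  have hYs : Yᴴ = -(k • Y) := by
    rw [hY, conjTranspose_sub, conjTranspose_mul, conjTranspose_smul, conjTranspose_mul,
      conjTranspose_conjTranspose, conjTranspose_conjTranspose, hks, smul_sub, smul_smul, hk2,
      one_smul]
    abel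
  obtain ⟨U, hU⟩ : ∃ U : Matrix κ κ A, U = (c * k) • Y := ⟨_, rfl⟩
  have hUs : Uᴴ = -(c • Y) := by
    rw [hU, conjTranspose_smul, hYs, star_mul, hks, hcs, smul_neg, smul_smul]
    congr 2
    linear_combination c * hk2
  obtain ⟨t₁', ht₁'⟩ : ∃ t, t = τ + U * S' := ⟨_, rfl⟩
  obtain ⟨t₂', ht₂'⟩ : ∃ t, t = t₂ + U * Dᴴ := ⟨_, rfl⟩
  have p2' : t₁' * D - t₂' * T' = 1 := by
    rw [ht₁', ht₂', Matrix.add_mul, Matrix.add_mul, Matrix.mul_assoc, Matrix.mul_assoc, hS'D, ← p2]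
    abel
  have p7 : t₁' * t₂'ᴴ = k • (t₂' * t₁'ᴴ) := by
    have a1 : t₂'ᴴ = t₂ᴴ + D * Uᴴ := by
      rw [ht₂', conjTranspose_add, conjTranspose_mul, conjTranspose_conjTranspose]
    have a2 : t₁'ᴴ = τᴴ + k • (T' * Uᴴ) := by
      rw [ht₁', conjTranspose_add, conjTranspose_mul, hS'T', conjTranspose_smul, hks,
        conjTranspose_conjTranspose, Matrix.smul_mul]
    have a3 : τ * D = 1 + t₂ * T' := by rw [← p2]; abel
    have a4 : Dᴴ * τᴴ = 1 + T'ᴴ * t₂ᴴ := by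
      have := congrArg conjTranspose a3
      rwa [conjTranspose_mul, conjTranspose_add, conjTranspose_one, conjTranspose_mul] at this
    have a5 : S' * t₂ᴴ = k • (T'ᴴ * t₂ᴴ) := by rw [hS'T', Matrix.smul_mul]
    have a6 : t₁' * t₂'ᴴ = τ * t₂ᴴ + Uᴴ + t₂ * T' * Uᴴ + k • (U * (T'ᴴ * t₂ᴴ)) +
        U * (Dᴴ * T') * Uᴴ := by
      rw [a1, ht₁', Matrix.mul_add, Matrix.add_mul, Matrix.add_mul, ← Matrix.mul_assoc τ D, a3,
        Matrix.add_mul, Matrix.one_mul, Matrix.mul_assoc U S' t₂ᴴ, a5, Matrix.mul_smul,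
        ← Matrix.mul_assoc (U * S') D, Matrix.mul_assoc U S' D, hS'D]
      abel
    have a7 : k • (t₂' * t₁'ᴴ) = k • (t₂ * τᴴ) + k • U + k • (U * (T'ᴴ * t₂ᴴ)) +
        t₂ * T' * Uᴴ + U * (Dᴴ * T') * Uᴴ := by
      rw [a2, ht₂', Matrix.mul_add, Matrix.add_mul, Matrix.add_mul, Matrix.mul_assoc U Dᴴ τᴴ, a4,
        Matrix.mul_add U, Matrix.mul_one, Matrix.mul_smul, Matrix.mul_smul,
        ← Matrix.mul_assoc t₂, ← Matrix.mul_assoc (U * Dᴴ), Matrix.mul_assoc U Dᴴ T']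
      simp only [smul_add, smul_smul, hk2, one_smul]
      abel
    rw [a6, a7]
    have a8 : τ * t₂ᴴ = k • (t₂ * τᴴ) + Y := by rw [hY]; abel
    have a9 : Y + Uᴴ = k • U := by
      rw [hUs, hU, smul_smul]
      match_scalars
      linear_combination (-c) * hk2 - hc
    rw [a8, ← a9]
    abel
  -- assembling
  have g1 : fromBlocks S' Dᴴ t₁' t₂' * fromBlocks (-(k • t₂'ᴴ)) D t₁'ᴴ (-T') = 1 := by
    have b1 : Dᴴ * t₁'ᴴ = 1 + T'ᴴ * t₂'ᴴ := by
      have a3 : t₁' * D = 1 + t₂' * T' := by rw [← p2']; abel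
      have := congrArg conjTranspose a3
      rwa [conjTranspose_mul, conjTranspose_add, conjTranspose_one, conjTranspose_mul] at this
    rw [fromBlocks_multiply, ← fromBlocks_one]
    congr 1
    · rw [b1, hS'T', Matrix.mul_neg, Matrix.mul_smul, Matrix.smul_mul, smul_smul, hk2, one_smul]
      abel
    · rw [hS'D, Matrix.mul_neg]
      abel
    · rw [Matrix.mul_neg, Matrix.mul_smul, p7, smul_smul, hk2, one_smul]
      abel
    · rw [Matrix.mul_neg, ← sub_eq_add_neg, p2']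
  have g2 : fromBlocks (σ₁ - D * U) D (σ₂ + T' * U) (-T') * fromBlocks S' Dᴴ t₁' t₂' =
      fromBlocks e 0 0 eᴴ := by
    rw [fromBlocks_multiply]
    congr 1
    · rw [ht₁', Matrix.sub_mul, Matrix.mul_add, Matrix.mul_assoc D U, ← p3]
      abel
    · rw [ht₂', Matrix.sub_mul, Matrix.mul_add, Matrix.mul_assoc D U, ← p4]
      abel
    · rw [ht₁', Matrix.add_mul, Matrix.neg_mul, Matrix.mul_add, Matrix.mul_assoc T' U, ← p5]
      abel
    · rw [ht₂', Matrix.add_mul, Matrix.neg_mul, Matrix.mul_add, Matrix.mul_assoc T' U, ← p6]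
      abel
  have g3 : fromBlocks (σ₁ - D * U) D (σ₂ + T' * U) (-T') =
      fromBlocks (-(k • t₂'ᴴ)) D t₁'ᴴ (-T') := by
    have het : e * t₂'ᴴ = t₂'ᴴ := by
      have a1 : e * t₂ᴴ = t₂ᴴ := by
        have := congrArg conjTranspose ht2
        rwa [conjTranspose_mul, conjTranspose_conjTranspose] at this
      rw [ht₂', conjTranspose_add, conjTranspose_mul, conjTranspose_conjTranspose, Matrix.mul_add,
        a1, ← Matrix.mul_assoc, hD]
    have het1 : eᴴ * t₁'ᴴ = t₁'ᴴ := by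
      have a1 : t₁' * e = t₁' := by
        rw [ht₁', Matrix.add_mul, hτe, Matrix.mul_assoc, hS'e]
      have := congrArg conjTranspose a1
      rwa [conjTranspose_mul] at this
    have a1 : fromBlocks e 0 0 eᴴ * fromBlocks (-(k • t₂'ᴴ)) D t₁'ᴴ (-T') =
        fromBlocks (-(k • t₂'ᴴ)) D t₁'ᴴ (-T') := by
      rw [fromBlocks_multiply]
      simp only [Matrix.mul_neg, Matrix.mul_smul, Matrix.zero_mul, add_zero, zero_add, het, hD,
        het1, hT'e, smul_zero, neg_zero]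
    rw [← a1, ← g2, Matrix.mul_assoc, g1, Matrix.mul_one]
  refine ⟨T', t₁', t₂', ?_, ?_, ?_⟩
  · rw [← hS'T']
    exact g1
  · rw [← hS'T', ← g3]
    exact g2
  · rw [hT', Matrix.add_mul, Matrix.smul_mul, Matrix.mul_assoc H, r6, r0]
    simp

end

end Run7.h312
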