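import Pool.Agent.Run7.h312.Heeg
import Pool.Agent.Run7.h312.Spec

/-! Algebraic Heegaard splittings over group rings in which `2` is invertible. -/

set_option autoImplicit false

namespace Run7.h312

open MonoidAlgebra Matrix

section
variable {F : Type*} [CommRing F] {G : Type*} [Group G]

/-- the involution `g ↦ g⁻¹` of `F[G]`, for a commutative ring `F` -/
noncomputable def conjF (F : Type*) [CommRing F] (G : Type*) [Group G] :
    MonoidAlgebra F G → MonoidAlgebra F G :=
  fun a => mapDomain (fun g : G => g⁻¹) a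

lemma conjF_single (g : G) (n : F) : conjF F G (single g n) = single g⁻¹ n := mapDomain_single ..

lemma conjF_add (a b : MonoidAlgebra F G) : conjF F G (a + b) = conjF F G a + conjF F G b :=
  mapDomain_add _ a b

lemma conjF_zero : conjF F G 0 = 0 := mapDomain_zero _

lemma conjF_conjF (a : MonoidAlgebra F G) : conjF F G (conjF F G a) = a := by
  induction a using MonoidAlgebra.induction_linear with
  | zero => rw [conjF_zero, conjF_zero]
  | add x y hx hy => rw [conjF_add, conjF_add, hx, hy]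
  | single g n => rw [conjF_single, conjF_single, inv_inv]

lemma conjF_mul (a b : MonoidAlgebra F G) : conjF F G (a * b) = conjF F G b * conjF F G a := by
  induction a using MonoidAlgebra.induction_linear with
  | zero => rw [zero_mul, conjF_zero, mul_zero]
  | add x y hx hy => rw [add_mul, conjF_add, hx, hy, conjF_add, mul_add]
  | single g n =>
    induction b using MonoidAlgebra.induction_linear with
    | zero => rw [mul_zero, conjF_zero, zero_mul]
    | add x y hx hy => rw [mul_add, conjF_add, hx, hy, conjF_add, add_mul]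
    | single h m =>
      rw [single_mul_single, conjF_single, conjF_single, conjF_single, single_mul_single,
        _root_.mul_inv_rev, mul_comm n m]

/-- the `*`-ring structure on `F[G]` -/
noncomputable abbrev starRingF (F : Type*) [CommRing F] (G : Type*) [Group G] :
    StarRing (MonoidAlgebra F G) where
  star := conjF F G
  star_involutive := conjF_conjF
  star_mul := conjF_mul
  star_add := conjF_add

lemma conjF_smul (c : F) (a : MonoidAlgebra F G) : conjF F G (c • a) = c • conjF F G a := by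
  induction a using MonoidAlgebra.induction_linear with
  | zero => rw [smul_zero, conjF_zero, smul_zero]
  | add x y hx hy => rw [smul_add, conjF_add, hx, hy, conjF_add, smul_add]
  | single g n =>
    rw [MonoidAlgebra.smul_single, conjF_single, conjF_single, MonoidAlgebra.smul_single]

/-- the base change `ℤ[G] → F[G]` -/
noncomputable def bc (F : Type*) [CommRing F] (G : Type*) [Group G] :
    MonoidAlgebra ℤ G →+* MonoidAlgebra F G :=
  MonoidAlgebra.mapRingHom G (Int.castRingHom F)

lemma bc_conj (a : MonoidAlgebra ℤ G) : bc F G (conj G a) = conjF F G (bc F G a) := by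
  induction a using MonoidAlgebra.induction_linear with
  | zero => rw [conj_zero, map_zero, conjF_zero]
  | add x y hx hy => rw [conj_add, map_add, map_add, hx, hy, conjF_add]
  | single g n =>
    rw [conj_single, bc, MonoidAlgebra.mapRingHom_single, MonoidAlgebra.mapRingHom_single,
      conjF_single]

/-- the matrix of the dual map: transpose and apply the involution `bar` to all entries -/
def dualBy {R : Type*} (bar : R → R) {m n : Type} (M : Matrix m n R) : Matrix n m R :=
  Matrix.of fun i j => bar (M j i)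

/-- the matrix of the hyperbolic form `(0 1; -k 0)` on the free module of rank `2 |κ|` -/
def hyp (R : Type*) [Ring R] (k : ℤ) (κ : Type) [DecidableEq κ] : Matrix (κ ⊕ κ) (κ ⊕ κ) R :=
  fromBlocks 0 1 (-(k • 1)) 0

end

/-- Let `R` be a ring with involution `bar` and `P = Rⁿ e` with `e` idempotent. There is an isometry
(matrix `a`, with inverse `b` equal to the adjoint of `a` for the hyperbolic forms `(0 1; -k 0)`) from
the hyperbolic space of `Rᵍ` to that of `P`, such that the second component of `b` is `D₂` on `P`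
and, on the dual of `P`, has composite with `D₁` equal to minus the dual of `D₃`. -/
def IsHeegaard {R : Type*} [Ring R] (bar : R → R) {n g : ℕ} (k : ℤ) (D₁ : Matrix (Fin g) Unit R)
    (D₂ : Matrix (Fin n) (Fin g) R) (D₃ : Matrix Unit (Fin n) R) (e : Matrix (Fin n) (Fin n) R) :
    Prop :=
  ∃ (a : Matrix (Fin g ⊕ Fin g) (Fin n ⊕ Fin n) R) (b : Matrix (Fin n ⊕ Fin n) (Fin g ⊕ Fin g) R),
    b = hyp R k (Fin n) * dualBy bar a * hyp R k (Fin g) ∧
    a * b = 1 ∧ b * a = fromBlocks e 0 0 (dualBy bar e) ∧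
    b.toBlocks₁₂ = D₂ ∧ b.toBlocks₂₂ * D₁ = -dualBy bar D₃

section
variable {G : Type} [Group G] {n g : ℕ}
    {D₁ : Matrix (Fin g) Unit (MonoidAlgebra ℤ G)} {D₂ : Matrix (Fin n) (Fin g) (MonoidAlgebra ℤ G)}
    {D₃ : Matrix Unit (Fin n) (MonoidAlgebra ℤ G)} {e : Matrix (Fin n) (Fin n) (MonoidAlgebra ℤ G)}

theorem Ex.heegaard (hE : letI := starRing G; Ex (aug G) D₁ D₂ D₃ e) :
    ∃ k : ℤ, (k = 1 ∨ k = -1) ∧ ∀ (F : Type*) [CommRing F] (c : F), 2 * c = 1 →
      IsHeegaard (conjF F G) k (D₁.map (bc F G)) (D₂.map (bc F G)) (D₃.map (bc F G))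
        (e.map (bc F G)) := by
  let _ := starRing G
  obtain ⟨k, T, S, H, h, hk, eT, Se, TD, eH, He, hH, SD, DS, hh, Dh⟩ := hE.exists_duality
  obtain ⟨s₁, s₂, t₁, t₂, es₁, es₂, te₁, te₂, q1, q2, q3, q4, q5, q6, q7⟩ :=
    hE.exists_contraction hk eT Se TD SD DS
  refine ⟨k, hk, ?_⟩
  intro F _ c hc
  let _ := starRingF F G
  let _ : StarRing F := starRingOfComm
  have : TrivialStar F := ⟨fun _ => rfl⟩
  have : StarModule F (MonoidAlgebra F G) := ⟨conjF_smul⟩
  let φ := bc F G
  have hst : ∀ {p q : Type} (M : Matrix p q (MonoidAlgebra ℤ G)), (Mᴴ).map φ = (M.map φ)ᴴ := by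
    intro p q M
    ext1 i j
    exact bc_conj (M j i)
  have hsm : ∀ {p q : Type} (M : Matrix p q (MonoidAlgebra ℤ G)),
      (k • M).map φ = (k : F) • M.map φ := by
    intro p q M
    ext1 i j
    rw [Matrix.map_apply, Matrix.smul_apply, map_zsmul, Matrix.smul_apply, Matrix.map_apply,
      Int.cast_smul_eq_zsmul]
  have hmul : ∀ {p q r : Type} [Fintype q] (M : Matrix p q (MonoidAlgebra ℤ G))
      (N : Matrix q r (MonoidAlgebra ℤ G)),
      (M * N).map φ = M.map φ * N.map φ := fun M N => Matrix.map_mul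
  have hadd : ∀ {p q : Type} (M N : Matrix p q (MonoidAlgebra ℤ G)),
      (M + N).map φ = M.map φ + N.map φ :=
    fun M N => Matrix.map_add φ (map_add φ) M N
  have hsub : ∀ {p q : Type} (M N : Matrix p q (MonoidAlgebra ℤ G)),
      (M - N).map φ = M.map φ - N.map φ :=
    fun M N => Matrix.map_sub φ (map_sub φ) M N
  have hzero : ∀ {p q : Type}, (0 : Matrix p q (MonoidAlgebra ℤ G)).map φ = 0 :=
    Matrix.map_zero φ (map_zero φ)
  have hone : ∀ {p : Type} [DecidableEq p], (1 : Matrix p p (MonoidAlgebra ℤ G)).map φ = 1 :=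
    Matrix.map_one φ (map_zero φ) (map_one φ)
  have hk' : (k : F) = 1 ∨ (k : F) = -1 := by rcases hk with rfl | rfl <;> simp
  obtain ⟨T', t₁', t₂', g1, g2, g3⟩ := Run7.h312.heegaard (F := F) hc hk' (e := e.map φ) (by
      rw [← hmul, hE.ee])
    (D := D₂.map φ) (T := T.map φ)
    (S := S.map φ) (H := H.map φ) (h := h.map φ) (D₁ := D₁.map φ) (D₃ := D₃.map φ)
    (by rw [← hmul, hE.eD₂]) (by rw [← hst, ← hmul, eT]) (by rw [← hmul, Se])
    (by rw [← hst, ← hmul, eH]) (by rw [← hmul, He]) (by rw [← hst, ← hmul, TD])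
    (by rw [← hst, ← hsm, ← hsub, ← hmul, hH])
    (by rw [← hst, ← hmul, ← hmul, SD]) (by rw [← hst, ← hmul, ← hsm, DS])
    (by rw [← hst, ← hst, ← hsm, ← hadd, ← hmul, ← hmul, hh]) (by rw [← hst, ← hmul, Dh, hzero])
    (by rw [← hmul, hE.D₂D₁, hzero]) (s₁ := s₁.map φ) (s₂ := s₂.map φ) (t₁ := t₁.map φ)
    (t₂ := t₂.map φ) (by rw [← hst, ← hmul, es₂]) (by rw [← hmul, te₁])
    (by rw [← hst, ← hmul, te₂]) (by rw [← hst, ← hmul, ← hmul, ← hadd, q1, hone])
    (by rw [← hmul, ← hmul, ← hsub, q2, hone]) (by rw [← hmul, ← hmul, ← hadd, q3])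
    (by rw [← hst, ← hmul, ← hmul, ← hadd, q4, hzero])
    (by rw [← hmul, ← hmul, ← hsub, q5, hzero])
    (by rw [← hst, ← hst, ← hmul, ← hmul, ← hsub, q6])
  refine ⟨fromBlocks ((k : F) • T'ᴴ) (D₂.map φ)ᴴ t₁' t₂',
    fromBlocks (-((k : F) • t₂'ᴴ)) (D₂.map φ) t₁'ᴴ (-T'), ?_, g1, ?_, ?_, ?_⟩
  · have hkk : (k : F) * (k : F) = 1 := by rcases hk' with h | h <;> rw [h] <;> norm_num
    have hks : ∀ {p q : Type} (M : Matrix p q (MonoidAlgebra F G)), k • M = (k : F) • M :=
      fun M => (Int.cast_smul_eq_zsmul F k M).symm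
    change _ = hyp (MonoidAlgebra F G) k (Fin n) *
      (fromBlocks ((k : F) • T'ᴴ) (D₂.map φ)ᴴ t₁' t₂')ᴴ * hyp (MonoidAlgebra F G) k (Fin g)
    rw [fromBlocks_conjTranspose, hyp, hyp, fromBlocks_multiply, fromBlocks_multiply]
    simp only [hks, Matrix.zero_mul, Matrix.mul_zero, Matrix.one_mul, Matrix.mul_one, zero_add,
      add_zero, Matrix.neg_mul, Matrix.mul_neg, Matrix.smul_mul, Matrix.mul_smul,
      conjTranspose_smul, conjTranspose_conjTranspose, star_trivial, smul_smul, hkk, one_smul,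
      neg_neg, smul_neg, smul_zero]
  · exact g2
  · exact toBlocks_fromBlocks₁₂ ..
  · rw [toBlocks_fromBlocks₂₂, Matrix.neg_mul, g3]
    rfl

end

theorem main_E {G : Type} [Group G] (hG : IsOrientablePD3 G) {g : ℕ} (x : Fin g → G)
    (hx : Subgroup.closure (Set.range x) = ⊤) :
    ∃ (n : ℕ) (D₂ : Matrix (Fin n) (Fin g) (MonoidAlgebra ℤ G))
      (D₃ : Matrix Unit (Fin n) (MonoidAlgebra ℤ G))
      (e : Matrix (Fin n) (Fin n) (MonoidAlgebra ℤ G)), IsSpecial x D₂ D₃ e ∧
      ∃ k : ℤ, (k = 1 ∨ k = -1) ∧ ∀ (F : Type*) [CommRing F] (c : F), 2 * c = 1 →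
        IsHeegaard (conjF F G) k ((col x).map (bc F G)) (D₂.map (bc F G)) (D₃.map (bc F G))
          (e.map (bc F G)) := by
  obtain ⟨n, D₂, D₃, e, h⟩ := exists_Ex hG x hx
  exact ⟨n, D₂, D₃, e, Ex.isSpecial h, Ex.heegaard h⟩

end Run7.h312
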