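import Pool.Agent.Run7.h230.Tasks

/-! Elementary facts about λ-systems. -/

set_option autoImplicit false

namespace Run7.h312.LS

open Run7.h230 Run7.h230.LSp

variable {O J : Type} [Fintype J] {𝓛 : LSp O J}

lemma lam_nonneg (h : 𝓛.Good) (x y : O) : 0 ≤ 𝓛.lam x y := by
  by_cases hxy : x = y
  · subst hxy
    by_cases hx : x ∈ 𝓛.hb
    · rw [h.hbb x hx]
    · rw [h.pt x hx]; norm_num
  · linarith [h.ge x y hxy]

lemma lam_pos (h : 𝓛.Good) {x y : O} (hxy : x ≠ y) : 0 < 𝓛.lam x y := by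
  linarith [h.ge x y hxy]

lemma D_pos (h : 𝓛.Good) : 0 < 𝓛.D := by linarith [h.D_ge]

lemma tau_ge (h : 𝓛.Good) : 16 ≤ 𝓛.tau := by
  have := h.D_ge
  unfold LSp.tau
  linarith

lemma rho_nonneg (h : 𝓛.Good) (B x y : O) : 0 ≤ 𝓛.rho B x y :=
  div_nonneg (lam_nonneg h _ _) (mul_nonneg (lam_nonneg h _ _) (lam_nonneg h _ _))

lemma rho_symm (h : 𝓛.Good) (B x y : O) : 𝓛.rho B x y = 𝓛.rho B y x := by
  unfold LSp.rho
  rw [h.symm x y, h.symm x B, h.symm B y, mul_comm (𝓛.lam B x)]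

lemma lam_eq (h : 𝓛.Good) {B x y : O} (hx : B ≠ x) (hy : B ≠ y) :
    𝓛.lam x y = 𝓛.rho B x y * (𝓛.lam x B * 𝓛.lam B y) := by
  have h1 := lam_pos h hx.symm
  have h2 := lam_pos h hy
  unfold LSp.rho
  field_simp

lemma rho_tri (h : 𝓛.Good) {B x y z : O} (hx : B ≠ x) (hy : B ≠ y) (hz : B ≠ z) :
    𝓛.rho B x y ≤ 𝓛.rho B x z + 𝓛.rho B z y := by
  have h1 := lam_pos h hx.symm
  have h2 := lam_pos h hy
  have h3 := lam_pos h hz
  have h3' : 𝓛.lam z B = 𝓛.lam B z := h.symm _ _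
  have h0 := h.ptol x y z B
  rw [h3', h.symm y B, h.symm y z] at h0
  unfold LSp.rho
  rw [h3', div_add_div _ _ (by positivity) (by positivity), div_le_div_iff₀ (by positivity)
    (by positivity)]
  have h4 : 0 < 𝓛.lam x B * 𝓛.lam B y * 𝓛.lam B z := by positivity
  nlinarith [mul_le_mul_of_nonneg_right h0 h4.le]

/-- the active horoballs of a pair -/
def Act (𝓛 : LSp O J) (θ : ℝ) (x y : O) : Set O :=
  {B | B ∈ 𝓛.hb ∧ B ≠ x ∧ B ≠ y ∧ θ ≤ 𝓛.rho B x y}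

lemma Act_symm (h : 𝓛.Good) (θ : ℝ) (x y : O) : Act 𝓛 θ x y = Act 𝓛 θ y x := by
  ext B
  simp only [Act, Set.mem_setOf_eq, rho_symm h B x y]
  tauto

lemma sep (h : 𝓛.Good) {θ : ℝ} (hθ : 0 < θ) {x y B B' : O} (hB : B ∈ Act 𝓛 θ x y)
    (hB' : B' ∈ Act 𝓛 θ x y) (hne : B ≠ B') :
    θ * 𝓛.lam x B ≤ 2 * 𝓛.lam x B' ∨ θ * 𝓛.lam x B' ≤ 2 * 𝓛.lam x B := by
  obtain ⟨-, b1, b2, b3⟩ := hB
  obtain ⟨-, c1, c2, c3⟩ := hB'
  have p1 := lam_pos h b1.symm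
  have p2 := lam_pos h b2
  have p3 := lam_pos h c1.symm
  have p4 := lam_pos h c2
  have e1 : θ * (𝓛.lam x B * 𝓛.lam B y) ≤ 𝓛.lam x y := by
    rw [lam_eq h b1 b2]
    exact mul_le_mul_of_nonneg_right b3 (by positivity)
  have e2 : θ * (𝓛.lam x B' * 𝓛.lam B' y) ≤ 𝓛.lam x y := by
    rw [lam_eq h c1 c2]
    exact mul_le_mul_of_nonneg_right c3 (by positivity)
  have h0 := h.ptol x y B B'
  rw [h.symm y B', h.symm y B] at h0
  have h1 := h.ge B B' hne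
  have h2 : 𝓛.lam x y ≤ 𝓛.lam x B * 𝓛.lam B' y + 𝓛.lam x B' * 𝓛.lam B y := by
    have := lam_nonneg h x y
    nlinarith
  rcases le_total (𝓛.lam x B * 𝓛.lam B' y) (𝓛.lam x B' * 𝓛.lam B y) with h3 | h3
  · left
    have h4 : (θ * 𝓛.lam x B) * 𝓛.lam B y ≤ (2 * 𝓛.lam x B') * 𝓛.lam B y := by nlinarith
    exact le_of_mul_le_mul_right h4 p2
  · right
    have h4 : (θ * 𝓛.lam x B') * 𝓛.lam B' y ≤ (2 * 𝓛.lam x B) * 𝓛.lam B' y := by nlinarith
    exact le_of_mul_le_mul_right h4 p4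

lemma sum_le (h : 𝓛.Good) {x y : O} : ∀ (n : ℕ) (S : Finset O), S.card = n →
    (∀ B ∈ S, B ∈ Act 𝓛 8 x y) → ∀ L : ℝ, 0 < L → (∀ B ∈ S, L ≤ 𝓛.lam x B) →
    ∑ B ∈ S, 1 / 𝓛.lam x B ≤ 2 / L := by
  classical
  intro n
  induction n with
  | zero =>
    intro S hS _ L hL _
    rw [Finset.card_eq_zero.1 hS, Finset.sum_empty]
    positivity
  | succ n ih =>
    intro S hS hA L hL hSL
    have hne : S.Nonempty := by
      rw [← Finset.card_pos, hS]; omega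
    obtain ⟨B₀, hB₀, hmin⟩ := Finset.exists_min_image S (fun B => 𝓛.lam x B) hne
    have ha : 0 < 𝓛.lam x B₀ := lt_of_lt_of_le hL (hSL _ hB₀)
    have h1 : ∀ B ∈ S.erase B₀, 4 * 𝓛.lam x B₀ ≤ 𝓛.lam x B := by
      intro B hB
      have hBS := Finset.mem_of_mem_erase hB
      have hBne := Finset.ne_of_mem_erase hB
      have hm := hmin B hBS
      rcases sep h (by norm_num : (0 : ℝ) < 8) (hA _ hBS) (hA _ hB₀) hBne with h2 | h2
      · linarith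
      · linarith
    have h2 := ih (S.erase B₀) (by rw [Finset.card_erase_of_mem hB₀, hS]; rfl)
      (fun B hB => hA B (Finset.mem_of_mem_erase hB)) (4 * 𝓛.lam x B₀) (by positivity) h1
    rw [← Finset.add_sum_erase S _ hB₀]
    have h3 : 2 / (4 * 𝓛.lam x B₀) = (1 / 2) * (1 / 𝓛.lam x B₀) := by
      field_simp; norm_num
    have h4 : 2 / 𝓛.lam x B₀ ≤ 2 / L := by
      apply div_le_div_of_nonneg_left (by norm_num) hL (hSL _ hB₀)
    have h5 : 2 / 𝓛.lam x B₀ = 2 * (1 / 𝓛.lam x B₀) := by ring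
    have h6 : 0 < 1 / 𝓛.lam x B₀ := by positivity
    linarith

/-- the sum of the inverse distances over active horoballs -/
lemma sum_act (h : 𝓛.Good) {x y : O} (S : Finset O) (hA : ∀ B ∈ S, B ∈ Act 𝓛 8 x y) :
    ∑ B ∈ S, 1 / 𝓛.lam x B ≤ 2 := by
  have := sum_le h S.card S rfl hA 1 one_pos (fun B hB => h.ge x B (hA B hB).2.1.symm)
  simpa using this

lemma finite_act (h : 𝓛.Good) (x y : O) : (Act 𝓛 8 x y).Finite := by
  by_contra hinf
  have hinf' : (Act 𝓛 8 x y).Infinite := hinf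
  obtain ⟨N, hN⟩ := exists_nat_gt (𝓛.lam x y)
  obtain ⟨t, ht1, ht2⟩ := hinf'.exists_subset_card_eq (N + 1)
  have h1 := sum_act h t (fun B hB => ht1 hB)
  have h2 : ∀ B ∈ t, 8 / (𝓛.lam x y + 1) ≤ 1 / 𝓛.lam x B := by
    intro B hB
    obtain ⟨-, b1, b2, b3⟩ := ht1 hB
    have p1 := lam_pos h b1.symm
    have p2 := h.ge B y b2
    have e1 : 8 * (𝓛.lam x B * 𝓛.lam B y) ≤ 𝓛.lam x y := by
      rw [lam_eq h b1 b2]
      exact mul_le_mul_of_nonneg_right b3 (by positivity)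
    rw [div_le_div_iff₀ (by linarith [lam_nonneg h x y]) p1]
    nlinarith
  have h3 := Finset.card_nsmul_le_sum t _ _ h2
  rw [ht2, nsmul_eq_mul] at h3
  have h4 : 0 < 𝓛.lam x y + 1 := by linarith [lam_nonneg h x y]
  have h5 : ((N + 1 : ℕ) : ℝ) * (8 / (𝓛.lam x y + 1)) ≤ 2 := h3.trans h1
  rw [mul_div_assoc', div_le_iff₀ h4] at h5
  push_cast at h5
  linarith

/-- `K`-betweenness bounds the smaller one of the two projection distances -/
lemma btw_min (h : 𝓛.Good) {K : ℝ} {x y z B : O} (hb : 𝓛.Btw K x y z) (hK : 0 ≤ K)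
    (hx : B ≠ x) (hy : B ≠ y) (hz : B ≠ z) :
    min (𝓛.rho B x z) (𝓛.rho B z y) * 𝓛.lam z B ^ 2 ≤ 2 * K := by
  have h1 := lam_pos h hx.symm
  have h2 := lam_pos h hy
  have h3 := lam_pos h hz.symm
  have h3' : 𝓛.lam B z = 𝓛.lam z B := h.symm _ _
  have a0 := rho_nonneg h B x z
  have b0 := rho_nonneg h B z y
  have e1 : 𝓛.rho B x z * 𝓛.rho B z y * 𝓛.lam z B ^ 2 * (𝓛.lam x B * 𝓛.lam B y) =
      𝓛.lam x z * 𝓛.lam z y := by
    unfold LSp.rho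
    rw [h3']
    field_simp
  have e2 : 𝓛.rho B x z * 𝓛.rho B z y * 𝓛.lam z B ^ 2 ≤ K * 𝓛.rho B x y := by
    have : 𝓛.rho B x z * 𝓛.rho B z y * 𝓛.lam z B ^ 2 * (𝓛.lam x B * 𝓛.lam B y) ≤
        (K * 𝓛.rho B x y) * (𝓛.lam x B * 𝓛.lam B y) := by
      rw [e1, mul_assoc K, ← lam_eq h hx hy]
      exact hb
    exact le_of_mul_le_mul_right this (by positivity)
  have e3 : K * 𝓛.rho B x y ≤ K * (𝓛.rho B x z + 𝓛.rho B z y) :=
    mul_le_mul_of_nonneg_left (rho_tri h hx hy hz) hK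
  rcases le_total (𝓛.rho B x z) (𝓛.rho B z y) with hle | hle
  · rw [min_eq_left hle]
    by_cases hb0 : 𝓛.rho B z y = 0
    · have : 𝓛.rho B x z = 0 := le_antisymm (by rw [← hb0]; exact hle) a0
      rw [this]; nlinarith
    · have hbp : 0 < 𝓛.rho B z y := lt_of_le_of_ne b0 (Ne.symm hb0)
      have : (𝓛.rho B x z * 𝓛.lam z B ^ 2) * 𝓛.rho B z y ≤ (2 * K) * 𝓛.rho B z y := by nlinarith
      exact le_of_mul_le_mul_right this hbp
  · rw [min_eq_right hle]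
    by_cases hb0 : 𝓛.rho B x z = 0
    · have : 𝓛.rho B z y = 0 := le_antisymm (by rw [← hb0]; exact hle) b0
      rw [this]; nlinarith
    · have hbp : 0 < 𝓛.rho B x z := lt_of_le_of_ne a0 (Ne.symm hb0)
      have : (𝓛.rho B z y * 𝓛.lam z B ^ 2) * 𝓛.rho B x z ≤ (2 * K) * 𝓛.rho B x z := by nlinarith
      exact le_of_mul_le_mul_right this hbp

end Run7.h312.LS
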