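import Pool.Agent.Run7.h312.Pos

/-! Two lagrangians of a hyperbolic form over a complex `*`-algebra with `PosMat` are isomorphic:
the explicit isomorphism. -/

set_option autoImplicit false

namespace Run7.h312

open Matrix

section
variable {A : Type*} [Ring A] [StarRing A] [Algebra ℂ A] [StarModule ℂ A]
variable {ι κ : Type*} [Fintype ι] [DecidableEq ι] [Fintype κ] [DecidableEq κ]

/-- projection form -/
theorem lag_proj (hA : PosMat A) {k c : ℂ} (hk : k * k = 1) (hks : star k = k)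
    (hc : star c = -(k * c)) (hcc : c * star c = 1)
    {f : Matrix ι ι A} (hf : f * f = f) (hfs : fᴴ = f)
    {D T : Matrix ι κ A} {S : Matrix κ ι A} (hD : f * D = D) (hT : f * T = T)
    (hS : S = k • Tᴴ) (hSD : S * D = Dᴴ * T)
    {s₁ s₂ : Matrix ι κ A} {t₁ t₂ : Matrix κ ι A}
    (h1 : S * s₁ + Dᴴ * s₂ = 1) (h2 : s₁ * S + D * t₁ = f) (h3 : s₁ * Dᴴ + D * t₂ = 0)
    (h4 : s₂ * S - T * t₁ = 0) (h5 : s₂ * Dᴴ - T * t₂ = f) :
    ∃ (u : Matrix κ ι A) (v : Matrix ι κ A), u * f = u ∧ u * v = 1 ∧ v * u = f := by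
  have hTS : Tᴴ = k • S := by rw [hS, smul_smul, hk, one_smul]
  have hSf : S * f = S := by
    rw [hS, Matrix.smul_mul]
    congr 1
    rw [← hfs, ← conjTranspose_mul, hT]
  have hDf : Dᴴ * f = Dᴴ := by rw [← hfs, ← conjTranspose_mul, hD]
  have hSs : Sᴴ = k • T := by
    rw [hS, conjTranspose_smul, conjTranspose_conjTranspose, hks]
  -- Δ
  obtain ⟨Δ, hΔ⟩ : ∃ Δ : (Matrix κ κ A)ˣ, (Δ : Matrix κ κ A) = S * Sᴴ + Dᴴ * D := by
    have h6 := isUnit_mul_star hA (fromCols S Dᴴ) (fromRows s₁ s₂) (by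
      rw [fromCols_mul_fromRows, h1])
    rw [conjTranspose_fromCols_eq_fromRows_conjTranspose, fromCols_mul_fromRows,
      conjTranspose_conjTranspose] at h6
    exact h6
  obtain ⟨y, hy⟩ : ∃ y : Matrix κ κ A, y = ↑Δ⁻¹ := ⟨_, rfl⟩
  have hΔy : (S * Sᴴ + Dᴴ * D) * y = 1 := by rw [← hΔ, hy, Δ.mul_inv]
  have hyΔ : y * (S * Sᴴ + Dᴴ * D) = 1 := by rw [← hΔ, hy, Δ.inv_mul]
  have hcross : Dᴴ * Sᴴ = k • (S * D) := by
    rw [← conjTranspose_mul, hSD, conjTranspose_mul, conjTranspose_conjTranspose, hTS,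
      Matrix.smul_mul, hSD]
  have hcc' : c * -(k * c) = 1 := by rw [← hc, hcc]
  have huu : (S + c • Dᴴ) * (S + c • Dᴴ)ᴴ = S * Sᴴ + Dᴴ * D := by
    rw [conjTranspose_add, conjTranspose_smul, conjTranspose_conjTranspose, hc]
    simp only [Matrix.add_mul, Matrix.mul_add, Matrix.smul_mul, Matrix.mul_smul, hcross]
    match_scalars
    · ring
    · ring
    · linear_combination hcc'
  have huu' : (S - c • Dᴴ) * (S - c • Dᴴ)ᴴ = S * Sᴴ + Dᴴ * D := by
    rw [conjTranspose_sub, conjTranspose_smul, conjTranspose_conjTranspose, hc]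
    simp only [Matrix.sub_mul, Matrix.mul_sub, Matrix.smul_mul, Matrix.mul_smul, hcross]
    match_scalars
    · ring
    · ring
    · linear_combination hcc'
  obtain ⟨u, hu⟩ : ∃ u, u = S + c • Dᴴ := ⟨_, rfl⟩
  obtain ⟨u', hu'⟩ : ∃ u', u' = S - c • Dᴴ := ⟨_, rfl⟩
  rw [← hu] at huu
  rw [← hu'] at huu'
  have huf : u * f = u := by rw [hu, Matrix.add_mul, Matrix.smul_mul, hSf, hDf]
  have hu'f : u' * f = u' := by rw [hu', Matrix.sub_mul, Matrix.smul_mul, hSf, hDf]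
  have hfu : f * uᴴ = uᴴ := by rw [← hfs, ← conjTranspose_mul, huf]
  -- the element `b`
  obtain ⟨b, hb⟩ : ∃ b, b = uᴴ * y * u' := ⟨_, rfl⟩
  have hbu' : b * u'ᴴ = uᴴ := by
    rw [hb, Matrix.mul_assoc, huu', Matrix.mul_assoc, hyΔ, Matrix.mul_one]
  have hbf : b * f = b := by rw [hb, Matrix.mul_assoc, hu'f]
  have hc0 : c ≠ 0 := by
    rintro rfl
    simp at hcc
  obtain ⟨x, hx⟩ : ∃ x : Matrix ι ι A, x = (1 / 2 : ℂ) • (f + b) := ⟨_, rfl⟩
  obtain ⟨w, hw⟩ : ∃ w : Matrix ι ι A, w = (1 / (2 * c) : ℂ) • (f - b) := ⟨_, rfl⟩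
  have hxw : x + c • w = f := by
    rw [hx, hw, smul_smul]
    have : c * (1 / (2 * c)) = 1 / 2 := by field_simp
    rw [this]
    module
  have hxw' : x - c • w = b := by
    rw [hx, hw, smul_smul]
    have : c * (1 / (2 * c)) = 1 / 2 := by field_simp
    rw [this]
    module
  have hxf : x * f = x := by rw [hx, Matrix.smul_mul, Matrix.add_mul, hf, hbf]
  have hwf : w * f = w := by rw [hw, Matrix.smul_mul, Matrix.sub_mul, hf, hbf]
  -- lagrangian
  have hlag : x * D - w * T = 0 := by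
    have e1 : (x + c • w) * uᴴ = (x - c • w) * u'ᴴ := by
      rw [hxw, hxw', hfu, hbu']
    rw [hu, hu', conjTranspose_add, conjTranspose_sub, conjTranspose_smul,
      conjTranspose_conjTranspose, hSs, hc] at e1
    simp only [Matrix.add_mul, Matrix.sub_mul, Matrix.mul_add, Matrix.mul_sub, Matrix.smul_mul,
      Matrix.mul_smul] at e1
    have e2 : (2 * -(k * c)) • (x * D - w * T) = 0 := by
      rw [← sub_eq_zero] at e1
      rw [← e1]
      module
    have e3 : (2 * -(k * c)) ≠ 0 := by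
      have : k ≠ 0 := by
        rintro rfl
        simp at hk
      simp [this, hc0]
    exact (smul_eq_zero_iff_right e3).1 e2
  obtain ⟨V, hV⟩ : ∃ V, V = x * s₁ + w * s₂ := ⟨_, rfl⟩
  have hVS : V * S = x := by
    calc V * S = x * (s₁ * S + D * t₁) + w * (s₂ * S - T * t₁) - (x * D - w * T) * t₁ := by
          rw [hV]
          simp only [Matrix.add_mul, Matrix.mul_add, Matrix.mul_sub, Matrix.sub_mul,
            Matrix.mul_assoc]
          abel
      _ = x := by rw [h2, h4, hlag, hxf]; simp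
  have hVD : V * Dᴴ = w := by
    calc V * Dᴴ = x * (s₁ * Dᴴ + D * t₂) + w * (s₂ * Dᴴ - T * t₂) - (x * D - w * T) * t₂ := by
          rw [hV]
          simp only [Matrix.add_mul, Matrix.mul_add, Matrix.mul_sub, Matrix.sub_mul,
            Matrix.mul_assoc]
          abel
      _ = w := by rw [h3, h5, hlag, hwf]; simp
  have hVu : V * u = f := by
    rw [hu, Matrix.mul_add, Matrix.mul_smul, hVS, hVD, hxw]
  have hVy : V = uᴴ * y := by
    calc V = V * ((S * Sᴴ + Dᴴ * D) * y) := by rw [hΔy, Matrix.mul_one]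
      _ = (V * u) * uᴴ * y := by rw [← huu]; simp only [Matrix.mul_assoc]
      _ = uᴴ * y := by rw [hVu, hfu]
  refine ⟨u, uᴴ * y, huf, ?_, ?_⟩
  · rw [← Matrix.mul_assoc, huu, hΔy]
  · rw [← hVy, hVu]

/-- idempotent form -/
theorem lag_idem (hA : PosMat A) {k c : ℂ} (hk : k * k = 1) (hks : star k = k)
    (hc : star c = -(k * c)) (hcc : c * star c = 1)
    {e : Matrix ι ι A} (he : e * e = e)
    {D T : Matrix ι κ A} {S : Matrix κ ι A} (hD : e * D = D) (hT : eᴴ * T = T)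
    (hS : S = k • Tᴴ) (hSD : S * D = Dᴴ * T)
    {s₁ s₂ : Matrix ι κ A} {t₁ t₂ : Matrix κ ι A} (hs2 : eᴴ * s₂ = s₂) (ht1 : t₁ * e = t₁)
    (h1 : S * s₁ + Dᴴ * s₂ = 1) (h1' : t₁ * D - t₂ * T = 1)
    (h2 : s₁ * S + D * t₁ = e) (h3 : s₁ * Dᴴ + D * t₂ = 0)
    (h4 : s₂ * S - T * t₁ = 0) (h5 : s₂ * Dᴴ - T * t₂ = eᴴ) :
    ∃ (u : Matrix κ ι A) (v : Matrix ι κ A), u * v = 1 ∧ v * u = e := by
  obtain ⟨f, hff, hfs, hef, hfe⟩ := exists_proj hA he
  have hfe' : f * eᴴ = eᴴ := by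
    rw [← hfs, ← conjTranspose_mul, hef]
  have hef' : eᴴ * f = f := by
    have : (f * e)ᴴ = fᴴ := by rw [hfe]
    rwa [conjTranspose_mul, hfs] at this
  have hfT : f * T = T := by rw [← hT, ← Matrix.mul_assoc, hfe']
  have hfs2 : f * s₂ = s₂ := by rw [← hs2, ← Matrix.mul_assoc, hfe']
  have hSe : S * e = S := by
    rw [hS, Matrix.smul_mul]
    congr 1
    have := congrArg conjTranspose hT
    rwa [conjTranspose_mul, conjTranspose_conjTranspose] at this
  have hSf : S * f = S := by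
    rw [hS, Matrix.smul_mul]
    congr 1
    rw [← hfs, ← conjTranspose_mul, hfT]
  have ht1f : t₁ * f = t₁ := by rw [← ht1, Matrix.mul_assoc, hef]
  obtain ⟨u, v, huf, huv, hvu⟩ := lag_proj hA hk hks hc hcc hff hfs (D := f * D) (T := T) (S := S)
    (s₁ := f * s₁) (s₂ := s₂) (t₁ := t₁) (t₂ := t₂ * f)
    (by rw [← Matrix.mul_assoc, hff]) hfT hS
    (by rw [conjTranspose_mul, hfs, ← Matrix.mul_assoc, hSf, hSD, Matrix.mul_assoc, hfT])
    (by rw [conjTranspose_mul, hfs, ← Matrix.mul_assoc, hSf, Matrix.mul_assoc, hfs2, h1])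
    (by rw [Matrix.mul_assoc, Matrix.mul_assoc, ← Matrix.mul_add, h2, hfe])
    (by
      rw [conjTranspose_mul, hfs]
      calc f * s₁ * (Dᴴ * f) + f * D * (t₂ * f) = f * (s₁ * Dᴴ + D * t₂) * f := by
            simp only [Matrix.mul_add, Matrix.add_mul, Matrix.mul_assoc]
        _ = 0 := by rw [h3]; simp)
    h4
    (by
      rw [conjTranspose_mul, hfs]
      calc s₂ * (Dᴴ * f) - T * (t₂ * f) = (s₂ * Dᴴ - T * t₂) * f := by
            simp only [Matrix.sub_mul, Matrix.mul_assoc]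
        _ = f := by rw [h5, hef'])
  have hue : u * e = u := by rw [← huf, Matrix.mul_assoc, hfe]
  refine ⟨u, e * v, ?_, ?_⟩
  · rw [← Matrix.mul_assoc, hue, huv]
  · rw [Matrix.mul_assoc, hvu, hef]

end

end Run7.h312
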