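import Mathlib

/-! Module lemmas: kernels and quotients of finitely generated projective modules. -/

set_option autoImplicit false

namespace Run7.h312

section
variable {R : Type*} [Ring R]
variable {M N P : Type*} [AddCommGroup M] [Module R M] [AddCommGroup N] [Module R N]
  [AddCommGroup P] [Module R P]

/-- lifting through a map onto its range -/
theorem lift_range [Module.Projective R P] (f : P →ₗ[R] N) (d : M →ₗ[R] N)
    (h : ∀ p, f p ∈ LinearMap.range d) : ∃ k : P →ₗ[R] M, d ∘ₗ k = f := by
  obtain ⟨k, hk⟩ := Module.projective_lifting_property d.rangeRestrict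
    (f.codRestrict (LinearMap.range d) h) d.surjective_rangeRestrict
  refine ⟨k, ?_⟩
  ext p
  have := congrArg Subtype.val (LinearMap.congr_fun hk p)
  simpa using this

/-- a map killing the kernel factors through the range -/
theorem factor_range (d : M →ₗ[R] N) (f : M →ₗ[R] P) (h : ∀ x, d x = 0 → f x = 0) :
    ∃ k : LinearMap.range d →ₗ[R] P, ∀ x, k ⟨d x, x, rfl⟩ = f x := by
  refine ⟨((LinearMap.ker d).liftQ f (fun x hx => LinearMap.mem_ker.2 (h x hx))) ∘ₗ
    (d.quotKerEquivRange.symm : LinearMap.range d →ₗ[R] M ⧸ LinearMap.ker d), fun x => ?_⟩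
  have h1 : d.quotKerEquivRange.symm ⟨d x, x, rfl⟩ = Submodule.Quotient.mk x := by
    rw [LinearEquiv.symm_apply_eq]
    rfl
  simp only [LinearMap.coe_comp, LinearEquiv.coe_coe, Function.comp_apply, h1]
  rfl

/-- the kernel of a surjection between projective modules -/
theorem ker_proj [Module.Projective R M] [Module.Finite R M] [Module.Projective R N]
    (f : M →ₗ[R] N) (hf : Function.Surjective f) :
    Module.Projective R (LinearMap.ker f) ∧ Module.Finite R (LinearMap.ker f) ∧
      ∃ r : M →ₗ[R] LinearMap.ker f, ∀ x : LinearMap.ker f, r x = x := by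
  obtain ⟨s, hs⟩ := Module.projective_lifting_property f LinearMap.id hf
  have hs' : ∀ y, f (s y) = y := fun y => LinearMap.congr_fun hs y
  let r : M →ₗ[R] LinearMap.ker f := (LinearMap.id - s ∘ₗ f).codRestrict (LinearMap.ker f) (by
    intro c
    simp [hs'])
  have hr : ∀ x : LinearMap.ker f, r x = x := by
    intro x
    apply Subtype.ext
    have : f (x : M) = 0 := x.2
    simp [r, this]
  refine ⟨Module.Projective.of_split (LinearMap.ker f).subtype r (by
    ext x
    simp [hr]), Module.Finite.of_surjective r (fun x => ⟨x, hr x⟩), r, hr⟩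

/-- the quotient of a projective module by a complemented submodule -/
theorem quot_proj [Module.Projective R M] [Module.Finite R M] (f : M →ₗ[R] N)
    (hf : Function.Surjective f) (i : P →ₗ[R] M) (r : M →ₗ[R] P) (hi : ∀ x, r (i x) = x)
    (hker : ∀ x, f x = 0 → ∃ y, i y = x) (hfi : ∀ y, f (i y) = 0) :
    Module.Projective R N ∧ Module.Finite R N := by
  have h1 : ∀ x, f x = 0 → ((LinearMap.id : M →ₗ[R] M) - i ∘ₗ r) x = 0 := by
    intro x hx
    obtain ⟨y, rfl⟩ := hker x hx
    simp [hi]
  obtain ⟨k, hk⟩ := factor_range f ((LinearMap.id : M →ₗ[R] M) - i ∘ₗ r) h1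
  let s : N →ₗ[R] M := k ∘ₗ (LinearMap.id.codRestrict (LinearMap.range f) (fun y => hf y))
  have hs : ∀ x, s (f x) = x - i (r x) := fun x => hk x
  refine ⟨Module.Projective.of_split s f ?_, Module.Finite.of_surjective f hf⟩
  ext y
  obtain ⟨x, rfl⟩ := hf y
  simp [hs, hfi]

/-- a map from a finitely generated projective module splits if all functionals extend -/
theorem retract_of_extend [Module.Projective R P] [Module.Finite R P] (i : P →ₗ[R] M)
    (h : ∀ f : P →ₗ[R] R, ∃ k : M →ₗ[R] R, ∀ x, k (i x) = f x) :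
    ∃ r : M →ₗ[R] P, ∀ x, r (i x) = x := by
  obtain ⟨n, b, hb⟩ := Module.Finite.exists_fin' R P
  obtain ⟨a, ha⟩ := Module.projective_lifting_property b LinearMap.id hb
  choose k hk using fun j : Fin n => h ((LinearMap.proj j) ∘ₗ a)
  refine ⟨b ∘ₗ LinearMap.pi k, fun x => ?_⟩
  have h1 : (LinearMap.pi k) (i x) = a x := by
    ext j
    simp [hk]
  rw [LinearMap.comp_apply, h1]
  exact LinearMap.congr_fun ha x

end

end Run7.h312
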