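import Pool.Agent.Run7.h312.LS

/-! Task C: sums over horoballs. -/

set_option autoImplicit false

namespace Run7.h312.LS

open Run7.h230 Run7.h230.LSp

section
variable {O J : Type} [Fintype J] {𝓛 : LSp O J} {W : Type} [NormedAddCommGroup W]
  {F : O → (J → ℝ) → W} {Λ : ℝ}

lemma cut_zero (h : 𝓛.Good) (hF : 𝓛.Cut F Λ) (B : O) : F B 0 = 0 :=
  hF.zero B 0 (by rw [norm_zero]; linarith [tau_ge h])

lemma cut_norm (h : 𝓛.Good) (hF : 𝓛.Cut F Λ) (B : O) (v : J → ℝ) : ‖F B v‖ ≤ Λ * ‖v‖ := by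
  have := hF.lip B v 0
  rwa [cut_zero h hF, sub_zero, sub_zero] at this

lemma P_sub (h : 𝓛.Good) {B x y : O} (hB : B ∈ 𝓛.hb) (hx : B ≠ x) (hy : B ≠ y) :
    ‖𝓛.P B y - 𝓛.P B x‖ ≤ 𝓛.D * 𝓛.rho B x y := by
  rw [norm_sub_rev]
  exact h.P_le B hB x y hx.symm hy.symm

lemma cut_rho (h : 𝓛.Good) (hF : 𝓛.Cut F Λ) {B x y : O} (hB : B ∈ 𝓛.hb) (hx : B ≠ x)
    (hy : B ≠ y) : ‖F B (𝓛.P B y - 𝓛.P B x)‖ ≤ Λ * (𝓛.D * 𝓛.rho B x y) :=
  (cut_norm h hF _ _).trans (mul_le_mul_of_nonneg_left (P_sub h hB hx hy) hF.nonneg)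

lemma cut_act (h : 𝓛.Good) (hF : 𝓛.Cut F Λ) {B x y : O} (hB : B ∈ 𝓛.hb) (hx : B ≠ x)
    (hy : B ≠ y) (hne : F B (𝓛.P B y - 𝓛.P B x) ≠ 0) : 16 < 𝓛.rho B x y := by
  have h1 : 𝓛.tau < ‖𝓛.P B y - 𝓛.P B x‖ := by
    by_contra hc
    exact hne (hF.zero B _ (not_lt.1 hc))
  have h2 := P_sub h hB hx hy
  have h3 := D_pos h
  unfold LSp.tau at h1
  nlinarith

open Classical in
/-- the terms of the sum -/
noncomputable def tm (𝓛 : LSp O J) (F : O → (J → ℝ) → W) (x y B : O) : W :=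
  if B ∈ 𝓛.hb ∧ B ≠ x ∧ B ≠ y then F B (𝓛.P B y - 𝓛.P B x) else 0

lemma tm_of (F : O → (J → ℝ) → W) {x y B : O} (h : B ∈ 𝓛.hb ∧ B ≠ x ∧ B ≠ y) :
    tm 𝓛 F x y B = F B (𝓛.P B y - 𝓛.P B x) := if_pos h

lemma tm_not (F : O → (J → ℝ) → W) {x y B : O} (h : ¬ (B ∈ 𝓛.hb ∧ B ≠ x ∧ B ≠ y)) :
    tm 𝓛 F x y B = 0 := if_neg h

lemma tm_supp (h : 𝓛.Good) (hF : 𝓛.Cut F Λ) (x y : O) :
    Function.support (tm 𝓛 F x y) ⊆ Act 𝓛 8 x y := by
  intro B hB
  rw [Function.mem_support] at hB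
  by_cases hc : B ∈ 𝓛.hb ∧ B ≠ x ∧ B ≠ y
  · rw [tm_of F hc] at hB
    have := cut_act h hF hc.1 hc.2.1 hc.2.2 hB
    exact ⟨hc.1, hc.2.1, hc.2.2, by linarith⟩
  · exact absurd (tm_not F hc) hB

lemma tm_fin (h : 𝓛.Good) (hF : 𝓛.Cut F Λ) (x y : O) :
    (Function.support (tm 𝓛 F x y)).Finite :=
  (finite_act h x y).subset (tm_supp h hF x y)

lemma Sg_eq (F : O → (J → ℝ) → W) (x y : O) : 𝓛.Sg F x y = ∑ᶠ B, tm 𝓛 F x y B := by
  classical
  unfold LSp.Sg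
  refine finsum_congr fun B => ?_
  by_cases hc : B ∈ 𝓛.hb ∧ B ≠ x ∧ B ≠ y
  · rw [tm_of F hc]
    exact finsum_eq_if.trans (if_pos hc)
  · rw [tm_not F hc]
    exact finsum_eq_if.trans (if_neg hc)

lemma Sg_sum (h : 𝓛.Good) (hF : 𝓛.Cut F Λ) (x y : O) (T : Finset O)
    (hT : ∀ B, B ∈ Act 𝓛 8 x y → B ∈ T) : 𝓛.Sg F x y = ∑ B ∈ T, tm 𝓛 F x y B := by
  rw [Sg_eq]
  exact finsum_eq_sum_of_support_subset _ (fun B hB => hT B (tm_supp h hF x y hB))

/-- the error at a horoball different from the three objects -/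
lemma err (h : 𝓛.Good) (hF : 𝓛.Cut F Λ) {K : ℝ} (hK : 0 ≤ K) {x y z B : O}
    (hb : 𝓛.Btw K x y z) (hB : B ∈ 𝓛.hb) (hx : B ≠ x) (hy : B ≠ y) (hz : B ≠ z) :
    ‖F B (𝓛.P B y - 𝓛.P B x) - F B (𝓛.P B z - 𝓛.P B x) - F B (𝓛.P B y - 𝓛.P B z)‖ ≤
      4 * Λ * 𝓛.D * K * (1 / 𝓛.lam z B) := by
  have h1 := btw_min h hb hK hx hy hz
  have h2 := h.ge z B hz.symm
  have hD := D_pos h
  have hΛ := hF.nonneg
  have key : ‖F B (𝓛.P B y - 𝓛.P B x) - F B (𝓛.P B z - 𝓛.P B x) - F B (𝓛.P B y - 𝓛.P B z)‖ ≤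
      2 * Λ * 𝓛.D * min (𝓛.rho B x z) (𝓛.rho B z y) := by
    rcases le_total (𝓛.rho B x z) (𝓛.rho B z y) with hle | hle
    · rw [min_eq_left hle]
      have e1 := hF.lip B (𝓛.P B y - 𝓛.P B x) (𝓛.P B y - 𝓛.P B z)
      have e2 : 𝓛.P B y - 𝓛.P B x - (𝓛.P B y - 𝓛.P B z) = 𝓛.P B z - 𝓛.P B x := by abel
      rw [e2] at e1
      have e3 := P_sub h hB hx hz
      have e4 := cut_rho h hF hB hx hz
      have e5 : F B (𝓛.P B y - 𝓛.P B x) - F B (𝓛.P B z - 𝓛.P B x) - F B (𝓛.P B y - 𝓛.P B z) =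
        (F B (𝓛.P B y - 𝓛.P B x) - F B (𝓛.P B y - 𝓛.P B z)) - F B (𝓛.P B z - 𝓛.P B x) := by abel
      rw [e5]
      have e6 := norm_sub_le (F B (𝓛.P B y - 𝓛.P B x) - F B (𝓛.P B y - 𝓛.P B z))
        (F B (𝓛.P B z - 𝓛.P B x))
      have e7 := mul_le_mul_of_nonneg_left e3 hΛ
      linarith
    · rw [min_eq_right hle]
      have e1 := hF.lip B (𝓛.P B y - 𝓛.P B x) (𝓛.P B z - 𝓛.P B x)
      have e2 : 𝓛.P B y - 𝓛.P B x - (𝓛.P B z - 𝓛.P B x) = 𝓛.P B y - 𝓛.P B z := by abel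
      rw [e2] at e1
      have e3 := P_sub h hB hz hy
      have e4 := cut_rho h hF hB hz hy
      have e6 := norm_sub_le (F B (𝓛.P B y - 𝓛.P B x) - F B (𝓛.P B z - 𝓛.P B x))
        (F B (𝓛.P B y - 𝓛.P B z))
      have e7 := mul_le_mul_of_nonneg_left e3 hΛ
      linarith
  have hm : min (𝓛.rho B x z) (𝓛.rho B z y) ≤ 2 * K * (1 / 𝓛.lam z B) := by
    have hm0 : 0 ≤ min (𝓛.rho B x z) (𝓛.rho B z y) :=
      le_min (rho_nonneg h _ _ _) (rho_nonneg h _ _ _)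
    rw [mul_one_div, le_div_iff₀ (by linarith)]
    nlinarith [mul_nonneg hm0 (by linarith : (0 : ℝ) ≤ 𝓛.lam z B)]
  have := mul_le_mul_of_nonneg_left hm (by positivity : 0 ≤ 2 * Λ * 𝓛.D)
  linarith

/-- if the error does not vanish then `B` is active for `x, z` or for `z, y` -/
lemma err_act (h : 𝓛.Good) (hF : 𝓛.Cut F Λ) {x y z B : O} (hB : B ∈ 𝓛.hb) (hx : B ≠ x)
    (hy : B ≠ y) (hz : B ≠ z)
    (hne : F B (𝓛.P B y - 𝓛.P B x) - F B (𝓛.P B z - 𝓛.P B x) - F B (𝓛.P B y - 𝓛.P B z) ≠ 0) :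
    B ∈ Act 𝓛 8 x z ∨ B ∈ Act 𝓛 8 z y := by
  by_contra hc
  push Not at hc
  obtain ⟨c1, c2⟩ := hc
  have d1 : 𝓛.rho B x z < 8 := by
    by_contra hh
    exact c1 ⟨hB, hx, hz, not_lt.1 hh⟩
  have d2 : 𝓛.rho B z y < 8 := by
    by_contra hh
    exact c2 ⟨hB, hz, hy, not_lt.1 hh⟩
  have d3 := rho_tri h hx hy hz
  apply hne
  have e1 : F B (𝓛.P B y - 𝓛.P B x) = 0 := by
    by_contra hh
    linarith [cut_act h hF hB hx hy hh]
  have e2 : F B (𝓛.P B z - 𝓛.P B x) = 0 := by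
    by_contra hh
    linarith [cut_act h hF hB hx hz hh]
  have e3 : F B (𝓛.P B y - 𝓛.P B z) = 0 := by
    by_contra hh
    linarith [cut_act h hF hB hz hy hh]
  rw [e1, e2, e3]
  simp

/-- the exceptional terms -/
lemma exc (h : 𝓛.Good) (hF : 𝓛.Cut F Λ) {K : ℝ} (hK : 0 ≤ K) {x y z : O}
    (hb : 𝓛.Btw K x y z) (hy : y ∈ 𝓛.hb) (hxy : y ≠ x) (hyz : y ≠ z) :
    ‖F y (𝓛.P y z - 𝓛.P y x)‖ ≤ Λ * 𝓛.D * K := by
  have e1 := cut_rho h hF hy hxy hyz
  have p1 := h.ge z y hyz.symm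
  have p2 := lam_pos h hxy.symm
  have e2 : 𝓛.rho y x z ≤ K := by
    unfold LSp.rho
    rw [h.symm y z, div_le_iff₀ (by positivity)]
    have h3 : 𝓛.lam x z * 𝓛.lam z y ≤ K * 𝓛.lam x y := hb
    have h4 : 𝓛.lam x z ≤ K * 𝓛.lam x y := by
      nlinarith [lam_nonneg h x z, mul_nonneg hK p2.le]
    have h5 : K * 𝓛.lam x y ≤ K * (𝓛.lam x y * 𝓛.lam z y) := by
      apply mul_le_mul_of_nonneg_left _ hK
      nlinarith
    linarith
  have := mul_le_mul_of_nonneg_left e2 (mul_nonneg hF.nonneg (D_pos h).le)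
  linarith

open Classical in
/-- the main estimate -/
lemma main_est (h : 𝓛.Good) (hF : 𝓛.Cut F Λ) {K : ℝ} (hK : 0 ≤ K) {x y z : O}
    (hb : 𝓛.Btw K x y z) :
    ‖𝓛.Sg F x y - 𝓛.Sg F x z - 𝓛.Sg F z y - tm 𝓛 F x y z‖ ≤ 18 * Λ * 𝓛.D * K := by
  have hD := D_pos h
  have hΛ := hF.nonneg
  obtain ⟨T, hT⟩ : ∃ T : Finset O, T = ((finite_act h x y).toFinset ∪ (finite_act h x z).toFinset) ∪
    ((finite_act h z y).toFinset ∪ {x, y, z}) := ⟨_, rfl⟩
  have t1 : ∀ B, B ∈ Act 𝓛 8 x y → B ∈ T := fun B hB => by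
    rw [hT]; simp [hB]
  have t2 : ∀ B, B ∈ Act 𝓛 8 x z → B ∈ T := fun B hB => by
    rw [hT]; simp [hB]
  have t3 : ∀ B, B ∈ Act 𝓛 8 z y → B ∈ T := fun B hB => by
    rw [hT]; simp [hB]
  have t4 : z ∈ T := by rw [hT]; simp
  rw [Sg_sum h hF x y T t1, Sg_sum h hF x z T t2, Sg_sum h hF z y T t3]
  have t5 : tm 𝓛 F x y z = ∑ B ∈ T, if B = z then tm 𝓛 F x y z else 0 := by
    rw [Finset.sum_ite_eq' T z, if_pos t4]
  rw [t5, ← Finset.sum_sub_distrib, ← Finset.sum_sub_distrib, ← Finset.sum_sub_distrib]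
  refine (norm_sum_le _ _).trans ?_
  have hbound : ∀ B ∈ T, ‖tm 𝓛 F x y B - tm 𝓛 F x z B - tm 𝓛 F z y B -
      (if B = z then tm 𝓛 F x y z else 0)‖ ≤
      4 * Λ * 𝓛.D * K * ((if B ∈ Act 𝓛 8 x z then 1 / 𝓛.lam z B else 0) +
        (if B ∈ Act 𝓛 8 z y then 1 / 𝓛.lam z B else 0)) +
        ((if B = x then Λ * 𝓛.D * K else 0) + (if B = y then Λ * 𝓛.D * K else 0)) := by
    intro B _
    have n1 : 0 ≤ (if B ∈ Act 𝓛 8 x z then 1 / 𝓛.lam z B else 0) := by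
      split
      · exact div_nonneg one_pos.le (lam_nonneg h _ _)
      · exact le_rfl
    have n2 : 0 ≤ (if B ∈ Act 𝓛 8 z y then 1 / 𝓛.lam z B else 0) := by
      split
      · exact div_nonneg one_pos.le (lam_nonneg h _ _)
      · exact le_rfl
    have n3 : 0 ≤ (if B = x then Λ * 𝓛.D * K else 0) := by split <;> positivity
    have n4 : 0 ≤ (if B = y then Λ * 𝓛.D * K else 0) := by split <;> positivity
    have n5 : 0 ≤ 4 * Λ * 𝓛.D * K := by positivity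
    have n6 : 0 ≤ 4 * Λ * 𝓛.D * K * ((if B ∈ Act 𝓛 8 x z then 1 / 𝓛.lam z B else 0) +
        (if B ∈ Act 𝓛 8 z y then 1 / 𝓛.lam z B else 0)) := by positivity
    by_cases hBz : B = z
    · subst hBz
      rw [if_pos rfl, tm_not F (x := x) (y := B) (B := B) (by tauto),
        tm_not F (x := B) (y := y) (B := B) (by tauto)]
      simp only [sub_zero, sub_self, norm_zero]
      linarith
    rw [if_neg hBz, sub_zero]
    by_cases hBh : B ∈ 𝓛.hb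
    swap
    · rw [tm_not F (by tauto), tm_not F (by tauto), tm_not F (by tauto)]
      simp only [sub_zero, norm_zero]
      linarith
    by_cases hBx : B = x
    · subst hBx
      rw [tm_not F (x := B) (y := y) (by tauto), tm_not F (x := B) (y := z) (by tauto)]
      by_cases hBy : B = y
      · rw [tm_not F (by tauto), sub_zero, sub_zero, norm_zero]
        exact add_nonneg n6 (add_nonneg n3 n4)
      · rw [tm_of F ⟨hBh, hBz, hBy⟩, if_pos rfl]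
        simp only [sub_zero, zero_sub, norm_neg]
        have e2 : ‖F B (𝓛.P B y - 𝓛.P B z)‖ ≤ Λ * 𝓛.D * K := by
          have f1 := cut_rho h hF hBh hBz hBy
          have p1 := h.ge z B (Ne.symm hBz)
          have p2 := lam_pos h (fun hh : y = B => hBy hh.symm)
          have f2 : 𝓛.rho B z y ≤ K := by
            unfold LSp.rho
            rw [div_le_iff₀ (mul_pos (by linarith) (lam_pos h hBy))]
            have h3 : 𝓛.lam B z * 𝓛.lam z y ≤ K * 𝓛.lam B y := hb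
            rw [h.symm B z] at h3
            have h4 : 𝓛.lam z y ≤ K * 𝓛.lam B y := by
              nlinarith [lam_nonneg h z y]
            have h5 : K * 𝓛.lam B y ≤ K * (𝓛.lam z B * 𝓛.lam B y) := by
              apply mul_le_mul_of_nonneg_left _ hK
              nlinarith [lam_nonneg h B y]
            linarith
          have := mul_le_mul_of_nonneg_left f2 (mul_nonneg hF.nonneg (D_pos h).le)
          linarith
        linarith
    by_cases hBy : B = y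
    · subst hBy
      rw [tm_not F (x := x) (y := B) (by tauto), tm_not F (x := z) (y := B) (by tauto),
        tm_of F ⟨hBh, hBx, hBz⟩, if_pos rfl]
      simp only [sub_zero, zero_sub, norm_neg]
      have e1 := exc h hF hK hb hBh hBx hBz
      linarith
    · rw [tm_of F ⟨hBh, hBx, hBy⟩, tm_of F ⟨hBh, hBx, hBz⟩, tm_of F ⟨hBh, hBz, hBy⟩]
      by_cases hE : F B (𝓛.P B y - 𝓛.P B x) - F B (𝓛.P B z - 𝓛.P B x) -
          F B (𝓛.P B y - 𝓛.P B z) = 0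
      · rw [hE, norm_zero]
        linarith
      · have e1 := err h hF hK hb hBh hBx hBy hBz
        have hl : 0 ≤ 1 / 𝓛.lam z B := div_nonneg one_pos.le (lam_nonneg h _ _)
        rcases err_act h hF hBh hBx hBy hBz hE with ha | ha
        · rw [if_pos ha] at n6 ⊢
          have := mul_nonneg n5 n2
          rw [mul_add]
          linarith
        · rw [if_pos ha] at n6 ⊢
          have := mul_nonneg n5 n1
          rw [mul_add]
          linarith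
  refine (Finset.sum_le_sum hbound).trans ?_
  rw [Finset.sum_add_distrib, ← Finset.mul_sum, Finset.sum_add_distrib, Finset.sum_add_distrib]
  have s1 : ∑ B ∈ T, (if B ∈ Act 𝓛 8 x z then 1 / 𝓛.lam z B else 0) ≤ 2 := by
    rw [← Finset.sum_filter]
    refine sum_act h (x := z) (y := x) _ (fun B hB => ?_)
    rw [Finset.mem_filter] at hB
    rw [Act_symm h]
    exact hB.2
  have s2 : ∑ B ∈ T, (if B ∈ Act 𝓛 8 z y then 1 / 𝓛.lam z B else 0) ≤ 2 := by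
    rw [← Finset.sum_filter]
    refine sum_act h (x := z) (y := y) _ (fun B hB => ?_)
    rw [Finset.mem_filter] at hB
    exact hB.2
  have s3 : ∑ B ∈ T, (if B = x then Λ * 𝓛.D * K else 0) ≤ Λ * 𝓛.D * K := by
    rw [Finset.sum_ite_eq' T x]
    split
    · exact le_rfl
    · positivity
  have s4 : ∑ B ∈ T, (if B = y then Λ * 𝓛.D * K else 0) ≤ Λ * 𝓛.D * K := by
    rw [Finset.sum_ite_eq' T y]
    split
    · exact le_rfl
    · positivity
  have s5 := mul_le_mul_of_nonneg_left (add_le_add s1 s2) (by positivity : 0 ≤ 4 * Λ * 𝓛.D * K)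
  linarith

end

lemma btw_mono {O J : Type} [Fintype J] {𝓛 : LSp O J} (h : 𝓛.Good) {K K' : ℝ} (hK : K ≤ K')
    {x y z : O} (hb : 𝓛.Btw K x y z) : 𝓛.Btw K' x y z :=
  le_trans hb (mul_le_mul_of_nonneg_right hK (lam_nonneg h x y))

theorem taskC : TaskC := by
  intro O J _ 𝓛 h W _ F Λ hF
  refine ⟨fun x y => ?_, fun K => ?_⟩
  · refine (finite_act h x y).subset ?_
    rintro B ⟨hB, hx, hy, hne⟩
    have := cut_act h hF hB hx hy hne
    exact ⟨hB, hx, hy, by linarith⟩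
  · refine ⟨18 * Λ * 𝓛.D * |K|, fun x y z hb => ⟨fun hz => ?_, fun hz hzx hzy => ?_⟩⟩
    · have e1 := main_est h hF (abs_nonneg K) (btw_mono h (le_abs_self K) hb)
      rw [tm_not F (by tauto), sub_zero] at e1
      exact e1
    · have e1 := main_est h hF (abs_nonneg K) (btw_mono h (le_abs_self K) hb)
      rw [tm_of F ⟨hz, hzx, hzy⟩] at e1
      exact e1

end Run7.h312.LS
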