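import Pool.Agent.Run7.h312.PC

/-! Tasks D1 and D2: the length function and the quasi-cocycles of a λ-system. -/

set_option autoImplicit false

namespace Run7.h312.LS

open Run7.h230 Run7.h230.LSp

section
variable {O J : Type} [Fintype J] {𝓛 : LSp O J}

lemma one_le_lam (h : 𝓛.Good) {x y : O} (hxy : x ≠ y ∨ x ∉ 𝓛.hb) : 1 ≤ 𝓛.lam x y := by
  by_cases hne : x = y
  · subst hne
    rcases hxy with h1 | h1
    · exact absurd rfl h1
    · rw [h.pt x h1]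
  · exact h.ge x y hne

/-- Ptolemy with a repeated point -/
lemma lam_tri (h : 𝓛.Good) (x y : O) {w : O} (hw : w ∉ 𝓛.hb) :
    𝓛.lam x y ≤ 2 * (𝓛.lam x w * 𝓛.lam w y) := by
  have h0 := h.ptol x y w w
  rw [h.pt w hw, h.symm y w] at h0
  linarith

lemma btw_symm (h : 𝓛.Good) {K : ℝ} {x y z : O} (hb : 𝓛.Btw K x y z) : 𝓛.Btw K y x z := by
  unfold LSp.Btw at hb ⊢
  rw [h.symm y z, h.symm z x, h.symm y x, mul_comm]
  exact hb

/-- a point close to a point between `x` and `y` is between `x` and `y` -/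
lemma btw_near (h : 𝓛.Good) {K r : ℝ} (hr : 0 ≤ r) {x y c b : O} (hc : c ∉ 𝓛.hb)
    (hb : 𝓛.Btw K x y c) (hcb : 𝓛.lam c b ≤ r) : 𝓛.Btw (4 * r ^ 2 * K) x y b := by
  unfold LSp.Btw at hb ⊢
  have h1 : 𝓛.lam x b ≤ 2 * r * 𝓛.lam x c := by
    have := lam_tri h x b hc
    have h2 := mul_le_mul_of_nonneg_left hcb (lam_nonneg h x c)
    linarith
  have h2 : 𝓛.lam b y ≤ 2 * r * 𝓛.lam c y := by
    have := lam_tri h b y hc
    rw [h.symm b c] at this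
    have h2 := mul_le_mul_of_nonneg_right hcb (lam_nonneg h c y)
    linarith
  have h3 := mul_le_mul h1 h2 (lam_nonneg h b y)
    (mul_nonneg (by linarith) (lam_nonneg h x c))
  have h4 : 4 * r ^ 2 * (𝓛.lam x c * 𝓛.lam c y) ≤ 4 * r ^ 2 * (K * 𝓛.lam x y) :=
    mul_le_mul_of_nonneg_left hb (by positivity)
  linarith

/-- every triple of points has a coarse centre, which is a point or a horoball -/
lemma centre (h : 𝓛.Good) {x y z : O} (hx : x ∉ 𝓛.hb) (hy : y ∉ 𝓛.hb) :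
    ∃ c, 𝓛.Btw (8 * 𝓛.D ^ 3) x y c ∧ 𝓛.Btw (8 * 𝓛.D ^ 3) x z c ∧ 𝓛.Btw (8 * 𝓛.D ^ 3) y z c := by
  have hD := h.D_ge
  obtain ⟨n, c, c0, cn, cp, cc, cb⟩ := h.chain x y hx hy
  have hb1 : ∀ i, i ≤ n → 𝓛.Btw 𝓛.D x y (c i) := fun i hi => by
    have := cb 0 i n (Nat.zero_le _) hi le_rfl
    rw [c0, cn] at this
    exact this
  have hxy : 0 < 𝓛.lam x y := by linarith [one_le_lam h (y := y) (Or.inr hx)]
  have hAB : ∀ i, i ≤ n → 𝓛.Btw (2 * 𝓛.D) x z (c i) ∨ 𝓛.Btw (2 * 𝓛.D) y z (c i) := by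
    intro i hi
    have h0 := h.ptol x y z (c i)
    have h1 := hb1 i hi
    unfold LSp.Btw at h1 ⊢
    rw [h.symm z (c i)] at h0
    rcases le_total (𝓛.lam x z * 𝓛.lam y (c i)) (𝓛.lam x (c i) * 𝓛.lam y z) with h2 | h2
    · right
      have h3 : (𝓛.lam y (c i) * 𝓛.lam (c i) z) * 𝓛.lam x y ≤
          (2 * 𝓛.D * 𝓛.lam y z) * 𝓛.lam x y := by
        rw [h.symm y (c i)] at h0 h2 ⊢
        have h4 : 𝓛.lam (c i) y * (𝓛.lam x y * 𝓛.lam (c i) z) ≤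
            𝓛.lam (c i) y * (2 * (𝓛.lam x (c i) * 𝓛.lam y z)) :=
          mul_le_mul_of_nonneg_left (by linarith) (lam_nonneg h _ _)
        have h5 := mul_le_mul_of_nonneg_right h1 (lam_nonneg h y z)
        nlinarith
      exact le_of_mul_le_mul_right h3 hxy
    · left
      have h3 : (𝓛.lam x (c i) * 𝓛.lam (c i) z) * 𝓛.lam x y ≤
          (2 * 𝓛.D * 𝓛.lam x z) * 𝓛.lam x y := by
        rw [h.symm y (c i)] at h0 h2
        have h4 : 𝓛.lam x (c i) * (𝓛.lam x y * 𝓛.lam (c i) z) ≤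
            𝓛.lam x (c i) * (2 * (𝓛.lam x z * 𝓛.lam (c i) y)) :=
          mul_le_mul_of_nonneg_left (by linarith) (lam_nonneg h _ _)
        have h5 := mul_le_mul_of_nonneg_right h1 (lam_nonneg h x z)
        nlinarith
      exact le_of_mul_le_mul_right h3 hxy
  have hA0 : 𝓛.Btw (2 * 𝓛.D) x z (c 0) := by
    unfold LSp.Btw
    rw [c0, h.pt x hx]
    nlinarith [lam_nonneg h x z]
  have hBn : 𝓛.Btw (2 * 𝓛.D) y z (c n) := by
    unfold LSp.Btw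
    rw [cn, h.pt y hy]
    nlinarith [lam_nonneg h y z]
  have hD3 : 𝓛.D ≤ 𝓛.D ^ 3 := by nlinarith [sq_nonneg 𝓛.D, mul_self_nonneg (𝓛.D - 1)]
  have m1 : 2 * 𝓛.D ≤ 8 * 𝓛.D ^ 3 := by nlinarith
  have m2 : 𝓛.D ≤ 8 * 𝓛.D ^ 3 := by nlinarith
  have m3 : 4 * 𝓛.D ^ 2 * (2 * 𝓛.D) = 8 * 𝓛.D ^ 3 := by ring
  have m4 : 4 * 𝓛.D ^ 2 * 𝓛.D ≤ 8 * 𝓛.D ^ 3 := by nlinarith
  -- the last index of type `A`
  by_cases hAn : 𝓛.Btw (2 * 𝓛.D) x z (c n)
  · exact ⟨c n, btw_mono h m2 (hb1 n le_rfl), btw_mono h m1 hAn, btw_mono h m1 hBn⟩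
  · obtain ⟨i, hi, hAi, hAi'⟩ : ∃ i, i < n ∧ 𝓛.Btw (2 * 𝓛.D) x z (c i) ∧
        ¬ 𝓛.Btw (2 * 𝓛.D) x z (c (i + 1)) := by
      by_contra hcon
      push Not at hcon
      have : ∀ i, i ≤ n → 𝓛.Btw (2 * 𝓛.D) x z (c i) := by
        intro i
        induction i with
        | zero => intro _; exact hA0
        | succ i ih => intro hi; exact hcon i (by omega) (ih (by omega))
      exact hAn (this n le_rfl)
    have hBi : 𝓛.Btw (2 * 𝓛.D) y z (c (i + 1)) := by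
      rcases hAB (i + 1) (by omega) with h1 | h1
      · exact absurd h1 hAi'
      · exact h1
    rcases cc i hi with h1 | ⟨B, hB, h1, h2⟩
    · refine ⟨c i, btw_mono h m2 (hb1 i hi.le), btw_mono h m1 hAi, ?_⟩
      have := btw_near h (r := 𝓛.D) (by linarith) (cp (i + 1) (by omega)) hBi
        (by rw [h.symm (c (i + 1)) (c i)]; exact h1)
      rwa [m3] at this
    · refine ⟨B, ?_, ?_, ?_⟩
      · exact btw_mono h m4 (btw_near h (by linarith) (cp i hi.le) (hb1 i hi.le) h1)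
      · have := btw_near h (by linarith) (cp i hi.le) hAi h1
        rwa [m3] at this
      · have := btw_near h (by linarith) (cp (i + 1) (by omega)) hBi h2
        rwa [m3] at this

/-- sums are bounded for close pairs -/
lemma Sg_bdd (h : 𝓛.Good) {W : Type} [NormedAddCommGroup W] {F : O → (J → ℝ) → W} {Λ : ℝ}
    (hF : 𝓛.Cut F Λ) (x y : O) : ‖𝓛.Sg F x y‖ ≤ 2 * Λ * 𝓛.D * 𝓛.lam x y := by
  classical
  rw [Sg_sum h hF x y (finite_act h x y).toFinset (fun B hB => by simpa using hB)]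
  refine (norm_sum_le _ _).trans ?_
  have hb : ∀ B ∈ (finite_act h x y).toFinset, ‖tm 𝓛 F x y B‖ ≤
      (Λ * 𝓛.D * 𝓛.lam x y) * (1 / 𝓛.lam x B) := by
    intro B hB
    rw [Set.Finite.mem_toFinset] at hB
    obtain ⟨b0, b1, b2, b3⟩ := hB
    rw [tm_of F ⟨b0, b1, b2⟩]
    have e1 := cut_rho h hF b0 b1 b2
    have p1 := h.ge x B b1.symm
    have p2 := h.ge B y b2
    have e2 : 𝓛.rho B x y ≤ 𝓛.lam x y * (1 / 𝓛.lam x B) := by
      unfold LSp.rho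
      rw [mul_one_div]
      apply div_le_div_of_nonneg_left (lam_nonneg h x y) (by linarith)
      nlinarith
    have e3 := mul_le_mul_of_nonneg_left e2 (mul_nonneg hF.nonneg (D_pos h).le)
    linarith
  refine (Finset.sum_le_sum hb).trans ?_
  rw [← Finset.mul_sum]
  have s1 := sum_act h (finite_act h x y).toFinset (x := x) (y := y) (fun B hB => by simpa using hB)
  have := mul_le_mul_of_nonneg_left s1
    (mul_nonneg (mul_nonneg hF.nonneg (D_pos h).le) (lam_nonneg h x y))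
  linarith

/-! ### The cut-off function for lengths -/

/-- the profile of the cut-off function -/
noncomputable def prof (t s : ℝ) : ℝ := max 0 (s - 2 * Real.log (max s t) - (t - 2 * Real.log t))

lemma prof_of_ge {t s : ℝ} (ht : 16 ≤ t) (hs : t ≤ s) :
    prof t s = s - 2 * Real.log s - (t - 2 * Real.log t) := by
  unfold prof
  rw [max_eq_left hs, max_eq_right]
  have h1 : Real.log (s / t) ≤ s / t - 1 :=
    Real.log_le_sub_one_of_pos (div_pos (by linarith) (by linarith))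
  rw [Real.log_div (by linarith) (by linarith)] at h1
  have h2 : 2 * (s / t - 1) ≤ s - t := by
    have : s / t - 1 = (s - t) / t := by field_simp
    rw [this, mul_div_assoc', div_le_iff₀ (by linarith)]
    nlinarith
  linarith

lemma prof_of_le {t s : ℝ} (hs : s ≤ t) : prof t s = 0 := by
  unfold prof
  rw [max_eq_right hs, max_eq_left]
  linarith

lemma prof_mono_lip {t : ℝ} (ht : 16 ≤ t) {s s' : ℝ} (h : s ≤ s') :
    prof t s ≤ prof t s' ∧ prof t s' - prof t s ≤ s' - s := by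
  rcases le_total s' t with h1 | h1
  · rw [prof_of_le h1, prof_of_le (h.trans h1)]
    constructor <;> linarith
  · have hs' : 0 < s' := by linarith
    rcases le_total s t with h2 | h2
    · rw [prof_of_le h2, prof_of_ge ht h1]
      have h3 : Real.log (s' / t) ≤ s' / t - 1 :=
        Real.log_le_sub_one_of_pos (div_pos (by linarith) (by linarith))
      rw [Real.log_div (by linarith) (by linarith)] at h3
      have h4 : 2 * (s' / t - 1) ≤ s' - t := by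
        have : s' / t - 1 = (s' - t) / t := by field_simp
        rw [this, mul_div_assoc', div_le_iff₀ (by linarith)]
        nlinarith
      have h5 : Real.log t ≤ Real.log s' := Real.log_le_log (by linarith) h1
      constructor <;> linarith
    · rw [prof_of_ge ht h2, prof_of_ge ht h1]
      have hs : 0 < s := by linarith
      have h3 : Real.log (s' / s) ≤ s' / s - 1 := Real.log_le_sub_one_of_pos (by positivity)
      rw [Real.log_div (by linarith) (by linarith)] at h3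
      have h4 : 2 * (s' / s - 1) ≤ s' - s := by
        have : s' / s - 1 = (s' - s) / s := by field_simp
        rw [this, mul_div_assoc', div_le_iff₀ (by linarith)]
        nlinarith
      have h5 : Real.log s ≤ Real.log s' := Real.log_le_log (by linarith) h
      constructor <;> linarith

lemma Fd_eq (B : O) (v : J → ℝ) : 𝓛.Fd B v = prof 𝓛.tau ‖v‖ := rfl

lemma Fd_cut (h : 𝓛.Good) : 𝓛.Cut 𝓛.Fd 1 where
  nonneg := zero_le_one
  lip := fun B v w => by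
    rw [Fd_eq, Fd_eq, one_mul, Real.norm_eq_abs]
    have ht := tau_ge h
    have h1 := abs_norm_sub_norm_le v w
    rcases le_total ‖v‖ ‖w‖ with h2 | h2
    · obtain ⟨h3, h4⟩ := prof_mono_lip ht h2
      rw [abs_sub_comm, abs_of_nonneg (by linarith)]
      rw [abs_sub_comm, abs_of_nonneg (by linarith)] at h1
      linarith
    · obtain ⟨h3, h4⟩ := prof_mono_lip ht h2
      rw [abs_of_nonneg (by linarith)]
      rw [abs_of_nonneg (by linarith)] at h1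
      linarith
  zero := fun B v hv => by rw [Fd_eq, prof_of_le hv]

lemma Fd_nonneg (B : O) (v : J → ℝ) : 0 ≤ 𝓛.Fd B v := le_max_left _ _

lemma SgFd_nonneg (x y : O) : 0 ≤ 𝓛.Sg 𝓛.Fd x y :=
  finsum_nonneg fun B => finsum_nonneg fun _ => Fd_nonneg B _

lemma SgFd_symm (x y : O) : 𝓛.Sg 𝓛.Fd x y = 𝓛.Sg 𝓛.Fd y x := by
  rw [Sg_eq, Sg_eq]
  refine finsum_congr fun B => ?_
  by_cases hc : B ∈ 𝓛.hb ∧ B ≠ x ∧ B ≠ y
  · rw [tm_of _ hc, tm_of _ ⟨hc.1, hc.2.2, hc.2.1⟩, Fd_eq, Fd_eq, norm_sub_rev]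
  · rw [tm_not _ hc, tm_not _ (by tauto)]

/-- the length of the flat part -/
lemma flat_est (h : 𝓛.Good) {K : ℝ} {x y B : O} (hB : B ∈ 𝓛.hb) (hx : B ≠ x) (hy : B ≠ y)
    (hxy : 1 ≤ 𝓛.lam x y) (hb : 𝓛.Btw K x y B) :
    |2 * Real.log (𝓛.rho B x y) + 𝓛.Fd B (𝓛.P B y - 𝓛.P B x) - ‖𝓛.P B y - 𝓛.P B x‖| ≤
      2 * |Real.log K| + 2 * Real.log (𝓛.D * (𝓛.tau + 1)) + 2 * 𝓛.tau + 2 * Real.log 𝓛.tau := by
  have hD := h.D_ge
  have ht := tau_ge h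
  have p1 := h.ge x B hx.symm
  have p2 := h.ge B y hy
  obtain ⟨s, hs⟩ : ∃ s, s = ‖𝓛.P B y - 𝓛.P B x‖ := ⟨_, rfl⟩
  have hs0 : 0 ≤ s := by rw [hs]; exact norm_nonneg _
  have e1 : s ≤ 𝓛.D * 𝓛.rho B x y := by rw [hs]; exact P_sub h hB hx hy
  have e2 : 𝓛.rho B x y ≤ 𝓛.D * (s + 1) := by
    rw [hs, norm_sub_rev]
    exact h.le_P B hB x y hx.symm hy.symm
  have hrho : 0 < 𝓛.rho B x y := by
    unfold LSp.rho
    exact div_pos (by linarith) (mul_pos (by linarith) (by linarith))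
  have hK : 0 < K := by
    unfold LSp.Btw at hb
    by_contra hc
    have : K * 𝓛.lam x y ≤ 0 := mul_nonpos_of_nonpos_of_nonneg (not_lt.1 hc) (by linarith)
    nlinarith
  have e3 : 1 / K ≤ 𝓛.rho B x y := by
    unfold LSp.rho
    rw [div_le_div_iff₀ hK (mul_pos (by linarith) (by linarith))]
    unfold LSp.Btw at hb
    linarith
  have l1 : -Real.log K ≤ Real.log (𝓛.rho B x y) := by
    have := Real.log_le_log (by positivity) e3
    rwa [one_div, Real.log_inv] at this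
  have l0 : 0 ≤ Real.log 𝓛.tau := Real.log_nonneg (by linarith)
  have l2 : 0 ≤ Real.log (𝓛.D * (𝓛.tau + 1)) := Real.log_nonneg (by nlinarith)
  have l3 : 0 ≤ |Real.log K| := abs_nonneg _
  have l4 := neg_abs_le (Real.log K)
  have l5 := le_abs_self (Real.log K)
  rw [Fd_eq, ← hs]
  rcases le_total s 𝓛.tau with h1 | h1
  · rw [prof_of_le h1]
    have l6 : Real.log (𝓛.rho B x y) ≤ Real.log (𝓛.D * (𝓛.tau + 1)) := by
      apply Real.log_le_log hrho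
      have : 𝓛.D * (s + 1) ≤ 𝓛.D * (𝓛.tau + 1) := mul_le_mul_of_nonneg_left (by linarith)
        (by linarith)
      linarith
    rw [abs_le]
    constructor <;> linarith
  · rw [prof_of_ge ht h1]
    have hsp : 0 < s := by linarith
    have l6 : Real.log (𝓛.rho B x y) ≤ Real.log (𝓛.D * (𝓛.tau + 1)) + Real.log s := by
      rw [← Real.log_mul (by nlinarith) (by linarith)]
      apply Real.log_le_log hrho
      have : 𝓛.D * (s + 1) ≤ 𝓛.D * (𝓛.tau + 1) * s := by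
        rw [mul_assoc]
        apply mul_le_mul_of_nonneg_left _ (by linarith)
        nlinarith
      linarith
    have l7 : Real.log s ≤ Real.log (𝓛.D * (𝓛.tau + 1)) + Real.log (𝓛.rho B x y) := by
      rw [← Real.log_mul (by nlinarith) (by linarith)]
      apply Real.log_le_log hsp
      have : 𝓛.D * 𝓛.rho B x y ≤ 𝓛.D * (𝓛.tau + 1) * 𝓛.rho B x y := by
        apply mul_le_mul_of_nonneg_right _ hrho.le
        nlinarith
      linarith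
    rw [abs_le]
    constructor <;> linarith

lemma log_split (h : 𝓛.Good) {B x y : O} (hx : B ≠ x) (hy : B ≠ y) (hxy : 1 ≤ 𝓛.lam x y) :
    Real.log (𝓛.lam x y) = Real.log (𝓛.rho B x y) + Real.log (𝓛.lam x B) +
      Real.log (𝓛.lam B y) := by
  have p1 := h.ge x B hx.symm
  have p2 := h.ge B y hy
  have hrho : 0 < 𝓛.rho B x y := by
    unfold LSp.rho
    exact div_pos (by linarith) (mul_pos (by linarith) (by linarith))
  conv_lhs => rw [lam_eq h hx hy]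
  rw [Real.log_mul hrho.ne' (by positivity), Real.log_mul (by linarith) (by linarith)]
  ring

/-- additivity of `d` at a point -/
lemma d_pt (h : 𝓛.Good) (K : ℝ) : ∃ C : ℝ, ∀ x y z, z ∉ 𝓛.hb → (x ≠ y ∨ x ∉ 𝓛.hb) →
    𝓛.Btw K x y z → |𝓛.d x y - 𝓛.d x z - 𝓛.d z y| ≤ C := by
  obtain ⟨-, hC⟩ := taskC O J 𝓛 h ℝ 𝓛.Fd 1 (Fd_cut h)
  obtain ⟨C, hC⟩ := hC K
  refine ⟨C + 2 * |Real.log K| + 2 * Real.log 2, fun x y z hz hxy hb => ?_⟩
  have h1 := (hC x y z hb).1 hz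
  rw [Real.norm_eq_abs] at h1
  have p0 := one_le_lam h hxy
  have p1 : 1 ≤ 𝓛.lam z x := one_le_lam h (Or.inr hz)
  rw [h.symm] at p1
  have p2 : 1 ≤ 𝓛.lam z y := one_le_lam h (Or.inr hz)
  have hK : 0 < K := by
    unfold LSp.Btw at hb
    by_contra hc
    have : K * 𝓛.lam x y ≤ 0 := mul_nonpos_of_nonpos_of_nonneg (not_lt.1 hc) (by linarith)
    nlinarith
  have l1 : Real.log (𝓛.lam x z) + Real.log (𝓛.lam z y) ≤ Real.log K + Real.log (𝓛.lam x y) := by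
    rw [← Real.log_mul (by linarith) (by linarith), ← Real.log_mul (by linarith) (by linarith)]
    exact Real.log_le_log (by positivity) hb
  have l2 : Real.log (𝓛.lam x y) ≤ Real.log 2 + (Real.log (𝓛.lam x z) + Real.log (𝓛.lam z y)) := by
    rw [← Real.log_mul (by linarith) (by linarith), ← Real.log_mul (by norm_num) (by positivity)]
    exact Real.log_le_log (by linarith) (lam_tri h x y hz)
  have l3 := le_abs_self (Real.log K)
  have l4 : 0 ≤ Real.log 2 := Real.log_nonneg (by norm_num)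
  have l5 := abs_nonneg (Real.log K)
  unfold LSp.d
  rw [abs_le] at h1 ⊢
  constructor <;> linarith [h1.1, h1.2]

/-- additivity of `d` at a horoball -/
lemma d_hb (h : 𝓛.Good) (K : ℝ) : ∃ C : ℝ, ∀ x y, ∀ B ∈ 𝓛.hb, B ≠ x → B ≠ y →
    (x ≠ y ∨ x ∉ 𝓛.hb) → 𝓛.Btw K x y B →
    |𝓛.d x y - 𝓛.d x B - 𝓛.d B y - ‖𝓛.P B y - 𝓛.P B x‖| ≤ C := by
  obtain ⟨-, hC⟩ := taskC O J 𝓛 h ℝ 𝓛.Fd 1 (Fd_cut h)
  obtain ⟨C, hC⟩ := hC K
  refine ⟨C + (2 * |Real.log K| + 2 * Real.log (𝓛.D * (𝓛.tau + 1)) + 2 * 𝓛.tau +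
    2 * Real.log 𝓛.tau), fun x y B hB hx hy hxy hb => ?_⟩
  have h1 := (hC x y B hb).2 hB hx hy
  rw [Real.norm_eq_abs] at h1
  have p0 := one_le_lam h hxy
  have h2 := flat_est h hB hx hy p0 hb
  have h3 := log_split h hx hy p0
  unfold LSp.d
  rw [h3]
  rw [abs_le] at h1 h2 ⊢
  constructor <;> linarith [h1.1, h1.2, h2.1, h2.2]

lemma d_nonneg (h : 𝓛.Good) {x y : O} (hxy : x ≠ y ∨ x ∉ 𝓛.hb) : 0 ≤ 𝓛.d x y := by
  have := Real.log_nonneg (one_le_lam h hxy)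
  have := SgFd_nonneg (𝓛 := 𝓛) x y
  unfold LSp.d
  linarith

theorem d_triangle (h : 𝓛.Good) : ∃ C : ℝ, ∀ x y z, x ∉ 𝓛.hb → y ∉ 𝓛.hb → z ∉ 𝓛.hb →
    𝓛.d x z ≤ 𝓛.d x y + 𝓛.d y z + C := by
  obtain ⟨C₁, h1⟩ := d_pt h (8 * 𝓛.D ^ 3)
  obtain ⟨C₂, h2⟩ := d_hb h (8 * 𝓛.D ^ 3)
  have ds : ∀ x y, 𝓛.d x y = 𝓛.d y x := fun x y => by
    unfold LSp.d
    rw [h.symm, SgFd_symm]
  refine ⟨3 * |C₁| + 3 * |C₂|, fun x y z hx hy hz => ?_⟩
  obtain ⟨c, c1, c2, c3⟩ := centre h (z := z) hx hy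
  have n1 := abs_nonneg C₁
  have n2 := abs_nonneg C₂
  have m1 := le_abs_self C₁
  have m2 := le_abs_self C₂
  by_cases hc : c ∈ 𝓛.hb
  · have hcx : c ≠ x := fun hh => hx (hh ▸ hc)
    have hcy : c ≠ y := fun hh => hy (hh ▸ hc)
    have hcz : c ≠ z := fun hh => hz (hh ▸ hc)
    have e1 := h2 x y c hc hcx hcy (Or.inr hx) c1
    have e2 := h2 x z c hc hcx hcz (Or.inr hx) c2
    have e3 := h2 y z c hc hcy hcz (Or.inr hy) c3
    have e4 : 0 ≤ 𝓛.d c y := d_nonneg h (Or.inl hcy)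
    have e5 : 𝓛.d y c = 𝓛.d c y := ds _ _
    have e6 : ‖𝓛.P c z - 𝓛.P c x‖ ≤ ‖𝓛.P c y - 𝓛.P c x‖ + ‖𝓛.P c z - 𝓛.P c y‖ := by
      have : 𝓛.P c z - 𝓛.P c x = (𝓛.P c y - 𝓛.P c x) + (𝓛.P c z - 𝓛.P c y) := by abel
      rw [this]
      exact norm_add_le _ _
    rw [abs_le] at e1 e2 e3
    linarith [e1.1, e1.2, e2.1, e2.2, e3.1, e3.2]
  · have e1 := h1 x y c hc (Or.inr hx) c1
    have e2 := h1 x z c hc (Or.inr hx) c2
    have e3 := h1 y z c hc (Or.inr hy) c3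
    have e4 : 0 ≤ 𝓛.d c y := d_nonneg h (Or.inr hc)
    have e5 : 𝓛.d y c = 𝓛.d c y := ds _ _
    rw [abs_le] at e1 e2 e3
    linarith [e1.1, e1.2, e2.1, e2.2, e3.1, e3.2]

end

theorem taskD1 : TaskD1 := by
  intro O J _ 𝓛 h
  refine ⟨fun x y hxy => d_nonneg h hxy, fun x hx => ?_, fun x y => ?_, fun x y => ?_,
    fun K => ?_, d_pt h, d_hb h, d_triangle h⟩
  · unfold LSp.d
    rw [h.pt x hx, Real.log_one, mul_zero, zero_add, Sg_eq]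
    refine (finsum_congr fun B => ?_).trans finsum_zero
    by_cases hc : B ∈ 𝓛.hb ∧ B ≠ x ∧ B ≠ x
    · rw [tm_of _ hc, sub_self]
      exact cut_zero h (Fd_cut h) B
    · rw [tm_not _ hc]
  · unfold LSp.d
    rw [h.symm, SgFd_symm]
  · unfold LSp.d
    linarith [SgFd_nonneg (𝓛 := 𝓛) x y]
  · refine ⟨2 * Real.log K + 2 * 𝓛.D * K, fun x y hxy hK => ?_⟩
    have h1 := Sg_bdd h (Fd_cut h) x y
    rw [Real.norm_eq_abs, abs_of_nonneg (SgFd_nonneg x y)] at h1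
    have p0 := one_le_lam h hxy
    have l1 := Real.log_le_log (by linarith) hK
    have l2 := mul_le_mul_of_nonneg_left hK (by linarith [D_pos h] : 0 ≤ 2 * 𝓛.D)
    unfold LSp.d
    linarith

/-! ### The quasi-cocycle -/

section
variable {O J L : Type} [Fintype J] [Fintype L] {𝓛 : LSp O J}
  {α : O → (J → ℝ) →ₗ[ℝ] (L → ℝ)} {Λ : ℝ}

/-- the profile of the second cut-off function -/
noncomputable def prof2 (t s : ℝ) : ℝ := min 1 (max 0 (s / t - 1))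

lemma prof2_nonneg (t s : ℝ) : 0 ≤ prof2 t s := le_min zero_le_one (le_max_left _ _)

lemma prof2_le (t s : ℝ) : prof2 t s ≤ 1 := min_le_left _ _

lemma prof2_zero {t s : ℝ} (ht : 0 < t) (hs : s ≤ t) : prof2 t s = 0 := by
  unfold prof2
  have : s / t - 1 ≤ 0 := by
    rw [sub_nonpos, div_le_one ht]
    exact hs
  rw [max_eq_left this, min_eq_right zero_le_one]

lemma prof2_one {t s : ℝ} (ht : 0 < t) (hs : 2 * t ≤ s) : prof2 t s = 1 := by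
  unfold prof2
  have : 1 ≤ s / t - 1 := by
    rw [le_sub_iff_add_le, le_div_iff₀ ht]
    linarith
  rw [max_eq_right (by linarith), min_eq_left this]

lemma prof2_lip {t : ℝ} (ht : 0 < t) (s s' : ℝ) : |prof2 t s - prof2 t s'| ≤ |s - s'| / t := by
  unfold prof2
  refine (abs_min_sub_min_le_max _ _ _ _).trans ?_
  rw [sub_self, abs_zero]
  refine max_le (by positivity) ((abs_max_sub_max_le_max _ _ _ _).trans ?_)
  rw [sub_self, abs_zero]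
  refine max_le (by positivity) ?_
  have : s / t - 1 - (s' / t - 1) = (s - s') / t := by ring
  rw [this, abs_div, abs_of_pos ht]

lemma FΨ_eq (B : O) (v : J → ℝ) : 𝓛.FΨ α B v = prof2 𝓛.tau ‖v‖ • α B v := rfl

lemma FΨ_aux (h : 𝓛.Good) (hΛ : ∀ B v, ‖α B v‖ ≤ Λ * ‖v‖) (B : O)
    (v w : J → ℝ) (hw : ‖w‖ ≤ 2 * 𝓛.tau) :
    ‖𝓛.FΨ α B v - 𝓛.FΨ α B w‖ ≤ 3 * |Λ| * ‖v - w‖ := by
  have ht := tau_ge h
  have ht0 : 0 < 𝓛.tau := by linarith
  have hΛ' : ∀ B v, ‖α B v‖ ≤ |Λ| * ‖v‖ := fun B v =>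
    (hΛ B v).trans (mul_le_mul_of_nonneg_right (le_abs_self Λ) (norm_nonneg _))
  have e1 : 𝓛.FΨ α B v - 𝓛.FΨ α B w = prof2 𝓛.tau ‖v‖ • α B (v - w) +
      (prof2 𝓛.tau ‖v‖ - prof2 𝓛.tau ‖w‖) • α B w := by
    rw [FΨ_eq, FΨ_eq, map_sub, smul_sub, sub_smul]
    abel
  rw [e1]
  refine (norm_add_le _ _).trans ?_
  rw [norm_smul, norm_smul, Real.norm_eq_abs, Real.norm_eq_abs, abs_of_nonneg (prof2_nonneg _ _)]
  have e2 := hΛ' B (v - w)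
  have e3 := hΛ' B w
  have e4 := prof2_lip ht0 ‖v‖ ‖w‖
  have e5 := abs_norm_sub_norm_le v w
  have e6 := prof2_le 𝓛.tau ‖v‖
  have e7 := prof2_nonneg 𝓛.tau ‖v‖
  have e8 : prof2 𝓛.tau ‖v‖ * ‖α B (v - w)‖ ≤ |Λ| * ‖v - w‖ := by
    have := mul_le_mul e6 e2 (norm_nonneg _) zero_le_one
    linarith
  have e9 : |prof2 𝓛.tau ‖v‖ - prof2 𝓛.tau ‖w‖| * ‖α B w‖ ≤ 2 * |Λ| * ‖v - w‖ := by
    have f1 : |prof2 𝓛.tau ‖v‖ - prof2 𝓛.tau ‖w‖| ≤ ‖v - w‖ / 𝓛.tau :=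
      e4.trans (div_le_div_of_nonneg_right e5 ht0.le)
    have f2 : ‖α B w‖ ≤ |Λ| * (2 * 𝓛.tau) :=
      e3.trans (mul_le_mul_of_nonneg_left hw (abs_nonneg _))
    have f3 := mul_le_mul f1 f2 (norm_nonneg _) (by positivity)
    have f4 : ‖v - w‖ / 𝓛.tau * (|Λ| * (2 * 𝓛.tau)) = 2 * |Λ| * ‖v - w‖ := by
      field_simp
    linarith
  linarith

lemma FΨ_cut (h : 𝓛.Good) (hΛ : ∀ B v, ‖α B v‖ ≤ Λ * ‖v‖) : 𝓛.Cut (𝓛.FΨ α) (3 * |Λ|) where
  nonneg := by positivity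
  lip := fun B v w => by
    have ht := tau_ge h
    have ht0 : 0 < 𝓛.tau := by linarith
    by_cases hw : ‖w‖ ≤ 2 * 𝓛.tau
    · exact FΨ_aux h hΛ B v w hw
    · by_cases hv : ‖v‖ ≤ 2 * 𝓛.tau
      · have := FΨ_aux h hΛ B w v hv
        rwa [norm_sub_rev, norm_sub_rev w v] at this
      · rw [FΨ_eq, FΨ_eq, prof2_one ht0 (by linarith), prof2_one ht0 (by linarith), one_smul,
          one_smul, ← map_sub]
        have h1 := hΛ B (v - w)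
        have h2 := mul_le_mul_of_nonneg_right (le_abs_self Λ) (norm_nonneg (v - w))
        have h3 := mul_nonneg (abs_nonneg Λ) (norm_nonneg (v - w))
        linarith
  zero := fun B v hv => by
    rw [FΨ_eq, prof2_zero (by linarith [tau_ge h]) hv, zero_smul]

lemma FΨ_near (h : 𝓛.Good) (hΛ : ∀ B v, ‖α B v‖ ≤ Λ * ‖v‖) (B : O) (v : J → ℝ) :
    ‖𝓛.FΨ α B v - α B v‖ ≤ 2 * |Λ| * 𝓛.tau := by
  have ht := tau_ge h
  have ht0 : 0 < 𝓛.tau := by linarith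
  rcases le_total (2 * 𝓛.tau) ‖v‖ with h1 | h1
  · rw [FΨ_eq, prof2_one ht0 h1, one_smul, sub_self, norm_zero]
    positivity
  · have e1 : 𝓛.FΨ α B v - α B v = -((1 - prof2 𝓛.tau ‖v‖) • α B v) := by
      rw [FΨ_eq, sub_smul, one_smul]
      abel
    rw [e1, norm_neg, norm_smul, Real.norm_eq_abs, abs_of_nonneg
      (by linarith [prof2_le 𝓛.tau ‖v‖])]
    have e2 := hΛ B v
    have e3 := mul_le_mul_of_nonneg_right (le_abs_self Λ) (norm_nonneg v)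
    have e4 := mul_le_mul_of_nonneg_left h1 (abs_nonneg Λ)
    have e5 := prof2_nonneg 𝓛.tau ‖v‖
    have e6 := norm_nonneg (α B v)
    nlinarith

lemma Ψ_anti (x y : O) : 𝓛.Ψ α x y = - 𝓛.Ψ α y x := by
  unfold LSp.Ψ
  rw [Sg_eq, Sg_eq, ← finsum_neg_distrib]
  refine finsum_congr fun B => ?_
  by_cases hc : B ∈ 𝓛.hb ∧ B ≠ x ∧ B ≠ y
  · rw [tm_of _ hc, tm_of _ ⟨hc.1, hc.2.2, hc.2.1⟩, FΨ_eq, FΨ_eq, norm_sub_rev,
      ← neg_sub (𝓛.P B x) (𝓛.P B y), map_neg, smul_neg]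
  · rw [tm_not _ hc, tm_not _ (by tauto), neg_zero]

lemma Ψ_hb (h : 𝓛.Good) (hΛ : ∀ B v, ‖α B v‖ ≤ Λ * ‖v‖) (K : ℝ) : ∃ C : ℝ, ∀ x y, ∀ B ∈ 𝓛.hb,
    B ≠ x → B ≠ y → 𝓛.Btw K x y B →
    ‖𝓛.Ψ α x y - 𝓛.Ψ α x B - 𝓛.Ψ α B y - α B (𝓛.P B y - 𝓛.P B x)‖ ≤ C := by
  obtain ⟨-, hC⟩ := taskC O J 𝓛 h (L → ℝ) (𝓛.FΨ α) _ (FΨ_cut h hΛ)
  obtain ⟨C, hC⟩ := hC K
  refine ⟨C + 2 * |Λ| * 𝓛.tau, fun x y B hB hx hy hb => ?_⟩
  have h1 := (hC x y B hb).2 hB hx hy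
  have h2 := FΨ_near h hΛ B (𝓛.P B y - 𝓛.P B x)
  have e1 : 𝓛.Ψ α x y - 𝓛.Ψ α x B - 𝓛.Ψ α B y - α B (𝓛.P B y - 𝓛.P B x) =
      (𝓛.Sg (𝓛.FΨ α) x y - 𝓛.Sg (𝓛.FΨ α) x B - 𝓛.Sg (𝓛.FΨ α) B y -
        𝓛.FΨ α B (𝓛.P B y - 𝓛.P B x)) +
      (𝓛.FΨ α B (𝓛.P B y - 𝓛.P B x) - α B (𝓛.P B y - 𝓛.P B x)) := by
    unfold LSp.Ψ
    abel
  rw [e1]
  exact (norm_add_le _ _).trans (add_le_add h1 h2)

end

theorem taskD2 : TaskD2 := by
  intro O J L _ _ 𝓛 h α Λ hΛ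
  obtain ⟨-, hC⟩ := taskC O J 𝓛 h (L → ℝ) (𝓛.FΨ α) _ (FΨ_cut h hΛ)
  have h3 : ∀ K : ℝ, ∃ C : ℝ, ∀ x y z, z ∉ 𝓛.hb → (x ≠ y ∨ x ∉ 𝓛.hb) → 𝓛.Btw K x y z →
      ‖𝓛.Ψ α x y - 𝓛.Ψ α x z - 𝓛.Ψ α z y‖ ≤ C := fun K => by
    obtain ⟨C, hC⟩ := hC K
    exact ⟨C, fun x y z hz _ hb => (hC x y z hb).1 hz⟩
  refine ⟨Ψ_anti, fun K => ?_, h3, fun K => ?_, ?_⟩
  · refine ⟨2 * (3 * |Λ|) * 𝓛.D * K, fun x y hxy hK => ?_⟩
    have h1 := Sg_bdd h (FΨ_cut h hΛ) x y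
    have h2 : 0 ≤ 2 * (3 * |Λ|) * 𝓛.D := by
      have := D_pos h
      positivity
    exact h1.trans (mul_le_mul_of_nonneg_left hK h2)
  · obtain ⟨C, hC⟩ := Ψ_hb h hΛ K
    exact ⟨C, fun x y B hB hx hy _ hb => hC x y B hB hx hy hb⟩
  · obtain ⟨C₁, h1⟩ := h3 (8 * 𝓛.D ^ 3)
    obtain ⟨C₂, h2⟩ := Ψ_hb h hΛ (8 * 𝓛.D ^ 3)
    refine ⟨3 * |C₁| + 3 * |C₂|, fun x y z hx hy hz => ?_⟩
    obtain ⟨c, c1, c2, c3⟩ := centre h (z := z) hx hy
    have n1 := abs_nonneg C₁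
    have n2 := abs_nonneg C₂
    have m1 := le_abs_self C₁
    have m2 := le_abs_self C₂
    by_cases hc : c ∈ 𝓛.hb
    · have hcx : c ≠ x := fun hh => hx (hh ▸ hc)
      have hcy : c ≠ y := fun hh => hy (hh ▸ hc)
      have hcz : c ≠ z := fun hh => hz (hh ▸ hc)
      have e1 := h2 x y c hc hcx hcy c1
      have e2 := h2 x z c hc hcx hcz c2
      have e3 := h2 y z c hc hcy hcz c3
      have e4 : 𝓛.Ψ α x z - 𝓛.Ψ α x y - 𝓛.Ψ α y z =
          (𝓛.Ψ α x z - 𝓛.Ψ α x c - 𝓛.Ψ α c z - α c (𝓛.P c z - 𝓛.P c x)) -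
          (𝓛.Ψ α x y - 𝓛.Ψ α x c - 𝓛.Ψ α c y - α c (𝓛.P c y - 𝓛.P c x)) -
          (𝓛.Ψ α y z - 𝓛.Ψ α y c - 𝓛.Ψ α c z - α c (𝓛.P c z - 𝓛.P c y)) := by
        rw [Ψ_anti (𝓛 := 𝓛) (α := α) y c, map_sub, map_sub, map_sub]
        abel
      rw [e4]
      have e5 := norm_sub_le ((𝓛.Ψ α x z - 𝓛.Ψ α x c - 𝓛.Ψ α c z - α c (𝓛.P c z - 𝓛.P c x)) -
          (𝓛.Ψ α x y - 𝓛.Ψ α x c - 𝓛.Ψ α c y - α c (𝓛.P c y - 𝓛.P c x)))
          (𝓛.Ψ α y z - 𝓛.Ψ α y c - 𝓛.Ψ α c z - α c (𝓛.P c z - 𝓛.P c y))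
      have e6 := norm_sub_le (𝓛.Ψ α x z - 𝓛.Ψ α x c - 𝓛.Ψ α c z - α c (𝓛.P c z - 𝓛.P c x))
          (𝓛.Ψ α x y - 𝓛.Ψ α x c - 𝓛.Ψ α c y - α c (𝓛.P c y - 𝓛.P c x))
      linarith
    · have e1 := h1 x y c hc (Or.inr hx) c1
      have e2 := h1 x z c hc (Or.inr hx) c2
      have e3 := h1 y z c hc (Or.inr hy) c3
      have e4 : 𝓛.Ψ α x z - 𝓛.Ψ α x y - 𝓛.Ψ α y z =
          (𝓛.Ψ α x z - 𝓛.Ψ α x c - 𝓛.Ψ α c z) - (𝓛.Ψ α x y - 𝓛.Ψ α x c - 𝓛.Ψ α c y) -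
          (𝓛.Ψ α y z - 𝓛.Ψ α y c - 𝓛.Ψ α c z) := by
        rw [Ψ_anti (𝓛 := 𝓛) (α := α) y c]
        abel
      rw [e4]
      have e5 := norm_sub_le ((𝓛.Ψ α x z - 𝓛.Ψ α x c - 𝓛.Ψ α c z) -
        (𝓛.Ψ α x y - 𝓛.Ψ α x c - 𝓛.Ψ α c y)) (𝓛.Ψ α y z - 𝓛.Ψ α y c - 𝓛.Ψ α c z)
      have e6 := norm_sub_le (𝓛.Ψ α x z - 𝓛.Ψ α x c - 𝓛.Ψ α c z)
        (𝓛.Ψ α x y - 𝓛.Ψ α x c - 𝓛.Ψ α c y)
      linarith

end Run7.h312.LS
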