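import Pool.Agent.Run7.h312.PD3b

/-! Task D3, third part: stability, existence, concatenation. -/

set_option autoImplicit false

namespace Run7.h312.LS

open Run7.h230 Run7.h230.LSp

lemma exists_ge (l : List ℝ) : ∃ C : ℝ, ∀ a ∈ l, a ≤ C := by
  induction l with
  | nil => exact ⟨0, by simp⟩
  | cons b l ih =>
    obtain ⟨C, hC⟩ := ih
    refine ⟨max b C, fun a ha => ?_⟩
    rcases List.mem_cons.1 ha with rfl | h1
    · exact le_max_left _ _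
    · exact (hC a h1).trans (le_max_right _ _)

section
variable {O J : Type} [Fintype J] {𝓛 : LSp O J}

lemma rel_thick (h : 𝓛.Good) {K₁ K₂ K : ℝ} {x y z : O} {t : ℝ} (hz : z ∉ 𝓛.hb)
    (h1 : 𝓛.Btw K₁ x y z) (k1 : K₁ ≤ K) (h2 : |𝓛.d x z - t| ≤ K₂) (k2 : K₂ ≤ K) :
    𝓛.Rel K x y t z :=
  ⟨hz, Or.inl ⟨btw_mono h k1 h1, h2.trans k2⟩⟩

lemma rel_flat (h : 𝓛.Good) {K₁ K₂ K₃ K₄ K₅ K : ℝ} {x y z B : O} {t : ℝ} (hx : x ∉ 𝓛.hb)
    (hy : y ∉ 𝓛.hb) (hz : z ∉ 𝓛.hb) (hB : B ∈ 𝓛.hb) (h1 : 𝓛.Btw K₁ x y B) (k1 : K₁ ≤ K)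
    (h2 : 𝓛.lam z B ≤ K₂) (k2 : K₂ ≤ K)
    (h3 : ‖𝓛.P B z - go (𝓛.P B x) (𝓛.P B y) (t - 𝓛.d x B)‖ ≤ K₃) (k3 : K₃ ≤ K)
    (h4 : -K₄ ≤ t - 𝓛.d x B) (k4 : K₄ ≤ K) (h5 : t - 𝓛.d x B ≤ ‖𝓛.P B y - 𝓛.P B x‖ + K₅)
    (k5 : K₅ ≤ K) : 𝓛.Rel K x y t z :=
  ⟨hz, Or.inr ⟨B, hB, ne_pt hB hx, ne_pt hB hy, btw_mono h k1 h1, h2.trans k2, h3.trans k3,
    by linarith, by linarith⟩⟩

lemma btw_change (h : 𝓛.Good) {K r : ℝ} (hK : 0 ≤ K) {x y x' y' b : O} (hx : x ∉ 𝓛.hb)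
    (hy : y ∉ 𝓛.hb) (hx' : x' ∉ 𝓛.hb) (hy' : y' ∉ 𝓛.hb) (h1 : 𝓛.lam x x' ≤ r)
    (h2 : 𝓛.lam y y' ≤ r) (hb : 𝓛.Btw K x y b) : 𝓛.Btw (16 * r ^ 4 * K) x' y' b := by
  unfold LSp.Btw at hb ⊢
  have hr : 0 ≤ r := (lam_nonneg h _ _).trans h1
  have e1 : 𝓛.lam x' b ≤ 2 * r * 𝓛.lam x b := by
    have := lam_tri h x' b hx
    rw [h.symm x' x] at this
    have := mul_le_mul_of_nonneg_right h1 (lam_nonneg h x b)
    linarith
  have e2 : 𝓛.lam b y' ≤ 2 * r * 𝓛.lam b y := by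
    have := lam_tri h b y' hy
    have := mul_le_mul_of_nonneg_left h2 (lam_nonneg h b y)
    linarith
  have e3 : 𝓛.lam x y ≤ 2 * r * 𝓛.lam x' y := by
    have := lam_tri h x y hx'
    have := mul_le_mul_of_nonneg_right h1 (lam_nonneg h x' y)
    linarith
  have e4 : 𝓛.lam x' y ≤ 2 * r * 𝓛.lam x' y' := by
    have := lam_tri h x' y hy'
    rw [h.symm y' y] at this
    have := mul_le_mul_of_nonneg_left h2 (lam_nonneg h x' y')
    linarith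
  calc 𝓛.lam x' b * 𝓛.lam b y' ≤ (2 * r * 𝓛.lam x b) * (2 * r * 𝓛.lam b y) :=
        mul_le_mul e1 e2 (lam_nonneg h _ _)
          (mul_nonneg (by positivity) (lam_nonneg h _ _))
    _ = 4 * r ^ 2 * (𝓛.lam x b * 𝓛.lam b y) := by ring
    _ ≤ 4 * r ^ 2 * (K * 𝓛.lam x y) := mul_le_mul_of_nonneg_left hb (by positivity)
    _ ≤ 4 * r ^ 2 * (K * (2 * r * (2 * r * 𝓛.lam x' y'))) := by
        have e5 := mul_le_mul_of_nonneg_left e4 (by positivity : 0 ≤ 2 * r)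
        exact mul_le_mul_of_nonneg_left (mul_le_mul_of_nonneg_left (e3.trans e5) hK)
          (by positivity)
    _ = 16 * r ^ 4 * K * 𝓛.lam x' y' := by ring

/-- stability -/
lemma rel_stab (h : 𝓛.Good) (K r : ℝ) : ∃ C : ℝ, ∀ x y x' y', x ∉ 𝓛.hb → y ∉ 𝓛.hb →
    x' ∉ 𝓛.hb → y' ∉ 𝓛.hb → 𝓛.lam x x' ≤ r → 𝓛.lam y y' ≤ r → ∀ t t' z z', |t - t'| ≤ r →
    z' ∉ 𝓛.hb → 𝓛.lam z z' ≤ r → 𝓛.Rel K x y t z → 𝓛.Rel C x' y' t' z' := by
  obtain ⟨C₁, c1, H1⟩ := d_near h r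
  obtain ⟨C, hC⟩ := exists_ge [16 * r ^ 4 * (4 * r ^ 2 * K), 2 * C₁ + K + r, 16 * r ^ 4 * K,
    2 * (r * K), 3 * (𝓛.D * r) + K + (r + C₁), K + r + C₁, K + r + C₁ + 2 * (𝓛.D * r)]
  refine ⟨C, fun x y x' y' hx hy hx' hy' r1 r2 t t' z z' ht hz' r3 hr => ?_⟩
  have hr0 : 0 ≤ r := (lam_nonneg h _ _).trans r1
  rw [rel_iff hx hy] at hr
  obtain ⟨hz, ⟨b1, b2⟩ | ⟨B, hB, b1, b2, b3, b4, b5⟩⟩ := hr
  · have hK : 0 ≤ K := (abs_nonneg _).trans b2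
    have e1 := btw_change h (by positivity) hx hy hx' hy' r1 r2 (btw_near h hr0 hz b1 r3)
    refine rel_thick h hz' e1 (hC _ (by simp)) ?_ (hC (2 * C₁ + K + r) (by simp))
    have e2 := H1 x x' z hx hx' r1
    have e3 := H1 z z' x' hz hz' r3
    rw [d_symm h z, d_symm h z'] at e3
    rw [abs_le] at e2 e3 b2 ht ⊢
    constructor <;> linarith [e2.1, e2.2, e3.1, e3.2, b2.1, b2.2, ht.1, ht.2]
  · have hK : 0 ≤ K := (lam_nonneg h _ _).trans b2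
    have hBx := ne_pt hB hx
    have hBy := ne_pt hB hy
    have hBx' := ne_pt hB hx'
    have hBy' := ne_pt hB hy'
    have e1 := btw_change h hK hx hy hx' hy' r1 r2 b1
    have e2 := H1 x x' B hx hx' r1
    have p1 := P_of_lam h hB hBx hBx' r1
    have p2 := P_of_lam h hB hBy hBy' r2
    have p3 := P_of_lam h hB (ne_pt hB hz) (ne_pt hB hz') r3
    have e3 : |(t - 𝓛.d x B) - (t' - 𝓛.d x' B)| ≤ r + C₁ := by
      rw [abs_le] at e2 ht ⊢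
      constructor <;> linarith [e2.1, e2.2, ht.1, ht.2]
    have e4 : 𝓛.lam z' B ≤ 2 * (r * K) := by
      have := lam_tri h z' B hz
      rw [h.symm z' z] at this
      have := mul_le_mul r3 b2 (lam_nonneg h _ _) hr0
      linarith
    have e5 : |‖𝓛.P B y - 𝓛.P B x‖ - ‖𝓛.P B y' - 𝓛.P B x'‖| ≤ 2 * (𝓛.D * r) := by
      have q1 := (norm_diff (𝓛.P B y) (𝓛.P B y') (𝓛.P B x)).trans p2
      have q2 := (norm_diff' (𝓛.P B x) (𝓛.P B x') (𝓛.P B y')).trans p1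
      rw [abs_le] at q1 q2 ⊢
      constructor <;> linarith [q1.1, q1.2, q2.1, q2.2]
    refine rel_flat h hx' hy' hz' hB e1 (hC _ (by simp)) e4 (hC _ (by simp)) ?_
      (hC (3 * (𝓛.D * r) + K + (r + C₁)) (by simp)) (K₄ := K + r + C₁) ?_ (hC _ (by simp))
      (K₅ := K + r + C₁ + 2 * (𝓛.D * r)) ?_ (hC _ (by simp))
    · have q1 := tri4 (𝓛.P B z') (𝓛.P B z) (go (𝓛.P B x) (𝓛.P B y) (t - 𝓛.d x B))
        (go (𝓛.P B x') (𝓛.P B y') (t' - 𝓛.d x' B))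
      have q2 := go_lip (𝓛.P B x) (𝓛.P B y) (𝓛.P B x') (𝓛.P B y') (t - 𝓛.d x B)
        (t' - 𝓛.d x' B)
      rw [norm_sub_rev] at p3
      linarith
    · rw [abs_le] at e3
      linarith [e3.1, e3.2]
    · rw [abs_le] at e3 e5
      linarith [e3.1, e3.2, e5.1, e5.2]

lemma min_cases' {a b l K : ℝ} (hm : min a b * l ≤ K) : a * l ≤ K ∨ b * l ≤ K := by
  rcases le_total a b with h1 | h1
  · rw [min_eq_left h1] at hm
    exact Or.inl hm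
  · rw [min_eq_right h1] at hm
    exact Or.inr hm

lemma le_of_mul_sq {a l K : ℝ} (ha : 0 ≤ a) (hl : 1 ≤ l) (hm : a * l ^ 2 ≤ K) : a ≤ K :=
  (le_mul_of_one_le_right ha (one_le_pow₀ hl)).trans hm

/-- existence -/
lemma rel_exists (h : 𝓛.Good) : ∃ K : ℝ, ∀ x y, x ∉ 𝓛.hb → y ∉ 𝓛.hb → ∀ t, 0 ≤ t →
    t ≤ 𝓛.d x y → ∃ z, 𝓛.Rel K x y t z := by
  classical
  have hD := h.D_ge
  have hD3 : 𝓛.D ≤ 2 * 𝓛.D ^ 3 := by
    have := le_self_pow₀ hD (n := 3) (by norm_num)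
    linarith
  obtain ⟨C₁, c1, H1⟩ := d_near h (2 * 𝓛.D ^ 3)
  obtain ⟨C₂, c2, H2⟩ := d_hb' h (2 * 𝓛.D ^ 2)
  obtain ⟨C₃, c3, H3⟩ := d_bdd h 𝓛.D
  obtain ⟨K, hK⟩ := exists_ge [1, 𝓛.D, C₁, 4 * 𝓛.D ^ 2 * 𝓛.D, C₂ + C₃ + 𝓛.D * (2 * 𝓛.D), C₂]
  refine ⟨K, fun x y hx hy t t0 t1 => ?_⟩
  obtain ⟨n, c, c0, cn, cp, cc, cb⟩ := h.chain x y hx hy
  set j := Nat.findGreatest (fun i => 𝓛.d x (c i) ≤ t) n with hj
  have j1 : j ≤ n := Nat.findGreatest_le n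
  have j2 : 𝓛.d x (c j) ≤ t :=
    Nat.findGreatest_spec (P := fun i => 𝓛.d x (c i) ≤ t) (Nat.zero_le n)
      (by rw [c0, d_self h hx]; exact t0)
  by_cases hjn : j = n
  · rw [hjn, cn] at j2
    refine ⟨y, rel_thick h hy (K₁ := 1) ?_ (hK _ (by simp)) (K₂ := 1) ?_ (hK _ (by simp))⟩
    · unfold LSp.Btw
      rw [h.pt y hy]
      linarith
    · rw [le_antisymm j2 t1, sub_self, abs_zero]
      exact zero_le_one
  · have j3 : j + 1 ≤ n := by omega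
    have j4 : t < 𝓛.d x (c (j + 1)) := by
      have := Nat.findGreatest_is_greatest (P := fun i => 𝓛.d x (c i) ≤ t) (n := n)
        (k := j + 1) (by omega) j3
      exact not_le.1 this
    have hcj := cp j j1
    have hcj' := cp (j + 1) j3
    have bj := cb 0 j n (Nat.zero_le _) j1 le_rfl
    rw [c0, cn] at bj
    by_cases hcl : 𝓛.lam (c j) (c (j + 1)) ≤ 2 * 𝓛.D ^ 3
    · refine ⟨c j, rel_thick h hcj (K₁ := 𝓛.D) bj (hK _ (by simp)) (K₂ := C₁) ?_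
        (hK _ (by simp))⟩
      have e1 := H1 (c j) (c (j + 1)) x hcj hcj' hcl
      rw [d_symm h _ x, d_symm h _ x] at e1
      rw [abs_le] at e1 ⊢
      constructor <;> linarith [e1.1, e1.2]
    · obtain ⟨B, hB, b1, b2⟩ : ∃ B ∈ 𝓛.hb, 𝓛.lam (c j) B ≤ 𝓛.D ∧ 𝓛.lam (c (j + 1)) B ≤ 𝓛.D := by
        rcases cc j (by omega) with h1 | h1
        · exact absurd (h1.trans hD3) hcl
        · exact h1
      have hBx := ne_pt hB hx
      have hBy := ne_pt hB hy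
      have hBc := ne_pt hB hcj
      have hBc' := ne_pt hB hcj'
      have q0 : ¬ 𝓛.rho B (c j) (c (j + 1)) ≤ 2 * 𝓛.D := by
        intro hc
        apply hcl
        rw [lam_eq h hBc hBc']
        rw [h.symm (c (j + 1)) B] at b2
        have := mul_le_mul hc (mul_le_mul b1 b2 (lam_nonneg h _ _) (by linarith))
          (mul_nonneg (lam_nonneg h _ _) (lam_nonneg h _ _)) (by linarith)
        linarith
      have p1 : 𝓛.rho B x (c j) ≤ 2 * 𝓛.D := by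
        have h1 := cb 0 j (j + 1) (Nat.zero_le _) (by omega) j3
        rw [c0] at h1
        rcases min_cases' (btw_min h h1 (by linarith) hBx hBc' hBc) with h2 | h2
        · exact le_of_mul_sq (rho_nonneg h _ _ _) (h.ge _ _ hBc.symm) h2
        · exact absurd (le_of_mul_sq (rho_nonneg h _ _ _) (h.ge _ _ hBc.symm) h2) q0
      have p2 : 𝓛.rho B (c (j + 1)) y ≤ 2 * 𝓛.D := by
        have h1 := cb j (j + 1) n (by omega) j3 le_rfl
        rw [cn] at h1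
        rcases min_cases' (btw_min h h1 (by linarith) hBc hBy hBc') with h2 | h2
        · exact absurd (le_of_mul_sq (rho_nonneg h _ _ _) (h.ge _ _ hBc'.symm) h2) q0
        · exact le_of_mul_sq (rho_nonneg h _ _ _) (h.ge _ _ hBc'.symm) h2
      have e1 := H2 x (c j) B hB hBx hBc (Or.inr hx) (btw_end h x hcj b1)
      have e2 := H2 x (c (j + 1)) B hB hBx hBc' (Or.inr hx) (btw_end h x hcj' b2)
      have e3 := H3 (c (j + 1)) B (Or.inr hcj') b2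
      have e4 := d_nonneg h (x := B) (y := c j) (Or.inl hBc)
      rw [d_symm h] at e3
      have n1 := norm_nonneg (𝓛.P B (c j) - 𝓛.P B x)
      have n2 := P_of_rho h hB hBc' hBy p2
      have n3 := (norm_diff (𝓛.P B (c (j + 1))) (𝓛.P B y) (𝓛.P B x)).trans n2
      rw [abs_le] at e1 e2 n3
      obtain ⟨z, hz, z1, z2⟩ := h.real B hB x hBx.symm
        (go (𝓛.P B x) (𝓛.P B y) (t - 𝓛.d x B) - 𝓛.P B x) (by
          intro k hk
          have := h.supp B hB y x hBy.symm hBx.symm k hk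
          rw [Pi.sub_apply] at this ⊢
          rw [go_self (by linarith), sub_self])
      rw [add_sub_cancel] at z2
      refine ⟨z, rel_flat h hx hy hz hB (K₁ := 4 * 𝓛.D ^ 2 * 𝓛.D)
        (btw_near h (by linarith) hcj bj b1) (hK _ (by simp)) z1 (hK _ (by simp)) z2
        (hK _ (by simp)) (K₄ := C₂) ?_ (hK _ (by simp))
        (K₅ := C₂ + C₃ + 𝓛.D * (2 * 𝓛.D)) ?_ (hK _ (by simp))⟩
      · linarith [e1.1, e1.2]
      · linarith [e2.1, e2.2, n3.1, n3.2]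

lemma btw_trans1 (h : 𝓛.Good) {K : ℝ} (hK : 0 ≤ K) {x y w b : O} (hw : w ∉ 𝓛.hb)
    (h1 : 𝓛.Btw K x y w) (h2 : 𝓛.Btw K x w b) : 𝓛.Btw (2 * K ^ 2) x y b := by
  unfold LSp.Btw at *
  have h3 := lam_tri h b y hw
  calc 𝓛.lam x b * 𝓛.lam b y ≤ 𝓛.lam x b * (2 * (𝓛.lam b w * 𝓛.lam w y)) :=
        mul_le_mul_of_nonneg_left h3 (lam_nonneg h _ _)
    _ = 2 * ((𝓛.lam x b * 𝓛.lam b w) * 𝓛.lam w y) := by ring
    _ ≤ 2 * ((K * 𝓛.lam x w) * 𝓛.lam w y) := by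
        have := mul_le_mul_of_nonneg_right h2 (lam_nonneg h w y)
        linarith
    _ = 2 * K * (𝓛.lam x w * 𝓛.lam w y) := by ring
    _ ≤ 2 * K * (K * 𝓛.lam x y) := mul_le_mul_of_nonneg_left h1 (by linarith)
    _ = 2 * K ^ 2 * 𝓛.lam x y := by ring

lemma btw_trans2 (h : 𝓛.Good) {K : ℝ} (hK : 0 ≤ K) {x y w b : O} (hw : w ∉ 𝓛.hb)
    (h1 : 𝓛.Btw K x y w) (h2 : 𝓛.Btw K w y b) : 𝓛.Btw (2 * K ^ 2) x y b :=
  btw_symm h (btw_trans1 h hK hw (btw_symm h h1) (btw_symm h h2))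

/-- if `w` is between `x` and `y` and `z` between `w` and `y` then `w` is between `x` and `z` -/
lemma btw_trans3 (h : 𝓛.Good) {K : ℝ} (hK : 0 ≤ K) {x y w z : O} (hz : z ∉ 𝓛.hb)
    (h1 : 𝓛.Btw K x y w) (h2 : 𝓛.Btw K w y z) : 𝓛.Btw (2 * K ^ 2) x z w := by
  unfold LSp.Btw at *
  have h3 := lam_tri h x y hz
  have p : 1 ≤ 𝓛.lam z y := one_le_lam h (Or.inr hz)
  refine le_of_mul_le_mul_right ?_ (by linarith : 0 < 𝓛.lam z y)
  calc 𝓛.lam x w * 𝓛.lam w z * 𝓛.lam z y = 𝓛.lam x w * (𝓛.lam w z * 𝓛.lam z y) := by ring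
    _ ≤ 𝓛.lam x w * (K * 𝓛.lam w y) := mul_le_mul_of_nonneg_left h2 (lam_nonneg h _ _)
    _ = K * (𝓛.lam x w * 𝓛.lam w y) := by ring
    _ ≤ K * (K * 𝓛.lam x y) := mul_le_mul_of_nonneg_left h1 hK
    _ ≤ K * (K * (2 * (𝓛.lam x z * 𝓛.lam z y))) :=
        mul_le_mul_of_nonneg_left (mul_le_mul_of_nonneg_left h3 hK) hK
    _ = 2 * K ^ 2 * 𝓛.lam x z * 𝓛.lam z y := by ring

/-- concatenation, first part -/
lemma rel_cc1 (h : 𝓛.Good) (K : ℝ) : ∃ C : ℝ, ∀ x y w, x ∉ 𝓛.hb → y ∉ 𝓛.hb → w ∉ 𝓛.hb →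
    𝓛.Btw K x y w → ∀ t z, 𝓛.Rel K x w t z → 𝓛.Rel C x y t z := by
  obtain ⟨C, hC⟩ := exists_ge [2 * K ^ 2, K, K + 2 * (𝓛.D * (2 * K) + K), K + 𝓛.D * (2 * K)]
  refine ⟨C, fun x y w hx hy hw hb t z hr => ?_⟩
  rw [rel_iff hx hw] at hr
  obtain ⟨hz, ⟨b1, b2⟩ | ⟨B, hB, b1, b2, b3, b4, b5⟩⟩ := hr
  · have hK : 0 ≤ K := (abs_nonneg _).trans b2
    exact rel_thick h hz (btw_trans1 h hK hw hb b1) (hC _ (by simp)) b2 (hC _ (by simp))
  · have hK : 0 ≤ K := (lam_nonneg h _ _).trans b2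
    have hBx := ne_pt hB hx
    have hBy := ne_pt hB hy
    have hBw := ne_pt hB hw
    have hD := D_pos h
    have hDK : 0 ≤ 𝓛.D * (2 * K) := by positivity
    have e1 := btw_trans1 h hK hw hb b1
    have hw1 := h.ge w B hBw.symm
    rcases min_cases' (btw_min h hb hK hBx hBy hBw) with h2 | h2
    · -- `x` and `w` have close projections
      have p1 := P_of_rho h hB hBx hBw (le_of_mul_sq (rho_nonneg h _ _ _) hw1 h2)
      rw [norm_sub_rev] at p1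
      have s1 : max (t - 𝓛.d x B) 0 ≤ 𝓛.D * (2 * K) + K := max_le (by linarith) (by linarith)
      have g1 := go_left (𝓛.P B x) (𝓛.P B w) (t - 𝓛.d x B)
      have g2 := go_left (𝓛.P B x) (𝓛.P B y) (t - 𝓛.d x B)
      rw [norm_sub_rev] at g2
      have g3 := tri4 (𝓛.P B z) (go (𝓛.P B x) (𝓛.P B w) (t - 𝓛.d x B)) (𝓛.P B x)
        (go (𝓛.P B x) (𝓛.P B y) (t - 𝓛.d x B))
      have n1 := norm_nonneg (𝓛.P B y - 𝓛.P B x)
      exact rel_flat h hx hy hz hB e1 (hC _ (by simp)) b2 (hC _ (by simp))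
        (K₃ := K + 2 * (𝓛.D * (2 * K) + K)) (by linarith) (hC _ (by simp)) b4 (hC _ (by simp))
        (K₅ := K + 𝓛.D * (2 * K)) (by linarith) (hC _ (by simp))
    · have p1 := P_of_rho h hB hBw hBy (le_of_mul_sq (rho_nonneg h _ _ _) hw1 h2)
      have g1 := go_lip (𝓛.P B x) (𝓛.P B w) (𝓛.P B x) (𝓛.P B y) (t - 𝓛.d x B) (t - 𝓛.d x B)
      rw [sub_self, sub_self, norm_zero, abs_zero] at g1
      have g2 := tri3 (𝓛.P B z) (go (𝓛.P B x) (𝓛.P B w) (t - 𝓛.d x B))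
        (go (𝓛.P B x) (𝓛.P B y) (t - 𝓛.d x B))
      have g3 := (norm_diff (𝓛.P B w) (𝓛.P B y) (𝓛.P B x)).trans p1
      rw [abs_le] at g3
      exact rel_flat h hx hy hz hB e1 (hC _ (by simp)) b2 (hC _ (by simp))
        (K₃ := K + 2 * (𝓛.D * (2 * K) + K)) (by linarith) (hC _ (by simp)) b4 (hC _ (by simp))
        (K₅ := K + 𝓛.D * (2 * K)) (by linarith [g3.1, g3.2]) (hC _ (by simp))

/-- concatenation, second part -/
lemma rel_cc2 (h : 𝓛.Good) (K : ℝ) : ∃ C : ℝ, ∀ x y w, x ∉ 𝓛.hb → y ∉ 𝓛.hb → w ∉ 𝓛.hb →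
    𝓛.Btw K x y w → ∀ t z, 𝓛.Rel K w y t z → 𝓛.Rel C x y (t + 𝓛.d x w) z := by
  obtain ⟨C₁, c1, H1⟩ := d_pt' h (2 * K ^ 2)
  obtain ⟨C₂, c2, H2⟩ := d_pt' h (2 * K)
  obtain ⟨C₃, c3, H3⟩ := d_bdd h (2 * K ^ 2)
  set R : ℝ := 𝓛.D * ((K + 𝓛.D * (2 * K)) + 1) * (K * (2 * K ^ 2)) with hR
  obtain ⟨C₄, c4, H4⟩ := d_near h R
  obtain ⟨C, hC⟩ := exists_ge [2 * K ^ 2, K, C₁ + K, K + (𝓛.D * (2 * K) + C₂),
    K + (𝓛.D * (2 * K) + C₂), K + C₂, 4 * R ^ 2 * K, C₄ + C₃ + 𝓛.D * (2 * K) + K]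
  refine ⟨C, fun x y w hx hy hw hb t z hr => ?_⟩
  rw [rel_iff hw hy] at hr
  obtain ⟨hz, ⟨b1, b2⟩ | ⟨B, hB, b1, b2, b3, b4, b5⟩⟩ := hr
  · have hK : 0 ≤ K := (abs_nonneg _).trans b2
    have e1 := H1 x z w hw (Or.inr hx) (btw_trans3 h hK hz hb b1)
    refine rel_thick h hz (btw_trans2 h hK hw hb b1) (hC _ (by simp)) (K₂ := C₁ + K) ?_
      (hC _ (by simp))
    rw [abs_le] at e1 b2 ⊢
    constructor <;> linarith [e1.1, e1.2, b2.1, b2.2]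
  · have hK : 0 ≤ K := (lam_nonneg h _ _).trans b2
    have hBx := ne_pt hB hx
    have hBy := ne_pt hB hy
    have hBw := ne_pt hB hw
    have hBz := ne_pt hB hz
    have hD := D_pos h
    have hDK : 0 ≤ 𝓛.D * (2 * K) := by positivity
    have e1 := btw_trans2 h hK hw hb b1
    have hw1 := h.ge w B hBw.symm
    rcases min_cases' (btw_min h hb hK hBx hBy hBw) with h2 | h2
    · -- `w` is between `x` and `B`
      have p1 := P_of_rho h hB hBx hBw (le_of_mul_sq (rho_nonneg h _ _ _) hw1 h2)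
      have b6 : 𝓛.Btw (2 * K) x B w := by
        unfold LSp.Btw
        rw [lam_eq h hBx hBw, h.symm B w]
        have := mul_le_mul_of_nonneg_right h2 (lam_nonneg h x B)
        linarith
      have e2 := H2 x B w hw (Or.inr hx) b6
      have e3 : |(t - 𝓛.d w B) - (t + 𝓛.d x w - 𝓛.d x B)| ≤ C₂ := by
        rw [abs_le] at e2 ⊢
        constructor <;> linarith [e2.1, e2.2]
      have g1 := go_lip (𝓛.P B w) (𝓛.P B y) (𝓛.P B x) (𝓛.P B y) (t - 𝓛.d w B)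
        (t + 𝓛.d x w - 𝓛.d x B)
      rw [sub_self (𝓛.P B y), norm_zero] at g1
      have g2 := tri3 (𝓛.P B z) (go (𝓛.P B w) (𝓛.P B y) (t - 𝓛.d w B))
        (go (𝓛.P B x) (𝓛.P B y) (t + 𝓛.d x w - 𝓛.d x B))
      have g3 := (norm_diff' (𝓛.P B x) (𝓛.P B w) (𝓛.P B y)).trans p1
      rw [norm_sub_rev] at p1
      rw [abs_le] at e3 g3
      have e4 : |(t - 𝓛.d w B) - (t + 𝓛.d x w - 𝓛.d x B)| ≤ C₂ := by
        rw [abs_le]; exact e3
      exact rel_flat h hx hy hz hB e1 (hC _ (by simp)) b2 (hC _ (by simp))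
        (K₃ := K + (𝓛.D * (2 * K) + C₂)) (by linarith) (hC _ (by simp))
        (K₄ := K + C₂) (by linarith [e3.1, e3.2]) (hC _ (by simp))
        (K₅ := K + (𝓛.D * (2 * K) + C₂)) (by linarith [g3.1, g3.2, e3.1, e3.2])
        (hC _ (by simp))
    · -- `w`, `z` are close to `B` and their projections are close to the one of `y`
      have p1 := P_of_rho h hB hBw hBy (le_of_mul_sq (rho_nonneg h _ _ _) hw1 h2)
      have q1 : 1 ≤ K * 𝓛.rho B w y := by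
        unfold LSp.Btw at b1
        have u1 := lam_pos h hBw
        have u2 := lam_pos h hBy
        rw [lam_eq h hBw hBy, ← mul_assoc] at b1
        refine le_of_mul_le_mul_right ?_ (by positivity : 0 < 𝓛.lam w B * 𝓛.lam B y)
        · linarith
      have q2 : 𝓛.lam w B ≤ 2 * K ^ 2 := by
        have u1 : 𝓛.lam w B ≤ 𝓛.lam w B ^ 2 := le_self_pow₀ hw1 (by norm_num)
        have u2 := mul_le_mul_of_nonneg_left h2 hK
        have u3 := mul_le_mul_of_nonneg_right q1 (sq_nonneg (𝓛.lam w B))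
        linarith
      have g1 := go_left' (𝓛.P B w) (𝓛.P B y) (t - 𝓛.d w B)
      have g2 := tri3 (𝓛.P B z) (go (𝓛.P B w) (𝓛.P B y) (t - 𝓛.d w B)) (𝓛.P B w)
      rw [norm_sub_rev] at p1
      have q3 : 𝓛.lam z w ≤ R := by
        rw [h.symm w B] at q2
        exact near' h hB hBz hBw b2 q2 (by linarith)
      have q4 := H4 z w x hz hw q3
      rw [d_symm h z, d_symm h w] at q4
      have q5 := H3 w B (Or.inr hw) q2
      have q6 := d_nonneg h (x := w) (y := B) (Or.inr hw)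
      have hR0 : 0 ≤ R := (lam_nonneg h _ _).trans q3
      have q7 := btw_near h hR0 hw hb (by rw [h.symm]; exact q3)
      refine rel_thick h hz q7 (hC _ (by simp)) (K₂ := C₄ + C₃ + 𝓛.D * (2 * K) + K) ?_
        (hC _ (by simp))
      rw [abs_le] at q4 ⊢
      constructor <;> linarith [q4.1, q4.2]

end

theorem taskD3 : TaskD3 := by
  intro O J _ 𝓛 h
  refine ⟨fun K K' x y t z hK _ _ hr => rel_mono h hK hr, rel_exists h, rel_uniq h, rel_stab h,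
    fun K => ?_, fun K => ?_⟩
  · obtain ⟨C, -, hC⟩ := rel_times h K
    exact ⟨C, hC⟩
  · obtain ⟨C₁, H1⟩ := rel_cc1 h K
    obtain ⟨C₂, H2⟩ := rel_cc2 h K
    refine ⟨max C₁ C₂, fun x y w hx hy hw hb t z => ⟨fun hr => ?_, fun hr => ?_⟩⟩
    · exact rel_mono h (le_max_left _ _) (H1 x y w hx hy hw hb t z hr)
    · exact rel_mono h (le_max_right _ _) (H2 x y w hx hy hw hb t z hr)

end Run7.h312.LS
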