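import Pool.Agent.Run7.h312.Go

/-! Task D3, first part: auxiliary facts, times, uniqueness. -/

set_option autoImplicit false

namespace Run7.h312.LS

open Run7.h230 Run7.h230.LSp

section
variable {O J : Type} [Fintype J] {𝓛 : LSp O J}

lemma ne_pt {x B : O} (hB : B ∈ 𝓛.hb) (hx : x ∉ 𝓛.hb) : B ≠ x := fun e => hx (e ▸ hB)

lemma d_symm (h : 𝓛.Good) (x y : O) : 𝓛.d x y = 𝓛.d y x := by
  unfold LSp.d
  rw [h.symm, SgFd_symm]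

lemma d_self (h : 𝓛.Good) {x : O} (hx : x ∉ 𝓛.hb) : 𝓛.d x x = 0 :=
  (taskD1 O J 𝓛 h).2.1 x hx

lemma d_pt' (h : 𝓛.Good) (K : ℝ) : ∃ C : ℝ, 0 ≤ C ∧ ∀ x y z, z ∉ 𝓛.hb →
    (x ≠ y ∨ x ∉ 𝓛.hb) → 𝓛.Btw K x y z → |𝓛.d x y - 𝓛.d x z - 𝓛.d z y| ≤ C := by
  obtain ⟨C, hC⟩ := d_pt h K
  exact ⟨|C|, abs_nonneg C, fun x y z hz hxy hb => (hC x y z hz hxy hb).trans (le_abs_self C)⟩

lemma d_hb' (h : 𝓛.Good) (K : ℝ) : ∃ C : ℝ, 0 ≤ C ∧ ∀ x y, ∀ B ∈ 𝓛.hb, B ≠ x → B ≠ y →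
    (x ≠ y ∨ x ∉ 𝓛.hb) → 𝓛.Btw K x y B →
    |𝓛.d x y - 𝓛.d x B - 𝓛.d B y - ‖𝓛.P B y - 𝓛.P B x‖| ≤ C := by
  obtain ⟨C, hC⟩ := d_hb h K
  exact ⟨|C|, abs_nonneg C, fun x y B hB hx hy hxy hb =>
    (hC x y B hB hx hy hxy hb).trans (le_abs_self C)⟩

lemma d_bdd (h : 𝓛.Good) (K : ℝ) : ∃ C : ℝ, 0 ≤ C ∧ ∀ x y, (x ≠ y ∨ x ∉ 𝓛.hb) →
    𝓛.lam x y ≤ K → 𝓛.d x y ≤ C := by
  obtain ⟨-, -, -, -, h5, -⟩ := taskD1 O J 𝓛 h
  obtain ⟨C, hC⟩ := h5 K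
  exact ⟨|C|, abs_nonneg C, fun x y hxy hk => (hC x y hxy hk).trans (le_abs_self C)⟩

lemma lam_le_exp (h : 𝓛.Good) {x y : O} (hxy : x ≠ y ∨ x ∉ 𝓛.hb) {C : ℝ} (hd : 𝓛.d x y ≤ C) :
    𝓛.lam x y ≤ Real.exp (C / 2) := by
  have h1 := one_le_lam h hxy
  rw [← Real.log_le_iff_le_exp (by linarith)]
  have h2 := SgFd_nonneg (𝓛 := 𝓛) x y
  unfold LSp.d at hd
  linarith

lemma aux_two {a e p q p' q' K : ℝ} (ha : 0 < a) (hp : 0 ≤ p) (hq : 0 ≤ q) (hp' : 0 ≤ p')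
    (hq' : 0 ≤ q') (h1 : a * e ≤ 2 * (p * q')) (hz : p * q ≤ K * a) (hz' : p' * q' ≤ K * a) :
    p' * e ≤ 2 * K * p ∧ e * q ≤ 2 * K * q' := by
  constructor
  · refine le_of_mul_le_mul_right ?_ ha
    have := mul_le_mul_of_nonneg_left h1 hp'
    have := mul_le_mul_of_nonneg_left hz' hp
    linarith
  · refine le_of_mul_le_mul_right ?_ ha
    have := mul_le_mul_of_nonneg_left h1 hq
    have := mul_le_mul_of_nonneg_left hz hq'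
    linarith

/-- two objects between `x` and `y` are ordered -/
lemma btw_two (h : 𝓛.Good) {K : ℝ} {x y z z' : O} (hxy : 0 < 𝓛.lam x y) (hz : 𝓛.Btw K x y z)
    (hz' : 𝓛.Btw K x y z') :
    (𝓛.Btw (2 * K) x z z' ∧ 𝓛.Btw (2 * K) z' y z) ∨
      (𝓛.Btw (2 * K) x z' z ∧ 𝓛.Btw (2 * K) z y z') := by
  unfold LSp.Btw at *
  have h0 := h.ptol x y z z'
  rw [h.symm y z', h.symm y z] at h0
  have hs := h.symm z' z
  rw [hs]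
  rcases le_total (𝓛.lam x z' * 𝓛.lam z y) (𝓛.lam x z * 𝓛.lam z' y) with h1 | h1
  · left
    exact aux_two hxy (lam_nonneg h _ _) (lam_nonneg h _ _) (lam_nonneg h _ _)
      (lam_nonneg h _ _) (by linarith) hz hz'
  · right
    exact aux_two hxy (lam_nonneg h _ _) (lam_nonneg h _ _) (lam_nonneg h _ _)
      (lam_nonneg h _ _) (by linarith) hz' hz

/-- two objects close to a horoball with close projections are close -/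
lemma near (h : 𝓛.Good) {r s : ℝ} {B z z' : O} (hB : B ∈ 𝓛.hb) (hz : B ≠ z) (hz' : B ≠ z')
    (h1 : 𝓛.lam z B ≤ r) (h2 : 𝓛.lam z' B ≤ r) (h3 : ‖𝓛.P B z - 𝓛.P B z'‖ ≤ s) :
    𝓛.lam z z' ≤ 𝓛.D * (s + 1) * (r * r) := by
  have e := h.le_P B hB z z' hz.symm hz'.symm
  rw [lam_eq h hz hz', h.symm B z']
  have h4 : 𝓛.rho B z z' ≤ 𝓛.D * (s + 1) :=
    e.trans (mul_le_mul_of_nonneg_left (by linarith) (D_pos h).le)
  exact mul_le_mul h4 (mul_le_mul h1 h2 (lam_nonneg h _ _) (le_trans (lam_nonneg h _ _) h1))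
    (mul_nonneg (lam_nonneg h _ _) (lam_nonneg h _ _)) (le_trans (rho_nonneg h _ _ _) h4)

lemma rho_of_btw (h : 𝓛.Good) {K : ℝ} {B y z : O} (hz : B ≠ z) (hy : B ≠ y)
    (hb : 𝓛.Btw K B y z) : 𝓛.rho B z y ≤ K := by
  have p1 := h.ge B z hz
  have p2 := lam_pos h hy
  have p3 := lam_pos h hz
  unfold LSp.rho
  unfold LSp.Btw at hb
  rw [h.symm z B, div_le_iff₀ (by positivity)]
  have n := lam_nonneg h z y
  have h2 : 0 ≤ K * 𝓛.lam B y := le_trans (by positivity) hb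
  have h3 := le_mul_of_one_le_right h2 p1
  have h4 := le_mul_of_one_le_left n p1
  linarith

lemma P_of_rho (h : 𝓛.Good) {K : ℝ} {B y z : O} (hB : B ∈ 𝓛.hb) (hz : B ≠ z) (hy : B ≠ y)
    (hb : 𝓛.rho B z y ≤ K) : ‖𝓛.P B z - 𝓛.P B y‖ ≤ 𝓛.D * K :=
  (h.P_le B hB z y hz.symm hy.symm).trans (mul_le_mul_of_nonneg_left hb (D_pos h).le)

lemma P_of_btw (h : 𝓛.Good) {K : ℝ} {B y z : O} (hB : B ∈ 𝓛.hb) (hz : B ≠ z) (hy : B ≠ y)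
    (hb : 𝓛.Btw K B y z) : ‖𝓛.P B z - 𝓛.P B y‖ ≤ 𝓛.D * K :=
  P_of_rho h hB hz hy (rho_of_btw h hz hy hb)

/-- objects at bounded distance have projections at bounded distance -/
lemma P_of_lam (h : 𝓛.Good) {r : ℝ} {B x y : O} (hB : B ∈ 𝓛.hb) (hx : B ≠ x) (hy : B ≠ y)
    (hr : 𝓛.lam x y ≤ r) : ‖𝓛.P B x - 𝓛.P B y‖ ≤ 𝓛.D * r := by
  refine P_of_rho h hB hx hy ?_
  have p1 := h.ge x B hx.symm
  have p2 := h.ge B y hy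
  unfold LSp.rho
  rw [div_le_iff₀ (by positivity)]
  have hr0 := (lam_nonneg h x y).trans hr
  have : r ≤ r * (𝓛.lam x B * 𝓛.lam B y) := le_mul_of_one_le_right hr0 (by nlinarith)
  linarith

/-- an object close to the end point `z` is between -/
lemma btw_end (h : 𝓛.Good) {r : ℝ} (x : O) {z b : O} (hz : z ∉ 𝓛.hb) (hr : 𝓛.lam z b ≤ r) :
    𝓛.Btw (2 * r ^ 2) x z b := by
  unfold LSp.Btw
  have h1 := lam_tri h x b hz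
  have n1 := lam_nonneg h x z
  have n2 := lam_nonneg h z b
  rw [h.symm b z]
  have h2 := mul_le_mul_of_nonneg_left hr n1
  have h3 : 𝓛.lam x b * 𝓛.lam z b ≤ (2 * (𝓛.lam x z * r)) * r :=
    mul_le_mul (by linarith) hr n2 (by have := n2.trans hr; positivity)
  linarith

/-- `d` changes boundedly when an end point moves boundedly -/
lemma d_near (h : 𝓛.Good) (r : ℝ) : ∃ C : ℝ, 0 ≤ C ∧ ∀ x x' z, x ∉ 𝓛.hb → x' ∉ 𝓛.hb →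
    𝓛.lam x x' ≤ r → |𝓛.d x z - 𝓛.d x' z| ≤ C := by
  obtain ⟨C₁, c1, h1⟩ := d_pt' h (2 * r ^ 2)
  obtain ⟨C₂, c2, h2⟩ := d_bdd h r
  refine ⟨C₁ + C₂, by positivity, fun x x' z hx hx' hr => ?_⟩
  have e1 := h1 x z x' hx' (Or.inr hx) (btw_symm h (btw_end h z hx hr))
  have e2 := h2 x x' (Or.inr hx) hr
  have e3 := d_nonneg h (x := x) (y := x') (Or.inr hx)
  rw [abs_le] at e1 ⊢
  constructor <;> linarith [e1.1, e1.2]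

lemma norm_diff (a b c : J → ℝ) : |‖a - c‖ - ‖b - c‖| ≤ ‖a - b‖ := by
  have := abs_norm_sub_norm_le (a - c) (b - c)
  rwa [sub_sub_sub_cancel_right] at this

lemma norm_diff' (a b c : J → ℝ) : |‖c - a‖ - ‖c - b‖| ≤ ‖a - b‖ := by
  have := abs_norm_sub_norm_le (c - a) (c - b)
  rwa [sub_sub_sub_cancel_left, norm_sub_rev b a] at this

lemma rel_mono (h : 𝓛.Good) {K K' : ℝ} {x y : O} {t : ℝ} {z : O} (hK : K ≤ K')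
    (hr : 𝓛.Rel K x y t z) : 𝓛.Rel K' x y t z := by
  obtain ⟨hz, ⟨h1, h2⟩ | ⟨B, hB, hx, hy, h1, h2, h3, h4, h5⟩⟩ := hr
  · exact ⟨hz, Or.inl ⟨btw_mono h hK h1, h2.trans hK⟩⟩
  · exact ⟨hz, Or.inr ⟨B, hB, hx, hy, btw_mono h hK h1, h2.trans hK, h3.trans hK,
      by linarith, by linarith⟩⟩

/-- times -/
lemma rel_times (h : 𝓛.Good) (K : ℝ) : ∃ C : ℝ, 0 ≤ C ∧ ∀ x y, x ∉ 𝓛.hb → y ∉ 𝓛.hb →
    ∀ t z, 𝓛.Rel K x y t z →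
    |𝓛.d x z - t| ≤ C ∧ |𝓛.d z y - (𝓛.d x y - t)| ≤ C := by
  obtain ⟨C₁, c1, h1⟩ := d_pt' h K
  obtain ⟨C₂, c2, h2⟩ := d_hb' h (2 * K ^ 2)
  obtain ⟨C₃, c3, h3⟩ := d_hb' h K
  obtain ⟨C₄, c4, h4⟩ := d_bdd h K
  refine ⟨C₁ + C₂ + C₃ + C₄ + 3 * |K|, by positivity, fun x y hx hy t z hr => ?_⟩
  obtain ⟨hz, ⟨r1, r2⟩ | ⟨B, hB, hBx, hBy, r1, r2, r3, r4, r5⟩⟩ := hr
  · have e1 := h1 x y z hz (Or.inr hx) r1
    have e2 := le_abs_self K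
    rw [abs_le] at e1 r2
    rw [abs_le, abs_le]
    refine ⟨⟨?_, ?_⟩, ?_, ?_⟩ <;> linarith [e1.1, e1.2, r2.1, r2.2, abs_nonneg K]
  · have hBz := ne_pt hB hz
    have hK : 0 ≤ K := (lam_nonneg h _ _).trans r2
    have b1 := btw_end h x hz r2
    have b2 := btw_symm h (btw_end h y hz r2)
    have e1 := h2 x z B hB hBx hBz (Or.inr hx) b1
    have e2 := h2 z y B hB hBz hBy (Or.inr hz) b2
    have e3 := h3 x y B hB hBx hBy (Or.inr hx) r1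
    have e4 := h4 z B (Or.inr hz) r2
    have e5 := d_nonneg h (x := z) (y := B) (Or.inr hz)
    have e6 := d_symm h z B
    obtain ⟨g1, g2⟩ := go_times hK r4 r5
    have g3 := (norm_diff (𝓛.P B z) (go (𝓛.P B x) (𝓛.P B y) (t - 𝓛.d x B)) (𝓛.P B x)).trans r3
    have g4 := (norm_diff' (𝓛.P B z) (go (𝓛.P B x) (𝓛.P B y) (t - 𝓛.d x B)) (𝓛.P B y)).trans r3
    rw [abs_of_nonneg hK]
    rw [abs_le] at e1 e2 e3 g1 g2 g3 g4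
    rw [abs_le, abs_le]
    refine ⟨⟨?_, ?_⟩, ?_, ?_⟩ <;> linarith [e1.1, e1.2, e2.1, e2.2, e3.1, e3.2, g1.1, g1.2,
      g2.1, g2.2, g3.1, g3.2, g4.1, g4.2]

end

end Run7.h312.LS
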