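import Pool.Agent.Run7.h312.PD3a

/-! Task D3, second part: uniqueness. -/

set_option autoImplicit false

namespace Run7.h312.LS

open Run7.h230 Run7.h230.LSp

section
variable {O J : Type} [Fintype J] {𝓛 : LSp O J}

lemma tri4 (a b c d : J → ℝ) : ‖a - d‖ ≤ ‖a - b‖ + ‖b - c‖ + ‖c - d‖ := by
  have h1 : a - d = (a - b) + (b - c) + (c - d) := by abel
  rw [h1]
  exact (norm_add_le _ _).trans (add_le_add_left (norm_add_le _ _) _)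

lemma tri3 (a b c : J → ℝ) : ‖a - c‖ ≤ ‖a - b‖ + ‖b - c‖ := by
  have h1 : a - c = (a - b) + (b - c) := by abel
  rw [h1]
  exact norm_add_le _ _

/-- two objects near a horoball with close projections are close (two radii) -/
lemma near' (h : 𝓛.Good) {r r' s : ℝ} {B z z' : O} (hB : B ∈ 𝓛.hb) (hz : B ≠ z) (hz' : B ≠ z')
    (h1 : 𝓛.lam z B ≤ r) (h2 : 𝓛.lam B z' ≤ r') (h3 : ‖𝓛.P B z - 𝓛.P B z'‖ ≤ s) :
    𝓛.lam z z' ≤ 𝓛.D * (s + 1) * (r * r') := by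
  have e := h.le_P B hB z z' hz.symm hz'.symm
  rw [lam_eq h hz hz']
  have h4 : 𝓛.rho B z z' ≤ 𝓛.D * (s + 1) :=
    e.trans (mul_le_mul_of_nonneg_left (by linarith) (D_pos h).le)
  exact mul_le_mul h4 (mul_le_mul h1 h2 (lam_nonneg h _ _) (le_trans (lam_nonneg h _ _) h1))
    (mul_nonneg (lam_nonneg h _ _) (lam_nonneg h _ _)) (le_trans (rho_nonneg h _ _ _) h4)

/-- the data of a point of flat type -/
def Fl (𝓛 : LSp O J) (K : ℝ) (x y : O) (t : ℝ) (z B : O) : Prop :=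
  B ∈ 𝓛.hb ∧ 𝓛.Btw K x y B ∧ 𝓛.lam z B ≤ K ∧
    ‖𝓛.P B z - go (𝓛.P B x) (𝓛.P B y) (t - 𝓛.d x B)‖ ≤ K ∧
    -K ≤ t - 𝓛.d x B ∧ t - 𝓛.d x B ≤ ‖𝓛.P B y - 𝓛.P B x‖ + K

lemma rel_iff {K : ℝ} {x y : O} (hx : x ∉ 𝓛.hb) (hy : y ∉ 𝓛.hb) (t : ℝ) (z : O) :
    𝓛.Rel K x y t z ↔ z ∉ 𝓛.hb ∧ ((𝓛.Btw K x y z ∧ |𝓛.d x z - t| ≤ K) ∨
      ∃ B, Fl 𝓛 K x y t z B) := by
  unfold LSp.Rel Fl
  constructor
  · rintro ⟨hz, h1 | ⟨B, hB, -, -, h1⟩⟩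
    · exact ⟨hz, Or.inl h1⟩
    · exact ⟨hz, Or.inr ⟨B, hB, h1⟩⟩
  · rintro ⟨hz, h1 | ⟨B, hB, h1⟩⟩
    · exact ⟨hz, Or.inl h1⟩
    · exact ⟨hz, Or.inr ⟨B, hB, ne_pt hB hx, ne_pt hB hy, h1⟩⟩

lemma uniq_tt' (h : 𝓛.Good) {K C : ℝ} {x z z' : O} {t : ℝ}
    (hC : |𝓛.d x z - 𝓛.d x z' - 𝓛.d z' z| ≤ C) (h1 : |𝓛.d x z - t| ≤ K)
    (h2 : |𝓛.d x z' - t| ≤ K) (hz : z ∉ 𝓛.hb) : 𝓛.lam z z' ≤ Real.exp ((C + 2 * K) / 2) := by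
  apply lam_le_exp h (Or.inr hz)
  rw [d_symm h]
  rw [abs_le] at hC h1 h2
  linarith [hC.1, h1.1, h1.2, h2.1, h2.2]

lemma uniq_tt (h : 𝓛.Good) (K : ℝ) : ∃ C : ℝ, ∀ x y, x ∉ 𝓛.hb → y ∉ 𝓛.hb → ∀ t z z',
    z ∉ 𝓛.hb → z' ∉ 𝓛.hb → 𝓛.Btw K x y z → |𝓛.d x z - t| ≤ K → 𝓛.Btw K x y z' →
    |𝓛.d x z' - t| ≤ K → 𝓛.lam z z' ≤ C := by
  obtain ⟨C, c1, hC⟩ := d_pt' h (2 * K)
  refine ⟨Real.exp ((C + 2 * K) / 2), fun x y hx hy t z z' hz hz' b1 e1 b2 e2 => ?_⟩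
  have hp : 0 < 𝓛.lam x y := by linarith [one_le_lam h (x := x) (y := y) (Or.inr hx)]
  rcases btw_two h hp b1 b2 with ⟨b3, -⟩ | ⟨b3, -⟩
  · exact uniq_tt' h (hC x z z' hz' (Or.inr hx) b3) e1 e2 hz
  · rw [h.symm]
    exact uniq_tt' h (hC x z' z hz (Or.inr hx) b3) e2 e1 hz'

lemma uniq_tf (h : 𝓛.Good) (K : ℝ) : ∃ C : ℝ, ∀ x y, x ∉ 𝓛.hb → y ∉ 𝓛.hb → ∀ t z z',
    z ∉ 𝓛.hb → z' ∉ 𝓛.hb → 𝓛.Btw K x y z → |𝓛.d x z - t| ≤ K → ∀ B, Fl 𝓛 K x y t z' B →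
    𝓛.lam z z' ≤ C := by
  obtain ⟨C₁, c1, H1⟩ := d_hb' h (2 * K)
  obtain ⟨C₂, c2, H2⟩ := d_pt' h (2 * K)
  refine ⟨𝓛.D * ((C₁ + C₂ + 2 * (𝓛.D * (2 * K)) + 2 * K) + 1) *
    (Real.exp ((C₁ + C₂ + 𝓛.D * (2 * K) + 2 * K) / 2) * K),
    fun x y hx hy t z z' hz hz' b1 e1 B hf => ?_⟩
  obtain ⟨hB, b2, f1, f2, f3, f4⟩ := hf
  have hp : 0 < 𝓛.lam x y := by linarith [one_le_lam h (x := x) (y := y) (Or.inr hx)]
  have hK : 0 ≤ K := (lam_nonneg h _ _).trans f1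
  have hD := D_pos h
  have hDK : 0 ≤ 𝓛.D * (2 * K) := by positivity
  have hBx := ne_pt hB hx
  have hBy := ne_pt hB hy
  have hBz := ne_pt hB hz
  have hBz' := ne_pt hB hz'
  have e0 := d_nonneg h (x := z) (y := B) (Or.inr hz)
  rw [norm_sub_rev] at f2
  rw [abs_le] at e1
  rw [h.symm z' B] at f1
  rcases btw_two h hp b1 b2 with ⟨b3, b4⟩ | ⟨b3, b4⟩
  · have g1 := H1 x z B hB hBx hBz (Or.inr hx) b3
    have g2 := P_of_btw h hB hBz hBy b4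
    have g3 := (norm_diff (𝓛.P B z) (𝓛.P B y) (𝓛.P B x)).trans g2
    rw [d_symm h B z] at g1
    rw [abs_le] at g1 g3
    have g4 : ‖𝓛.P B y - go (𝓛.P B x) (𝓛.P B y) (t - 𝓛.d x B)‖ ≤ 𝓛.D * (2 * K) + C₁ + K := by
      refine (go_right _ _ _).trans (max_le ?_ (by linarith))
      have := le_max_left (t - 𝓛.d x B) 0
      linarith [e1.1, e1.2, g1.1, g1.2, g3.1, g3.2]
    refine near' h hB hBz hBz' (lam_le_exp h (Or.inr hz) ?_) f1 ?_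
    · linarith [e1.1, e1.2, g1.1, g1.2, g3.1, g3.2]
    · have := tri4 (𝓛.P B z) (𝓛.P B y) (go (𝓛.P B x) (𝓛.P B y) (t - 𝓛.d x B)) (𝓛.P B z')
      linarith
  · have g1 := H2 x B z hz (Or.inr hx) b3
    have g2 := P_of_btw h hB hBz hBx (btw_symm h b3)
    rw [abs_le] at g1
    have g4 : ‖go (𝓛.P B x) (𝓛.P B y) (t - 𝓛.d x B) - 𝓛.P B x‖ ≤ K + C₂ := by
      refine (go_left _ _ _).trans (max_le ?_ (by linarith))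
      linarith [e1.1, e1.2, g1.1, g1.2]
    rw [norm_sub_rev] at g4
    refine near' h hB hBz hBz' (lam_le_exp h (Or.inr hz) ?_) f1 ?_
    · linarith [e1.1, e1.2, g1.1, g1.2]
    · have := tri4 (𝓛.P B z) (𝓛.P B x) (go (𝓛.P B x) (𝓛.P B y) (t - 𝓛.d x B)) (𝓛.P B z')
      linarith

lemma uniq_ff (h : 𝓛.Good) (K : ℝ) : ∃ C : ℝ, ∀ x y, x ∉ 𝓛.hb → y ∉ 𝓛.hb → ∀ t z z',
    z ∉ 𝓛.hb → z' ∉ 𝓛.hb → ∀ B B', B ≠ B' → 𝓛.Btw (2 * K) x B B' → 𝓛.Btw (2 * K) B' y B →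
    Fl 𝓛 K x y t z B → Fl 𝓛 K x y t z' B' → 𝓛.lam z z' ≤ C := by
  obtain ⟨C₁, c1, H1⟩ := d_hb' h (2 * K)
  refine ⟨𝓛.D * ((𝓛.D * K + 2 * (𝓛.D * (2 * K)) + C₁ + 2 * K) + 1) *
    ((𝓛.D * ((2 * K + 2 * (𝓛.D * (2 * K)) + C₁) + 1) *
      (K * (Real.exp ((2 * K + 𝓛.D * (2 * K) + C₁) / 2)))) * K),
    fun x y hx hy t z z' hz hz' B B' hne b1 b2 hf hf' => ?_⟩
  obtain ⟨hB, -, f1, f2, f3, f4⟩ := hf
  obtain ⟨hB', -, f1', f2', f3', f4'⟩ := hf'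
  have hK : 0 ≤ K := (lam_nonneg h _ _).trans f1
  have hD := D_pos h
  have hDK : 0 ≤ 𝓛.D * (2 * K) := by positivity
  have hBx := ne_pt hB hx
  have hBz := ne_pt hB hz
  have hBx' := ne_pt hB' hx
  have hBy' := ne_pt hB' hy
  have hBz' := ne_pt hB' hz'
  have hBz'' := ne_pt hB' hz
  have e1 := P_of_btw h hB' hne.symm hBy' b2
  have e2 := P_of_btw h hB hne hBx (btw_symm h b1)
  have e3 := H1 x B B' hB' hBx' hne.symm (Or.inr hx) b1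
  have e4 := (norm_diff (𝓛.P B' B) (𝓛.P B' y) (𝓛.P B' x)).trans e1
  have e5 := d_nonneg h (x := B') (y := B) (Or.inl hne.symm)
  rw [abs_le] at e3 e4
  have g1 : 𝓛.d B B' ≤ 2 * K + 𝓛.D * (2 * K) + C₁ := by
    rw [d_symm h]
    linarith [e3.1, e3.2, e4.1, e4.2]
  have g2 := lam_le_exp h (Or.inl hne) g1
  have g3 : ‖𝓛.P B' y - go (𝓛.P B' x) (𝓛.P B' y) (t - 𝓛.d x B')‖ ≤ 𝓛.D * (2 * K) + C₁ + K := by
    refine (go_right _ _ _).trans (max_le ?_ (by linarith))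
    have := le_max_left (t - 𝓛.d x B') 0
    linarith [e3.1, e3.2, e4.1, e4.2]
  have g4 : ‖go (𝓛.P B x) (𝓛.P B y) (t - 𝓛.d x B) - 𝓛.P B x‖ ≤ K + 𝓛.D * (2 * K) + C₁ := by
    refine (go_left _ _ _).trans (max_le ?_ (by linarith))
    linarith [e3.1, e3.2, e4.1, e4.2]
  have g5 : 𝓛.lam z B' ≤ 𝓛.D * ((2 * K + 2 * (𝓛.D * (2 * K)) + C₁) + 1) *
      (K * (Real.exp ((2 * K + 𝓛.D * (2 * K) + C₁) / 2))) := by
    refine near' h hB hBz hne f1 g2 ?_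
    have := tri4 (𝓛.P B z) (go (𝓛.P B x) (𝓛.P B y) (t - 𝓛.d x B)) (𝓛.P B x) (𝓛.P B B')
    rw [norm_sub_rev] at e2
    linarith
  rw [h.symm] at f1'
  refine near' h hB' hBz'' hBz' g5 f1' ?_
  have g6 := P_of_lam h hB' hBz'' hne.symm f1
  have g7 := tri4 (𝓛.P B' z) (𝓛.P B' B) (𝓛.P B' y) (𝓛.P B' z')
  have g8 := tri3 (𝓛.P B' y) (go (𝓛.P B' x) (𝓛.P B' y) (t - 𝓛.d x B')) (𝓛.P B' z')
  rw [norm_sub_rev] at f2'
  linarith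

/-- uniqueness -/
lemma rel_uniq (h : 𝓛.Good) (K : ℝ) : ∃ C : ℝ, ∀ x y, x ∉ 𝓛.hb → y ∉ 𝓛.hb → ∀ t z z',
    𝓛.Rel K x y t z → 𝓛.Rel K x y t z' → 𝓛.lam z z' ≤ C := by
  obtain ⟨C₁, H1⟩ := uniq_tt h K
  obtain ⟨C₂, H2⟩ := uniq_tf h K
  obtain ⟨C₃, H3⟩ := uniq_ff h K
  refine ⟨max (max C₁ C₂) (max C₃ (𝓛.D * ((K + K) + 1) * (K * K))),
    fun x y hx hy t z z' hr hr' => ?_⟩
  rw [rel_iff hx hy] at hr hr'
  obtain ⟨hz, hr⟩ := hr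
  obtain ⟨hz', hr'⟩ := hr'
  have hp : 0 < 𝓛.lam x y := by linarith [one_le_lam h (x := x) (y := y) (Or.inr hx)]
  rcases hr with ⟨b1, e1⟩ | ⟨B, hB⟩
  · rcases hr' with ⟨b2, e2⟩ | ⟨B', hB'⟩
    · exact (H1 x y hx hy t z z' hz hz' b1 e1 b2 e2).trans
        ((le_max_left _ _).trans (le_max_left _ _))
    · exact (H2 x y hx hy t z z' hz hz' b1 e1 B' hB').trans
        ((le_max_right _ _).trans (le_max_left _ _))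
  · rcases hr' with ⟨b2, e2⟩ | ⟨B', hB'⟩
    · rw [h.symm]
      exact (H2 x y hx hy t z' z hz' hz b2 e2 B hB).trans
        ((le_max_right _ _).trans (le_max_left _ _))
    · by_cases hne : B = B'
      · subst hne
        refine le_trans ?_ ((le_max_right _ _).trans (le_max_right _ _))
        obtain ⟨hB, -, f1, f2, f3, f4⟩ := hB
        obtain ⟨-, -, f1', f2', f3', f4'⟩ := hB'
        rw [h.symm] at f1'
        refine near' h hB (ne_pt hB hz) (ne_pt hB hz') f1 f1' ?_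
        have := tri3 (𝓛.P B z) (go (𝓛.P B x) (𝓛.P B y) (t - 𝓛.d x B)) (𝓛.P B z')
        rw [norm_sub_rev] at f2'
        linarith
      · refine le_trans ?_ ((le_max_left _ _).trans (le_max_right _ _))
        rcases btw_two h hp hB.2.1 hB'.2.1 with ⟨b3, b4⟩ | ⟨b3, b4⟩
        · exact H3 x y hx hy t z z' hz hz' B B' hne b3 b4 hB hB'
        · rw [h.symm]
          exact H3 x y hx hy t z' z hz' hz B' B (Ne.symm hne) b3 b4 hB' hB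

end

end Run7.h312.LS
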