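import Pool.Agent.Run7.h312.PD3

/-! Task F, first part: invariance, lengths, paths in the group. -/

set_option autoImplicit false

namespace Run7.h312.LF

open Run7.h230 Run7.h230.LSp Run7.h312.LS

lemma go_add {J : Type} (a b c : J → ℝ) (s : ℝ) : go (a + c) (b + c) s = go a b s + c := by
  funext j
  simp only [go, Pi.add_apply]
  rw [← max_add_add_right, ← min_add_add_right]
  congr 1
  · ring
  · congr 1
    ring

section
variable {Γ X E J : Type} [Group Γ] [MulAction Γ X] [Fintype J] {G : GSys Γ X E J}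

lemma hb_inr (h : G.Good) (B : X) : (Sum.inr B : Γ ⊕ X) ∈ G.𝓛.hb := by
  rw [h.hb]; exact ⟨B, rfl⟩

lemma hb_inl (h : G.Good) (γ : Γ) : (Sum.inl γ : Γ ⊕ X) ∉ G.𝓛.hb := by
  rw [h.hb]; rintro ⟨B, hB⟩; cases hB

lemma gact_mul (g g' : Γ) (x : Γ ⊕ X) : gact (g * g') x = gact g (gact g' x) := by
  cases x <;> simp [gact, mul_assoc, mul_smul]

lemma gact_one (x : Γ ⊕ X) : gact (1 : Γ) x = x := by
  cases x <;> simp [gact]

lemma gact_inv (g : Γ) (x : Γ ⊕ X) : gact g (gact g⁻¹ x) = x := by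
  rw [← gact_mul, mul_inv_cancel, gact_one]

lemma gact_inv' (g : Γ) (x : Γ ⊕ X) : gact g⁻¹ (gact g x) = x := by
  rw [← gact_mul, inv_mul_cancel, gact_one]

lemma gact_inj (g : Γ) : Function.Injective (gact g : Γ ⊕ X → Γ ⊕ X) := fun x y e => by
  rw [← gact_inv' g x, e, gact_inv']

lemma hb_gact (h : G.Good) (g : Γ) (x : Γ ⊕ X) : gact g x ∈ G.𝓛.hb ↔ x ∈ G.𝓛.hb := by
  cases x with
  | inl γ => exact iff_of_false (hb_inl h _) (hb_inl h _)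
  | inr B => exact iff_of_true (hb_inr h _) (hb_inr h _)

lemma inv_Sg (h : G.Good) {W : Type} [AddCommMonoid W] (F : Γ ⊕ X → (J ⊕ J → ℝ) → W)
    (hF : ∀ (g : Γ) (B : X) v, F (Sum.inr (g • B)) v = F (Sum.inr B) v) (g : Γ) (x y : Γ ⊕ X) :
    G.𝓛.Sg F (gact g x) (gact g y) = G.𝓛.Sg F x y := by
  unfold LSp.Sg
  symm
  refine finsum_mem_eq_of_bijOn (gact g) ⟨?_, ?_, ?_⟩ ?_
  · rintro B ⟨h1, h2, h3⟩
    exact ⟨(hb_gact h g B).2 h1, fun e => h2 (gact_inj g e), fun e => h3 (gact_inj g e)⟩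
  · exact (gact_inj g).injOn
  · rintro B ⟨h1, h2, h3⟩
    refine ⟨gact g⁻¹ B, ⟨(hb_gact h g⁻¹ B).2 h1, fun e => h2 ?_, fun e => h3 ?_⟩, gact_inv g B⟩
    · rw [← e, gact_inv]
    · rw [← e, gact_inv]
  · rintro B ⟨h1, h2, h3⟩
    rw [h.hb] at h1
    obtain ⟨B, rfl⟩ := h1
    have := h.inv_P g B y x h3.symm h2.symm
    show F (Sum.inr B) _ = F (Sum.inr (g • B)) _
    rw [hF]
    congr 1
    exact this.symm

lemma inv_d (h : G.Good) (g : Γ) (x y : Γ ⊕ X) :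
    G.𝓛.d (gact g x) (gact g y) = G.𝓛.d x y := by
  unfold LSp.d
  rw [h.inv_lam, inv_Sg h G.𝓛.Fd (fun _ _ _ => rfl)]

/-- the family of linear maps on all objects -/
def al (G : GSys Γ X E J) : Γ ⊕ X → (J ⊕ J → ℝ) →ₗ[ℝ] (J → ℝ) := Sum.elim (fun _ => 0) G.α

lemma al_bdd (h : G.Good) : ∃ Λ : ℝ, 0 ≤ Λ ∧ ∀ B v, ‖al G B v‖ ≤ Λ * ‖v‖ := by
  obtain ⟨Λ, hΛ⟩ := h.bdd_α
  refine ⟨|Λ|, abs_nonneg _, fun B v => ?_⟩
  cases B with
  | inl γ =>
    have : al G (Sum.inl γ : Γ ⊕ X) v = 0 := rfl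
    rw [this, norm_zero]
    positivity
  | inr B => exact (hΛ B v).trans (mul_le_mul_of_nonneg_right (le_abs_self _) (norm_nonneg _))

lemma inv_Ψ (h : G.Good) (g : Γ) (x y : Γ ⊕ X) :
    G.𝓛.Ψ (al G) (gact g x) (gact g y) = G.𝓛.Ψ (al G) x y := by
  unfold LSp.Ψ
  apply inv_Sg h
  intro g B v
  unfold LSp.FΨ
  have : al G (Sum.inr (g • B)) = al G (Sum.inr B) := h.inv_α g B
  rw [this]

lemma inv_P' (h : G.Good) (g : Γ) (B : X) : ∃ c : J ⊕ J → ℝ, ∀ x, x ≠ Sum.inr B →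
    G.𝓛.P (Sum.inr (g • B)) (gact g x) = G.𝓛.P (Sum.inr B) x + c := by
  refine ⟨G.𝓛.P (Sum.inr (g • B)) (gact g (Sum.inl 1)) - G.𝓛.P (Sum.inr B) (Sum.inl 1),
    fun x hx => ?_⟩
  have := h.inv_P g B x (Sum.inl 1) hx (by simp)
  rw [sub_eq_iff_eq_add] at this
  rw [this]
  abel

lemma inv_rel (h : G.Good) {K : ℝ} {x y z : Γ ⊕ X} {t : ℝ} (g : Γ) (hr : G.𝓛.Rel K x y t z) :
    G.𝓛.Rel K (gact g x) (gact g y) t (gact g z) := by
  obtain ⟨hz, ⟨h1, h2⟩ | ⟨B, hB, hx, hy, h1, h2, h3, h4, h5⟩⟩ := hr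
  · refine ⟨fun hc => hz ((hb_gact h g z).1 hc), Or.inl ⟨?_, ?_⟩⟩
    · unfold LSp.Btw at h1 ⊢
      rw [h.inv_lam, h.inv_lam, h.inv_lam]
      exact h1
    · rw [inv_d h]
      exact h2
  · refine ⟨fun hc => hz ((hb_gact h g z).1 hc), Or.inr ⟨gact g B, (hb_gact h g B).2 hB,
      fun e => hx (gact_inj g e), fun e => hy (gact_inj g e), ?_, ?_, ?_⟩⟩
    · unfold LSp.Btw at h1 ⊢
      rw [h.inv_lam, h.inv_lam, h.inv_lam]
      exact h1
    · rw [h.inv_lam]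
      exact h2
    · have hzB : z ≠ B := fun e => hz (e ▸ hB)
      rw [h.hb] at hB
      obtain ⟨B, rfl⟩ := hB
      obtain ⟨c, hc⟩ := inv_P' h g B
      rw [show gact g (Sum.inr B : Γ ⊕ X) = Sum.inr (g • B) from rfl, hc z hzB, hc x hx.symm,
        hc y hy.symm, go_add, add_sub_add_right_eq_sub, add_sub_add_right_eq_sub,
        show (Sum.inr (g • B) : Γ ⊕ X) = gact g (Sum.inr B) from rfl, inv_d h]
      exact ⟨h3, h4, h5⟩

/-! ### lengths -/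

/-- the length of `γ` -/
noncomputable def dd (G : GSys Γ X E J) (γ : Γ) : ℝ := G.𝓛.d (Sum.inl 1) (Sum.inl γ)

/-- the `lam` of `γ` -/
noncomputable def l1 (G : GSys Γ X E J) (γ : Γ) : ℝ := G.𝓛.lam (Sum.inl 1) (Sum.inl γ)

lemma lam_l1 (h : G.Good) (γ δ : Γ) : G.𝓛.lam (Sum.inl γ) (Sum.inl δ) = l1 G (γ⁻¹ * δ) := by
  have := h.inv_lam γ⁻¹ (Sum.inl γ) (Sum.inl δ)
  rw [← this]
  show G.𝓛.lam (Sum.inl (γ⁻¹ * γ)) (Sum.inl (γ⁻¹ * δ)) = _
  rw [inv_mul_cancel]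
  rfl

lemma d_dd (h : G.Good) (γ δ : Γ) : G.𝓛.d (Sum.inl γ) (Sum.inl δ) = dd G (γ⁻¹ * δ) := by
  have := inv_d h γ⁻¹ (Sum.inl γ) (Sum.inl δ)
  rw [← this]
  show G.𝓛.d (Sum.inl (γ⁻¹ * γ)) (Sum.inl (γ⁻¹ * δ)) = _
  rw [inv_mul_cancel]
  rfl

lemma one_le_l1 (h : G.Good) (γ : Γ) : 1 ≤ l1 G γ := one_le_lam h.good (Or.inr (hb_inl h 1))

lemma l1_inv (h : G.Good) (γ : Γ) : l1 G γ⁻¹ = l1 G γ := by
  have := lam_l1 h γ 1
  rw [mul_one] at this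
  rw [← this, h.good.symm]
  rfl

lemma l1_mul (h : G.Good) (γ δ : Γ) : l1 G (γ * δ) ≤ 2 * (l1 G γ * l1 G δ) := by
  have h1 := lam_tri h.good (Sum.inl 1) (Sum.inl (γ * δ)) (hb_inl h γ)
  rw [lam_l1 h γ, inv_mul_cancel_left] at h1
  exact h1

lemma dd_nonneg (h : G.Good) (γ : Γ) : 0 ≤ dd G γ := d_nonneg h.good (Or.inr (hb_inl h 1))

lemma dd_one (h : G.Good) : dd G 1 = 0 := d_self h.good (hb_inl h 1)

open Classical in
/-- the pseudo-length of the group `Γ` -/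
noncomputable def NN (G : GSys Γ X E J) (γ : Γ) : ℝ :=
  if γ = 1 then 0 else 2 * Real.log (2 * l1 G γ)

lemma NN_one : NN G (1 : Γ) = 0 := if_pos rfl

lemma NN_nonneg (h : G.Good) (γ : Γ) : 0 ≤ NN G γ := by
  unfold NN
  split_ifs
  · exact le_rfl
  · have := Real.log_nonneg (by linarith [one_le_l1 h γ] : 1 ≤ 2 * l1 G γ)
    linarith

lemma NN_inv (h : G.Good) (γ : Γ) : NN G γ⁻¹ = NN G γ := by
  by_cases h1 : γ = 1
  · rw [h1, inv_one]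
  · have h2 : γ⁻¹ ≠ 1 := fun e => h1 (inv_eq_one.1 e)
    unfold NN
    rw [if_neg h1, if_neg h2, l1_inv h]

lemma NN_mul (h : G.Good) (γ δ : Γ) : NN G (γ * δ) ≤ NN G γ + NN G δ := by
  by_cases h1 : γ = 1
  · rw [h1, one_mul, NN_one, zero_add]
  by_cases h2 : δ = 1
  · rw [h2, mul_one, NN_one, add_zero]
  by_cases h3 : γ * δ = 1
  · rw [h3, NN_one]
    linarith [NN_nonneg h γ, NN_nonneg h δ]
  unfold NN
  rw [if_neg h1, if_neg h2, if_neg h3]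
  have p1 := one_le_l1 h γ
  have p2 := one_le_l1 h δ
  have p3 := one_le_l1 h (γ * δ)
  have p4 := l1_mul h γ δ
  rw [← mul_add, ← Real.log_mul (by linarith) (by linarith)]
  have := Real.log_le_log (by linarith : 0 < 2 * l1 G (γ * δ))
    (by linarith : 2 * l1 G (γ * δ) ≤ 2 * l1 G γ * (2 * l1 G δ))
  linarith

/-- bound on `NN` from a bound on `l1` -/
noncomputable def lb (r : ℝ) : ℝ := 2 * Real.log (2 * r)

lemma NN_le (h : G.Good) {γ : Γ} {r : ℝ} (hr : l1 G γ ≤ r) : NN G γ ≤ lb r := by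
  have p := one_le_l1 h γ
  unfold NN lb
  split_ifs
  · have := Real.log_nonneg (by linarith : 1 ≤ 2 * r)
    linarith
  · have := Real.log_le_log (by linarith : 0 < 2 * l1 G γ) (by linarith : 2 * l1 G γ ≤ 2 * r)
    linarith

lemma l1_le (h : G.Good) {γ : Γ} {r : ℝ} (hr : NN G γ ≤ r) : l1 G γ ≤ Real.exp (|r| / 2) := by
  have p := one_le_l1 h γ
  have h0 : 0 ≤ |r| := abs_nonneg r
  have h1 : r ≤ |r| := le_abs_self r
  by_cases h2 : γ = 1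
  · have : l1 G γ = 1 := by rw [h2]; exact h.good.pt _ (hb_inl h 1)
    rw [this]
    exact Real.one_le_exp (by linarith)
  · unfold NN at hr
    rw [if_neg h2] at hr
    have h3 : Real.log (2 * l1 G γ) ≤ |r| / 2 := by linarith
    have h4 := (Real.log_le_iff_le_exp (by linarith)).1 h3
    linarith

/-! ### paths -/

/-- existence of points on paths -/
lemma exK (h : G.Good) : ∃ K : ℝ, 1 ≤ K ∧ ∀ (γ : Γ) (t : ℝ), 0 ≤ t → t ≤ dd G γ →
    ∃ z : Γ, G.𝓛.Rel K (Sum.inl 1) (Sum.inl γ) t (Sum.inl z) := by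
  obtain ⟨K, hK⟩ := rel_exists h.good
  refine ⟨max K 1, le_max_right _ _, fun γ t h0 h1 => ?_⟩
  obtain ⟨z, hz⟩ := hK (Sum.inl 1) (Sum.inl γ) (hb_inl h 1) (hb_inl h γ) t h0 h1
  cases z with
  | inl z => exact ⟨z, rel_mono h.good (le_max_left _ _) hz⟩
  | inr B => exact absurd (hb_inr h B) hz.1

/-- clamped time -/
noncomputable def cl (G : GSys Γ X E J) (γ : Γ) (t : ℝ) : ℝ := max 0 (min t (dd G γ))

open Classical in
/-- the path from `1` to `γ` -/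
noncomputable def path (G : GSys Γ X E J) (K : ℝ) (γ : Γ) (t : ℝ) : Γ :=
  if t ≤ 0 then 1 else
    if h : ∃ z : Γ, t ≤ dd G γ ∧ G.𝓛.Rel K (Sum.inl 1) (Sum.inl γ) t (Sum.inl z) then h.choose
    else γ

lemma rel_start (h : G.Good) {K : ℝ} (hK : 1 ≤ K) (γ : Γ) :
    G.𝓛.Rel K (Sum.inl 1) (Sum.inl γ) 0 (Sum.inl 1) := by
  refine ⟨hb_inl h 1, Or.inl ⟨?_, ?_⟩⟩
  · unfold LSp.Btw
    rw [h.good.pt _ (hb_inl h 1)]
    exact mul_le_mul_of_nonneg_right hK (lam_nonneg h.good _ _)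
  · rw [d_self h.good (hb_inl h 1), sub_self, abs_zero]
    linarith

lemma rel_end (h : G.Good) {K : ℝ} (hK : 1 ≤ K) (γ : Γ) :
    G.𝓛.Rel K (Sum.inl 1) (Sum.inl γ) (dd G γ) (Sum.inl γ) := by
  refine ⟨hb_inl h γ, Or.inl ⟨?_, ?_⟩⟩
  · unfold LSp.Btw
    rw [h.good.pt _ (hb_inl h γ), mul_one]
    exact le_mul_of_one_le_left (lam_nonneg h.good _ _) hK
  · unfold dd
    rw [sub_self, abs_zero]
    linarith

/-- the constant `K` is good for paths -/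
def IsK (G : GSys Γ X E J) (K : ℝ) : Prop := 1 ≤ K ∧ ∀ (γ : Γ) (t : ℝ), 0 ≤ t → t ≤ dd G γ →
    ∃ z : Γ, G.𝓛.Rel K (Sum.inl 1) (Sum.inl γ) t (Sum.inl z)

lemma path_rel (h : G.Good) {K : ℝ} (hK : IsK G K) (γ : Γ) (t : ℝ) :
    G.𝓛.Rel K (Sum.inl 1) (Sum.inl γ) (cl G γ t) (Sum.inl (path G K γ t)) := by
  have hd := dd_nonneg h γ
  unfold path cl
  by_cases h1 : t ≤ 0
  · rw [if_pos h1, max_eq_left ((min_le_left _ _).trans h1)]
    exact rel_start h hK.1 γ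
  · rw [if_neg h1]
    have h1' : 0 ≤ t := (not_le.1 h1).le
    by_cases h2 : t ≤ dd G γ
    · obtain ⟨z, hz⟩ := hK.2 γ t h1' h2
      have hex : ∃ z : Γ, t ≤ dd G γ ∧ G.𝓛.Rel K (Sum.inl 1) (Sum.inl γ) t (Sum.inl z) :=
        ⟨z, h2, hz⟩
      rw [dif_pos hex, min_eq_left h2, max_eq_right h1']
      exact hex.choose_spec.2
    · have hex : ¬ ∃ z : Γ, t ≤ dd G γ ∧ G.𝓛.Rel K (Sum.inl 1) (Sum.inl γ) t (Sum.inl z) :=
        fun ⟨z, hz⟩ => h2 hz.1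
      rw [dif_neg hex, min_eq_right (not_le.1 h2).le, max_eq_right hd]
      exact rel_end h hK.1 γ

lemma path_neg {K : ℝ} (γ : Γ) {t : ℝ} (ht : t ≤ 0) : path G K γ t = 1 := if_pos ht

/-- a point in relation with nearly the same time is close to the path -/
lemma path_close (h : G.Good) {K : ℝ} (hK : IsK G K) (K' r : ℝ) : ∃ C : ℝ, ∀ (γ : Γ) (t t' : ℝ)
    (z : Γ), G.𝓛.Rel K' (Sum.inl 1) (Sum.inl γ) t' (Sum.inl z) → |t' - cl G γ t| ≤ r →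
    NN G ((path G K γ t)⁻¹ * z) ≤ C := by
  obtain ⟨C₁, H1⟩ := rel_stab h.good K' (max r 1)
  obtain ⟨C₂, H2⟩ := rel_uniq h.good (max C₁ K)
  refine ⟨lb C₂, fun γ t t' z hr ht => NN_le h ?_⟩
  rw [← lam_l1 h]
  have e1 : G.𝓛.lam (Sum.inl 1) (Sum.inl 1) ≤ max r 1 := by
    rw [h.good.pt _ (hb_inl h 1)]; exact le_max_right _ _
  have e2 : G.𝓛.lam (Sum.inl γ) (Sum.inl γ) ≤ max r 1 := by
    rw [h.good.pt _ (hb_inl h γ)]; exact le_max_right _ _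
  have e3 : G.𝓛.lam (Sum.inl z) (Sum.inl z) ≤ max r 1 := by
    rw [h.good.pt _ (hb_inl h z)]; exact le_max_right _ _
  have e4 := H1 _ _ _ _ (hb_inl h 1) (hb_inl h γ) (hb_inl h 1) (hb_inl h γ) e1 e2 t' (cl G γ t)
    _ _ (ht.trans (le_max_left _ _)) (hb_inl h z) e3 hr
  exact H2 _ _ (hb_inl h 1) (hb_inl h γ) (cl G γ t) _ _
    (rel_mono h.good (le_max_right _ _) (path_rel h hK γ t))
    (rel_mono h.good (le_max_left _ _) e4)

lemma cl_eq {γ : Γ} {t : ℝ} (h0 : 0 ≤ t) (h1 : t ≤ dd G γ) : cl G γ t = t := by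
  unfold cl
  rw [min_eq_left h1, max_eq_right h0]

lemma path_end (h : G.Good) {K : ℝ} (hK : IsK G K) : ∃ C : ℝ, ∀ (γ : Γ) (t : ℝ), dd G γ ≤ t →
    NN G ((path G K γ t)⁻¹ * γ) ≤ C := by
  obtain ⟨C, hC⟩ := path_close h hK K 0
  refine ⟨C, fun γ t ht => hC γ t (dd G γ) γ (rel_end h hK.1 γ) ?_⟩
  unfold cl
  rw [min_eq_right ht, max_eq_right (dd_nonneg h γ), sub_self, abs_zero]

lemma path_time (h : G.Good) {K : ℝ} (hK : IsK G K) : ∃ C : ℝ, ∀ (γ : Γ) (t : ℝ), 0 ≤ t →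
    t ≤ dd G γ → |dd G (path G K γ t) - t| ≤ C ∧
      |dd G ((path G K γ t)⁻¹ * γ) - (dd G γ - t)| ≤ C := by
  obtain ⟨C, -, hC⟩ := rel_times h.good K
  refine ⟨C, fun γ t h0 h1 => ?_⟩
  have h2 := path_rel h hK γ t
  rw [cl_eq h0 h1] at h2
  have := hC _ _ (hb_inl h 1) (hb_inl h γ) _ _ h2
  rw [d_dd h (path G K γ t) γ] at this
  exact this

lemma dd_near (h : G.Good) (r : ℝ) : ∃ C : ℝ, 0 ≤ C ∧ ∀ γ a c : Γ, l1 G a ≤ r → l1 G c ≤ r →
    |dd G γ - dd G (a⁻¹ * γ * c)| ≤ C := by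
  obtain ⟨C, c0, H⟩ := d_near h.good r
  refine ⟨2 * C, by linarith, fun γ a c ha hc => ?_⟩
  have e1 := H (Sum.inl 1) (Sum.inl a) (Sum.inl γ) (hb_inl h 1) (hb_inl h a) ha
  have e2 := H (Sum.inl γ) (Sum.inl (γ * c)) (Sum.inl a) (hb_inl h γ) (hb_inl h _) (by
    rw [lam_l1 h, inv_mul_cancel_left]
    exact hc)
  rw [d_symm h.good (Sum.inl γ), d_symm h.good (Sum.inl (γ * c)), d_dd h a (γ * c),
    ← mul_assoc] at e2
  unfold dd at e2 ⊢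
  rw [abs_le] at e1 e2 ⊢
  constructor <;> linarith [e1.1, e1.2, e2.1, e2.2]

lemma path_cont (h : G.Good) {K : ℝ} (hK : IsK G K) (r : ℝ) : ∃ C : ℝ, ∀ (γ a c : Γ)
    (t t' : ℝ), l1 G a ≤ r → l1 G c ≤ r → |t - t'| ≤ r →
    NN G ((path G K γ t)⁻¹ * (a * path G K (a⁻¹ * γ * c) t')) ≤ C := by
  obtain ⟨C₁, c1, H1⟩ := dd_near h r
  obtain ⟨C₂, H2⟩ := rel_stab h.good K (r + C₁)
  obtain ⟨C₃, H3⟩ := path_close h hK C₂ 0
  refine ⟨C₃, fun γ a c t t' ha hc ht => ?_⟩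
  have hr0 : 1 ≤ r := (one_le_l1 h a).trans ha
  have e1 := H1 γ a c ha hc
  have e2 := inv_rel h a (path_rel h hK (a⁻¹ * γ * c) t')
  have e3 : |cl G (a⁻¹ * γ * c) t' - cl G γ t| ≤ r + C₁ := by
    unfold cl
    have q1 := abs_max_sub_max_le_max (0 : ℝ) (min t' (dd G (a⁻¹ * γ * c))) 0
      (min t (dd G γ))
    have q2 := abs_min_sub_min_le_max t' (dd G (a⁻¹ * γ * c)) t (dd G γ)
    have q3 : max |(0 : ℝ) - 0| |min t' (dd G (a⁻¹ * γ * c)) - min t (dd G γ)| ≤ r + C₁ := by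
      refine max_le (by rw [sub_self, abs_zero]; linarith) (q2.trans (max_le ?_ ?_))
      · rw [abs_sub_comm]; linarith
      · rw [abs_sub_comm]; linarith
    exact q1.trans q3
  have e4 : gact a (Sum.inl (a⁻¹ * γ * c) : Γ ⊕ X) = Sum.inl (γ * c) := by
    show (Sum.inl (a * (a⁻¹ * γ * c)) : Γ ⊕ X) = _
    congr 1
    group
  rw [e4] at e2
  refine H3 γ t (cl G γ t) _ ?_ (by rw [sub_self, abs_zero])
  refine H2 _ _ (Sum.inl 1) (Sum.inl γ) (hb_inl h _) (hb_inl h _) (hb_inl h 1) (hb_inl h γ)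
    ?_ ?_ _ _ _ _ e3 (hb_inl h _) ?_ e2
  · show G.𝓛.lam (Sum.inl (a * 1)) (Sum.inl 1) ≤ _
    rw [mul_one, h.good.symm]
    have : G.𝓛.lam (Sum.inl 1) (Sum.inl a) ≤ r := ha
    linarith
  · rw [lam_l1 h, mul_inv_rev, inv_mul_cancel_right, l1_inv h]
    linarith
  · have : G.𝓛.lam (Sum.inl (a * path G K (a⁻¹ * γ * c) t'))
        (Sum.inl (a * path G K (a⁻¹ * γ * c) t')) = 1 := h.good.pt _ (hb_inl h _)
    rw [show gact a (Sum.inl (path G K (a⁻¹ * γ * c) t') : Γ ⊕ X) =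
      Sum.inl (a * path G K (a⁻¹ * γ * c) t') from rfl, this]
    linarith

/-- splitting of paths at points between the end points -/
lemma path_split (h : G.Good) {K : ℝ} (hK : IsK G K) (K' : ℝ) : ∃ C : ℝ, ∀ γ w : Γ,
    G.𝓛.Btw K' (Sum.inl 1) (Sum.inl γ) (Sum.inl w) →
    |dd G γ - dd G w - dd G (w⁻¹ * γ)| ≤ C ∧
    (∀ t, t ≤ dd G w → NN G ((path G K γ t)⁻¹ * path G K w t) ≤ C) ∧
    ∀ t, dd G w ≤ t →
      NN G ((path G K γ t)⁻¹ * (w * path G K (w⁻¹ * γ) (t - dd G w))) ≤ C := by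
  obtain ⟨C₁, c1, H1⟩ := d_pt' h.good K'
  obtain ⟨C₂, H2⟩ := rel_cc1 h.good (max K K')
  obtain ⟨C₃, H3⟩ := rel_cc2 h.good (max K K')
  obtain ⟨C₄, H4⟩ := path_close h hK C₂ C₁
  obtain ⟨C₅, H5⟩ := path_close h hK C₃ C₁
  obtain ⟨C, hC⟩ := exists_ge [C₁, C₄, C₅]
  refine ⟨C, fun γ w hb => ?_⟩
  have e1 := H1 _ _ _ (hb_inl h w) (Or.inr (hb_inl h 1)) hb
  rw [d_dd h w γ] at e1
  have hb' := btw_mono h.good (le_max_right K K') hb
  have e1' : |dd G γ - dd G w - dd G (w⁻¹ * γ)| ≤ C₁ := e1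
  have n1 := dd_nonneg h γ
  have n2 := dd_nonneg h w
  have n3 := dd_nonneg h (w⁻¹ * γ)
  rw [abs_le] at e1
  refine ⟨e1'.trans (hC _ (by simp)), fun t ht => ?_, fun t ht => ?_⟩
  · refine (H4 γ t (cl G w t) _ (H2 _ _ _ (hb_inl h 1) (hb_inl h γ) (hb_inl h w) hb' _ _
      (rel_mono h.good (le_max_left _ _) (path_rel h hK w t))) ?_).trans (hC _ (by simp))
    unfold cl
    rw [min_eq_left ht]
    have q1 := abs_max_sub_max_le_max (0 : ℝ) t 0 (min t (dd G γ))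
    refine q1.trans (max_le (by rw [sub_self, abs_zero]; exact c1) ?_)
    rcases le_total t (dd G γ) with h1 | h1
    · rw [min_eq_left h1, sub_self, abs_zero]; exact c1
    · rw [min_eq_right h1, abs_le]
      constructor
      · linarith
      · have : dd G w ≤ dd G γ + C₁ := by unfold dd at *; linarith [e1.1]
        linarith
  · have e2 := inv_rel h w (path_rel h hK (w⁻¹ * γ) (t - dd G w))
    have e4 : gact w (Sum.inl (w⁻¹ * γ) : Γ ⊕ X) = Sum.inl γ := by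
      show (Sum.inl (w * (w⁻¹ * γ)) : Γ ⊕ X) = _
      rw [mul_inv_cancel_left]
    have e5 : gact w (Sum.inl 1 : Γ ⊕ X) = Sum.inl w := by
      show (Sum.inl (w * 1) : Γ ⊕ X) = _
      rw [mul_one]
    rw [e4, e5] at e2
    refine (H5 γ t (cl G (w⁻¹ * γ) (t - dd G w) + G.𝓛.d (Sum.inl 1) (Sum.inl w)) _
      (H3 _ _ _ (hb_inl h 1) (hb_inl h γ) (hb_inl h w) hb' _ _
      (rel_mono h.good (le_max_left _ _) e2)) ?_).trans (hC _ (by simp))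
    show |cl G (w⁻¹ * γ) (t - dd G w) + dd G w - cl G γ t| ≤ C₁
    have q0 : 0 ≤ min (t - dd G w) (dd G (w⁻¹ * γ)) := le_min (by linarith) n3
    have q1 : 0 ≤ min t (dd G γ) := le_min (by linarith) n1
    unfold cl
    rw [max_eq_right q0, max_eq_right q1]
    have q2 : min (t - dd G w) (dd G (w⁻¹ * γ)) + dd G w =
        min t (dd G (w⁻¹ * γ) + dd G w) := by
      rw [← min_add_add_right]
      congr 1
      ring
    rw [q2]
    refine (abs_min_sub_min_le_max _ _ _ _).trans (max_le (by rw [sub_self, abs_zero]; exact c1)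
      ?_)
    rw [abs_le] at e1' ⊢
    constructor <;> linarith [e1'.1, e1'.2]

end

end Run7.h312.LF
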