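import Pool.Agent.Run7.h312.PF1

/-! Task F, second part: stabilisers of marked horoballs. -/

set_option autoImplicit false

namespace Run7.h312.LF

open Run7.h230 Run7.h230.LSp Run7.h312.LS

section
variable {Γ X E J : Type} [Group Γ] [MulAction Γ X] [Fintype J] {G : GSys Γ X E J}

/-- the marked horoball as an object -/
abbrev cc (G : GSys Γ X E J) (e : E) : Γ ⊕ X := Sum.inr (G.cusp e)

lemma cc_ne (e : E) (γ : Γ) : cc G e ≠ Sum.inl γ := by simp [cc]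

lemma exC0 [Finite E] (G : GSys Γ X E J) : ∃ C₀ : ℝ, 1 ≤ C₀ ∧ ∀ e,
    G.𝓛.lam (Sum.inl 1) (cc G e) ≤ C₀ := by
  obtain ⟨C, hC⟩ := (Set.finite_range (fun e => G.𝓛.lam (Sum.inl 1) (cc G e))).bddAbove
  exact ⟨max C 1, le_max_right _ _, fun e => (hC ⟨e, rfl⟩).trans (le_max_left _ _)⟩

lemma gact_stab {e : E} {a : Γ} (ha : a • G.cusp e = G.cusp e) :
    gact a (cc G e) = cc G e := congrArg Sum.inr ha

lemma stab_lam (h : G.Good) {e : E} {a : Γ} (ha : a • G.cusp e = G.cusp e) :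
    G.𝓛.lam (Sum.inl a) (cc G e) = G.𝓛.lam (Sum.inl 1) (cc G e) := by
  have := h.inv_lam a (Sum.inl 1) (cc G e)
  rw [gact_stab ha] at this
  rw [← this]
  show _ = G.𝓛.lam (Sum.inl (a * 1)) _
  rw [mul_one]

lemma stab_P (h : G.Good) {e : E} {a : Γ} (ha : a • G.cusp e = G.cusp e) {x y : Γ ⊕ X}
    (hx : x ≠ cc G e) (hy : y ≠ cc G e) :
    G.𝓛.P (cc G e) (gact a x) - G.𝓛.P (cc G e) (gact a y) =
      G.𝓛.P (cc G e) x - G.𝓛.P (cc G e) y := by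
  have := h.inv_P a (G.cusp e) x y hx hy
  rwa [ha] at this

lemma stab_inv {e : E} {a : Γ} (ha : a • G.cusp e = G.cusp e) : a⁻¹ • G.cusp e = G.cusp e := by
  rw [inv_smul_eq_iff, ha]

lemma χ_mul (h : G.Good) {e : E} {a : Γ} (ha : a • G.cusp e = G.cusp e) (γ : Γ) :
    G.χ e (a * γ) = G.χ e a + G.χ e γ := by
  have := stab_P h ha (x := Sum.inl γ) (y := Sum.inl 1) (cc_ne (G := G) e γ).symm (cc_ne (G := G) e 1).symm
  rw [show gact a (Sum.inl γ : Γ ⊕ X) = Sum.inl (a * γ) from rfl,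
    show gact a (Sum.inl 1 : Γ ⊕ X) = Sum.inl (a * 1) from rfl, mul_one] at this
  unfold GSys.χ
  rw [← this]
  abel

lemma χ_one (e : E) : G.χ e 1 = 0 := sub_self _

lemma χ_inv (h : G.Good) {e : E} {a : Γ} (ha : a • G.cusp e = G.cusp e) :
    G.χ e a⁻¹ = - G.χ e a := by
  have := χ_mul h ha a⁻¹
  rw [mul_inv_cancel, χ_one] at this
  exact (neg_eq_of_add_eq_zero_right this.symm).symm

lemma χ_supp (h : G.Good) (e : E) (γ : Γ) : Supp (G.𝓛.S (cc G e)) (G.χ e γ) :=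
  h.good.supp _ (hb_inr h _) _ _ (cc_ne (G := G) e γ).symm (cc_ne (G := G) e 1).symm

lemma bdd_conj [Finite E] (h : G.Good) (r : ℝ) : ∃ C : ℝ, ∀ (e : E) (δ : Γ),
    G.𝓛.lam (Sum.inl δ) (cc G e) ≤ r → ∃ δ' : Γ, δ'⁻¹ • G.cusp e = δ⁻¹ • G.cusp e ∧
      l1 G δ' ≤ C := by
  classical
  have hfin : (Set.univ ×ˢ {B : X | G.𝓛.lam (Sum.inl 1) (Sum.inr B) ≤ r} : Set (E × X)).Finite :=
    Set.finite_univ.prod (h.locfin r)
  obtain ⟨C, hC⟩ := (hfin.image (fun p : E × X =>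
    if hh : ∃ δ' : Γ, δ'⁻¹ • G.cusp p.1 = p.2 then l1 G hh.choose else 0)).bddAbove
  refine ⟨C, fun e δ hd => ?_⟩
  have h1 : G.𝓛.lam (Sum.inl 1) (Sum.inr (δ⁻¹ • G.cusp e)) ≤ r := by
    have := h.inv_lam δ⁻¹ (Sum.inl δ) (cc G e)
    rw [← this] at hd
    have h2 : gact δ⁻¹ (Sum.inl δ : Γ ⊕ X) = Sum.inl 1 := by
      show (Sum.inl (δ⁻¹ * δ) : Γ ⊕ X) = _
      rw [inv_mul_cancel]
    rw [h2] at hd
    exact hd
  have hex : ∃ δ' : Γ, δ'⁻¹ • G.cusp e = δ⁻¹ • G.cusp e := ⟨δ, rfl⟩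
  refine ⟨hex.choose, hex.choose_spec, ?_⟩
  have h3 := hC ⟨(e, δ⁻¹ • G.cusp e), ⟨Set.mem_univ _, h1⟩, rfl⟩
  simp only [] at h3
  rw [dif_pos hex] at h3
  exact h3

/-- the stabiliser of a marked horoball is coarsely dense in the horosphere -/
lemma dens [Finite E] (h : G.Good) : ∃ C : ℝ, 0 ≤ C ∧ ∀ (e : E) (v : J ⊕ J → ℝ),
    Supp (G.𝓛.S (cc G e)) v → ∃ a : Γ, a • G.cusp e = G.cusp e ∧ ‖G.χ e a - v‖ ≤ C := by
  obtain ⟨C, hC⟩ := bdd_conj h G.𝓛.D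
  have hD := D_pos h.good
  refine ⟨G.𝓛.D * |C| + G.𝓛.D, by positivity, fun e v hv => ?_⟩
  obtain ⟨z, hz, z1, z2⟩ := h.good.real (cc G e) (hb_inr h _) (Sum.inl 1) (cc_ne (G := G) e 1).symm v hv
  cases z with
  | inr B => exact absurd (hb_inr h B) hz
  | inl δ =>
    obtain ⟨δ', e1, e2⟩ := hC e δ z1
    have ha : (δ * δ'⁻¹) • G.cusp e = G.cusp e := by
      rw [mul_smul, e1, smul_inv_smul]
    refine ⟨δ * δ'⁻¹, ha, ?_⟩
    have h1 : G.𝓛.lam (Sum.inl (δ * δ'⁻¹)) (Sum.inl δ) ≤ |C| := by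
      rw [lam_l1 h, mul_inv_rev, inv_inv, inv_mul_cancel_right]
      exact e2.trans (le_abs_self C)
    have h2 := P_of_lam h.good (hb_inr h (G.cusp e)) (cc_ne (G := G) e _) (cc_ne (G := G) e _) h1
    have h3 : G.χ e (δ * δ'⁻¹) - v = (G.𝓛.P (cc G e) (Sum.inl (δ * δ'⁻¹)) -
        G.𝓛.P (cc G e) (Sum.inl δ)) + (G.𝓛.P (cc G e) (Sum.inl δ) -
        (G.𝓛.P (cc G e) (Sum.inl 1) + v)) := by
      unfold GSys.χ
      abel
    rw [h3]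
    exact (norm_add_le _ _).trans (add_le_add h2 z2)

/-- `C` is good for gates -/
def IsG (G : GSys Γ X E J) (C : ℝ) : Prop := 0 ≤ C ∧ ∀ (e : E) (γ : Γ),
  ∃ a : Γ, a • G.cusp e = G.cusp e ∧ ‖G.χ e a - G.χ e γ‖ ≤ C

lemma exG [Finite E] (h : G.Good) : ∃ C : ℝ, IsG G C := by
  obtain ⟨C, c0, hC⟩ := dens h
  exact ⟨C, c0, fun e γ => hC e _ (χ_supp h e γ)⟩

open Classical in
/-- the gate -/
noncomputable def gt (G : GSys Γ X E J) (C : ℝ) (e : E) (γ : Γ) : Γ :=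
  if h : ∃ a : Γ, a • G.cusp e = G.cusp e ∧ ‖G.χ e a - G.χ e γ‖ ≤ C then h.choose else 1

lemma gt_spec {C : ℝ} (hC : IsG G C) (e : E) (γ : Γ) :
    gt G C e γ • G.cusp e = G.cusp e ∧ ‖G.χ e (gt G C e γ) - G.χ e γ‖ ≤ C := by
  unfold gt
  rw [dif_pos (hC.2 e γ)]
  exact (hC.2 e γ).choose_spec

lemma gate_aux {L C₀ C A r s m l : ℝ} (hL : 1 ≤ L) (hL' : L ≤ C₀) (hC : 0 ≤ C) (_hA : 0 ≤ A)
    (hm : 0 ≤ m) (h2 : s ≤ C) (hr : 0 ≤ r) (hl : l = A * (L * m))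
    (h1 : r ≤ A + C) (h3 : m ≤ 2 * L * l) (hl0 : 0 ≤ l) :
    (r * (L * L)) * (s * (L * m)) ≤ (C * C₀ ^ 2 + 2 * C ^ 2 * C₀ ^ 4) * l := by
  have hC0 : 0 ≤ C₀ := by linarith
  have hL0 : 0 ≤ L := by linarith
  have e1 : (r * (L * L)) * (s * (L * m)) ≤ ((A + C) * (L * L)) * (C * (L * m)) := by
    have a1 : s * (L * m) ≤ C * (L * m) := mul_le_mul_of_nonneg_right h2 (by positivity)
    have a2 : r * (L * L) ≤ (A + C) * (L * L) := mul_le_mul_of_nonneg_right h1 (by positivity)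
    calc (r * (L * L)) * (s * (L * m)) ≤ (r * (L * L)) * (C * (L * m)) :=
          mul_le_mul_of_nonneg_left a1 (by positivity)
      _ ≤ _ := mul_le_mul_of_nonneg_right a2 (by positivity)
  have e2 : ((A + C) * (L * L)) * (C * (L * m)) = C * L ^ 2 * l + C ^ 2 * L ^ 3 * m := by
    rw [hl]; ring
  have e3 : C ^ 2 * L ^ 3 * m ≤ C ^ 2 * L ^ 3 * (2 * L * l) :=
    mul_le_mul_of_nonneg_left h3 (by positivity)
  have e4 : C ^ 2 * L ^ 3 * (2 * L * l) = 2 * C ^ 2 * L ^ 4 * l := by ring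
  have e5 : C * L ^ 2 * l ≤ C * C₀ ^ 2 * l := by
    have := pow_le_pow_left₀ hL0 hL' 2
    exact mul_le_mul_of_nonneg_right (mul_le_mul_of_nonneg_left this hC) hl0
  have e6 : 2 * C ^ 2 * L ^ 4 * l ≤ 2 * C ^ 2 * C₀ ^ 4 * l := by
    have := pow_le_pow_left₀ hL0 hL' 4
    exact mul_le_mul_of_nonneg_right (mul_le_mul_of_nonneg_left this (by positivity)) hl0
  linarith

/-- the gate is between the points of the flat and `γ` -/
lemma gate_btw [Finite E] (h : G.Good) (C : ℝ) : ∃ K : ℝ, ∀ (e : E) (γ a p : Γ),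
    a • G.cusp e = G.cusp e → p • G.cusp e = G.cusp e → ‖G.χ e p - G.χ e γ‖ ≤ C →
    G.𝓛.Btw K (Sum.inl a) (Sum.inl γ) (Sum.inl p) := by
  obtain ⟨C₀, c0, hC₀⟩ := exC0 G
  refine ⟨(G.𝓛.D * (C + 1)) * C₀ ^ 2 + 2 * (G.𝓛.D * (C + 1)) ^ 2 * C₀ ^ 4,
    fun e γ a p ha hp hn => ?_⟩
  have hC0 : 0 ≤ C := (norm_nonneg _).trans hn
  have hD := D_pos h.good
  have n1 : ‖G.𝓛.P (cc G e) (Sum.inl p) - G.𝓛.P (cc G e) (Sum.inl γ)‖ ≤ C := by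
    refine le_trans (le_of_eq ?_) hn
    congr 1
    unfold GSys.χ
    abel
  have r1 : G.𝓛.rho (cc G e) (Sum.inl p) (Sum.inl γ) ≤ G.𝓛.D * (C + 1) :=
    (h.good.le_P _ (hb_inr h _) _ _ (cc_ne (G := G) e p).symm (cc_ne (G := G) e γ).symm).trans
      (mul_le_mul_of_nonneg_left (by linarith) hD.le)
  have r2 := rho_tri h.good (cc_ne (G := G) e a) (cc_ne (G := G) e p) (cc_ne (G := G) e γ)
  rw [rho_symm h.good _ (Sum.inl γ) (Sum.inl p)] at r2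
  have t1 := lam_tri h.good (cc G e) (Sum.inl γ) (hb_inl h a)
  have s1 := stab_lam h ha
  have s2 := stab_lam h hp
  unfold LSp.Btw
  rw [lam_eq h.good (cc_ne (G := G) e a) (cc_ne (G := G) e p), lam_eq h.good (cc_ne (G := G) e p) (cc_ne (G := G) e γ), s1, s2,
    h.good.symm (cc G e) (Sum.inl p), s2]
  rw [h.good.symm (cc G e) (Sum.inl a), s1] at t1
  refine gate_aux (A := G.𝓛.rho (cc G e) (Sum.inl a) (Sum.inl γ))
    (one_le_lam h.good (Or.inr (hb_inl h 1))) (hC₀ e) (by positivity)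
    (rho_nonneg h.good _ _ _) (lam_nonneg h.good _ _) r1
    (rho_nonneg h.good _ _ _) ?_ ?_ ?_ (lam_nonneg h.good _ _)
  · rw [lam_eq h.good (cc_ne (G := G) e a) (cc_ne (G := G) e γ), s1]
  · linarith
  · linarith

/-- lengths on the flats -/
lemma flat_dd [Finite E] (h : G.Good) : ∃ C : ℝ, 0 ≤ C ∧ ∀ (e : E) (a : Γ),
    a • G.cusp e = G.cusp e → |dd G a - ‖G.χ e a‖| ≤ C := by
  obtain ⟨C₀, c0, hC₀⟩ := exC0 G
  obtain ⟨C₁, c1, H1⟩ := d_hb' h.good (C₀ ^ 2)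
  obtain ⟨C₂, c2, H2⟩ := d_bdd h.good C₀
  refine ⟨C₁ + 2 * C₂, by positivity, fun e a ha => ?_⟩
  have s1 := stab_lam h ha
  have l0 := hC₀ e
  have l2 : 1 ≤ G.𝓛.lam (Sum.inl 1) (cc G e) := one_le_lam h.good (Or.inr (hb_inl h 1))
  have hb : G.𝓛.Btw (C₀ ^ 2) (Sum.inl 1) (Sum.inl a) (cc G e) := by
    unfold LSp.Btw
    rw [h.good.symm (cc G e), s1]
    have l3 := one_le_l1 h a
    unfold l1 at l3
    have : G.𝓛.lam (Sum.inl 1) (cc G e) * G.𝓛.lam (Sum.inl 1) (cc G e) ≤ C₀ ^ 2 := by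
      rw [sq]; exact mul_le_mul l0 l0 (by linarith) (by linarith)
    exact this.trans (le_mul_of_one_le_right (by positivity) l3)
  have e1 := H1 _ _ (cc G e) (hb_inr h _) (cc_ne (G := G) e 1) (cc_ne (G := G) e a) (Or.inr (hb_inl h 1)) hb
  have e2 := H2 (Sum.inl 1) (cc G e) (Or.inr (hb_inl h 1)) l0
  have e3 := H2 (Sum.inl a) (cc G e) (Or.inr (hb_inl h a)) (by rw [s1]; exact l0)
  have e4 := d_nonneg h.good (x := Sum.inl 1) (y := cc G e) (Or.inr (hb_inl h 1))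
  have e5 := d_nonneg h.good (x := Sum.inl a) (y := cc G e) (Or.inr (hb_inl h a))
  rw [d_symm h.good (cc G e) (Sum.inl a)] at e1
  unfold dd GSys.χ
  rw [abs_le] at e1 ⊢
  constructor <;> linarith [e1.1, e1.2]

lemma btw_cc (h : G.Good) {C₀ : ℝ} {e : E} (hC₀ : G.𝓛.lam (Sum.inl 1) (cc G e) ≤ C₀) {a : Γ}
    (ha : a • G.cusp e = G.cusp e) : G.𝓛.Btw (C₀ ^ 2) (Sum.inl 1) (Sum.inl a) (cc G e) := by
  unfold LSp.Btw
  rw [h.good.symm (cc G e), stab_lam h ha]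
  have l2 : 1 ≤ G.𝓛.lam (Sum.inl 1) (cc G e) := one_le_lam h.good (Or.inr (hb_inl h 1))
  have l3 := one_le_l1 h a
  unfold l1 at l3
  have : G.𝓛.lam (Sum.inl 1) (cc G e) * G.𝓛.lam (Sum.inl 1) (cc G e) ≤ C₀ ^ 2 := by
    rw [sq]; exact mul_le_mul hC₀ hC₀ (by linarith) (by linarith)
  exact this.trans (le_mul_of_one_le_right (by positivity) l3)

lemma flat_l1 [Finite E] (h : G.Good) (r : ℝ) : ∃ C : ℝ, ∀ (e : E) (a : Γ),
    a • G.cusp e = G.cusp e → ‖G.χ e a‖ ≤ r → l1 G a ≤ C := by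
  obtain ⟨C₀, c0, hC₀⟩ := exC0 G
  refine ⟨G.𝓛.D * (r + 1) * (C₀ * C₀), fun e a ha hr => ?_⟩
  refine near h.good (hb_inr h _) (cc_ne (G := G) e 1) (cc_ne (G := G) e a) (hC₀ e)
    (by rw [stab_lam h ha]; exact hC₀ e) ?_
  rw [norm_sub_rev]
  exact hr

lemma flat_χ (h : G.Good) {r : ℝ} {e : E} {a : Γ} (hr : l1 G a ≤ r) :
    ‖G.χ e a‖ ≤ G.𝓛.D * r := by
  unfold GSys.χ
  rw [norm_sub_rev]
  exact P_of_lam h.good (hb_inr h _) (cc_ne (G := G) e 1) (cc_ne (G := G) e a) hr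

lemma flat_Ψ [Finite E] (h : G.Good) : ∃ C : ℝ, ∀ (e : E) (a : Γ),
    a • G.cusp e = G.cusp e →
    ‖G.𝓛.Ψ (al G) (Sum.inl 1) (Sum.inl a) - G.α (G.cusp e) (G.χ e a)‖ ≤ C := by
  obtain ⟨C₀, c0, hC₀⟩ := exC0 G
  obtain ⟨Λ, -, hΛ⟩ := al_bdd h
  obtain ⟨D1, D2, D3, D4, D5⟩ := taskD2 _ _ _ G.𝓛 h.good (al G) Λ hΛ
  obtain ⟨C₁, H1⟩ := D4 (C₀ ^ 2)
  obtain ⟨C₂, H2⟩ := D2 C₀
  refine ⟨C₁ + 2 * C₂, fun e a ha => ?_⟩
  have s1 := stab_lam h ha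
  have e1 := H1 _ _ (cc G e) (hb_inr h _) (cc_ne (G := G) e 1) (cc_ne (G := G) e a) (Or.inr (hb_inl h 1))
    (btw_cc h (hC₀ e) ha)
  have e2 := H2 (Sum.inl 1) (cc G e) (Or.inr (hb_inl h 1)) (hC₀ e)
  have e3 := H2 (Sum.inl a) (cc G e) (Or.inr (hb_inl h a)) (by rw [s1]; exact hC₀ e)
  rw [D1, norm_neg] at e3
  have e4 : G.𝓛.Ψ (al G) (Sum.inl 1) (Sum.inl a) - G.α (G.cusp e) (G.χ e a) =
      (G.𝓛.Ψ (al G) (Sum.inl 1) (Sum.inl a) - G.𝓛.Ψ (al G) (Sum.inl 1) (cc G e) -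
        G.𝓛.Ψ (al G) (cc G e) (Sum.inl a) - al G (cc G e) (G.𝓛.P (cc G e) (Sum.inl a) -
          G.𝓛.P (cc G e) (Sum.inl 1))) + G.𝓛.Ψ (al G) (Sum.inl 1) (cc G e) +
        G.𝓛.Ψ (al G) (cc G e) (Sum.inl a) := by
    have : al G (cc G e) (G.𝓛.P (cc G e) (Sum.inl a) - G.𝓛.P (cc G e) (Sum.inl 1)) =
      G.α (G.cusp e) (G.χ e a) := rfl
    rw [this]
    abel
  rw [e4]
  have e5 := norm_add₃_le (a := G.𝓛.Ψ (al G) (Sum.inl 1) (Sum.inl a) -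
        G.𝓛.Ψ (al G) (Sum.inl 1) (cc G e) -
        G.𝓛.Ψ (al G) (cc G e) (Sum.inl a) - al G (cc G e) (G.𝓛.P (cc G e) (Sum.inl a) -
          G.𝓛.P (cc G e) (Sum.inl 1))) (b := G.𝓛.Ψ (al G) (Sum.inl 1) (cc G e))
        (c := G.𝓛.Ψ (al G) (cc G e) (Sum.inl a))
  linarith

/-- paths in flats -/
lemma flat_path [Finite E] (h : G.Good) {K : ℝ} (hK : IsK G K) (r : ℝ) : ∃ C : ℝ,
    ∀ (e : E) (a q : Γ), a • G.cusp e = G.cusp e → q • G.cusp e = G.cusp e → ∀ t, 0 ≤ t →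
    ‖G.χ e q - go 0 (G.χ e a) t‖ ≤ r → NN G ((path G K a t)⁻¹ * q) ≤ C := by
  obtain ⟨C₀, c0, hC₀⟩ := exC0 G
  obtain ⟨C₁, c1, H1⟩ := flat_dd h
  obtain ⟨C₂, c2, H2⟩ := d_bdd h.good C₀
  obtain ⟨C₃, hC₃⟩ := exists_ge [C₀ ^ 2, C₀, r + 2 * C₁ + C₂, C₂, C₁]
  obtain ⟨C₄, H4⟩ := path_close h hK C₃ 0
  refine ⟨C₄, fun e a q ha hq t ht hr => ?_⟩
  refine H4 a t (cl G a t) q ?_ (by rw [sub_self, abs_zero])
  have s1 := stab_lam h hq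
  have l0 := hC₀ e
  have e1 := H1 e a ha
  have e2 := H2 (Sum.inl 1) (cc G e) (Or.inr (hb_inl h 1)) l0
  have e3 := d_nonneg h.good (x := Sum.inl 1) (y := cc G e) (Or.inr (hb_inl h 1))
  have n1 := dd_nonneg h a
  have hcl0 : 0 ≤ cl G a t := le_max_left _ _
  have hcl1 : cl G a t ≤ dd G a := max_le n1 (min_le_right _ _)
  have hgo : ∀ s, go (G.𝓛.P (cc G e) (Sum.inl 1)) (G.𝓛.P (cc G e) (Sum.inl a)) s =
      go 0 (G.χ e a) s + G.𝓛.P (cc G e) (Sum.inl 1) := fun s => by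
    rw [← go_add, zero_add]
    unfold GSys.χ
    rw [sub_add_cancel]
  -- the two moves are close
  have key : ‖go 0 (G.χ e a) t - go 0 (G.χ e a) (cl G a t)‖ ≤ 2 * C₁ := by
    rcases le_total t (dd G a) with h1 | h1
    · rw [cl_eq ht h1, sub_self, norm_zero]
      linarith
    · have hcl : cl G a t = dd G a := by
        unfold cl
        rw [min_eq_right h1, max_eq_right n1]
      rw [hcl]
      have g1 := go_right 0 (G.χ e a) t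
      have g2 := go_right 0 (G.χ e a) (dd G a)
      rw [sub_zero] at g1 g2
      rw [max_eq_left ht] at g1
      rw [max_eq_left n1] at g2
      rw [abs_le] at e1
      have g3 : max (‖G.χ e a‖ - t) 0 ≤ C₁ := max_le (by linarith [e1.1]) c1
      have g4 : max (‖G.χ e a‖ - dd G a) 0 ≤ C₁ := max_le (by linarith [e1.1]) c1
      have g5 := tri3 (go 0 (G.χ e a) t) (G.χ e a) (go 0 (G.χ e a) (dd G a))
      rw [norm_sub_rev (go 0 (G.χ e a) t) (G.χ e a)] at g5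
      linarith
  refine rel_flat h.good (hb_inl h 1) (hb_inl h a) (hb_inl h q) (hb_inr h (G.cusp e))
    (K₁ := C₀ ^ 2) (btw_cc h l0 ha) (hC₃ _ (by simp)) (K₂ := C₀) (by rw [s1]; exact l0)
    (hC₃ _ (by simp)) (K₃ := r + 2 * C₁ + C₂) ?_ (hC₃ _ (by simp)) (K₄ := C₂) ?_
    (hC₃ _ (by simp)) (K₅ := C₁) ?_ (hC₃ _ (by simp))
  · rw [hgo]
    have g1 := go_lip (0 : J ⊕ J → ℝ) (G.χ e a) 0 (G.χ e a) (cl G a t)
      (cl G a t - G.𝓛.d (Sum.inl 1) (cc G e))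
    have g0 : |cl G a t - (cl G a t - G.𝓛.d (Sum.inl 1) (cc G e))| ≤ C₂ := by
      rw [sub_sub_cancel, abs_of_nonneg e3]
      exact e2
    rw [sub_self, sub_self, norm_zero] at g1
    have g2 : G.𝓛.P (Sum.inr (G.cusp e)) (Sum.inl q) -
        (go 0 (G.χ e a) (cl G a t - G.𝓛.d (Sum.inl 1) (Sum.inr (G.cusp e))) +
          G.𝓛.P (cc G e) (Sum.inl 1)) =
        G.χ e q - go 0 (G.χ e a) (cl G a t - G.𝓛.d (Sum.inl 1) (cc G e)) := by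
      unfold GSys.χ
      abel
    rw [g2]
    have g3 := tri4 (G.χ e q) (go 0 (G.χ e a) t) (go 0 (G.χ e a) (cl G a t))
      (go 0 (G.χ e a) (cl G a t - G.𝓛.d (Sum.inl 1) (cc G e)))
    linarith
  · linarith
  · rw [abs_le] at e1
    have : ‖G.𝓛.P (Sum.inr (G.cusp e)) (Sum.inl a) - G.𝓛.P (Sum.inr (G.cusp e)) (Sum.inl 1)‖ =
      ‖G.χ e a‖ := rfl
    rw [this]
    linarith [e1.1, e1.2]

end

end Run7.h312.LF
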