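import Pool.Agent.Run7.h312.PF2

/-! Task F, third part: pairs of marked horoballs. -/

set_option autoImplicit false

namespace Run7.h312.LF

open Run7.h230 Run7.h230.LSp Run7.h312.LS

section
variable {Γ X E J : Type} [Group Γ] [MulAction Γ X] [Fintype J] {G : GSys Γ X E J}

/-- difference of the projections of the horoball `γ c'` and of `1` to `c` -/
noncomputable def uu (G : GSys Γ X E J) (e e' : E) (γ : Γ) : J ⊕ J → ℝ :=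
  G.𝓛.P (cc G e) (Sum.inr (γ • G.cusp e')) - G.𝓛.P (cc G e) (Sum.inl 1)

lemma np_ne {e e' : E} {γ : Γ} (hnp : γ • G.cusp e' ≠ G.cusp e) :
    (Sum.inr (γ • G.cusp e') : Γ ⊕ X) ≠ cc G e := fun h => hnp (Sum.inr_injective h)

lemma np_inv {e e' : E} {γ : Γ} (hnp : γ • G.cusp e' ≠ G.cusp e) :
    γ⁻¹ • G.cusp e ≠ G.cusp e' := fun h => hnp (by rw [← h, smul_inv_smul])

lemma uu_mul (h : G.Good) {e e' : E} {γ a a' : Γ} (hnp : γ • G.cusp e' ≠ G.cusp e)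
    (ha : a • G.cusp e = G.cusp e) (ha' : a' • G.cusp e' = G.cusp e') :
    uu G e e' (a * γ * a') = G.χ e a + uu G e e' γ := by
  unfold uu GSys.χ
  have h1 := stab_P h ha (np_ne hnp) (cc_ne (G := G) e 1).symm
  rw [show gact a (Sum.inr (γ • G.cusp e') : Γ ⊕ X) = Sum.inr (a • γ • G.cusp e') from rfl,
    show gact a (Sum.inl 1 : Γ ⊕ X) = Sum.inl (a * 1) from rfl, mul_one] at h1
  rw [mul_smul, mul_smul, ha', ← h1]
  abel

lemma uu_supp (h : G.Good) {e e' : E} {γ : Γ} (hnp : γ • G.cusp e' ≠ G.cusp e) :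
    Supp (G.𝓛.S (cc G e)) (uu G e e' γ) :=
  h.good.supp _ (hb_inr h _) _ _ (np_ne hnp) (cc_ne (G := G) e 1).symm

lemma lam_cc (h : G.Good) (e : E) (γ a : Γ) (ha : a • G.cusp e = G.cusp e) :
    G.𝓛.lam (Sum.inl (γ * a)) (Sum.inr (γ • G.cusp e)) = G.𝓛.lam (Sum.inl 1) (cc G e) := by
  have := h.inv_lam γ (Sum.inl a) (cc G e)
  rw [stab_lam h ha] at this
  exact this

lemma uu_gate (h : G.Good) {C₀ C : ℝ} {e e' : E} (hC₀ : G.𝓛.lam (Sum.inl 1) (cc G e') ≤ C₀)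
    {γ a' p : Γ} (hnp : γ • G.cusp e' ≠ G.cusp e) (ha' : a' • G.cusp e' = G.cusp e')
    (hp : ‖G.χ e p - G.χ e (γ * a')‖ ≤ C) : ‖G.χ e p - uu G e e' γ‖ ≤ C + G.𝓛.D * C₀ := by
  have h1 : ‖G.χ e (γ * a') - uu G e e' γ‖ ≤ G.𝓛.D * C₀ := by
    have h2 : G.χ e (γ * a') - uu G e e' γ = G.𝓛.P (cc G e) (Sum.inl (γ * a')) -
        G.𝓛.P (cc G e) (Sum.inr (γ • G.cusp e')) := by
      unfold GSys.χ uu
      abel
    rw [h2]
    refine P_of_lam h.good (hb_inr h _) (cc_ne (G := G) e _) (np_ne hnp).symm ?_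
    rw [lam_cc h e' γ a' ha']
    exact hC₀
  have := tri3 (G.χ e p) (G.χ e (γ * a')) (uu G e e' γ)
  linarith

/-- length of the path between two marked horoballs -/
noncomputable def ll (G : GSys Γ X E J) (e e' : E) (γ : Γ) : ℝ :=
  1 + G.𝓛.d (cc G e) (Sum.inr (γ • G.cusp e'))

lemma ll_mul (h : G.Good) {e e' : E} {γ a a' : Γ}
    (ha : a • G.cusp e = G.cusp e) (ha' : a' • G.cusp e' = G.cusp e') :
    ll G e e' (a * γ * a') = ll G e e' γ := by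
  unfold ll
  have := inv_d h a (cc G e) (Sum.inr (γ • G.cusp e'))
  rw [gact_stab ha] at this
  rw [mul_smul, mul_smul, ha', ← this]
  rfl

lemma ll_ge (h : G.Good) {e e' : E} {γ : Γ} (hnp : γ • G.cusp e' ≠ G.cusp e) :
    1 ≤ ll G e e' γ := by
  have := d_nonneg h.good (x := cc G e) (y := Sum.inr (γ • G.cusp e'))
    (Or.inl (np_ne hnp).symm)
  unfold ll
  linarith

lemma ll_d [Finite E] (h : G.Good) (r : ℝ) : ∃ C : ℝ, ∀ (e e' : E) (γ p p' : Γ),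
    γ • G.cusp e' ≠ G.cusp e → p • G.cusp e = G.cusp e → p' • G.cusp e' = G.cusp e' →
    ‖G.χ e p - uu G e e' γ‖ ≤ r → ‖G.χ e' p' - uu G e' e γ⁻¹‖ ≤ r →
    |dd G (p⁻¹ * γ * p') - ll G e e' γ| ≤ C := by
  obtain ⟨C₀, c0, hC₀⟩ := exC0 G
  obtain ⟨C₁, c1, H1⟩ := d_hb' h.good (2 * C₀ ^ 2)
  obtain ⟨C₂, c2, H2⟩ := d_bdd h.good C₀
  refine ⟨1 + 2 * C₁ + 2 * C₂ + 2 * r + G.𝓛.D * C₀, fun e e' γ p p' hnp hp hp' n1 n2 => ?_⟩
  have hne := np_ne hnp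
  have hD := D_pos h.good
  have l1 := lam_cc h e' γ p' hp'
  have l2 := stab_lam h hp
  have b1 : G.𝓛.Btw (2 * C₀ ^ 2) (Sum.inl p) (Sum.inl (γ * p')) (Sum.inr (γ • G.cusp e')) :=
    btw_end h.good _ (hb_inl h _) (by rw [l1]; exact hC₀ e')
  have b2 : G.𝓛.Btw (2 * C₀ ^ 2) (Sum.inl p) (Sum.inr (γ • G.cusp e')) (cc G e) :=
    btw_symm h.good (btw_end h.good _ (hb_inl h p) (by rw [l2]; exact hC₀ e))
  have e1 := H1 _ _ _ (hb_inr h (γ • G.cusp e')) (by simp) (by simp) (Or.inr (hb_inl h p)) b1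
  have e2 := H1 _ _ _ (hb_inr h (G.cusp e)) (cc_ne (G := G) e p) hne.symm
    (Or.inr (hb_inl h p)) b2
  have e3 := H2 (Sum.inl (γ * p')) (Sum.inr (γ • G.cusp e')) (Or.inr (hb_inl h _))
    (by rw [l1]; exact hC₀ e')
  have e4 := H2 (Sum.inl p) (cc G e) (Or.inr (hb_inl h _)) (by rw [l2]; exact hC₀ e)
  have e5 := d_nonneg h.good (x := Sum.inl (γ * p')) (y := Sum.inr (γ • G.cusp e'))
    (Or.inr (hb_inl h _))
  have e6 := d_nonneg h.good (x := Sum.inl p) (y := cc G e) (Or.inr (hb_inl h _))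
  rw [d_symm h.good (Sum.inl (γ * p'))] at e3 e5
  have m1 : ‖G.𝓛.P (cc G e) (Sum.inr (γ • G.cusp e')) - G.𝓛.P (cc G e) (Sum.inl p)‖ ≤ r := by
    rw [norm_sub_rev]
    refine le_trans (le_of_eq ?_) n1
    congr 1
    unfold GSys.χ uu
    abel
  have m2 : ‖G.𝓛.P (Sum.inr (γ • G.cusp e')) (Sum.inl (γ * p')) -
      G.𝓛.P (Sum.inr (γ • G.cusp e')) (cc G e)‖ ≤ r := by
    have q := h.inv_P γ (G.cusp e') (Sum.inl p') (Sum.inr (γ⁻¹ • G.cusp e)) (by simp)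
      (np_ne (np_inv hnp))
    rw [show gact γ (Sum.inl p' : Γ ⊕ X) = Sum.inl (γ * p') from rfl,
      show gact γ (Sum.inr (γ⁻¹ • G.cusp e) : Γ ⊕ X) = Sum.inr (γ • γ⁻¹ • G.cusp e) from rfl,
      smul_inv_smul] at q
    rw [q]
    refine le_trans (le_of_eq ?_) n2
    congr 1
    unfold GSys.χ uu
    abel
  have m3 : ‖G.𝓛.P (Sum.inr (γ • G.cusp e')) (cc G e) -
      G.𝓛.P (Sum.inr (γ • G.cusp e')) (Sum.inl p)‖ ≤ G.𝓛.D * C₀ := by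
    refine P_of_lam h.good (hb_inr h _) hne (by simp) ?_
    rw [h.good.symm, l2]
    exact hC₀ e
  have m4 := tri3 (G.𝓛.P (Sum.inr (γ • G.cusp e')) (Sum.inl (γ * p')))
    (G.𝓛.P (Sum.inr (γ • G.cusp e')) (cc G e)) (G.𝓛.P (Sum.inr (γ • G.cusp e')) (Sum.inl p))
  have m5 := norm_nonneg (G.𝓛.P (Sum.inr (γ • G.cusp e')) (Sum.inl (γ * p')) -
    G.𝓛.P (Sum.inr (γ • G.cusp e')) (Sum.inl p))
  have m6 := norm_nonneg (G.𝓛.P (cc G e) (Sum.inr (γ • G.cusp e')) -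
    G.𝓛.P (cc G e) (Sum.inl p))
  have m7 : 0 ≤ r := (norm_nonneg _).trans n1
  have m8 : 0 ≤ G.𝓛.D * C₀ := by positivity
  rw [mul_assoc, ← d_dd h p (γ * p')]
  unfold ll
  rw [abs_le] at e1 e2 ⊢
  constructor <;> linarith [e1.1, e1.2, e2.1, e2.2]

/-- difference of the fibre coordinates -/
noncomputable def th (G : GSys Γ X E J) (e e' : E) (γ : Γ) : J → ℝ :=
  G.α (G.cusp e) (uu G e e' γ) + G.𝓛.Ψ (al G) (cc G e) (Sum.inr (γ • G.cusp e')) -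
    G.α (G.cusp e') (uu G e' e γ⁻¹)

lemma th_mul (h : G.Good) {e e' : E} {γ a a' : Γ} (hnp : γ • G.cusp e' ≠ G.cusp e)
    (ha : a • G.cusp e = G.cusp e) (ha' : a' • G.cusp e' = G.cusp e') :
    th G e e' (a * γ * a') = G.α (G.cusp e) (G.χ e a) + th G e e' γ +
      G.α (G.cusp e') (G.χ e' a') := by
  unfold th
  have h1 := uu_mul h hnp ha ha'
  have h2 := uu_mul h (np_inv hnp) (stab_inv ha') (stab_inv ha)
  have h3 : (a * γ * a')⁻¹ = a'⁻¹ * γ⁻¹ * a⁻¹ := by group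
  have h4 := inv_Ψ h a (cc G e) (Sum.inr (γ • G.cusp e'))
  rw [gact_stab ha] at h4
  have h5 : G.𝓛.Ψ (al G) (cc G e) (Sum.inr ((a * γ * a') • G.cusp e')) =
      G.𝓛.Ψ (al G) (cc G e) (Sum.inr (γ • G.cusp e')) := by
    rw [mul_smul, mul_smul, ha', ← h4]
    rfl
  rw [h1, h3, h2, χ_inv h ha', h5, map_add, map_add, map_neg]
  abel

lemma Ψ_supp (h : G.Good) (x y : Γ ⊕ X) : Supp G.SF (G.𝓛.Ψ (al G) x y) := by
  unfold LSp.Ψ LSp.Sg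
  refine finsum_mem_induction (Supp G.SF) (fun j _ => rfl) (fun u v hu hv j hj => ?_)
    (fun B hB => ?_)
  · rw [Pi.add_apply, hu j hj, hv j hj, add_zero]
  · obtain ⟨hB, -, -⟩ := hB
    rw [h.hb] at hB
    obtain ⟨B, rfl⟩ := hB
    intro j hj
    unfold LSp.FΨ
    rw [Pi.smul_apply]
    have : (al G (Sum.inr B : Γ ⊕ X)) (G.𝓛.P (Sum.inr B) y - G.𝓛.P (Sum.inr B) x) j = 0 :=
      h.supp_α B _ j hj
    rw [this, smul_zero]

lemma th_supp (h : G.Good) (e e' : E) (γ : Γ) : Supp G.SF (th G e e' γ) := by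
  intro j hj
  unfold th
  rw [Pi.sub_apply, Pi.add_apply, h.supp_α _ _ j hj, h.supp_α _ _ j hj, Ψ_supp h _ _ j hj]
  ring

lemma th_Ψ [Finite E] (h : G.Good) : ∃ C : ℝ, ∀ (e e' : E) (γ : Γ),
    γ • G.cusp e' ≠ G.cusp e →
    ‖th G e e' γ - G.𝓛.Ψ (al G) (Sum.inl 1) (Sum.inl γ)‖ ≤ C := by
  obtain ⟨C₀, c0, hC₀⟩ := exC0 G
  obtain ⟨Λ, hΛ0, hΛ⟩ := al_bdd h
  obtain ⟨D1, D2, D3, D4, D5⟩ := taskD2 _ _ _ G.𝓛 h.good (al G) Λ hΛ
  obtain ⟨C₁, H1⟩ := D4 (2 * C₀ ^ 2)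
  obtain ⟨C₂, H2⟩ := D2 C₀
  refine ⟨2 * C₁ + 2 * C₂ + Λ * (G.𝓛.D * C₀), fun e e' γ hnp => ?_⟩
  have hne := np_ne hnp
  have l1 := lam_cc h e' γ 1 (one_smul _ _)
  rw [mul_one] at l1
  have b1 : G.𝓛.Btw (2 * C₀ ^ 2) (Sum.inl 1) (Sum.inl γ) (Sum.inr (γ • G.cusp e')) :=
    btw_end h.good _ (hb_inl h _) (by rw [l1]; exact hC₀ e')
  have b2 : G.𝓛.Btw (2 * C₀ ^ 2) (Sum.inl 1) (Sum.inr (γ • G.cusp e')) (cc G e) :=
    btw_symm h.good (btw_end h.good _ (hb_inl h 1) (hC₀ e))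
  have e1 := H1 _ _ _ (hb_inr h (γ • G.cusp e')) (by simp) (by simp) (Or.inr (hb_inl h 1)) b1
  have e2 := H1 _ _ _ (hb_inr h (G.cusp e)) (cc_ne (G := G) e 1) hne.symm
    (Or.inr (hb_inl h 1)) b2
  have e3 := H2 (Sum.inl γ) (Sum.inr (γ • G.cusp e')) (Or.inr (hb_inl h _))
    (by rw [l1]; exact hC₀ e')
  have e4 := H2 (Sum.inl 1) (cc G e) (Or.inr (hb_inl h 1)) (hC₀ e)
  rw [D1, norm_neg] at e3
  have q1 : al G (Sum.inr (γ • G.cusp e')) (G.𝓛.P (Sum.inr (γ • G.cusp e')) (Sum.inl γ) -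
      G.𝓛.P (Sum.inr (γ • G.cusp e')) (Sum.inl 1)) = - G.α (G.cusp e') (G.χ e' γ⁻¹) := by
    have q := h.inv_P γ (G.cusp e') (Sum.inl 1) (Sum.inl γ⁻¹) (by simp) (by simp)
    rw [show gact γ (Sum.inl 1 : Γ ⊕ X) = Sum.inl (γ * 1) from rfl,
      show gact γ (Sum.inl γ⁻¹ : Γ ⊕ X) = Sum.inl (γ * γ⁻¹) from rfl,
      mul_one, mul_inv_cancel] at q
    rw [q]
    show G.α (γ • G.cusp e') _ = _
    rw [h.inv_α, ← map_neg]
    congr 1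
    unfold GSys.χ
    abel
  have q2 : al G (Sum.inr (G.cusp e)) (G.𝓛.P (Sum.inr (G.cusp e)) (Sum.inr (γ • G.cusp e')) -
      G.𝓛.P (Sum.inr (G.cusp e)) (Sum.inl 1)) = G.α (G.cusp e) (uu G e e' γ) := rfl
  rw [q1] at e1
  rw [q2] at e2
  have q3 : ‖G.α (G.cusp e') (G.χ e' γ⁻¹ - uu G e' e γ⁻¹)‖ ≤ Λ * (G.𝓛.D * C₀) := by
    refine (hΛ (cc G e') _).trans (mul_le_mul_of_nonneg_left ?_ hΛ0)
    have q : G.χ e' γ⁻¹ - uu G e' e γ⁻¹ = G.𝓛.P (cc G e') (Sum.inl γ⁻¹) -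
        G.𝓛.P (cc G e') (Sum.inr (γ⁻¹ • G.cusp e)) := by
      unfold GSys.χ uu
      abel
    rw [q]
    refine P_of_lam h.good (hb_inr h _) (cc_ne (G := G) e' _) (np_ne (np_inv hnp)).symm ?_
    have := lam_cc h e γ⁻¹ 1 (one_smul _ _)
    rw [mul_one] at this
    rw [this]
    exact hC₀ e
  rw [map_sub] at q3
  have key : th G e e' γ - G.𝓛.Ψ (al G) (Sum.inl 1) (Sum.inl γ) =
      (G.α (G.cusp e') (G.χ e' γ⁻¹) - G.α (G.cusp e') (uu G e' e γ⁻¹)) -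
      (G.𝓛.Ψ (al G) (Sum.inl 1) (Sum.inl γ) -
        G.𝓛.Ψ (al G) (Sum.inl 1) (Sum.inr (γ • G.cusp e')) -
        G.𝓛.Ψ (al G) (Sum.inr (γ • G.cusp e')) (Sum.inl γ) - -G.α (G.cusp e') (G.χ e' γ⁻¹)) -
      (G.𝓛.Ψ (al G) (Sum.inl 1) (Sum.inr (γ • G.cusp e')) -
        G.𝓛.Ψ (al G) (Sum.inl 1) (Sum.inr (G.cusp e)) -
        G.𝓛.Ψ (al G) (Sum.inr (G.cusp e)) (Sum.inr (γ • G.cusp e')) -
        G.α (G.cusp e) (uu G e e' γ)) -
      G.𝓛.Ψ (al G) (Sum.inr (γ • G.cusp e')) (Sum.inl γ) -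
      G.𝓛.Ψ (al G) (Sum.inl 1) (cc G e) := by
    unfold th
    abel
  rw [key]
  refine (norm_sub_le _ _).trans ?_
  refine (add_le_add_left (norm_sub_le _ _) _).trans ?_
  refine (add_le_add_left (add_le_add_left (norm_sub_le _ _) _) _).trans ?_
  refine (add_le_add_left (add_le_add_left (add_le_add_left (norm_sub_le _ _) _) _) _).trans ?_
  linarith

end

end Run7.h312.LF
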