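import Pool.Agent.Run7.h230.Tasks

/-! Task G, first part: translations of horospheres, integral matrices, abstract sides. -/

set_option autoImplicit false

namespace Run7.h312.LG

open Run7.h230

/-! ### the Lorentz form -/

section
variable {m : ℕ}

lemma lor_add (x y z : LV m) : lor (x + y) z = lor x z + lor y z := by
  unfold lor
  simp only [Pi.add_apply, add_mul, Finset.sum_add_distrib]
  ring

lemma lor_smul (r : ℝ) (x z : LV m) : lor (r • x) z = r * lor x z := by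
  unfold lor
  simp only [Pi.smul_apply, smul_eq_mul, mul_assoc, ← Finset.mul_sum]
  ring

lemma lor_comm (x y : LV m) : lor x y = lor y x := by
  unfold lor
  rw [mul_comm]
  congr 1
  exact Finset.sum_congr rfl fun i _ => mul_comm _ _

lemma lor_add_right (x y z : LV m) : lor x (y + z) = lor x y + lor x z := by
  rw [lor_comm x, lor_add, lor_comm y, lor_comm z]

lemma lor_smul_right (r : ℝ) (x z : LV m) : lor x (r • z) = r * lor x z := by
  rw [lor_comm x, lor_smul, lor_comm z]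

/-- the functional `lor · ξ` -/
def lorL (ξ : LV m) : LV m →ₗ[ℝ] ℝ where
  toFun x := lor x ξ
  map_add' x y := lor_add x y ξ
  map_smul' r x := lor_smul r x ξ

lemma lorL_apply (ξ x : LV m) : lorL ξ x = lor x ξ := rfl

lemma lor_sum {ι : Type} (s : Finset ι) (f : ι → LV m) (ξ : LV m) :
    lor (∑ i ∈ s, f i) ξ = ∑ i ∈ s, lor (f i) ξ := by
  have := map_sum (lorL ξ) f s
  exact this

/-- a vector with `lor · ξ = 1` -/
lemma exists_base {ξ : LV m} (hξ : 0 < ξ 0) : ∃ y : LV m, lor y ξ = 1 := by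
  refine ⟨(ξ 0)⁻¹ • Pi.single 0 1, ?_⟩
  rw [lor_smul]
  unfold lor
  rw [Pi.single_eq_same, one_mul]
  have : ∑ i : Fin m, (Pi.single 0 1 : LV m) i.succ * ξ i.succ = 0 := by
    refine Finset.sum_eq_zero fun i _ => ?_
    rw [Pi.single_eq_of_ne (Fin.succ_ne_zero i), zero_mul]
  rw [this, sub_zero]
  field_simp

/-- toric data of a horoball -/
structure Tor (N : HorMfd m) (ξ : LV m) (e : Fin (m - 1) → LV m) : Prop where
  null : lor ξ ξ = 0
  pos : 0 < ξ 0
  iso : ∀ γ ∈ N.Γ, ∀ x y, lor (γ x) (γ y) = lor x y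
  perp : ∀ i, lor (e i) ξ = 0
  ind : ∀ c : Fin (m - 1) → ℝ, (∃ r : ℝ, ∑ i, c i • e i = r • ξ) → c = 0
  ex : ∀ γ ∈ N.Γ, γ ξ = ξ → ∃ c : Fin (m - 1) → ℤ, Translates γ ξ (∑ i, (c i : ℝ) • e i)
  real : ∀ c : Fin (m - 1) → ℤ, ∃ γ ∈ N.Γ, Translates γ ξ (∑ i, (c i : ℝ) • e i)

lemma exists_tor {N : HorMfd m} (h1 : N.IsMfd) (h2 : N.IsTruncated) {ξ : LV m}
    (hξ : ξ ∈ N.Ξ) : ∃ e, Tor N ξ e := by
  obtain ⟨e, p1, p2, p3, p4⟩ := h2.toric ξ hξ
  exact ⟨e, (h2.cone ξ hξ).1, (h2.cone ξ hξ).2, h1.lor_map, p1, p2, p3, p4⟩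

lemma trans_uniq {ξ v w : LV m} (hξ : 0 < ξ 0) {γ : LV m ≃ₗ[ℝ] LV m}
    (hv : Translates γ ξ v) (hw : Translates γ ξ w) : ∃ r : ℝ, v = w + r • ξ := by
  obtain ⟨y, hy⟩ := exists_base hξ
  obtain ⟨r, hr⟩ := hv.2 y hy
  obtain ⟨r', hr'⟩ := hw.2 y hy
  refine ⟨r' - r, ?_⟩
  rw [hr] at hr'
  have : v = (y + v + r • ξ) - y - r • ξ := by abel
  rw [this, hr', sub_smul]
  abel

lemma trans_mul {ξ v v' : LV m} {γ γ' : LV m ≃ₗ[ℝ] LV m} (hv' : lor v' ξ = 0)
    (h : Translates γ ξ v) (h' : Translates γ' ξ v') : Translates (γ * γ') ξ (v + v') := by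
  refine ⟨by rw [LinearEquiv.mul_apply, h'.1, h.1], fun x hx => ?_⟩
  obtain ⟨r', hr'⟩ := h'.2 x hx
  obtain ⟨r, hr⟩ := h.2 (x + v') (by rw [lor_add, hx, hv', add_zero])
  refine ⟨r + r', ?_⟩
  rw [LinearEquiv.mul_apply, hr', map_add, hr, map_smul, h.1, add_smul]
  abel

lemma trans_zero {N : HorMfd m} {ξ : LV m} {e : Fin (m - 1) → LV m} (hT : Tor N ξ e)
    {γ : LV m ≃ₗ[ℝ] LV m} (hγ : γ ∈ N.Γ) (h : Translates γ ξ 0) : γ = 1 := by
  have h1 : ∀ y, lor y ξ = 1 → γ y = y := by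
    intro y hy
    obtain ⟨r, hr⟩ := h.2 y hy
    rw [add_zero] at hr
    have e1 := hT.iso γ hγ y y
    rw [hr, lor_add, lor_add_right, lor_smul, lor_add_right, lor_smul_right, lor_smul_right,
      lor_comm ξ y, hy, hT.null] at e1
    have : r = 0 := by linarith
    rw [hr, this, zero_smul, add_zero]
  obtain ⟨y, hy⟩ := exists_base hT.pos
  ext1 z
  show γ z = z
  by_cases hz : lor z ξ = 0
  · have h2 := h1 (y + z) (by rw [lor_add, hy, hz, add_zero])
    rw [map_add, h1 y hy] at h2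
    exact add_left_cancel h2
  · have h2 := h1 ((lor z ξ)⁻¹ • z) (by rw [lor_smul, inv_mul_cancel₀ hz])
    rw [map_smul] at h2
    exact smul_right_injective _ (inv_ne_zero hz) h2

variable {N : HorMfd m} {ξ : LV m} {e : Fin (m - 1) → LV m}

lemma comb_perp (hT : Tor N ξ e) (c : Fin (m - 1) → ℝ) : lor (∑ i, c i • e i) ξ = 0 := by
  rw [lor_sum]
  exact Finset.sum_eq_zero fun i _ => by rw [lor_smul, hT.perp, mul_zero]

/-- the coordinates of an element of the boundary group -/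
noncomputable def theta (hT : Tor N ξ e) (k : ℕ) (x : N.bdry k ξ) : Fin (m - 1) ⊕ Fin k → ℤ :=
  Sum.elim (hT.ex _ (x : N.Pi k).1.2 x.2).choose (Multiplicative.toAdd (x : N.Pi k).2)

lemma theta_spec (hT : Tor N ξ e) (k : ℕ) (x : N.bdry k ξ) :
    Translates ((x : N.Pi k).1 : LV m ≃ₗ[ℝ] LV m) ξ
      (∑ i, ((theta hT k x (Sum.inl i) : ℤ) : ℝ) • e i) :=
  (hT.ex _ (x : N.Pi k).1.2 x.2).choose_spec

lemma theta_eq (hT : Tor N ξ e) (k : ℕ) (x : N.bdry k ξ) {c : Fin (m - 1) → ℤ}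
    (h : Translates ((x : N.Pi k).1 : LV m ≃ₗ[ℝ] LV m) ξ (∑ i, (c i : ℝ) • e i)) (i) :
    theta hT k x (Sum.inl i) = c i := by
  obtain ⟨r, hr⟩ := trans_uniq hT.pos (theta_spec hT k x) h
  have h1 := hT.ind (fun i => ((theta hT k x (Sum.inl i) : ℤ) : ℝ) - (c i : ℝ)) ⟨r, by
    simp only [sub_smul]
    rw [Finset.sum_sub_distrib, hr]
    abel⟩
  have h2 := congrFun h1 i
  simp only [Pi.zero_apply] at h2
  have h3 : ((theta hT k x (Sum.inl i) : ℤ) : ℝ) = (c i : ℝ) := by linarith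
  exact_mod_cast h3

lemma theta_mul (hT : Tor N ξ e) (k : ℕ) (x y : N.bdry k ξ) :
    theta hT k (x * y) = theta hT k x + theta hT k y := by
  funext p
  rcases p with i | i
  · refine theta_eq hT k (x * y) (c := fun i => theta hT k x (Sum.inl i) +
      theta hT k y (Sum.inl i)) ?_ i
    have h1 := trans_mul (comb_perp hT _) (theta_spec hT k x) (theta_spec hT k y)
    rw [← Finset.sum_add_distrib] at h1
    simp only [← add_smul] at h1
    push_cast
    exact h1
  · rfl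

lemma theta_bij (hT : Tor N ξ e) (k : ℕ) : Function.Bijective (theta hT k) := by
  have hinj : ∀ x, theta hT k x = 0 → x = 1 := by
    intro x hx
    have h1 := theta_spec hT k x
    rw [hx] at h1
    simp only [Pi.zero_apply, Int.cast_zero, zero_smul, Finset.sum_const_zero] at h1
    have h2 := trans_zero hT (x : N.Pi k).1.2 h1
    have h3 : (x : N.Pi k).2 = 1 := by
      apply Multiplicative.toAdd.injective
      funext a
      exact congrFun hx (Sum.inr a)
    apply Subtype.ext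
    exact Prod.ext (Subtype.ext h2) h3
  constructor
  · intro x y hxy
    have h1 : theta hT k (x * y⁻¹) = 0 := by
      have h2 := theta_mul hT k (x * y⁻¹) y
      rw [inv_mul_cancel_right, hxy] at h2
      exact (add_eq_right.1 h2.symm)
    exact mul_inv_eq_one.1 (hinj _ h1)
  · intro c
    obtain ⟨γ, hγ, ht⟩ := hT.real (fun i => c (Sum.inl i))
    let x₀ : N.bdry k ξ := ⟨(⟨γ, hγ⟩, Multiplicative.ofAdd fun a => c (Sum.inr a)), ht.1⟩
    refine ⟨x₀, ?_⟩
    funext p
    rcases p with i | i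
    · exact theta_eq hT k x₀ (c := fun i => c (Sum.inl i)) ht i
    · rfl

lemma theta_fst (hT : Tor N ξ e) (k : ℕ) (x : N.bdry k ξ)
    (hx : ∀ i, theta hT k x (Sum.inl i) = 0) : (x : N.Pi k).1 = 1 := by
  have h1 := theta_spec hT k x
  simp only [hx, Int.cast_zero, zero_smul, Finset.sum_const_zero] at h1
  exact Subtype.ext (trans_zero hT (x : N.Pi k).1.2 h1)

/-- coordinates on `ξ^⊥ / ξ` -/
lemma exists_Q (hT : Tor N ξ e) (hm : 2 ≤ m) : ∃ Q : LV m →ₗ[ℝ] (Fin (m - 1) → ℝ),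
    (∀ (c : Fin (m - 1) → ℝ) (r : ℝ), Q (∑ i, c i • e i + r • ξ) = c) ∧
    ∀ v, lor v ξ = 0 → ∃ r : ℝ, v = ∑ i, Q v i • e i + r • ξ := by
  -- the map `(c, r) ↦ Σ c i e i + r ξ`
  let L : ((Fin (m - 1) → ℝ) × ℝ) →ₗ[ℝ] LV m :=
    (Fintype.linearCombination ℝ e).coprod (LinearMap.toSpanSingleton ℝ (LV m) ξ)
  have hL : ∀ c r, L (c, r) = ∑ i, c i • e i + r • ξ := fun c r => by
    simp only [L, LinearMap.coprod_apply, Fintype.linearCombination_apply,
      LinearMap.toSpanSingleton_apply]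
  have hξ0 : ξ ≠ 0 := by
    intro h0
    have := hT.pos
    rw [h0] at this
    exact lt_irrefl _ this
  have hinj : Function.Injective L := by
    rw [← LinearMap.ker_eq_bot, LinearMap.ker_eq_bot']
    rintro ⟨c, r⟩ h0
    rw [hL] at h0
    have h1 : c = 0 := hT.ind c ⟨-r, by rw [neg_smul]; exact eq_neg_of_add_eq_zero_left h0⟩
    subst h1
    simp only [Pi.zero_apply, zero_smul, Finset.sum_const_zero, zero_add] at h0
    rcases smul_eq_zero.1 h0 with h2 | h2
    · rw [h2]; rfl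
    · exact absurd h2 hξ0
  obtain ⟨g, hg⟩ := LinearMap.exists_leftInverse_of_injective L (LinearMap.ker_eq_bot.2 hinj)
  have hg' : ∀ p, g (L p) = p := fun p => congrArg (fun f => f p) hg
  refine ⟨(LinearMap.fst ℝ _ _).comp g, fun c r => ?_, fun v hv => ?_⟩
  · rw [← hL, LinearMap.comp_apply, hg']
    rfl
  · -- dimension count
    have hker : LinearMap.range L = LinearMap.ker (lorL ξ) := by
      apply Submodule.eq_of_le_of_finrank_le
      · rintro _ ⟨⟨c, r⟩, rfl⟩
        rw [LinearMap.mem_ker, lorL_apply, hL, lor_add, comb_perp hT, lor_smul, hT.null]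
        ring
      · rw [LinearMap.finrank_range_of_inj hinj, Module.finrank_prod, Module.finrank_fin_fun,
          Module.finrank_self]
        have h1 := LinearMap.finrank_range_add_finrank_ker (lorL ξ)
        have h2 : LinearMap.range (lorL ξ) = ⊤ := by
          rw [LinearMap.range_eq_top]
          intro r
          obtain ⟨y, hy⟩ := exists_base hT.pos
          exact ⟨r • y, by rw [lorL_apply, lor_smul, hy, mul_one]⟩
        rw [h2, finrank_top, Module.finrank_self, Module.finrank_fin_fun] at h1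
        omega
    have h1 : v ∈ LinearMap.range L := by
      rw [hker, LinearMap.mem_ker]
      exact hv
    obtain ⟨⟨c, r⟩, hcr⟩ := h1
    refine ⟨r, ?_⟩
    have h2 : ((LinearMap.fst ℝ _ _).comp g) v = c := by
      rw [← hcr, LinearMap.comp_apply, hg']
      rfl
    rw [h2, ← hL, hcr]

end

/-! ### integral matrices -/

lemma int_inj {κ ι : Type} [Fintype κ] [Fintype ι] [DecidableEq ι] (D : Matrix κ ι ℤ)
    (hD : ∀ c : ι → ℤ, D.mulVec c = 0 → c = 0) (u : ι → ℝ)
    (hu : (D.map (Int.cast : ℤ → ℝ)).mulVec u = 0) : u = 0 := by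
  have h1 : (D.transpose * D).det ≠ 0 := by
    intro h0
    obtain ⟨v, hv, hv0⟩ := Matrix.exists_mulVec_eq_zero_iff.2 h0
    apply hv
    apply hD
    rw [← Matrix.mulVec_mulVec] at hv0
    have h2 : dotProduct v (D.transpose.mulVec (D.mulVec v)) = 0 := by
      rw [hv0, dotProduct_zero]
    rw [Matrix.dotProduct_mulVec, Matrix.vecMul_transpose] at h2
    exact dotProduct_self_eq_zero.1 h2
  have h2 : (D.map (Int.cast : ℤ → ℝ)).transpose * D.map (Int.cast : ℤ → ℝ) =
      (D.transpose * D).map (Int.castRingHom ℝ) := by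
    rw [Matrix.map_mul, Matrix.transpose_map]
    rfl
  have h3 : ((D.map (Int.cast : ℤ → ℝ)).transpose * D.map (Int.cast : ℤ → ℝ)).det ≠ 0 := by
    rw [h2, ← RingHom.mapMatrix_apply, ← RingHom.map_det]
    simpa using h1
  apply Matrix.eq_zero_of_mulVec_eq_zero h3
  rw [← Matrix.mulVec_mulVec, hu, Matrix.mulVec_zero]

/-- homomorphisms of lattices are given by matrices -/
lemma exists_matrix {H : Type} [Group H] {ι ι' : Type} [Fintype ι] [DecidableEq ι]
    [Fintype ι'] {θ : H → ι → ℤ}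
    (hθ : Function.Bijective θ) (hm : ∀ x y, θ (x * y) = θ x + θ y) (F : H → ι' → ℤ)
    (hF : ∀ x y, F (x * y) = F x + F y) : ∃ A : Matrix ι' ι ℤ, ∀ x, A.mulVec (θ x) = F x := by
  let E := Equiv.ofBijective θ hθ
  have hE : ∀ a b, E.symm (a + b) = E.symm a * E.symm b := fun a b => by
    rw [Equiv.symm_apply_eq]
    show a + b = θ (E.symm a * E.symm b)
    rw [hm]
    show a + b = E (E.symm a) + E (E.symm b)
    rw [Equiv.apply_symm_apply, Equiv.apply_symm_apply]
  let f : (ι → ℤ) →+ (ι' → ℤ) := AddMonoidHom.mk' (fun c => F (E.symm c)) (fun a b => by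
    rw [hE, hF])
  refine ⟨LinearMap.toMatrix' f.toIntLinearMap, fun x => ?_⟩
  rw [LinearMap.toMatrix'_mulVec]
  show F (E.symm (E x)) = F x
  rw [Equiv.symm_apply_apply]

lemma cast_mulVec {ι ι' : Type} [Fintype ι] (A : Matrix ι' ι ℤ) (c : ι → ℤ) :
    (A.map (Int.cast : ℤ → ℝ)).mulVec (fun i => (c i : ℝ)) =
      fun i => ((A.mulVec c i : ℤ) : ℝ) := by
  funext i
  simp only [Matrix.mulVec, dotProduct, Matrix.map_apply]
  push_cast
  rfl

end Run7.h312.LG
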