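import Mathlib

/-! Matrices over a ring with involution in which all `1 + Xᴴ X` are invertible. -/

set_option autoImplicit false

namespace Run7.h312

open Matrix

/-- every matrix `1 + Xᴴ X` (with `X` square) is invertible -/
def PosMat (A : Type*) [Ring A] [StarRing A] : Prop :=
  ∀ (n : ℕ) (X : Matrix (Fin n) (Fin n) A), IsUnit (1 + Xᴴ * X)

section
variable {A : Type*} [Ring A] [StarRing A]

lemma PosMat.fintype (h : PosMat A) {m : Type*} [Fintype m] [DecidableEq m] (X : Matrix m m A) :
    IsUnit (1 + Xᴴ * X) := by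
  classical
  let φ := Fintype.equivFin m
  have h1 := h _ (Matrix.reindex φ φ X)
  have h2 : (1 : Matrix (Fin (Fintype.card m)) (Fin (Fintype.card m)) A) +
      (Matrix.reindex φ φ X)ᴴ * (Matrix.reindex φ φ X) =
        Matrix.reindexAlgEquiv ℤ A φ (1 + Xᴴ * X) := by
    rw [map_add, map_one, map_mul]
    rfl
  rw [h2] at h1
  exact (MulEquiv.isUnit_map (Matrix.reindexAlgEquiv ℤ A φ)).1 h1

/-- the projection with the same row space as the idempotent `e` -/
lemma exists_proj (h : PosMat A) {m : Type*} [Fintype m] [DecidableEq m] {e : Matrix m m A}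
    (he : e * e = e) : ∃ f : Matrix m m A, f * f = f ∧ fᴴ = f ∧ e * f = e ∧ f * e = f := by
  obtain ⟨z, hz⟩ := h.fintype (e - eᴴ)
  have he' : eᴴ * eᴴ = eᴴ := by rw [← conjTranspose_mul, he]
  have hz' : (z : Matrix m m A) = 1 - e - eᴴ + eᴴ * e + e * eᴴ := by
    rw [hz, conjTranspose_sub, conjTranspose_conjTranspose]
    rw [sub_mul, mul_sub, mul_sub, he, he']
    abel
  have h1 : e * z = e * eᴴ * e := by
    rw [hz']
    simp only [mul_add, mul_sub, mul_one, he, ← mul_assoc]
    abel
  have h2 : (z : Matrix m m A) * e = e * eᴴ * e := by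
    rw [hz']
    simp only [add_mul, sub_mul, one_mul, he, mul_assoc]
    abel
  have h3 : eᴴ * z = eᴴ * e * eᴴ := by
    rw [hz']
    simp only [mul_add, mul_sub, mul_one, he', ← mul_assoc]
    abel
  have h4 : (z : Matrix m m A) * eᴴ = eᴴ * e * eᴴ := by
    rw [hz']
    simp only [add_mul, sub_mul, one_mul, he', mul_assoc]
    abel
  have hzs : (z : Matrix m m A)ᴴ = z := by
    rw [hz']
    simp only [conjTranspose_add, conjTranspose_sub, conjTranspose_mul, conjTranspose_conjTranspose,
      conjTranspose_one]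
    abel
  -- `z⁻¹` commutes with `e`, `eᴴ`
  obtain ⟨y, hy⟩ : ∃ y : Matrix m m A, y = ↑z⁻¹ := ⟨_, rfl⟩
  have zy : (z : Matrix m m A) * y = 1 := by rw [hy, z.mul_inv]
  have c1 : y * e = e * y := by
    have : Commute (z : Matrix m m A) e := by rw [Commute, SemiconjBy, h1, h2]
    rw [hy]
    exact (this.units_inv_left).eq
  have c2 : y * eᴴ = eᴴ * y := by
    have : Commute (z : Matrix m m A) eᴴ := by rw [Commute, SemiconjBy, h3, h4]
    rw [hy]
    exact (this.units_inv_left).eq
  have hzi : yᴴ = y := by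
    have h5 : yᴴ * (z : Matrix m m A) = 1 := by
      have := congrArg conjTranspose zy
      rwa [conjTranspose_mul, conjTranspose_one, hzs] at this
    calc yᴴ = yᴴ * (↑z * y) := by rw [zy, mul_one]
      _ = _ := by rw [← mul_assoc, h5, one_mul]
  refine ⟨eᴴ * e * y, ?_, ?_, ?_, ?_⟩
  · calc eᴴ * e * y * (eᴴ * e * y) = eᴴ * (e * eᴴ * e) * y * y := by
          rw [mul_assoc (eᴴ * e), ← mul_assoc y, ← mul_assoc y, c2, mul_assoc eᴴ y e, c1]
          simp only [mul_assoc]
      _ = eᴴ * e * y := by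
          rw [← h1]
          simp only [mul_assoc]
          rw [← mul_assoc (z : Matrix m m A), zy, one_mul]
  · rw [conjTranspose_mul, conjTranspose_mul, conjTranspose_conjTranspose, hzi, ← mul_assoc, c2,
      mul_assoc, c1, mul_assoc]
  · rw [← mul_assoc, ← mul_assoc, ← h1, mul_assoc, zy, mul_one]
  · rw [mul_assoc, c1, ← mul_assoc, mul_assoc eᴴ, he]

/-- a matrix with a right inverse: `j jᴴ` is invertible -/
lemma isUnit_mul_star (h : PosMat A) {m N : Type*} [Fintype m] [DecidableEq m] [Fintype N]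
    [DecidableEq N] (j : Matrix m N A) (r : Matrix N m A) (hr : j * r = 1) :
    IsUnit (j * jᴴ) := by
  have hp : (r * j) * (r * j) = r * j := by
    rw [Matrix.mul_assoc, ← Matrix.mul_assoc j, hr, Matrix.one_mul]
  obtain ⟨f, hff, hfs, hf1, hf2⟩ := exists_proj h hp
  have hjf : j * f = j := by
    calc j * f = (j * r) * j * f := by rw [hr, Matrix.one_mul]
      _ = j * (r * j * f) := by simp only [Matrix.mul_assoc]
      _ = j * (r * j) := by rw [hf1]
      _ = j := by rw [← Matrix.mul_assoc, hr, Matrix.one_mul]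
  have hfj : f = jᴴ * rᴴ * f := by
    have h1 : f * r * j = f := by rw [Matrix.mul_assoc, hf2]
    have h2 := congrArg conjTranspose h1
    rw [conjTranspose_mul, conjTranspose_mul, hfs, ← Matrix.mul_assoc] at h2
    exact h2.symm
  have key : (j * jᴴ) * (rᴴ * f * r) = 1 := by
    calc (j * jᴴ) * (rᴴ * f * r) = j * (jᴴ * rᴴ * f) * r := by simp only [Matrix.mul_assoc]
      _ = 1 := by rw [← hfj, hjf, hr]
  have key2 : (rᴴ * f * r) * (j * jᴴ) = 1 := by
    have h3 := congrArg conjTranspose key
    rw [conjTranspose_mul, conjTranspose_one, conjTranspose_mul, conjTranspose_mul,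
      conjTranspose_mul, conjTranspose_conjTranspose, conjTranspose_conjTranspose, hfs] at h3
    rw [← h3]
    simp only [Matrix.mul_assoc]
  exact ⟨⟨_, _, key, key2⟩, rfl⟩

end

end Run7.h312
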