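import Pool.Agent.Run7.h312.Defs
import Pool.Agent.Run7.h312.GRing
import Pool.Agent.Run7.h312.ModLem

/-! The special resolution of an orientable `PD_3`-group. -/

set_option autoImplicit false

namespace Run7.h312

open MonoidAlgebra

lemma unpack {G : Type} [Group G] (hG : IsOrientablePD3 G) :
  ∃ (P : ℕ → Type) (_ : ∀ i, AddCommGroup (P i)) (_ : ∀ i, Module (MonoidAlgebra ℤ G) (P i))
    (d : ∀ i, P (i + 1) →ₗ[MonoidAlgebra ℤ G] P i) (ε : P 0 →+ ℤ) (m : ℕ),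
    (∀ i, Module.Finite (MonoidAlgebra ℤ G) (P i)) ∧
    (∀ i, Module.Projective (MonoidAlgebra ℤ G) (P i)) ∧
    (∀ i, m < i → Subsingleton (P i)) ∧
    Function.Surjective ε ∧
    (∀ (g : G) (x : P 0), ε (MonoidAlgebra.of ℤ G g • x) = ε x) ∧
    (∀ x : P 0, ε x = 0 ↔ x ∈ LinearMap.range (d 0)) ∧
    (∀ (i : ℕ) (x : P (i + 1)), d i x = 0 ↔ x ∈ LinearMap.range (d (i + 1))) ∧
    (∀ f : P 0 →ₗ[MonoidAlgebra ℤ G] MonoidAlgebra ℤ G, f ∘ₗ d 0 = 0 → f = 0) ∧
    (∀ i, i + 1 ≠ 3 → ∀ f : P (i + 1) →ₗ[MonoidAlgebra ℤ G] MonoidAlgebra ℤ G,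
      f ∘ₗ d (i + 1) = 0 → ∃ h : P i →ₗ[MonoidAlgebra ℤ G] MonoidAlgebra ℤ G, f = h ∘ₗ d i) ∧
    ∃ η : (P 3 →ₗ[MonoidAlgebra ℤ G] MonoidAlgebra ℤ G) → ℤ,
      (∀ f f', f ∘ₗ d 3 = 0 → f' ∘ₗ d 3 = 0 → η (f + f') = η f + η f') ∧
      (∃ f, f ∘ₗ d 3 = 0 ∧ η f = 1) ∧
      (∀ f, f ∘ₗ d 3 = 0 →
        (η f = 0 ↔ ∃ h : P 2 →ₗ[MonoidAlgebra ℤ G] MonoidAlgebra ℤ G, f = h ∘ₗ d 2)) ∧
      (∀ (g : G) (f), f ∘ₗ d 3 = 0 →
        η (LinearMap.toSpanSingleton (MonoidAlgebra ℤ G) (MonoidAlgebra ℤ G)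
          (MonoidAlgebra.of ℤ G g) ∘ₗ f) = η f) := by
  obtain ⟨C, ε, η, ⟨hfin, hproj, m, hm⟩, hex, ⟨hε, hεG, h0⟩, ⟨c0, cn⟩, η1, ⟨b', hb'0, hb'1⟩, η2,
    η3⟩ := hG
  have cc : ∀ i (f : C.P i →ₗ[MonoidAlgebra ℤ G] MonoidAlgebra ℤ G),
      f ∘ₗ C.d i = 0 → C.IsCocycle i f := fun i f hf y => LinearMap.congr_fun hf y
  have cc' : ∀ i (f : C.P i →ₗ[MonoidAlgebra ℤ G] MonoidAlgebra ℤ G),
      C.IsCocycle i f → f ∘ₗ C.d i = 0 := fun i f hf => LinearMap.ext hf
  have cb : ∀ i (f : C.P (i + 1) →ₗ[MonoidAlgebra ℤ G] MonoidAlgebra ℤ G),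
      (∃ h : C.P i →ₗ[MonoidAlgebra ℤ G] MonoidAlgebra ℤ G, f = h ∘ₗ C.d i) ↔
        C.IsCoboundary i f := fun i f => exists_congr fun h =>
    ⟨fun h1 y => LinearMap.congr_fun h1 y, fun h1 => LinearMap.ext h1⟩
  refine ⟨C.P, C.grp, C.mod, C.d, ε, m, hfin, hproj, hm, hε, hεG, h0, hex,
    fun f hf => c0 f (cc 0 f hf), fun i hi f hf => (cb i f).2 (cn i hi f (cc _ f hf)), η,
    fun f f' hf hf' => η1 f f' (cc _ f hf) (cc _ f' hf'), ⟨b', cc' _ _ hb'0, hb'1⟩,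
    fun f hf => (η2 f (cc _ f hf)).trans (cb 2 f).symm, fun g f hf => η3 g f (cc _ f hf)⟩

/-- equivariant additive maps to `ℤ` are semilinear with respect to the augmentation -/
lemma eps_smul {G : Type} [Group G] {M : Type} [AddCommGroup M] [Module (MonoidAlgebra ℤ G) M]
    (ε : M →+ ℤ) (h : ∀ (g : G) (x : M), ε (of ℤ G g • x) = ε x) (a : MonoidAlgebra ℤ G) (x : M) :
    ε (a • x) = aug G a * ε x := by
  induction a using MonoidAlgebra.induction_linear with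
  | zero => simp
  | add y z hy hz => rw [add_smul, map_add, hy, hz, map_add, add_mul]
  | single g n =>
    have : (single g n : MonoidAlgebra ℤ G) = n • of ℤ G g := by
      rw [of_apply, smul_single]; simp
    rw [this, smul_assoc, map_zsmul, h, map_zsmul, aug_of]
    simp

/-- truncation: all syzygies from the third on are projective -/
lemma trunc {R : Type} [Ring R] (P : ℕ → Type) [∀ i, AddCommGroup (P i)] [∀ i, Module R (P i)]
    (d : ∀ i, P (i + 1) →ₗ[R] P i) (m : ℕ) (hfin : ∀ i, Module.Finite R (P i))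
    (hproj : ∀ i, Module.Projective R (P i)) (hm : ∀ i, m < i → Subsingleton (P i))
    (hex : ∀ (i : ℕ) (x : P (i + 1)), d i x = 0 ↔ x ∈ LinearMap.range (d (i + 1)))
    (hco : ∀ i, i + 1 ≠ 3 → ∀ f : P (i + 1) →ₗ[R] R,
      f ∘ₗ d (i + 1) = 0 → ∃ h : P i →ₗ[R] R, f = h ∘ₗ d i) :
    ∀ i, 1 ≤ i → Module.Projective R (LinearMap.ker (d i)) ∧
      Module.Finite R (LinearMap.ker (d i)) := by
  have key : ∀ k i, 1 ≤ i → m ≤ i + k → Module.Projective R (LinearMap.ker (d i)) ∧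
      Module.Finite R (LinearMap.ker (d i)) := by
    intro k
    induction k with
    | zero =>
      intro i _ hi
      haveI := hm (i + 1) (by omega)
      haveI : Subsingleton (LinearMap.ker (d i)) := inferInstance
      exact ⟨inferInstance, inferInstance⟩
    | succ k ih =>
      intro i hi hik
      obtain ⟨h1, h2⟩ := ih (i + 1) (by omega) (by omega)
      -- functionals on `ker (d (i+1))` extend to `P (i+2)`
      have hext : ∀ f : LinearMap.ker (d (i + 1)) →ₗ[R] R,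
          ∃ h : P (i + 1 + 1) →ₗ[R] R, ∀ x : LinearMap.ker (d (i + 1)),
            h ((LinearMap.ker (d (i + 1))).subtype x) = f x := by
        intro f
        let D : P (i + 1 + 1 + 1) →ₗ[R] LinearMap.ker (d (i + 1)) :=
          (d (i + 1 + 1)).codRestrict (LinearMap.ker (d (i + 1))) (fun c => by
            rw [LinearMap.mem_ker, hex]; exact ⟨c, rfl⟩)
        obtain ⟨h, hh⟩ := hco (i + 1 + 1) (by omega) (f ∘ₗ D) (by
          ext y
          have : D (d (i + 1 + 1 + 1) y) = 0 := by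
            apply Subtype.ext
            change d (i + 1 + 1) (d (i + 1 + 1 + 1) y) = 0
            rw [hex]; exact ⟨y, rfl⟩
          simp [this])
        refine ⟨h, fun x => ?_⟩
        obtain ⟨y, hy⟩ := (hex (i + 1) (x : P (i + 1 + 1))).1 x.2
        have hx : x = D y := Subtype.ext hy.symm
        have := LinearMap.congr_fun hh y
        rw [hx]
        exact this.symm
      obtain ⟨r, hr⟩ := retract_of_extend (LinearMap.ker (d (i + 1))).subtype hext
      let D : P (i + 1 + 1) →ₗ[R] LinearMap.ker (d i) :=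
        (d (i + 1)).codRestrict (LinearMap.ker (d i)) (fun c => by
          rw [LinearMap.mem_ker, hex]; exact ⟨c, rfl⟩)
      refine quot_proj D (fun x => ?_) (LinearMap.ker (d (i + 1))).subtype r hr (fun x hx => ?_)
        (fun y => ?_)
      · obtain ⟨y, hy⟩ := (hex i (x : P (i + 1))).1 x.2
        exact ⟨y, Subtype.ext hy⟩
      · exact ⟨⟨x, congrArg Subtype.val hx⟩, rfl⟩
      · exact Subtype.ext y.2
  intro i hi
  exact key m i hi (by omega)

end Run7.h312
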