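import Pool.Agent.Run7.h312.Res
import Pool.Agent.Run7.h312.Glue

/-! The special resolution of an orientable `PD_3`-group. -/

set_option autoImplicit false

namespace Run7.h312

open MonoidAlgebra

/-- the map `Λᵍ → Λ` of the special resolution -/
noncomputable abbrev D1 {G : Type} [Group G] {g : ℕ} (x : Fin g → G) :
    (Fin g → MonoidAlgebra ℤ G) →ₗ[MonoidAlgebra ℤ G] MonoidAlgebra ℤ G :=
  Fintype.linearCombination (MonoidAlgebra ℤ G) (fun i => of ℤ G (x i) - 1)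

lemma D1_apply {G : Type} [Group G] {g : ℕ} (x : Fin g → G) (v : Fin g → MonoidAlgebra ℤ G) :
    D1 x v = ∑ i, v i * (of ℤ G (x i) - 1) := by
  simp [D1, Fintype.linearCombination_apply]

lemma aug_D1 {G : Type} [Group G] {g : ℕ} (x : Fin g → G) (v : Fin g → MonoidAlgebra ℤ G) :
    aug G (D1 x v) = 0 := by
  rw [D1_apply, map_sum]
  refine Finset.sum_eq_zero fun i _ => ?_
  rw [map_mul, map_sub, aug_of, map_one, sub_self, mul_zero]

lemma eta_lin {R M N : Type} [Ring R] [AddCommGroup M] [Module R M] [AddCommGroup N] [Module R N]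
    (d : N →ₗ[R] M) (η : (M →ₗ[R] R) → ℤ)
    (η1 : ∀ f f', f ∘ₗ d = 0 → f' ∘ₗ d = 0 → η (f + f') = η f + η f') :
    (∀ (n : ℤ) (f : M →ₗ[R] R), f ∘ₗ d = 0 → η (n • f) = n * η f) ∧
    (∀ f f', f ∘ₗ d = 0 → f' ∘ₗ d = 0 → η (f - f') = η f - η f') := by
  let Z : AddSubgroup (M →ₗ[R] R) :=
    { carrier := {f | f ∘ₗ d = 0}
      add_mem' := fun {a b} ha hb => by
        change (a + b) ∘ₗ d = 0
        rw [LinearMap.add_comp, ha, hb, add_zero]
      zero_mem' := LinearMap.zero_comp _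
      neg_mem' := fun {a} ha => by
        change (-a) ∘ₗ d = 0
        rw [LinearMap.neg_comp, ha, neg_zero] }
  let E : Z →+ ℤ := AddMonoidHom.mk' (fun f => η f) (fun a b => η1 _ _ a.2 b.2)
  refine ⟨fun n f hf => ?_, fun f f' hf hf' => ?_⟩
  · have := map_zsmul E n ⟨f, hf⟩
    rw [smul_eq_mul] at this
    exact this
  · exact map_sub E ⟨f, hf⟩ ⟨f', hf'⟩

lemma eta_smul {G : Type} [Group G] {M N : Type} [AddCommGroup M] [Module (MonoidAlgebra ℤ G) M]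
    [AddCommGroup N] [Module (MonoidAlgebra ℤ G) N] (d : N →ₗ[MonoidAlgebra ℤ G] M)
    (η : (M →ₗ[MonoidAlgebra ℤ G] MonoidAlgebra ℤ G) → ℤ)
    (η1 : ∀ f f', f ∘ₗ d = 0 → f' ∘ₗ d = 0 → η (f + f') = η f + η f')
    (η3 : ∀ (g : G) (f : M →ₗ[MonoidAlgebra ℤ G] MonoidAlgebra ℤ G), f ∘ₗ d = 0 →
      η (LinearMap.toSpanSingleton (MonoidAlgebra ℤ G) (MonoidAlgebra ℤ G) (of ℤ G g) ∘ₗ f) = η f)
    (f : M →ₗ[MonoidAlgebra ℤ G] MonoidAlgebra ℤ G) (hf : f ∘ₗ d = 0) (a : MonoidAlgebra ℤ G) :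
    η (LinearMap.toSpanSingleton (MonoidAlgebra ℤ G) (MonoidAlgebra ℤ G) a ∘ₗ f) =
      aug G a * η f := by
  obtain ⟨hz, hs⟩ := eta_lin d η η1
  have h0 : ∀ a, (LinearMap.toSpanSingleton (MonoidAlgebra ℤ G) (MonoidAlgebra ℤ G) a ∘ₗ f) ∘ₗ d
      = 0 := fun a => by rw [LinearMap.comp_assoc, hf, LinearMap.comp_zero]
  induction a using MonoidAlgebra.induction_linear with
  | zero =>
    have : LinearMap.toSpanSingleton (MonoidAlgebra ℤ G) (MonoidAlgebra ℤ G) 0 ∘ₗ f =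
        (0 : ℤ) • f := by
      refine LinearMap.ext fun y => ?_
      change f y * 0 = (0 : ℤ) • f y
      simp
    rw [this, hz _ _ hf, map_zero]
  | add a b ha hb =>
    have : LinearMap.toSpanSingleton (MonoidAlgebra ℤ G) (MonoidAlgebra ℤ G) (a + b) ∘ₗ f =
        LinearMap.toSpanSingleton (MonoidAlgebra ℤ G) (MonoidAlgebra ℤ G) a ∘ₗ f +
        LinearMap.toSpanSingleton (MonoidAlgebra ℤ G) (MonoidAlgebra ℤ G) b ∘ₗ f := by
      refine LinearMap.ext fun y => ?_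
      change f y * (a + b) = f y * a + f y * b
      rw [mul_add]
    rw [this, η1 _ _ (h0 a) (h0 b), ha, hb, map_add, add_mul]
  | single g n =>
    have : LinearMap.toSpanSingleton (MonoidAlgebra ℤ G) (MonoidAlgebra ℤ G) (single g n) ∘ₗ f =
        n • (LinearMap.toSpanSingleton (MonoidAlgebra ℤ G) (MonoidAlgebra ℤ G) (of ℤ G g) ∘ₗ f) := by
      refine LinearMap.ext fun y => ?_
      change f y * single g n = n • (f y * of ℤ G g)
      have h1 : (single g n : MonoidAlgebra ℤ G) = n • of ℤ G g := by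
        rw [of_apply, smul_single]; simp
      rw [h1, mul_smul_comm]
    rw [this, hz _ _ (h0 _), η3 _ _ hf, aug_single]

theorem exists_mod {G : Type} [Group G] (hG : IsOrientablePD3 G) {g : ℕ} (x : Fin g → G)
    (hx : Subgroup.closure (Set.range x) = ⊤) :
    ∃ (Q : Type) (_ : AddCommGroup Q) (_ : Module (MonoidAlgebra ℤ G) Q)
      (d₂ : Q →ₗ[MonoidAlgebra ℤ G] (Fin g → MonoidAlgebra ℤ G)) (q : Q),
      Module.Finite (MonoidAlgebra ℤ G) Q ∧ Module.Projective (MonoidAlgebra ℤ G) Q ∧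
      (∀ a : MonoidAlgebra ℤ G, a • q = 0 → a = 0) ∧
      (∀ y : Q, d₂ y = 0 ↔ ∃ a : MonoidAlgebra ℤ G, y = a • q) ∧
      (∀ v : Fin g → MonoidAlgebra ℤ G, D1 x v = 0 ↔ ∃ y, d₂ y = v) ∧
      (∀ f : (Fin g → MonoidAlgebra ℤ G) →ₗ[MonoidAlgebra ℤ G] MonoidAlgebra ℤ G,
        (∀ y, f (d₂ y) = 0) → ∃ b : MonoidAlgebra ℤ G, ∀ v, f v = D1 x v * b) ∧
      (∀ f : Q →ₗ[MonoidAlgebra ℤ G] MonoidAlgebra ℤ G, f q = 0 →
        ∃ h : (Fin g → MonoidAlgebra ℤ G) →ₗ[MonoidAlgebra ℤ G] MonoidAlgebra ℤ G,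
          ∀ y, f y = h (d₂ y)) ∧
      (∀ a : MonoidAlgebra ℤ G, aug G a = 0 ↔
        ∃ f : Q →ₗ[MonoidAlgebra ℤ G] MonoidAlgebra ℤ G, f q = a) := by
  obtain ⟨P, i1, i2, d, ε, m, hfin, hproj, hm, hε, hεG, h0, hex, c0, cn, η, η1, ⟨b', hb'0, hb'1⟩,
    η2, η3⟩ := unpack hG
  have hεs := eps_smul ε hεG
  -- `ℤ` as a module
  let iZ : Module (MonoidAlgebra ℤ G) ℤ := Module.compHom ℤ (aug G)
  have smulZ : ∀ (a : MonoidAlgebra ℤ G) (n : ℤ), a • n = aug G a * n := fun a n => rfl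
  let εl : P 0 →ₗ[MonoidAlgebra ℤ G] ℤ :=
    { toFun := ε, map_add' := map_add ε, map_smul' := fun a y => hεs a y }
  let al : MonoidAlgebra ℤ G →ₗ[MonoidAlgebra ℤ G] ℤ :=
    { toFun := aug G, map_add' := map_add (aug G), map_smul' := fun a y => map_mul (aug G) a y }
  have hD1 : ∀ a, aug G a = 0 → ∃ v, D1 x v = a := fun a ha => by
    obtain ⟨v, hv⟩ := aug_ideal x hx a ha
    exact ⟨v, by rw [D1_apply, hv]⟩
  -- `β`
  obtain ⟨p₀, hp₀⟩ := hε 1
  let β₀ : MonoidAlgebra ℤ G →ₗ[MonoidAlgebra ℤ G] P 0 :=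
    LinearMap.toSpanSingleton (MonoidAlgebra ℤ G) (P 0) p₀
  have hβ₀ : ∀ a, ε (β₀ a) = aug G a := fun a => by
    change ε (a • p₀) = _
    rw [hεs, hp₀, mul_one]
  obtain ⟨β₁, hβ₁⟩ := lift_range (β₀ ∘ₗ D1 x) (d 0) (fun v => by
    rw [← h0, LinearMap.comp_apply, hβ₀, aug_D1])
  have hβ₁' : ∀ v, d 0 (β₁ v) = β₀ (D1 x v) := fun v => LinearMap.congr_fun hβ₁ v
  -- `α`
  have := hproj 0
  have := hproj 1
  have := hfin 0
  have := hfin 1
  have := hproj 2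
  have := hfin 2
  obtain ⟨α₀, hα₀⟩ := Module.projective_lifting_property al εl (fun n => ⟨n • 1, by
    change aug G (n • 1) = n
    simp⟩)
  have hα₀' : ∀ y, aug G (α₀ y) = ε y := fun y => LinearMap.congr_fun hα₀ y
  obtain ⟨α₁, hα₁⟩ := lift_range (α₀ ∘ₗ d 0) (D1 x) (fun y => by
    obtain ⟨v, hv⟩ := hD1 (α₀ (d 0 y)) (by
      rw [hα₀', h0]; exact ⟨y, rfl⟩)
    exact ⟨v, hv⟩)
  have hα₁' : ∀ y, D1 x (α₁ y) = α₀ (d 0 y) := fun y => LinearMap.congr_fun hα₁ y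
  obtain ⟨s₀, hs₀⟩ := lift_range (α₀ ∘ₗ β₀ - LinearMap.id) (D1 x) (fun a => by
    obtain ⟨v, hv⟩ := hD1 (α₀ (β₀ a) - a) (by
      rw [map_sub, hα₀', hβ₀, sub_self])
    exact ⟨v, hv⟩)
  have hs₀' : ∀ a, D1 x (s₀ a) = α₀ (β₀ a) - a := fun a => LinearMap.congr_fun hs₀ a
  let t : (Fin g → MonoidAlgebra ℤ G) →ₗ[MonoidAlgebra ℤ G] (Fin g → MonoidAlgebra ℤ G) :=
    α₁ ∘ₗ β₁ - LinearMap.id - s₀ ∘ₗ D1 x
  have ht : ∀ v, α₁ (β₁ v) = v + s₀ (D1 x v) + t v := fun v => by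
    simp only [t, LinearMap.sub_apply, LinearMap.comp_apply, LinearMap.id_apply]
    abel
  have htK : ∀ v, D1 x (t v) = 0 := fun v => by
    simp only [t, LinearMap.sub_apply, LinearMap.comp_apply, LinearMap.id_apply, map_sub, hα₁',
      hβ₁', hs₀']
    abel
  -- the functionals vanishing on `K`
  have hH1 : ∀ f : (Fin g → MonoidAlgebra ℤ G) →ₗ[MonoidAlgebra ℤ G] MonoidAlgebra ℤ G,
      (∀ v, D1 x v = 0 → f v = 0) → ∃ b : MonoidAlgebra ℤ G, ∀ v, f v = D1 x v * b := by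
    intro f hf
    obtain ⟨h, hh⟩ := cn 0 (by omega) (f ∘ₗ α₁) (by
      refine LinearMap.ext fun y => ?_
      simp only [LinearMap.comp_apply, LinearMap.zero_apply]
      apply hf
      rw [hα₁', (hex 0 _).2 ⟨y, rfl⟩, map_zero])
    refine ⟨h (β₀ 1) - f (s₀ 1), fun v => ?_⟩
    have e1 := LinearMap.congr_fun hh (β₁ v)
    simp only [LinearMap.comp_apply] at e1
    rw [hβ₁', ht, map_add, map_add, hf _ (htK v), add_zero] at e1
    have e2 : ∀ c : MonoidAlgebra ℤ G, h (β₀ c) = c * h (β₀ 1) := fun c => by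
      conv_lhs => rw [← mul_one c, ← smul_eq_mul, map_smul, map_smul, smul_eq_mul]
    have e3 : ∀ c : MonoidAlgebra ℤ G, f (s₀ c) = c * f (s₀ 1) := fun c => by
      conv_lhs => rw [← mul_one c, ← smul_eq_mul, map_smul, map_smul, smul_eq_mul]
    rw [e2, e3] at e1
    rw [mul_sub, ← e1]
    abel
  -- functionals on `K` extend
  have hH2 : ∀ f : LinearMap.ker (D1 x) →ₗ[MonoidAlgebra ℤ G] MonoidAlgebra ℤ G,
      ∃ h : (Fin g → MonoidAlgebra ℤ G) →ₗ[MonoidAlgebra ℤ G] MonoidAlgebra ℤ G,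
        ∀ v : LinearMap.ker (D1 x), h v = f v := by
    intro f
    let A : P 2 →ₗ[MonoidAlgebra ℤ G] LinearMap.ker (D1 x) :=
      (α₁ ∘ₗ d 1).codRestrict (LinearMap.ker (D1 x)) (fun y => by
        rw [LinearMap.mem_ker, LinearMap.comp_apply, hα₁', (hex 0 _).2 ⟨y, rfl⟩, map_zero])
    obtain ⟨h, hh⟩ := cn 1 (by omega) (f ∘ₗ A) (by
      refine LinearMap.ext fun y => ?_
      have : A (d 2 y) = 0 := by
        apply Subtype.ext
        change α₁ (d 1 (d 2 y)) = 0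
        rw [(hex 1 _).2 ⟨y, rfl⟩, map_zero]
      simp only [LinearMap.comp_apply, LinearMap.zero_apply, this, map_zero])
    let t' : (Fin g → MonoidAlgebra ℤ G) →ₗ[MonoidAlgebra ℤ G] LinearMap.ker (D1 x) :=
      t.codRestrict (LinearMap.ker (D1 x)) htK
    refine ⟨h ∘ₗ β₁ - f ∘ₗ t', fun v => ?_⟩
    have hv : D1 x (v : Fin g → MonoidAlgebra ℤ G) = 0 := v.2
    obtain ⟨y, hy⟩ := (hex 0 (β₁ v)).1 (by rw [hβ₁', hv, map_zero])
    have e1 := LinearMap.congr_fun hh y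
    simp only [LinearMap.comp_apply] at e1
    rw [hy] at e1
    have e2 : A y = v + t' v := by
      apply Subtype.ext
      change α₁ (d 1 y) = v + t v
      rw [hy, ht, hv, map_zero, add_zero]
    rw [e2, map_add] at e1
    simp only [LinearMap.sub_apply, LinearMap.comp_apply]
    rw [← e1]
    abel
  obtain ⟨hN, hN'⟩ := trunc P d m hfin hproj hm hex cn 1 le_rfl
  obtain ⟨Q, j1, j2, d₂, q, g1, g2, g3, g4, g5, g6⟩ := glue (d 0) (d 1) (d 2) (D1 x) β₀ β₁ hβ₁'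
    (fun p => by
      obtain ⟨y, hy⟩ := (h0 (p - β₀ ((ε p) • 1))).1 (by
        rw [map_sub, hβ₀, map_zsmul, map_one, smul_eq_mul, mul_one, sub_self])
      exact ⟨y, (ε p) • 1, by rw [hy]; abel⟩)
    (fun y a h => hD1 a (by
      have h1 : ε (d 0 y + β₀ a) = 0 := by rw [h, map_zero]
      rwa [map_add, (h0 _).2 ⟨y, rfl⟩, zero_add, hβ₀] at h1))
    (hex 0) (hex 1) hN hN' b' (fun y hy => by
      obtain ⟨z, rfl⟩ := (hex 2 y).1 hy
      exact LinearMap.congr_fun hb'0 z)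
    (fun f hf => by
      have hf3 : f ∘ₗ d 3 = 0 := by
        refine LinearMap.ext fun y => ?_
        rw [LinearMap.comp_apply, LinearMap.zero_apply]
        exact hf _ ((hex 2 _).2 ⟨y, rfl⟩)
      have hn3 : (f - η f • b') ∘ₗ d 3 = 0 := by
        rw [LinearMap.sub_comp, LinearMap.smul_comp, hf3, hb'0, smul_zero, sub_zero]
      obtain ⟨h, hh⟩ := (η2 _ hn3).1 (by
        rw [(eta_lin (d 3) η η1).2 _ _ hf3 (by rw [LinearMap.smul_comp, hb'0, smul_zero]),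
          (eta_lin (d 3) η η1).1 _ _ hb'0, hb'1, mul_one, sub_self])
      refine ⟨h, η f, fun y => ?_⟩
      have := LinearMap.congr_fun hh y
      rw [LinearMap.sub_apply, LinearMap.smul_apply, LinearMap.comp_apply, sub_eq_iff_eq_add] at this
      exact this)
  refine ⟨Q, j1, j2, d₂, q, g1, g2, g3, g4, g5, ?_, ?_, ?_⟩
  · intro f hf
    exact hH1 f (fun v hv => by
      obtain ⟨y, rfl⟩ := (g5 v).1 hv
      exact hf y)
  · intro f hf
    obtain ⟨k, hk⟩ := factor_range d₂ f (fun y hy => by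
      obtain ⟨a, rfl⟩ := (g4 y).1 hy
      rw [map_smul, hf, smul_eq_mul, mul_zero])
    obtain ⟨h, hh⟩ := hH2 (k ∘ₗ (Submodule.subtype _).codRestrict (LinearMap.range d₂)
      (fun v => (g5 _).1 v.2))
    refine ⟨h, fun y => ?_⟩
    rw [← hk]
    exact (hh ⟨d₂ y, (g5 _).2 ⟨y, rfl⟩⟩).symm
  · intro a
    rw [← g6]
    have h1 := eta_smul (d 3) η η1 η3 b' hb'0 a
    rw [hb'1, mul_one] at h1
    rw [← h1, η2 _ (by rw [LinearMap.comp_assoc, hb'0, LinearMap.comp_zero])]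
    refine exists_congr fun h => ⟨fun h2 y => LinearMap.congr_fun h2 y,
      fun h2 => LinearMap.ext h2⟩

end Run7.h312
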