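import Pool.Agent.Run7.h312.Res2
import Pool.Agent.Run7.h312.Exi

/-! The special resolution in matrix form. -/

set_option autoImplicit false

namespace Run7.h312

open MonoidAlgebra Matrix

section
variable {R : Type*} [Ring R] {n m : ℕ}

lemma lin_sum {M : Type*} [AddCommGroup M] [Module R M] (f : (Fin n → R) →ₗ[R] M)
    (v : Fin n → R) : f v = ∑ i, v i • f (Pi.single i 1) := by
  rw [LinearMap.pi_apply_eq_sum_univ f v]
  refine Finset.sum_congr rfl fun i _ => ?_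
  congr 2
  ext j
  rw [Pi.single_apply]
  simp only [eq_comm]

lemma lin_vecMul (f : (Fin n → R) →ₗ[R] (Fin m → R)) (v : Fin n → R) :
    v ᵥ* (Matrix.of fun i => f (Pi.single i 1)) = f v := by
  rw [lin_sum f v]
  ext j
  rw [Finset.sum_apply]
  rfl

lemma lin_dot (f : (Fin n → R) →ₗ[R] R) (v : Fin n → R) :
    v ⬝ᵥ (fun i => f (Pi.single i 1)) = f v := by
  rw [lin_sum f v]
  rfl

end

/-- the first differential: the column of the `x i - 1` -/
noncomputable def col {G : Type} [Group G] {g : ℕ} (x : Fin g → G) :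
    Matrix (Fin g) Unit (MonoidAlgebra ℤ G) :=
  Matrix.of fun i _ => of ℤ G (x i) - 1

lemma vecMul_col {G : Type} [Group G] {g : ℕ} (x : Fin g → G) (v : Fin g → MonoidAlgebra ℤ G) :
    v ᵥ* col x = fun _ => D1 x v := by
  ext1 j
  rw [D1_apply]
  rfl

theorem exists_Ex {G : Type} [Group G] (hG : IsOrientablePD3 G) {g : ℕ} (x : Fin g → G)
    (hx : Subgroup.closure (Set.range x) = ⊤) :
    letI := starRing G
    ∃ (n : ℕ) (D₂ : Matrix (Fin n) (Fin g) (MonoidAlgebra ℤ G))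
      (D₃ : Matrix Unit (Fin n) (MonoidAlgebra ℤ G))
      (e : Matrix (Fin n) (Fin n) (MonoidAlgebra ℤ G)), Ex (aug G) (col x) D₂ D₃ e := by
  obtain ⟨Q, i1, i2, d₂, q, hf, hp, g3, g4, g5, g6, g7, g8⟩ := exists_mod hG x hx
  obtain ⟨n, π, hπ⟩ := Module.Finite.exists_fin' (MonoidAlgebra ℤ G) Q
  obtain ⟨σ, hσ⟩ := Module.projective_lifting_property π LinearMap.id hπ
  have hσ' : ∀ y, π (σ y) = y := fun y => LinearMap.congr_fun hσ y
  obtain ⟨e, he⟩ : ∃ e : Matrix (Fin n) (Fin n) (MonoidAlgebra ℤ G),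
    e = Matrix.of fun i => (σ ∘ₗ π) (Pi.single i 1) := ⟨_, rfl⟩
  obtain ⟨D₂, hD₂⟩ : ∃ D₂ : Matrix (Fin n) (Fin g) (MonoidAlgebra ℤ G),
    D₂ = Matrix.of fun i => (d₂ ∘ₗ π) (Pi.single i 1) := ⟨_, rfl⟩
  obtain ⟨D₃, hD₃⟩ : ∃ D₃ : Matrix Unit (Fin n) (MonoidAlgebra ℤ G),
    D₃ = Matrix.of fun _ => σ q := ⟨_, rfl⟩
  have ve : ∀ v, v ᵥ* e = σ (π v) := fun v => by rw [he, lin_vecMul]; rfl
  have vD₂ : ∀ v, v ᵥ* D₂ = d₂ (π v) := fun v => by rw [hD₂, lin_vecMul]; rfl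
  have vD₃ : ∀ a, a ᵥ* D₃ = σ (a () • q) := fun a => by
    rw [hD₃, map_smul]
    ext1 j
    rw [Matrix.vecMul, dotProduct, Fintype.sum_unique]
    rfl
  have ei : ∀ i, e i = σ (π (Pi.single i 1)) := fun i => by rw [he]; rfl
  have D₂i : ∀ i, D₂ i = d₂ (π (Pi.single i 1)) := fun i => by rw [hD₂]; rfl
  have D₃i : ∀ i, D₃ i = σ q := fun i => by rw [hD₃]; rfl
  have cl : ∀ i, col x i () = of ℤ G (x i) - 1 := fun i => rfl
  refine ⟨n, D₂, D₃, e, ?_⟩
  let _ := starRing G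
  refine
    { aug_star := aug_conj
      ee := ?_
      eD₂ := ?_
      D₃e := ?_
      D₂D₁ := ?_
      D₃D₂ := ?_
      aD₁ := fun i => by rw [cl, map_sub, aug_of, map_one, sub_self]
      aD₃ := ?_
      r0 := fun a ha => ?_
      r1 := fun v hv => ?_
      r2 := fun w hw hw2 => ?_
      r3 := fun a ha => ?_
      c1 := fun c hc => ?_
      c2 := fun c hc hc2 => ?_
      c3 := fun a ha => ?_ }
  · refine funext fun i => ?_
    rw [Matrix.mul_apply_eq_vecMul, ve, ei, hσ']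
  · refine funext fun i => ?_
    rw [Matrix.mul_apply_eq_vecMul, vD₂, ei, hσ', D₂i]
  · refine funext fun i => ?_
    rw [Matrix.mul_apply_eq_vecMul, ve, D₃i, hσ']
  · refine funext fun i => ?_
    rw [Matrix.mul_apply_eq_vecMul, vecMul_col, D₂i, (g5 _).2 ⟨_, rfl⟩]
    rfl
  · refine funext fun i => ?_
    rw [Matrix.mul_apply_eq_vecMul, vD₂, D₃i, hσ', (g4 q).2 ⟨1, (one_smul _ q).symm⟩]
    rfl
  · intro j
    rw [D₃i]
    exact (g8 _).2 ⟨(LinearMap.proj j) ∘ₗ σ, rfl⟩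
  · obtain ⟨v, hv⟩ := aug_ideal x hx a ha
    exact ⟨v, by rw [vecMul_col, D1_apply, hv]⟩
  · obtain ⟨y, rfl⟩ := (g5 v).1 (by
      rw [vecMul_col] at hv
      exact congrFun hv ())
    exact ⟨σ y, by rw [vD₂, hσ']⟩
  · rw [vD₂] at hw2
    obtain ⟨a, ha⟩ := (g4 _).1 hw2
    refine ⟨fun _ => a, ?_⟩
    rw [vD₃, ← ha, ← ve, hw]
  · rw [vD₃] at ha
    have h1 : a () • q = 0 := by rw [← hσ' (a () • q), ha, map_zero]
    ext1 i
    exact g3 _ h1
  · obtain ⟨b, hb⟩ := g6 (Fintype.linearCombination (MonoidAlgebra ℤ G) c) (fun y => by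
      have h1 : d₂ y = σ y ᵥ* D₂ := by rw [vD₂, hσ']
      have h2 : (σ y ᵥ* D₂) ⬝ᵥ c = 0 := by
        rw [← Matrix.dotProduct_mulVec, hc, dotProduct_zero]
      rw [← h1] at h2
      rw [Fintype.linearCombination_apply]
      exact h2)
    refine ⟨fun _ => b, ?_⟩
    ext1 i
    have h3 := hb (Pi.single i 1)
    rw [Fintype.linearCombination_apply_single, one_smul, D1,
      Fintype.linearCombination_apply_single, one_smul] at h3
    rw [h3, Matrix.mulVec, dotProduct, Fintype.sum_unique]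
    rfl
  · obtain ⟨h, hh⟩ := g7 ((Fintype.linearCombination (MonoidAlgebra ℤ G) c) ∘ₗ σ) (by
      rw [LinearMap.comp_apply, Fintype.linearCombination_apply, ← D₃i ()]
      exact congrFun hc2 ())
    refine ⟨fun j => h (Pi.single j 1), ?_⟩
    ext1 i
    have h1 := hh (π (Pi.single i 1))
    rw [← D₂i, ← lin_dot h, LinearMap.comp_apply, ← ei, Fintype.linearCombination_apply] at h1
    have h2 := congrFun hc i
    rw [← h2]
    exact h1.symm
  · obtain ⟨f, hf⟩ := (g8 a).1 ha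
    refine ⟨fun j => (f ∘ₗ π) (Pi.single j 1), ?_⟩
    change D₃ () ⬝ᵥ _ = a
    rw [lin_dot, D₃i, LinearMap.comp_apply, hσ', hf]

end Run7.h312
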